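import Mathlib.GroupTheory.ResiduallyFinite
import Mathlib.GroupTheory.Index

/-! Residual finiteness passes up from subgroups of finite index. -/

namespace Run7.h817

theorem residuallyFinite_of_finiteIndex {G : Type*} [Group G] (K : Subgroup G) (hK : K.FiniteIndex)
    (h : Group.ResiduallyFinite K) : Group.ResiduallyFinite G := by
  rw [Group.residuallyFinite_iff_exists_finiteIndex] at h ⊢
  intro g hg
  by_cases hgK : g ∈ K
  · obtain ⟨L, hL, hgL⟩ := h ⟨g, hgK⟩ (fun h => hg (congrArg Subtype.val h))
    refine ⟨L.map K.subtype, ?_, ?_⟩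
    · refine ⟨?_⟩
      rw [Subgroup.index_map_subtype]
      exact mul_ne_zero hL.index_ne_zero hK.index_ne_zero
    · rintro ⟨x, hx, hx'⟩
      apply hgL
      have : x = ⟨g, hgK⟩ := Subtype.ext hx'
      rwa [← this]
  · exact ⟨K, hK, hgK⟩

end Run7.h817
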