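import Mathlib.Analysis.Complex.Cardinality
import Mathlib.LinearAlgebra.Dimension.Constructions
import Mathlib.LinearAlgebra.Dimension.StrongRankCondition
import Mathlib.Algebra.Polynomial.Roots
import Mathlib.Algebra.MonoidAlgebra.Basic
import Mathlib.Algebra.MonoidAlgebra.Module

/-! Two elementary facts around the uncountability of `ℂ`. -/

namespace Run7.h817

open Polynomial Cardinal

theorem exists_relation {V : Type*} [AddCommGroup V] [Module ℂ V]
    (hV : Module.rank ℂ V ≤ ℵ₀) (v : ℂ → V) (S : Set ℂ) (hS : S.Countable) :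
    ∃ s : Finset ℂ, ∃ g : ℂ → ℂ, (∀ i ∈ s, i ∉ S) ∧ ∑ i ∈ s, g i • v i = 0 ∧
      ∃ i ∈ s, g i ≠ 0 := by
  classical
  have hnot : ¬ LinearIndependent ℂ (fun i : (Sᶜ : Set ℂ) => v i) := by
    intro hli
    have h1 := hli.cardinal_lift_le_rank
    have h2 : Cardinal.lift.{_} (Module.rank ℂ V) ≤ ℵ₀ := Cardinal.lift_le_aleph0.2 hV
    have h3 := h1.trans h2
    rw [Cardinal.lift_le_aleph0] at h3
    have h4 : (Sᶜ : Set ℂ).Countable := Cardinal.le_aleph0_iff_set_countable.1 h3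
    apply not_countable_complex
    rw [← Set.union_compl_self S]
    exact hS.union h4
  obtain ⟨s, g, hs, i, hi, hgi⟩ := not_linearIndependent_iff.1 hnot
  refine ⟨s.map ⟨Subtype.val, Subtype.val_injective⟩,
    fun z => if h : z ∈ Sᶜ then g ⟨z, h⟩ else 0, ?_, ?_, i, ?_, ?_⟩
  · intro z hz
    rw [Finset.mem_map] at hz
    obtain ⟨y, _, rfl⟩ := hz
    exact y.2
  · rw [Finset.sum_map]
    simp only [Function.Embedding.coeFn_mk, Subtype.coe_prop, dite_true]
    rw [← hs]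
  · rw [Finset.mem_map]
    exact ⟨i, hi, rfl⟩
  · simp only []
    rw [dif_pos i.2]
    exact hgi

theorem finite_zeros {G : Type*} (nu : G → ℕ) (hnu : Function.Injective nu) (s : Finset ℂ)
    (g : ℂ → ℂ) (hs : ∀ i ∈ s, i ∉ Set.range (fun z : G => (nu z : ℂ)))
    (hg : ∃ i ∈ s, g i ≠ 0) :
    {z : G | ∑ i ∈ s, g i * ((nu z : ℂ) - i)⁻¹ = 0}.Finite := by
  classical
  let P : ℂ[X] := ∑ i ∈ s, C (g i) * ∏ j ∈ s.erase i, (X - C j)
  have hP : P ≠ 0 := by
    obtain ⟨i, hi, hgi⟩ := hg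
    intro h0
    have h1 : P.eval i = 0 := by rw [h0, eval_zero]
    rw [eval_finsetSum, Finset.sum_eq_single i] at h1
    · rw [eval_mul, eval_C, eval_prod, mul_eq_zero] at h1
      rcases h1 with h1 | h1
      · exact hgi h1
      · rw [Finset.prod_eq_zero_iff] at h1
        obtain ⟨j, hj, hj'⟩ := h1
        rw [eval_sub, eval_X, eval_C, sub_eq_zero] at hj'
        exact (Finset.ne_of_mem_erase hj) hj'.symm
    · intro j _ hji
      rw [eval_mul, eval_prod]
      rw [Finset.prod_eq_zero (i := i) (Finset.mem_erase.2 ⟨hji.symm, hi⟩)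
        (by rw [eval_sub, eval_X, eval_C, sub_self]), mul_zero]
    · intro h
      exact absurd hi h
  have hfin : {w : ℂ | P.eval w = 0}.Finite := by
    refine (P.roots.toFinset.finite_toSet).subset (fun w hw => ?_)
    rw [Finset.mem_coe, Multiset.mem_toFinset, mem_roots hP]
    exact hw
  have hinj : Function.Injective (fun z : G => (nu z : ℂ)) :=
    fun a b h => hnu (Nat.cast_injective h)
  refine (hfin.preimage (hinj.injOn (s := (fun z : G => (nu z : ℂ)) ⁻¹' _))).subset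
    (fun z hz => ?_)
  have hz' : ∑ i ∈ s, g i * ((nu z : ℂ) - i)⁻¹ = 0 := hz
  change P.eval (nu z : ℂ) = 0
  have hne : ∀ i ∈ s, (nu z : ℂ) - i ≠ 0 := by
    intro i hi h
    exact hs i hi ⟨z, sub_eq_zero.1 h⟩
  have h1 : P.eval (nu z : ℂ) = (∑ i ∈ s, g i * ((nu z : ℂ) - i)⁻¹) *
      ∏ j ∈ s, ((nu z : ℂ) - j) := by
    rw [eval_finsetSum, Finset.sum_mul]
    refine Finset.sum_congr rfl (fun i hi => ?_)
    rw [← Finset.mul_prod_erase s _ hi, eval_mul, eval_C, eval_prod]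
    have h2 : ∀ p : ℂ, g i * p = g i * ((nu z : ℂ) - i)⁻¹ * (((nu z : ℂ) - i) * p) := by
      intro p
      rw [mul_assoc, ← mul_assoc _ _ p, inv_mul_cancel₀ (hne i hi), one_mul]
    rw [h2]
    congr 2
    refine Finset.prod_congr rfl (fun j _ => ?_)
    rw [eval_sub, eval_X, eval_C]
  rw [h1, hz', zero_mul]

theorem rank_monoidAlgebra_le (G : Type*) [Countable G] :
    Module.rank ℂ (MonoidAlgebra ℂ G) ≤ ℵ₀ := by
  have h1 := (MonoidAlgebra.coeffLinearEquiv (M := G) ℂ : MonoidAlgebra ℂ G ≃ₗ[ℂ] _).lift_rank_eq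
  rw [rank_finsupp_self] at h1
  have h2 : Cardinal.lift.{0} #G ≤ ℵ₀ := by
    rw [Cardinal.lift_le_aleph0]
    exact Cardinal.mk_le_aleph0
  have h3 : Cardinal.lift.{_} (Module.rank ℂ (MonoidAlgebra ℂ G)) ≤ ℵ₀ := by
    rw [h1]
    exact Cardinal.lift_le_aleph0.2 h2
  exact Cardinal.lift_le_aleph0.1 h3

end Run7.h817
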