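import Pool.Agent.Run7.h817.FinCd

/-! The coinvariants of the induced bar resolution: inhomogeneous chains. -/

namespace Run7.h817

open CategoryTheory Limits TensorProduct

variable {G : Type} [Group G] (K : Subgroup G) {N : Type} [AddCommGroup N] [Module ℂ N]
  (ρ : Representation ℂ K N)

/-- augmentation of the coefficient module -/
noncomputable def augY (G N : Type) [Group G] [AddCommGroup N] [Module ℂ N] : YY G N →ₗ[ℂ] N :=
  TensorProduct.lift ((LinearMap.lsmul ℂ N).comp (augm ℂ G).toLinearMap)

theorem augY_tmul (a : CG G) (n : N) : augY G N (a ⊗ₜ n) = augm ℂ G a • n := rfl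

theorem augY_yact (k : K) (y : YY G N) : augY G N (yact K ρ k y) = ρ k⁻¹ (augY G N y) := by
  induction y using yy_induction with
  | h0 => simp
  | ha a b ha hb => rw [map_add, map_add, map_add, map_add, ha, hb]
  | hs x n => rw [yact_tmul, augY_tmul, augY_tmul, map_mul, augm_single, augm_single, one_mul,
      one_smul, one_smul]

theorem augY_smul (g : G) (y : YY G N) :
    augY G N ((MonoidAlgebra.single g (1 : ℂ) : CG G) • y) = augY G N y := by
  induction y using yy_induction with
  | h0 => simp
  | ha a b ha hb => rw [smul_add, map_add, map_add, ha, hb]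
  | hs x n => rw [TensorProduct.smul_tmul', augY_tmul, augY_tmul, smul_eq_mul, map_mul,
      augm_single, one_mul]

/-- augmentation of the bar resolution -/
noncomputable def augX (N : Type) [AddCommGroup N] [Module ℂ N] (n : ℕ) :
    XX K N n →+ ((Fin n → K) →₀ N) :=
  Finsupp.mapRange.addMonoidHom (augY G N).toAddMonoidHom

theorem augX_single (n : ℕ) (g : Fin n → K) (y : YY G N) :
    augX K N n (Finsupp.single g y) = Finsupp.single g (augY G N y) := by
  simp [augX]

theorem augX_gSub (n : ℕ) {z : XX K N n} (hz : z ∈ gSub G (XX K N n)) : augX K N n z = 0 := by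
  have h1 : gSub G (XX K N n) ≤ (augX K N n).ker := by
    rw [gSub, AddSubgroup.closure_le]
    rintro _ ⟨g, m, rfl⟩
    change augX K N n (_ - _) = 0
    rw [map_sub, sub_eq_zero]
    induction m using Finsupp.induction_linear with
    | zero => simp
    | add a b ha hb => rw [smul_add, map_add, map_add, ha, hb]
    | single i y => rw [Finsupp.smul_single, augX_single, augX_single, augY_smul]
  exact h1 hz

/-- the section of the augmentation -/
noncomputable def secX (N : Type) [AddCommGroup N] [Module ℂ N] (n : ℕ) :
    ((Fin n → K) →₀ N) →+ XX K N n :=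
  Finsupp.mapRange.addMonoidHom
    (TensorProduct.mk ℂ (CG G) N (MonoidAlgebra.single 1 1)).toAddMonoidHom

theorem secX_single (n : ℕ) (g : Fin n → K) (m : N) :
    secX K N n (Finsupp.single g m) =
      Finsupp.single g ((MonoidAlgebra.single (1 : G) (1 : ℂ) : CG G) ⊗ₜ m) := by
  simp [secX]

theorem augX_secX (n : ℕ) (z : (Fin n → K) →₀ N) : augX K N n (secX K N n z) = z := by
  induction z using Finsupp.induction_linear with
  | zero => simp
  | add a b ha hb => rw [map_add, map_add, ha, hb]
  | single g m => rw [secX_single, augX_single, augY_tmul, augm_single, one_smul]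

theorem sub_secX_mem (n : ℕ) (z : XX K N n) :
    z - secX K N n (augX K N n z) ∈ gSub G (XX K N n) := by
  induction z using Finsupp.induction_linear with
  | zero => simp
  | add a b ha hb =>
    rw [map_add, map_add, add_sub_add_comm]
    exact AddSubgroup.add_mem _ ha hb
  | single g y =>
    rw [augX_single, secX_single]
    induction y using yy_induction with
    | h0 => simp
    | ha a b ha hb =>
      rw [map_add, TensorProduct.tmul_add, Finsupp.single_add, Finsupp.single_add,
        add_sub_add_comm]
      exact AddSubgroup.add_mem _ ha hb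
    | hs x m =>
      rw [augY_tmul, augm_single, one_smul]
      have h := gSub_mem (G := G) x (Finsupp.single g
        ((MonoidAlgebra.single (1 : G) (1 : ℂ) : CG G) ⊗ₜ[ℂ] m) : XX K N n)
      rwa [Finsupp.smul_single, TensorProduct.smul_tmul', smul_eq_mul,
        MonoidAlgebra.single_mul_single, mul_one, one_mul] at h

theorem mem_gSub_of_augX (n : ℕ) (z : XX K N n) (hz : augX K N n z = 0) :
    z ∈ gSub G (XX K N n) := by
  have h := sub_secX_mem K n z
  rwa [hz, map_zero, sub_zero] at h

/-- chain differential, as in Mathlib -/
noncomputable def chd (n : ℕ) : ((Fin (n + 1) → K) →₀ N) →ₗ[ℂ] ((Fin n → K) →₀ N) :=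
  (groupHomology.inhomogeneousChains.d (Rep.of ρ) n).hom

theorem chd_single (n : ℕ) (g : Fin (n + 1) → K) (a : N) :
    chd K ρ n (Finsupp.single g a) = Finsupp.single (Fin.tail g) (ρ (g 0)⁻¹ a) +
      ∑ j : Fin (n + 1), (-1 : ℤ) ^ ((j : ℕ) + 1) •
        Finsupp.single (Fin.contractNth j (· * ·) g) a := by
  rw [chd]
  refine (groupHomology.inhomogeneousChains.d_single (A := Rep.of ρ) n g a).trans ?_
  congr 1
  exact Finset.sum_congr rfl (fun j _ => neg_one_pow_smul_eq _ _)

theorem augX_xd (n : ℕ) (z : XX K N (n + 1)) :
    augX K N n (xd K ρ n z) = chd K ρ n (augX K N (n + 1) z) := by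
  induction z using Finsupp.induction_linear with
  | zero => simp
  | add a b ha hb => rw [map_add, map_add, map_add, map_add, ha, hb]
  | single g y =>
    rw [BarY.bD_single, map_add, map_sum, augX_single, augX_single, augY_yact, chd_single]
    congr 1
    refine Finset.sum_congr rfl (fun j _ => ?_)
    rw [map_zsmul, augX_single]

end Run7.h817
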