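import Mathlib.GroupTheory.ResiduallyFinite
import Mathlib.CategoryTheory.Abelian.Projective.Ext
import Mathlib.Algebra.Category.ModuleCat.Ext.HasExt
import Mathlib.Algebra.Category.ModuleCat.Projective
import Mathlib.Data.Fin.Tuple.Basic
import Mathlib.LinearAlgebra.Finsupp.LinearCombination
import Mathlib.LinearAlgebra.TensorProduct.Basic

/-! Abstract bar resolution. `S` is a ring, `rho : G →* S`, and `S` decomposes additively as
`⨁_{x ∈ G} W * rho x`. -/

namespace Run7.h817

universe u v w

section Contract

variable {α : Type u} {n : ℕ} (op : α → α → α)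

theorem contractNth_zero_cons (x : α) (g : Fin (n + 1) → α) :
    Fin.contractNth (0 : Fin (n + 2)) op (Fin.cons x g : Fin (n + 2) → α)
      = Fin.cons (op x (g 0)) (Fin.tail g) := by
  funext k
  refine Fin.cases ?_ (fun k => ?_) k
  · simp [Fin.contractNth]
  · simp [Fin.contractNth, Fin.tail]

theorem contractNth_succ_cons (x : α) (g : Fin (n + 1) → α) (j : Fin (n + 1)) :
    Fin.contractNth j.succ op (Fin.cons x g : Fin (n + 2) → α)
      = Fin.cons x (Fin.contractNth j op g) := by
  funext k
  refine Fin.cases ?_ (fun k => ?_) k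
  · simp [Fin.contractNth]
  · simp only [Fin.contractNth, Fin.val_succ, Fin.cons_succ, Nat.add_lt_add_iff_right,
      Nat.add_right_cancel_iff]
    split_ifs <;> simp

end Contract


/-- Decomposition data. -/
structure BarData (G : Type u) [Group G] (S : Type v) [Ring S] (W : Type w)
    [AddCommGroup W] where
  rho : G →* S
  iota : W →+ S
  oneW : W
  iota_one : iota oneW = 1
  dec : S →+ (G →₀ W)
  dec_mul : ∀ w x, dec (iota w * rho x) = Finsupp.single x w
  gen : ∀ s : S, s ∈ AddSubgroup.closure {y | ∃ w x, y = iota w * rho x}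

namespace BarData

variable {G : Type u} [Group G] {S : Type v} [Ring S] {W : Type w} [AddCommGroup W]

/-- The bar differential. -/
noncomputable def barD (rho : G →* S) (n : ℕ) :
    ((Fin (n + 1) → G) →₀ S) →ₗ[S] ((Fin n → G) →₀ S) :=
  Finsupp.linearCombination S (fun g : Fin (n + 1) → G =>
    Finsupp.single (Fin.tail g) (rho (g 0)) +
      ∑ j : Fin (n + 1), (-1 : S) ^ ((j : ℕ) + 1) •
        Finsupp.single (Fin.contractNth j (· * ·) g) (1 : S))

variable (B : BarData G S W)

/-- The contracting homotopy. -/
noncomputable def barH (n : ℕ) :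
    ((Fin n → G) →₀ S) →+ ((Fin (n + 1) → G) →₀ S) :=
  Finsupp.liftAddHom (fun g : Fin n → G =>
    (Finsupp.liftAddHom (fun x : G =>
      (Finsupp.singleAddHom (Fin.cons x g : Fin (n + 1) → G)).comp B.iota)).comp B.dec)

theorem barH_single (n : ℕ) (g : Fin n → G) (w : W) (x : G) :
    B.barH n (Finsupp.single g (B.iota w * B.rho x)) =
      Finsupp.single (Fin.cons x g : Fin (n + 1) → G) (B.iota w) := by
  simp [barH, B.dec_mul]

theorem hom_ext {n : ℕ} {M : Type*} [AddCommGroup M]
    {f g : ((Fin n → G) →₀ S) →+ M}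
    (h : ∀ (a : Fin n → G) (w : W) (x : G), f (Finsupp.single a (B.iota w * B.rho x)) =
      g (Finsupp.single a (B.iota w * B.rho x))) : f = g := by
  refine Finsupp.addHom_ext (fun a s => ?_)
  have hs := B.gen s
  induction hs using AddSubgroup.closure_induction with
  | mem y hy =>
    obtain ⟨w, x, rfl⟩ := hy
    exact h a w x
  | zero => simp
  | add y z _ _ hy hz => simp [Finsupp.single_add, hy, hz]
  | neg y _ hy => simp [Finsupp.single_neg, hy]

theorem barD_single (rho : G →* S) (n : ℕ) (g : Fin (n + 1) → G) (s : S) :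
    barD rho n (Finsupp.single g s) =
      Finsupp.single (Fin.tail g) (s * rho (g 0)) +
      ∑ j : Fin (n + 1), (-1 : S) ^ ((j : ℕ) + 1) •
        Finsupp.single (Fin.contractNth j (· * ·) g) s := by
  rw [barD, Finsupp.linearCombination_single, smul_add, Finsupp.smul_single, smul_eq_mul,
    Finset.smul_sum]
  congr 1
  refine Finset.sum_congr rfl (fun j _ => ?_)
  rw [smul_smul, Finsupp.smul_single, Finsupp.smul_single, smul_eq_mul, smul_eq_mul, mul_one]
  congr 1
  rcases neg_one_pow_eq_or S ((j : ℕ) + 1) with h | h <;> simp [h]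

/-- `d h + h d = 1` in positive degrees. -/
theorem barD_barH (n : ℕ) (z : (Fin (n + 1) → G) →₀ S) :
    barD B.rho (n + 1) (B.barH (n + 1) z) + B.barH n (barD B.rho n z) = z := by
  have key : ((barD B.rho (n + 1)).toAddMonoidHom.comp (B.barH (n + 1)) +
      (B.barH n).comp (barD B.rho n).toAddMonoidHom) = AddMonoidHom.id _ := by
    refine B.hom_ext (fun g w x => ?_)
    simp only [AddMonoidHom.add_apply, AddMonoidHom.comp_apply, LinearMap.toAddMonoidHom_coe,
      AddMonoidHom.id_apply]
    rw [barH_single, barD_single, barD_single, Fin.sum_univ_succ]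
    rw [map_add, mul_assoc, ← map_mul, barH_single, map_sum]
    have e1 : ∀ j : Fin (n + 1), B.barH n ((-1 : S) ^ ((j : ℕ) + 1) •
        Finsupp.single (Fin.contractNth j (· * ·) g) (B.iota w * B.rho x)) =
        (-1 : S) ^ ((j : ℕ) + 1) • Finsupp.single
          (Fin.cons x (Fin.contractNth j (· * ·) g) : Fin (n + 1) → G) (B.iota w) := by
      intro j
      rcases neg_one_pow_eq_or S ((j : ℕ) + 1) with h | h <;> simp [h, barH_single, map_neg]
    simp only [e1]
    rw [contractNth_zero_cons]
    simp only [contractNth_succ_cons, Fin.cons_zero, Fin.tail_cons, Fin.val_succ, Fin.val_zero]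
    have e2 : ∀ j : Fin (n + 1), ((-1 : S) ^ ((j : ℕ) + 1 + 1)) •
        Finsupp.single (Fin.cons x (Fin.contractNth j (· * ·) g) : Fin (n + 1) → G) (B.iota w) =
        - (((-1 : S) ^ ((j : ℕ) + 1)) • Finsupp.single
          (Fin.cons x (Fin.contractNth j (· * ·) g) : Fin (n + 1) → G) (B.iota w)) := by
      intro j
      rw [pow_succ (-1 : S) ((j : ℕ) + 1), mul_neg_one, neg_smul]
    simp only [e2, Finset.sum_neg_distrib]
    simp
    abel
  exact DFunLike.congr_fun key z


/-- Augmentation data for `B`. -/
structure Aug (B : BarData G S W) (Z : Type*) [AddCommGroup Z] [Module S Z] where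
  pi : S →ₗ[S] Z
  sigma : Z →+ W
  pi_rho : ∀ (s : S) (x : G), pi (s * B.rho x) = pi s
  sigma_pi : ∀ w, sigma (pi (B.iota w)) = w
  pi_sigma : ∀ z, pi (B.iota (sigma z)) = z

variable {B} {Z : Type*} [AddCommGroup Z] [Module S Z] (E : Aug B Z)

/-- The augmentation of the bar complex. -/
noncomputable def barE : ((Fin 0 → G) →₀ S) →ₗ[S] Z :=
  Finsupp.linearCombination S (fun _ => E.pi 1)

theorem barE_single (g : Fin 0 → G) (s : S) : barE E (Finsupp.single g s) = E.pi s := by
  rw [barE, Finsupp.linearCombination_single, ← map_smul, smul_eq_mul, mul_one]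

theorem barE_surjective : Function.Surjective (barE E) := fun z =>
  ⟨Finsupp.single default (B.iota (E.sigma z)), by rw [barE_single, E.pi_sigma]⟩

theorem barD_barH_zero (z : (Fin 0 → G) →₀ S) :
    barD B.rho 0 (B.barH 0 z) + Finsupp.single default (B.iota (E.sigma (barE E z))) = z := by
  have key : ((barD B.rho 0).toAddMonoidHom.comp (B.barH 0) +
      (Finsupp.singleAddHom (default : Fin 0 → G)).comp
        (B.iota.comp (E.sigma.comp (barE E).toAddMonoidHom))) = AddMonoidHom.id _ := by
    refine B.hom_ext (fun g w x => ?_)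
    simp only [AddMonoidHom.add_apply, AddMonoidHom.comp_apply, LinearMap.toAddMonoidHom_coe,
      AddMonoidHom.id_apply, Finsupp.singleAddHom_apply]
    rw [barH_single, barD_single, barE_single, E.pi_rho, E.sigma_pi]
    have h1 : g = default := Subsingleton.elim _ _
    subst h1
    simp
    rw [Subsingleton.elim (Fin.contractNth (0 : Fin 1) (fun x1 x2 => x1 * x2)
      (Fin.cons x default : Fin 1 → G)) default]
    simp
  exact DFunLike.congr_fun key z

theorem barE_barD (z : (Fin 1 → G) →₀ S) : barE E (barD B.rho 0 z) = 0 := by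
  induction z using Finsupp.induction_linear with
  | zero => simp
  | add f g hf hg => simp [hf, hg]
  | single g s =>
    rw [barD_single, map_add, barE_single, E.pi_rho]
    simp [barE_single]

variable (B) in
/-- generation of the bar complex by the image of the homotopy -/
theorem linear_ext_barH {n : ℕ} {M : Type*} [AddCommGroup M] [Module S M]
    {f : ((Fin (n + 1) → G) →₀ S) →ₗ[S] M}
    (h : ∀ y : (Fin n → G) →₀ S, f (B.barH n y) = 0) (z) : f z = 0 := by
  induction z using Finsupp.induction_linear with
  | zero => simp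
  | add f g hf hg => simp [hf, hg]
  | single g s =>
    have h1 := h (Finsupp.single (Fin.tail g) (B.iota B.oneW * B.rho (g 0)))
    rw [barH_single, Fin.cons_self_tail, B.iota_one] at h1
    have h2 : Finsupp.single g s = s • Finsupp.single g (1 : S) := by simp
    rw [h2, map_smul, h1, smul_zero]

include E in
theorem barD_barD (n : ℕ) (z : (Fin (n + 2) → G) →₀ S) :
    barD B.rho n (barD B.rho (n + 1) z) = 0 := by
  induction n with
  | zero =>
    refine B.linear_ext_barH (f := (barD B.rho 0).comp (barD B.rho 1)) (fun y => ?_) z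
    rw [LinearMap.comp_apply, eq_sub_of_add_eq (B.barD_barH 0 y), map_sub]
    have h1 := barD_barH_zero E (barD B.rho 0 y)
    rw [barE_barD] at h1
    simp only [map_zero, Finsupp.single_zero, add_zero] at h1
    rw [h1, sub_self]
  | succ n ih =>
    refine B.linear_ext_barH (f := (barD B.rho (n + 1)).comp (barD B.rho (n + 2)))
      (fun y => ?_) z
    rw [LinearMap.comp_apply, eq_sub_of_add_eq (B.barD_barH (n + 1) y), map_sub]
    have h1 := B.barD_barH n (barD B.rho (n + 1) y)
    rw [ih, map_zero, add_zero] at h1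
    rw [h1, sub_self]

theorem exact_succ (n : ℕ) (z : (Fin (n + 1) → G) →₀ S) (hz : barD B.rho n z = 0) :
    ∃ y, barD B.rho (n + 1) y = z :=
  ⟨B.barH (n + 1) z, by simpa [hz] using B.barD_barH n z⟩

theorem exact_zero (z : (Fin 0 → G) →₀ S) (hz : barE E z = 0) :
    ∃ y, barD B.rho 0 y = z :=
  ⟨B.barH 0 z, by simpa [hz] using barD_barH_zero E z⟩

end BarData

end Run7.h817
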