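import Pool.Agent.Run7.h817.Bar
import Mathlib.LinearAlgebra.Quotient.Basic

/-! Bar complex with coefficients in a left `S`-module `Y` with a right action of a group `K`. -/

namespace Run7.h817

universe u v w x

/-- Short exact sequences of modules. -/
structure SES {S : Type u} [Ring S] {K : Type v} {F : Type w} {M : Type x} [AddCommGroup K]
    [Module S K] [AddCommGroup F] [Module S F] [AddCommGroup M] [Module S M]
    (i : K →ₗ[S] F) (p : F →ₗ[S] M) : Prop where
  inj : Function.Injective i
  surj : Function.Surjective p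
  comp : ∀ k, p (i k) = 0
  exact : ∀ f, p f = 0 → ∃ k, i k = f

/-- The data: a right action by `S`-linear maps, free over `K`. -/
structure BarY (K : Type u) [Group K] (S : Type v) [Ring S] (Y : Type w) [AddCommGroup Y]
    [Module S Y] (W : Type x) [AddCommGroup W] where
  act : K → Y →ₗ[S] Y
  act_mul : ∀ (a b : K) (y : Y), act (a * b) y = act b (act a y)
  iota : W →+ Y
  dec : Y →+ (K →₀ W)
  dec_act : ∀ w a, dec (act a (iota w)) = Finsupp.single a w
  gen : ∀ y : Y, y ∈ AddSubgroup.closure {z | ∃ a w, z = act a (iota w)}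
  span : ∀ y : Y, y ∈ Submodule.span S (Set.range iota)

namespace BarY

variable {K : Type u} [Group K] {S : Type v} [Ring S] {Y : Type w} [AddCommGroup Y]
  [Module S Y] {W : Type x} [AddCommGroup W]

/-- The bar differential with coefficients. -/
noncomputable def bD (act : K → Y →ₗ[S] Y) (n : ℕ) :
    ((Fin (n + 1) → K) →₀ Y) →ₗ[S] ((Fin n → K) →₀ Y) :=
  Finsupp.lsum ℕ (fun g : Fin (n + 1) → K =>
    (Finsupp.lsingle (Fin.tail g)).comp (act (g 0)) +
      ∑ j : Fin (n + 1), (-1 : ℤ) ^ ((j : ℕ) + 1) •
        Finsupp.lsingle (R := S) (Fin.contractNth j (· * ·) g))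

theorem bD_single (act : K → Y →ₗ[S] Y) (n : ℕ) (g : Fin (n + 1) → K) (y : Y) :
    bD act n (Finsupp.single g y) = Finsupp.single (Fin.tail g) (act (g 0) y) +
      ∑ j : Fin (n + 1), (-1 : ℤ) ^ ((j : ℕ) + 1) •
        Finsupp.single (Fin.contractNth j (· * ·) g) y := by
  rw [bD, Finsupp.lsum_single, LinearMap.add_apply, LinearMap.comp_apply, Finsupp.lsingle_apply,
    LinearMap.sum_apply]
  rfl

variable (B : BarY K S Y W)

/-- The contracting homotopy. -/
noncomputable def bH (n : ℕ) :
    ((Fin n → K) →₀ Y) →+ ((Fin (n + 1) → K) →₀ Y) :=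
  Finsupp.liftAddHom (fun g : Fin n → K =>
    (Finsupp.liftAddHom (fun a : K =>
      (Finsupp.singleAddHom (Fin.cons a g : Fin (n + 1) → K)).comp B.iota)).comp B.dec)

theorem bH_single (n : ℕ) (g : Fin n → K) (w : W) (a : K) :
    B.bH n (Finsupp.single g (B.act a (B.iota w))) =
      Finsupp.single (Fin.cons a g : Fin (n + 1) → K) (B.iota w) := by
  simp [bH, B.dec_act]

theorem hom_ext {n : ℕ} {M : Type*} [AddCommGroup M]
    {f g : ((Fin n → K) →₀ Y) →+ M}
    (h : ∀ (a : Fin n → K) (w : W) (x : K), f (Finsupp.single a (B.act x (B.iota w))) =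
      g (Finsupp.single a (B.act x (B.iota w)))) : f = g := by
  refine Finsupp.addHom_ext (fun a s => ?_)
  have hs := B.gen s
  induction hs using AddSubgroup.closure_induction with
  | mem y hy =>
    obtain ⟨x, w, rfl⟩ := hy
    exact h a w x
  | zero => simp
  | add y z _ _ hy hz => simp [Finsupp.single_add, hy, hz]
  | neg y _ hy => simp [Finsupp.single_neg, hy]

/-- `d h + h d = 1` in positive degrees. -/
theorem bD_bH (n : ℕ) (z : (Fin (n + 1) → K) →₀ Y) :
    bD B.act (n + 1) (B.bH (n + 1) z) + B.bH n (bD B.act n z) = z := by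
  have key : ((bD B.act (n + 1)).toAddMonoidHom.comp (B.bH (n + 1)) +
      (B.bH n).comp (bD B.act n).toAddMonoidHom) = AddMonoidHom.id _ := by
    refine B.hom_ext (fun g w a => ?_)
    simp only [AddMonoidHom.add_apply, AddMonoidHom.comp_apply, LinearMap.toAddMonoidHom_coe,
      AddMonoidHom.id_apply]
    rw [bH_single, bD_single, bD_single, Fin.sum_univ_succ]
    rw [map_add, ← B.act_mul, bH_single, map_sum]
    simp only [map_zsmul, bH_single]
    rw [contractNth_zero_cons]
    simp only [contractNth_succ_cons, Fin.cons_zero, Fin.tail_cons, Fin.val_succ, Fin.val_zero]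
    have e2 : ∀ j : Fin (n + 1), ((-1 : ℤ) ^ ((j : ℕ) + 1 + 1)) •
        Finsupp.single (Fin.cons a (Fin.contractNth j (· * ·) g) : Fin (n + 1) → K) (B.iota w) =
        - (((-1 : ℤ) ^ ((j : ℕ) + 1)) • Finsupp.single
          (Fin.cons a (Fin.contractNth j (· * ·) g) : Fin (n + 1) → K) (B.iota w)) := by
      intro j
      rw [pow_succ (-1 : ℤ) ((j : ℕ) + 1), mul_neg_one, neg_smul]
    simp only [e2, Finset.sum_neg_distrib]
    simp
    abel
  exact DFunLike.congr_fun key z

/-- generation of the bar complex by the image of the homotopy -/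
theorem linear_ext_bH {n : ℕ} {M : Type*} [AddCommGroup M] [Module S M]
    {f : ((Fin (n + 1) → K) →₀ Y) →ₗ[S] M}
    (h : ∀ y : (Fin n → K) →₀ Y, f (B.bH n y) = 0) (z) : f z = 0 := by
  induction z using Finsupp.induction_linear with
  | zero => simp
  | add f g hf hg => simp [hf, hg]
  | single g y =>
    have hy := B.span y
    induction hy using Submodule.span_induction with
    | mem y hy =>
      obtain ⟨w, rfl⟩ := hy
      have h1 := h (Finsupp.single (Fin.tail g) (B.act (g 0) (B.iota w)))
      rwa [bH_single, Fin.cons_self_tail] at h1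
    | zero => simp
    | add y z _ _ hy hz => rw [Finsupp.single_add, map_add, hy, hz, add_zero]
    | smul s y _ hy => rw [← Finsupp.smul_single, map_smul, hy, smul_zero]

include B in
theorem bD_bD_zero (z : (Fin 2 → K) →₀ Y) : bD B.act 0 (bD B.act 1 z) = 0 := by
  induction z using Finsupp.induction_linear with
  | zero => simp
  | add f g hf hg => simp [hf, hg]
  | single g y =>
    rw [bD_single, map_add, bD_single, map_sum]
    simp only [map_zsmul, bD_single]
    simp only [Fin.sum_univ_succ, Finset.univ_eq_empty, Finset.sum_empty, Fin.val_zero,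
      Fin.val_succ, zero_add, add_zero, pow_one, neg_smul, one_smul]
    have e : ∀ (a b : Fin 0 → K) (y : Y), Finsupp.single a y = Finsupp.single b y := by
      intro a b y
      rw [Subsingleton.elim a b]
    rw [e (Fin.contractNth 0 _ (Fin.tail g)) default, e (Fin.tail (Fin.tail g)) default,
      e (Fin.tail (Fin.contractNth 0 _ g)) default,
      e (Fin.contractNth 0 _ (Fin.contractNth 0 _ g)) default,
      e (Fin.tail (Fin.contractNth _ _ g)) default,
      e (Fin.contractNth 0 _ (Fin.contractNth _ _ g)) default]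
    have h0 : Fin.contractNth (0 : Fin 2) (fun x1 x2 : K => x1 * x2) g 0 = g 0 * g 1 := by
      simp [Fin.contractNth]
    have h1 : Fin.contractNth (Fin.succ (0 : Fin 1)) (fun x1 x2 : K => x1 * x2) g 0 = g 0 := by
      simp [Fin.contractNth]
    have h2 : Fin.tail g 0 = g 1 := rfl
    rw [h0, h1, h2, B.act_mul]
    simp
    abel

include B in
theorem bD_bD (n : ℕ) (z : (Fin (n + 2) → K) →₀ Y) :
    bD B.act n (bD B.act (n + 1) z) = 0 := by
  induction n with
  | zero => exact B.bD_bD_zero z
  | succ n ih =>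
    refine B.linear_ext_bH (f := (bD B.act (n + 1)).comp (bD B.act (n + 2)))
      (fun y => ?_) z
    rw [LinearMap.comp_apply, eq_sub_of_add_eq (B.bD_bH (n + 1) y), map_sub]
    have h1 := B.bD_bH n (bD B.act (n + 1) y)
    rw [ih, map_zero, add_zero] at h1
    rw [h1, sub_self]

include B in
theorem exact (n : ℕ) (z : (Fin (n + 1) → K) →₀ Y) (hz : bD B.act n z = 0) :
    ∃ y, bD B.act (n + 1) y = z :=
  ⟨B.bH (n + 1) z, by simpa [hz] using B.bD_bH n z⟩

/-- every element of degree `0` is a boundary plus an element of `W` -/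
theorem mod_zero (z : (Fin 0 → K) →₀ Y) :
    ∃ (y : (Fin 1 → K) →₀ Y) (w : W), z = bD B.act 0 y + Finsupp.single default (B.iota w) := by
  induction z using Finsupp.induction_linear with
  | zero => exact ⟨0, 0, by simp⟩
  | add f g hf hg =>
    obtain ⟨y₁, w₁, h₁⟩ := hf
    obtain ⟨y₂, w₂, h₂⟩ := hg
    refine ⟨y₁ + y₂, w₁ + w₂, ?_⟩
    rw [h₁, h₂, map_add, map_add, Finsupp.single_add]
    abel
  | single g y =>
    rw [Subsingleton.elim g default]
    have hy := B.gen y
    induction hy using AddSubgroup.closure_induction with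
    | mem y hy =>
      obtain ⟨a, w, rfl⟩ := hy
      refine ⟨Finsupp.single (fun _ => a) (B.iota w), w, ?_⟩
      rw [bD_single]
      simp only [Fin.sum_univ_succ, Finset.univ_eq_empty, Finset.sum_empty, Fin.val_zero,
        zero_add, pow_one, neg_smul, one_smul, add_zero]
      rw [Subsingleton.elim (Fin.tail fun _ => a) default,
        Subsingleton.elim (Fin.contractNth 0 (fun x1 x2 : K => x1 * x2) fun _ => a) default]
      abel
    | zero => exact ⟨0, 0, by simp⟩
    | add y z _ _ hy hz =>
      obtain ⟨y₁, w₁, h₁⟩ := hy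
      obtain ⟨y₂, w₂, h₂⟩ := hz
      refine ⟨y₁ + y₂, w₁ + w₂, ?_⟩
      rw [Finsupp.single_add, h₁, h₂, map_add, map_add, Finsupp.single_add]
      abel
    | neg y _ hy =>
      obtain ⟨y₁, w₁, h₁⟩ := hy
      refine ⟨-y₁, -w₁, ?_⟩
      rw [Finsupp.single_neg, h₁, map_neg, map_neg, Finsupp.single_neg]
      abel

/-- terms of the bar complex -/
abbrev XX (K : Type u) (Y : Type w) [AddCommGroup Y] (n : ℕ) : Type (max u w) :=
  (Fin n → K) →₀ Y

/-- the boundaries -/
noncomputable abbrev BB (act : K → Y →ₗ[S] Y) (n : ℕ) : Submodule S (XX K Y n) :=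
  LinearMap.range (bD act n)

/-- the coinvariants of `Y` under `K` -/
abbrev MM (act : K → Y →ₗ[S] Y) : Type (max u w) := XX K Y 0 ⧸ BB act 0

include B in
theorem ses_succ (n : ℕ) : SES (BB B.act (n + 1)).subtype (bD B.act n).rangeRestrict where
  inj := Submodule.injective_subtype _
  surj := LinearMap.surjective_rangeRestrict _
  comp := by
    rintro ⟨_, z, rfl⟩
    apply Subtype.ext
    exact B.bD_bD n z
  exact f hf := by
    have h1 : bD B.act n f = 0 := congrArg Subtype.val hf
    obtain ⟨y, hy⟩ := B.exact n f h1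
    exact ⟨⟨f, y, hy⟩, rfl⟩

theorem ses_zero (act : K → Y →ₗ[S] Y) : SES (BB act 0).subtype (BB act 0).mkQ where
  inj := Submodule.injective_subtype _
  surj := Submodule.mkQ_surjective _
  comp k := by
    rw [Submodule.mkQ_apply, Submodule.Quotient.mk_eq_zero]
    exact k.2
  exact f hf := by
    rw [Submodule.mkQ_apply, Submodule.Quotient.mk_eq_zero] at hf
    exact ⟨⟨f, hf⟩, rfl⟩

end BarY

end Run7.h817
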