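import Mathlib.RepresentationTheory.Homological.GroupCohomology.Basic
import Mathlib.RepresentationTheory.Homological.GroupHomology.Basic
import Mathlib.Data.Complex.Basic

/-! Finite cohomological dimension over the complex numbers. -/

namespace Run7.h817

open CategoryTheory Limits

/-- `K` has finite cohomological dimension over `ℂ`: there is `n` such that `Hᵐ(K; V) = 0` for all
`m > n` and all complex representations `V` of `K`. -/
def HasFiniteCd (K : Type) [Group K] : Prop :=
  ∃ n : ℕ, ∀ (V : Rep.{0} ℂ K) (m : ℕ), n < m → IsZero (groupCohomology V m)

end Run7.h817
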