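import Pool.Agent.Run7.h817.Res

/-! Inhomogeneous cochains compute `Ext`. -/

namespace Run7.h817

open CategoryTheory Limits

universe u w

section Cobd

variable {G : Type*} [Group G] {S : Type*} [Ring S] (rho : G →* S)
  {M : Type*} [AddCommGroup M] [Module S M]

/-- inhomogeneous coboundary -/
def cobd (n : ℕ) (c : (Fin n → G) → M) (g : Fin (n + 1) → G) : M :=
  rho (g 0) • c (Fin.tail g) +
    ∑ j : Fin (n + 1), (-1 : ℤ) ^ ((j : ℕ) + 1) • c (Fin.contractNth j (· * ·) g)

theorem cobd_eq (n : ℕ) (c : (Fin n → G) → M) (z : (Fin (n + 1) → G) →₀ S) :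
    Finsupp.linearCombination S c (BarData.barD rho n z) =
      Finsupp.linearCombination S (cobd rho n c) z := by
  induction z using Finsupp.induction_linear with
  | zero => simp
  | add f g hf hg => simp [hf, hg]
  | single g s =>
    rw [BarData.barD_single, map_add, map_sum, Finsupp.linearCombination_single,
      Finsupp.linearCombination_single, cobd, smul_add, mul_smul, Finset.smul_sum]
    congr 1
    refine Finset.sum_congr rfl (fun j _ => ?_)
    rw [map_smul, Finsupp.linearCombination_single]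
    rcases neg_one_pow_eq_or ℤ ((j : ℕ) + 1) with h | h
    · have h' : (-1 : S) ^ ((j : ℕ) + 1) = 1 := by exact_mod_cast congrArg (Int.cast (R := S)) h
      rw [h, h', one_smul, one_smul]
    · have h' : (-1 : S) ^ ((j : ℕ) + 1) = -1 := by
        exact_mod_cast congrArg (Int.cast (R := S)) h
      rw [h, h', neg_smul, neg_smul, one_smul, one_smul, smul_neg]

theorem cobd_map' {S' : Type*} [Ring S'] (rho' : G →* S') {N : Type*} [AddCommGroup N]
    [Module S' N] (n : ℕ) (f : M →+ N) (hf : ∀ g m, f (rho g • m) = rho' g • f m)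
    (c : (Fin n → G) → M) : cobd rho' n (fun g => f (c g)) = fun g => f (cobd rho n c g) := by
  funext g
  rw [cobd, cobd, map_add, hf, map_sum]
  simp only [map_zsmul]

theorem cobd_add (n : ℕ) (c c' : (Fin n → G) → M) :
    cobd rho n (c + c') = cobd rho n c + cobd rho n c' := by
  funext g
  simp only [cobd, Pi.add_apply, smul_add, Finset.sum_add_distrib]
  abel

theorem cobd_zero (n : ℕ) : cobd rho n (0 : (Fin n → G) → M) = 0 := by
  funext g
  simp [cobd]

theorem cobd_neg (n : ℕ) (c : (Fin n → G) → M) : cobd rho n (-c) = - cobd rho n c := by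
  have h := cobd_add rho n c (-c)
  rw [add_neg_cancel, cobd_zero] at h
  exact eq_neg_of_add_eq_zero_right h.symm

theorem cobd_sub (n : ℕ) (c c' : (Fin n → G) → M) :
    cobd rho n (c - c') = cobd rho n c - cobd rho n c' := by
  rw [sub_eq_add_neg, cobd_add, cobd_neg, sub_eq_add_neg]

theorem cobd_sum {ι : Type*} (s : Finset ι) (n : ℕ) (c : ι → (Fin n → G) → M) :
    cobd rho n (∑ i ∈ s, c i) = ∑ i ∈ s, cobd rho n (c i) := by
  classical
  induction s using Finset.induction_on with
  | empty => simp [cobd_zero]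
  | insert i s hi ih => rw [Finset.sum_insert hi, Finset.sum_insert hi, cobd_add, ih]

theorem cobd_map {N : Type*} [AddCommGroup N] [Module S N] (n : ℕ) (f : M →ₗ[S] N)
    (c : (Fin n → G) → M) : cobd rho n (fun g => f (c g)) = fun g => f (cobd rho n c g) := by
  funext g
  simp [cobd, map_sum]

end Cobd

namespace BarData

section General

variable {G : Type*} [Group G] {S : Type*} [Ring S] {W : Type*} [AddCommGroup W]
  {B : BarData G S W} {Z : Type*} [AddCommGroup Z] [Module S Z] (E : Aug B Z)
  {M : Type*} [AddCommGroup M] [Module S M]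

include E in
theorem cobd_cobd (n : ℕ) (c : (Fin n → G) → M) : cobd B.rho (n + 1) (cobd B.rho n c) = 0 := by
  funext g
  have h := cobd_eq B.rho (n + 1) (cobd B.rho n c) (Finsupp.single g 1)
  rw [Finsupp.linearCombination_single, one_smul] at h
  rw [← h, ← cobd_eq, barD_barD E, map_zero]
  rfl

end General

variable {G : Type u} [Group G] {S : Type u} [Ring S] {W : Type w} [AddCommGroup W]
  {B : BarData G S W} {Z : Type u} [AddCommGroup Z] [Module S Z] (E : Aug B Z)
  {M : Type u} [AddCommGroup M] [Module S M]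

/-- cochains as morphisms, on the free module -/
noncomputable def toHom' (n : ℕ) (c : (Fin n → G) → M) :
    ModuleCat.of S ((Fin n → G) →₀ S) ⟶ ModuleCat.of S M :=
  ModuleCat.ofHom (Finsupp.linearCombination S c)

omit [Group G] in
theorem hom_ext' (n : ℕ) {f f' : ModuleCat.of S ((Fin n → G) →₀ S) ⟶ ModuleCat.of S M}
    (h : ∀ g, f.hom (Finsupp.single g 1) = f'.hom (Finsupp.single g 1)) : f = f' :=
  ModuleCat.hom_ext (Finsupp.lhom_ext' fun g => LinearMap.ext_ring (h g))

omit [Group G] in
theorem toHom'_apply (n : ℕ) (c : (Fin n → G) → M) (g : Fin n → G) :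
    (toHom' (S := S) n c).hom (Finsupp.single g 1) = c g := by
  change Finsupp.linearCombination S c (Finsupp.single g 1) = c g
  rw [Finsupp.linearCombination_single, one_smul]

/-- cochains as morphisms -/
noncomputable def toHom (n : ℕ) (c : (Fin n → G) → M) :
    (barRes E).complex.X n ⟶ ModuleCat.of S M :=
  toHom' n c

theorem d_toHom (n : ℕ) (c : (Fin n → G) → M) :
    (barRes E).complex.d (n + 1) n ≫ toHom E n c = toHom E (n + 1) (cobd B.rho n c) := by
  change (barComplex E).d (n + 1) n ≫ _ = _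
  rw [barComplex_d]
  refine ModuleCat.hom_ext (LinearMap.ext fun z => ?_)
  exact cobd_eq B.rho n c z

theorem toHom_surj (n : ℕ) (f : (barRes E).complex.X n ⟶ ModuleCat.of S M) :
    ∃ c, toHom E n c = f := by
  let f' : ModuleCat.of S ((Fin n → G) →₀ S) ⟶ ModuleCat.of S M := f
  refine ⟨fun g => f'.hom (Finsupp.single g 1), ?_⟩
  change toHom' n _ = f'
  refine hom_ext' n fun g => ?_
  rw [toHom'_apply]

theorem toHom_inj (n : ℕ) {c c' : (Fin n → G) → M} (h : toHom E n c = toHom E n c') :
    c = c' := by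
  have h' : toHom' (S := S) n c = toHom' n c' := h
  funext g
  rw [← toHom'_apply (S := S) n c, h', toHom'_apply]

theorem toHom_zero (n : ℕ) : toHom E n (0 : (Fin n → G) → M) = 0 := by
  change toHom' n (0 : (Fin n → G) → M) = 0
  refine hom_ext' n fun g => ?_
  rw [toHom'_apply]
  simp

theorem toHom_add (n : ℕ) (c c' : (Fin n → G) → M) :
    toHom E n (c + c') = toHom E n c + toHom E n c' := by
  have key : toHom' (S := S) n (c + c') = toHom' n c + toHom' n c' := by
    refine hom_ext' n fun g => ?_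
    rw [toHom'_apply, ModuleCat.hom_add, LinearMap.add_apply, toHom'_apply, toHom'_apply]
    rfl
  exact key

theorem toHom_comp {N : Type u} [AddCommGroup N] [Module S N] (n : ℕ) (c : (Fin n → G) → M)
    (f : M →ₗ[S] N) : toHom E n c ≫ ModuleCat.ofHom f = toHom E n (fun g => f (c g)) := by
  change toHom' n c ≫ ModuleCat.ofHom f = toHom' n (fun g => f (c g))
  refine hom_ext' n fun g => ?_
  rw [toHom'_apply, ModuleCat.hom_comp, LinearMap.comp_apply, toHom'_apply]
  rfl

/-- class of a cocycle -/
noncomputable def cls (n : ℕ) (c : (Fin n → G) → M) (hc : cobd B.rho n c = 0) :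
    Abelian.Ext (ModuleCat.of S Z) (ModuleCat.of S M) n :=
  (barRes E).extMk (toHom E n c) (n + 1) rfl (by rw [d_toHom, hc, toHom_zero])

theorem cls_add (n : ℕ) (c c' : (Fin n → G) → M) (hc : cobd B.rho n c = 0)
    (hc' : cobd B.rho n c' = 0) (h : cobd B.rho n (c + c') = 0) :
    cls E n (c + c') h = cls E n c hc + cls E n c' hc' := by
  simp only [cls]
  rw [ProjectiveResolution.add_extMk]
  congr 1
  exact toHom_add E n c c'

theorem cls_surj (n : ℕ) (ξ : Abelian.Ext (ModuleCat.of S Z) (ModuleCat.of S M) n) :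
    ∃ (c : (Fin n → G) → M) (hc : cobd B.rho n c = 0), cls E n c hc = ξ := by
  obtain ⟨f, hf, rfl⟩ := (barRes E).extMk_surjective ξ (n + 1) rfl
  obtain ⟨c, rfl⟩ := toHom_surj E n f
  refine ⟨c, ?_, rfl⟩
  rw [d_toHom, ← toHom_zero] at hf
  exact toHom_inj E _ hf

theorem cls_eq_zero_iff (n : ℕ) (c : (Fin (n + 1) → G) → M) (hc : cobd B.rho (n + 1) c = 0) :
    cls E (n + 1) c hc = 0 ↔ ∃ b, cobd B.rho n b = c := by
  rw [cls, ProjectiveResolution.extMk_eq_zero_iff _ _ _ _ _ n rfl]
  constructor
  · rintro ⟨g, hg⟩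
    obtain ⟨b, rfl⟩ := toHom_surj E n g
    rw [d_toHom] at hg
    exact ⟨b, toHom_inj E _ hg⟩
  · rintro ⟨b, rfl⟩
    exact ⟨toHom E n b, d_toHom E n b⟩

theorem cls_comp {N : Type u} [AddCommGroup N] [Module S N] (n : ℕ) (c : (Fin n → G) → M)
    (hc : cobd B.rho n c = 0) (f : M →ₗ[S] N) (h : cobd B.rho n (fun g => f (c g)) = 0) :
    (cls E n c hc).comp (Abelian.Ext.mk₀ (ModuleCat.ofHom f)) (add_zero n) =
      cls E n (fun g => f (c g)) h := by
  rw [cls, ProjectiveResolution.extMk_comp_mk₀, cls]
  congr 1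
  exact toHom_comp E n c f

end BarData

end Run7.h817
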