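import Pool.Agent.Run7.h817.EnvBar

/-! Coordinates on the enveloping algebra: `x ⊗ y ↦ x` in the component `y x`. -/

namespace Run7.h817

open CategoryTheory TensorProduct MulOpposite

universe u

variable (G : Type u) [Group G]

/-- inner part of `kap` -/
noncomputable def kapAux (x : G) : (CG G)ᵐᵒᵖ →ₗ[ℂ] (G →₀ CG G) :=
  (Finsupp.lsum ℂ (fun y : G => LinearMap.toSpanSingleton ℂ (G →₀ CG G)
    (Finsupp.single (y * x) (MonoidAlgebra.single x 1)))).comp
      ((MonoidAlgebra.coeffLinearEquiv ℂ).toLinearMap.comp
        (MulOpposite.opLinearEquiv ℂ).symm.toLinearMap)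

theorem kapAux_single (x y : G) (r : ℂ) : kapAux G x (op (MonoidAlgebra.single y r)) =
    r • Finsupp.single (y * x) (MonoidAlgebra.single x 1) := by
  simp [kapAux]

/-- coordinates -/
noncomputable def kap : Env (CG G) →ₗ[ℂ] (G →₀ CG G) :=
  TensorProduct.lift
    ((Finsupp.lsum ℂ (fun x : G => LinearMap.toSpanSingleton ℂ
      ((CG G)ᵐᵒᵖ →ₗ[ℂ] (G →₀ CG G)) (kapAux G x))).comp
        (MonoidAlgebra.coeffLinearEquiv ℂ).toLinearMap)

theorem kap_single (x y : G) (r s : ℂ) :
    kap G (MonoidAlgebra.single x r ⊗ₜ op (MonoidAlgebra.single y s)) =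
      Finsupp.single (y * x) (MonoidAlgebra.single x (r * s)) := by
  rw [kap, TensorProduct.lift.tmul]
  simp only [LinearMap.comp_apply, LinearEquiv.coe_coe]
  have h : (MonoidAlgebra.coeffLinearEquiv ℂ) (MonoidAlgebra.single x r : CG G) =
    Finsupp.single x r := rfl
  rw [h, Finsupp.lsum_apply, Finsupp.sum_single_index (by simp), LinearMap.toSpanSingleton_apply,
    LinearMap.smul_apply, kapAux_single, smul_smul, Finsupp.smul_single, MonoidAlgebra.smul_single,
    smul_eq_mul, mul_one]

/-- the inverse coordinates, one component -/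
noncomputable def kapInvAux (z : G) : CG G →ₗ[ℂ] Env (CG G) :=
  (Finsupp.lsum ℂ (fun x : G => LinearMap.toSpanSingleton ℂ (Env (CG G))
    (MonoidAlgebra.single x 1 ⊗ₜ op (MonoidAlgebra.single (z * x⁻¹) 1)))).comp
      (MonoidAlgebra.coeffLinearEquiv ℂ).toLinearMap

theorem kapInvAux_single (z x : G) (r : ℂ) : kapInvAux G z (MonoidAlgebra.single x r) =
    MonoidAlgebra.single x r ⊗ₜ op (MonoidAlgebra.single (z * x⁻¹) 1) := by
  have h : (MonoidAlgebra.coeffLinearEquiv ℂ) (MonoidAlgebra.single x r : CG G) =
    Finsupp.single x r := rfl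
  rw [kapInvAux, LinearMap.comp_apply, LinearEquiv.coe_coe, h, Finsupp.lsum_apply,
    Finsupp.sum_single_index (by simp), LinearMap.toSpanSingleton_apply, TensorProduct.smul_tmul',
    MonoidAlgebra.smul_single, smul_eq_mul, mul_one]

/-- the inverse coordinates -/
noncomputable def kapInv : (G →₀ CG G) →ₗ[ℂ] Env (CG G) := Finsupp.lsum ℂ (kapInvAux G)

theorem kapInv_single (z x : G) (r : ℂ) :
    kapInv G (Finsupp.single z (MonoidAlgebra.single x r)) =
    MonoidAlgebra.single x r ⊗ₜ op (MonoidAlgebra.single (z * x⁻¹) 1) := by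
  rw [kapInv, Finsupp.lsum_apply, Finsupp.sum_single_index (by simp), kapInvAux_single]

theorem op_induction {P : (CG G)ᵐᵒᵖ → Prop} (w : (CG G)ᵐᵒᵖ) (h0 : P 0)
    (ha : ∀ a b, P a → P b → P (a + b)) (hs : ∀ y s, P (op (MonoidAlgebra.single y s))) : P w := by
  obtain ⟨w, rfl⟩ := MulOpposite.op_surjective w
  induction w using MonoidAlgebra.induction_linear with
  | zero => exact h0
  | add a b ha' hb' => exact ha _ _ ha' hb'
  | single x r => exact hs _ _

theorem env_induction {P : Env (CG G) → Prop} (r : Env (CG G)) (h0 : P 0)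
    (ha : ∀ a b, P a → P b → P (a + b))
    (hs : ∀ x y (s t : ℂ), P (MonoidAlgebra.single x s ⊗ₜ op (MonoidAlgebra.single y t))) :
    P r := by
  induction r using TensorProduct.induction_on with
  | zero => exact h0
  | add a b ha' hb' => exact ha _ _ ha' hb'
  | tmul a w =>
    induction w using op_induction with
    | h0 => rw [TensorProduct.tmul_zero]; exact h0
    | ha a b ha' hb' => rw [TensorProduct.tmul_add]; exact ha _ _ ha' hb'
    | hs y s =>
      induction a using MonoidAlgebra.induction_linear with
      | zero => rw [TensorProduct.zero_tmul]; exact h0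
      | add a b ha' hb' => rw [TensorProduct.add_tmul]; exact ha _ _ ha' hb'
      | single x r => exact hs _ _ _ _

theorem fin_induction {P : (G →₀ CG G) → Prop} (r : G →₀ CG G) (h0 : P 0)
    (ha : ∀ a b, P a → P b → P (a + b))
    (hs : ∀ z x (s : ℂ), P (Finsupp.single z (MonoidAlgebra.single x s))) :
    P r := by
  induction r using Finsupp.induction_linear with
  | zero => exact h0
  | add a b ha' hb' => exact ha _ _ ha' hb'
  | single z a =>
    induction a using MonoidAlgebra.induction_linear with
    | zero => rw [Finsupp.single_zero]; exact h0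
    | add a b ha' hb' => rw [Finsupp.single_add]; exact ha _ _ ha' hb'
    | single x r => exact hs _ _ _

theorem kap_kapInv (m : G →₀ CG G) : kap G (kapInv G m) = m := by
  induction m using fin_induction with
  | h0 => simp
  | ha a b ha hb => rw [map_add, map_add, ha, hb]
  | hs z x s => rw [kapInv_single, kap_single]; simp

theorem kapInv_kap (m : Env (CG G)) : kapInv G (kap G m) = m := by
  induction m using env_induction with
  | h0 => simp
  | ha a b ha hb => rw [map_add, map_add, ha, hb]
  | hs x y s t =>
    rw [kap_single, kapInv_single, mul_inv_cancel_right]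
    have h1 : (MonoidAlgebra.single x (s * t) : CG G) = t • MonoidAlgebra.single x s := by
      rw [MonoidAlgebra.smul_single, smul_eq_mul, mul_comm]
    have h2 : (MonoidAlgebra.single y t : CG G) = t • MonoidAlgebra.single y 1 := by
      rw [MonoidAlgebra.smul_single, smul_eq_mul, mul_one]
    rw [h1, h2, TensorProduct.smul_tmul, op_smul]

theorem kap_rho (g : G) (r : Env (CG G)) :
    kap G (envRho G g * r) = MonoidAlgebra.of ℂ G g • kap G r := by
  induction r using env_induction with
  | h0 => simp
  | ha a b ha hb => rw [mul_add, map_add, map_add, ha, hb, smul_add]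
  | hs x y s t =>
    rw [envRho_apply, Algebra.TensorProduct.tmul_mul_tmul, ← op_mul,
      MonoidAlgebra.single_mul_single, MonoidAlgebra.single_mul_single, kap_single, kap_single,
      MonoidAlgebra.of_apply, Finsupp.smul_single, smul_eq_mul, MonoidAlgebra.single_mul_single]
    congr 1
    · simp [mul_assoc]
    · simp

theorem kapInv_rho (g : G) (m : G →₀ CG G) :
    kapInv G (MonoidAlgebra.of ℂ G g • m) = envRho G g * kapInv G m := by
  conv_lhs => rw [← kap_kapInv G m]
  rw [← kap_rho, kapInv_kap]

/-- The inner structure in coordinates: `R g h` sends `x` in the component `z` to `x h` in the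
component `g z h`. -/
noncomputable def R (g h : G) : (G →₀ CG G) →ₗ[CG G] (G →₀ CG G) :=
  (Finsupp.lmapDomain (CG G) (CG G) (fun z => g * z * h)).comp
    (Finsupp.mapRange.linearMap (LinearMap.toSpanSingleton (CG G) (CG G)
      (MonoidAlgebra.single h 1)))

theorem R_single (g h z : G) (a : CG G) :
    R G g h (Finsupp.single z a) = Finsupp.single (g * z * h) (a * MonoidAlgebra.single h 1) := by
  simp [R]

theorem kapInv_R (g h : G) (m : G →₀ CG G) :
    kapInv G (R G g h m) = kapInv G m *
      (MonoidAlgebra.single h 1 ⊗ₜ op (MonoidAlgebra.single g 1)) := by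
  induction m using fin_induction with
  | h0 => simp
  | ha a b ha hb => rw [map_add, map_add, ha, hb, map_add, add_mul]
  | hs z x s =>
    rw [R_single, MonoidAlgebra.single_mul_single, kapInv_single, kapInv_single,
      Algebra.TensorProduct.tmul_mul_tmul, ← op_mul, MonoidAlgebra.single_mul_single,
      MonoidAlgebra.single_mul_single, mul_one]
    congr 3
    · simp [mul_assoc]
    · simp

end Run7.h817
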