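import Mathlib.Algebra.Azumaya.Defs
import Mathlib.Algebra.Category.ModuleCat.Ext.HasExt
import Mathlib.Algebra.MonoidAlgebra.Basic
import Mathlib.Data.Complex.Basic

/-! Calabi-Yau algebras over the complex numbers (naive definition of the problem file). -/

namespace Run7.h817

open CategoryTheory TensorProduct MulOpposite

universe u

/-- The enveloping algebra `A ⊗ Aᵒᵖ`; its left modules are the `A`-bimodules. -/
abbrev Env (A : Type u) [Ring A] [Algebra ℂ A] : Type u := A ⊗[ℂ] Aᵐᵒᵖ

/-- `A` as a bimodule over itself: `(a ⊗ b) • x = a * x * b`. -/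
noncomputable def diagBimod (A : Type u) [Ring A] [Algebra ℂ A] : ModuleCat.{u} (Env A) :=
  letI : Module (Env A) A := instModuleTensorProductMop ℂ A
  ModuleCat.of (Env A) A

/-- `A ⊗ A` with its outer bimodule structure `a (x ⊗ y) b = a x ⊗ y b`: this is the left
regular module of the enveloping algebra. -/
noncomputable def outerBimod (A : Type u) [Ring A] [Algebra ℂ A] : ModuleCat.{u} (Env A) :=
  ModuleCat.of (Env A) (Env A)

/-- The inner action of `a` from the left and `b` from the right, `x ⊗ y ↦ x b ⊗ a y`: this is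
right multiplication by `b ⊗ a` in the enveloping algebra. -/
noncomputable def innerMap (A : Type u) [Ring A] [Algebra ℂ A] (a b : A) :
    outerBimod A ⟶ outerBimod A :=
  ModuleCat.ofHom (LinearMap.toSpanSingleton (Env A) (Env A) (b ⊗ₜ op a))

/-- `A` is Calabi-Yau of dimension `d`: `Extⁿ(A, A ⊗ A) = 0` for `n ≠ d`, and
`Extᵈ(A, A ⊗ A) ≅ A` as bimodules, the bimodule structure on the left coming from the inner one. -/
structure IsCalabiYau (A : Type u) [Ring A] [Algebra ℂ A] (d : ℕ) : Prop where
  ext_subsingleton : ∀ n, n ≠ d → Subsingleton (Abelian.Ext (diagBimod A) (outerBimod A) n)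
  ext_iso : ∃ φ : Abelian.Ext (diagBimod A) (outerBimod A) d ≃+ A,
    ∀ (a b : A) (ξ : Abelian.Ext (diagBimod A) (outerBimod A) d),
      φ (ξ.comp (Abelian.Ext.mk₀ (innerMap A a b)) (add_zero d)) = a * φ ξ * b

end Run7.h817
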