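import Mathlib.GroupTheory.GroupAction.Basic
import Mathlib.GroupTheory.Finiteness
import Mathlib.Data.Set.Finite.Lattice
import Mathlib.Data.Fintype.Pigeonhole

/-! Spaces with finitely many ends and a large centraliser (after Hopf). -/

namespace Run7.h817.Ends

variable {G X : Type*} [Group G] [MulAction G X]

theorem perm_apply_inv (σ : Equiv.Perm X) (x : X) : σ (σ⁻¹ x) = x :=
  (Equiv.Perm.inv_eq_iff_eq.1 rfl).symm

variable (G) in
/-- almost invariant sets -/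
def AI (B : Set X) : Prop := ∀ g : G, {x | ¬ (g • x ∈ B ↔ x ∈ B)}.Finite

variable (G X) in
/-- the permutations which commute with the action -/
def Cen : Subgroup (Equiv.Perm X) where
  carrier := {σ | ∀ (g : G) (x : X), σ (g • x) = g • σ x}
  one_mem' := fun g x => rfl
  mul_mem' := by
    intro a b ha hb g x
    rw [Equiv.Perm.mul_apply, Equiv.Perm.mul_apply, hb, ha]
  inv_mem' := by
    intro a ha g x
    rw [Equiv.Perm.inv_eq_iff_eq, ha, perm_apply_inv]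

theorem Cen.apply_smul {σ : Equiv.Perm X} (hσ : σ ∈ Cen G X) (g : G) (x : X) :
    σ (g • x) = g • σ x := hσ g x

theorem AI.preimage {B : Set X} (hB : AI G B) {σ : Equiv.Perm X} (hσ : σ ∈ Cen G X) :
    AI G (σ ⁻¹' B) := by
  intro g
  refine ((hB g).preimage (σ.injective.injOn)).subset ?_
  intro x hx
  simp only [Set.mem_ofPred_eq, Set.mem_preimage, Cen.apply_smul hσ] at hx ⊢
  exact hx

theorem AI.inter {B C : Set X} (hB : AI G B) (hC : AI G C) : AI G (B ∩ C) := by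
  intro g
  refine ((hB g).union (hC g)).subset ?_
  intro x hx
  simp only [Set.mem_ofPred_eq, Set.mem_inter_iff, Set.mem_union] at hx ⊢
  tauto

theorem AI.compl {B : Set X} (hB : AI G B) : AI G Bᶜ := by
  intro g
  refine (hB g).subset ?_
  intro x hx
  simp only [Set.mem_ofPred_eq, Set.mem_compl_iff] at hx ⊢
  tauto

theorem AI.diff {B C : Set X} (hB : AI G B) (hC : AI G C) : AI G (B \ C) :=
  hB.inter hC.compl

/-- neighbours -/
def Adj (S : Set G) (x y : X) : Prop := ∃ s ∈ S, y = s • x ∨ x = s • y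

theorem Adj.symm {S : Set G} {x y : X} (h : Adj S x y) : Adj S y x := by
  obtain ⟨s, hs, h⟩ := h
  exact ⟨s, hs, h.symm⟩

theorem Adj.map {S : Set G} {x y : X} (h : Adj S x y) {σ : Equiv.Perm X} (hσ : σ ∈ Cen G X) :
    Adj S (σ x) (σ y) := by
  obtain ⟨s, hs, h⟩ := h
  refine ⟨s, hs, ?_⟩
  rcases h with rfl | rfl
  · exact Or.inl (Cen.apply_smul hσ _ _)
  · exact Or.inr (Cen.apply_smul hσ _ _)

/-- connected sets -/
def Conn (S : Set G) (F : Set X) : Prop :=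
  ∀ Y : Set X, (∃ x ∈ F, x ∈ Y) → (∀ x ∈ F, ∀ y ∈ F, Adj S x y → x ∈ Y → y ∈ Y) → F ⊆ Y

/-- boundary vertices -/
def bdry (S : Set G) (B : Set X) : Set X := {x | ∃ y, Adj S x y ∧ ¬ (x ∈ B ↔ y ∈ B)}

theorem bdry_finite {S : Set G} (hS : S.Finite) {B : Set X} (hB : AI G B) : (bdry S B).Finite := by
  refine (hS.biUnion (fun s _ => (hB s).union (hB s⁻¹))).subset ?_
  rintro x ⟨y, ⟨s, hs, h⟩, hxy⟩
  rw [Set.mem_iUnion₂]
  refine ⟨s, hs, ?_⟩
  rcases h with rfl | rfl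
  · left
    simp only [Set.mem_ofPred_eq]
    tauto
  · right
    simp only [Set.mem_ofPred_eq, inv_smul_smul]
    tauto

theorem conn_univ {S : Set G} (hS : Subgroup.closure S = ⊤) [MulAction.IsPretransitive G X] :
    Conn S (Set.univ : Set X) := by
  rintro Y ⟨x, -, hx⟩ hY
  have h1 : ∀ g : G, ∀ x : X, x ∈ Y ↔ g • x ∈ Y := by
    intro g
    have hg : g ∈ Subgroup.closure S := by rw [hS]; exact Subgroup.mem_top g
    induction hg using Subgroup.closure_induction with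
    | mem s hs =>
      intro x
      have h2 : Adj S x (s • x) := ⟨s, hs, Or.inl rfl⟩
      exact ⟨hY _ trivial _ trivial h2, hY _ trivial _ trivial h2.symm⟩
    | one => intro x; rw [one_smul]
    | mul a b _ _ ha hb => intro x; rw [mul_smul, ← ha, ← hb]
    | inv a _ ha => intro x; rw [ha (a⁻¹ • x), smul_inv_smul]
  intro y _
  obtain ⟨g, rfl⟩ := MulAction.exists_smul_eq G x y
  exact (h1 g x).1 hx

theorem conn_singleton (S : Set G) (x : X) : Conn S {x} := by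
  rintro Y ⟨y, hy, hy'⟩ _
  rw [Set.mem_singleton_iff] at hy
  subst hy
  rwa [Set.singleton_subset_iff]

theorem Conn.insert {S : Set G} {F : Set X} (hF : Conn S F) {x y : X} (hx : x ∈ F)
    (h : Adj S x y) : Conn S (insert y F) := by
  rintro Y ⟨z, hz, hz'⟩ hY
  have h1 : F ⊆ Y := by
    apply hF
    · rcases hz with rfl | hz
      · exact ⟨x, hx, hY _ (Set.mem_insert _ _) _ (Set.mem_insert_of_mem _ hx) h.symm hz'⟩
      · exact ⟨z, hz, hz'⟩
    · intro a ha b hb hab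
      exact hY _ (Set.mem_insert_of_mem _ ha) _ (Set.mem_insert_of_mem _ hb) hab
  intro z hz
  rcases hz with rfl | hz
  · exact hY _ (Set.mem_insert_of_mem _ hx) _ (Set.mem_insert _ _) h (h1 hx)
  · exact h1 hz

theorem Conn.union {S : Set G} {F F' : Set X} (hF : Conn S F) (hF' : Conn S F') {x : X}
    (hx : x ∈ F) (hx' : x ∈ F') : Conn S (F ∪ F') := by
  rintro Y ⟨z, hz, hz'⟩ hY
  have c1 : ∀ a ∈ F, ∀ b ∈ F, Adj S a b → a ∈ Y → b ∈ Y := fun a ha b hb hab =>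
    hY _ (Or.inl ha) _ (Or.inl hb) hab
  have c2 : ∀ a ∈ F', ∀ b ∈ F', Adj S a b → a ∈ Y → b ∈ Y := fun a ha b hb hab =>
    hY _ (Or.inr ha) _ (Or.inr hb) hab
  rcases hz with hz | hz
  · have h1 := hF Y ⟨z, hz, hz'⟩ c1
    exact Set.union_subset h1 (hF' Y ⟨x, hx', h1 hx⟩ c2)
  · have h1 := hF' Y ⟨z, hz, hz'⟩ c2
    exact Set.union_subset (hF Y ⟨x, hx, h1 hx'⟩ c1) h1

theorem exists_conn {S : Set G} (hS : Conn S (Set.univ : Set X)) (x₀ : X) {F₀ : Set X}
    (hF₀ : F₀.Finite) : ∃ F : Set X, F.Finite ∧ Conn S F ∧ x₀ ∈ F ∧ F₀ ⊆ F := by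
  have h1 : ∀ x : X, ∃ F : Set X, F.Finite ∧ Conn S F ∧ x₀ ∈ F ∧ x ∈ F := by
    intro x
    refine hS {x | ∃ F : Set X, F.Finite ∧ Conn S F ∧ x₀ ∈ F ∧ x ∈ F} ?_ ?_ (Set.mem_univ x)
    · exact ⟨x₀, trivial, {x₀}, Set.finite_singleton _, conn_singleton S x₀, rfl, rfl⟩
    · rintro x - y - hxy ⟨F, h1, h2, h3, h4⟩
      exact ⟨insert y F, h1.insert y, h2.insert h4 hxy, Set.mem_insert_of_mem _ h3,
        Set.mem_insert _ _⟩
  induction F₀, hF₀ using Set.Finite.induction_on with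
  | empty => exact ⟨{x₀}, Set.finite_singleton _, conn_singleton S x₀, rfl, Set.empty_subset _⟩
  | insert _ _ ih =>
    obtain ⟨F, h2, h3, h4, h5⟩ := ih
    rename_i a s _ _
    obtain ⟨F', h2', h3', h4', h5'⟩ := h1 a
    refine ⟨F ∪ F', h2.union h2', h3.union h3' h4 h4', Or.inl h4, ?_⟩
    exact Set.insert_subset (Or.inr h5') (h5.trans Set.subset_union_left)

theorem Conn.dichotomy {S : Set G} {F B : Set X} (hF : Conn S F) (h : ∀ x ∈ F, x ∉ bdry S B) :
    F ⊆ B ∨ F ⊆ Bᶜ := by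
  by_cases h1 : ∃ x ∈ F, x ∈ B
  · left
    refine hF B h1 (fun x hx y hy hxy hxB => ?_)
    by_contra hyB
    exact h x hx ⟨y, hxy, fun h => hyB (h.1 hxB)⟩
  · right
    push Not at h1
    exact h1

theorem Conn.preimage {S : Set G} {F : Set X} (hF : Conn S F) {σ : Equiv.Perm X}
    (hσ : σ ∈ Cen G X) : Conn S (σ ⁻¹' F) := by
  rintro Y ⟨x, hx, hx'⟩ hY
  have h1 : F ⊆ (σ⁻¹ : Equiv.Perm X) ⁻¹' Y := by
    refine hF _ ⟨σ x, hx, ?_⟩ ?_
    · simpa using hx'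
    · intro a ha b hb hab haY
      refine hY _ ?_ _ ?_ (hab.map (Subgroup.inv_mem _ hσ)) haY
      · simpa using ha
      · simpa using hb
  intro x hx
  have h2 := h1 hx
  simpa using h2

theorem bdry_preimage {S : Set G} {B : Set X} {σ : Equiv.Perm X} (hσ : σ ∈ Cen G X) {x : X}
    (hx : x ∈ bdry S (σ ⁻¹' B)) : σ x ∈ bdry S B := by
  obtain ⟨y, hxy, h⟩ := hx
  exact ⟨σ y, hxy.map hσ, h⟩

/-- sets without boundary are trivial -/
theorem trivial_of_bdry {S : Set G} (hS : Conn S (Set.univ : Set X)) {Y : Set X}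
    (h : ∀ x y, Adj S x y → x ∈ Y → y ∈ Y) : Y = ∅ ∨ Y = Set.univ := by
  by_cases h1 : Y.Nonempty
  · right
    obtain ⟨x, hx⟩ := h1
    exact Set.eq_univ_of_univ_subset (hS Y ⟨x, trivial, hx⟩ (fun x _ y _ hxy => h x y hxy))
  · left
    exact Set.not_nonempty_iff_eq_empty.1 h1

theorem nesting {S : Set G} (hS : Conn S (Set.univ : Set X)) {B F : Set X} (hF : Conn S F)
    (hBF : bdry S B ⊆ F) {r : Equiv.Perm X} (hr : r ∈ Cen G X) (hFr : ∀ x ∈ F, r x ∉ F)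
    (h1 : (B ∩ r ⁻¹' B).Nonempty) (h2 : (Bᶜ ∩ (r ⁻¹' B)ᶜ).Nonempty) :
    (r ⁻¹' F ⊆ B ∧ F ⊆ (r ⁻¹' B)ᶜ ∧ r ⁻¹' B ⊆ B) ∨
    (r ⁻¹' F ⊆ Bᶜ ∧ F ⊆ r ⁻¹' B ∧ B ⊆ r ⁻¹' B) := by
  have hB' : ∀ x, x ∈ bdry S (r ⁻¹' B) → x ∈ r ⁻¹' F := fun x hx => hBF (bdry_preimage hr hx)
  have d1 : r ⁻¹' F ⊆ B ∨ r ⁻¹' F ⊆ Bᶜ := by
    refine (hF.preimage hr).dichotomy (fun x hx hx' => ?_)
    exact hFr x (hBF hx') hx
  have d2 : F ⊆ r ⁻¹' B ∨ F ⊆ (r ⁻¹' B)ᶜ := by
    refine hF.dichotomy (fun x hx hx' => ?_)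
    exact hFr x hx (hB' x hx')
  obtain ⟨a, ha, ha'⟩ := h1
  obtain ⟨b, hb, hb'⟩ := h2
  rcases d1 with d1 | d1 <;> rcases d2 with d2 | d2
  · -- F' ⊆ B, F ⊆ B'
    exfalso
    rcases trivial_of_bdry hS (Y := Bᶜ ∩ (r ⁻¹' B)ᶜ) (fun x y hxy hx => by
      refine ⟨fun hy => ?_, fun hy => ?_⟩
      · exact hx.2 (d2 (hBF ⟨y, hxy, fun h => hx.1 (h.2 hy)⟩))
      · exact hx.1 (d1 (hB' x ⟨y, hxy, fun h => hx.2 (h.2 hy)⟩))) with h | h
    · have : b ∈ (∅ : Set X) := h ▸ ⟨hb, hb'⟩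
      exact this
    · have : a ∈ Bᶜ ∩ (r ⁻¹' B)ᶜ := h ▸ trivial
      exact this.1 ha
  · -- F' ⊆ B, F ⊆ B'ᶜ
    left
    refine ⟨d1, d2, ?_⟩
    rcases trivial_of_bdry hS (Y := Bᶜ ∩ (r ⁻¹' B)) (fun x y hxy hx => by
      refine ⟨fun hy => ?_, ?_⟩
      · exact d2 (hBF ⟨y, hxy, fun h => hx.1 (h.2 hy)⟩) hx.2
      · by_contra hy
        exact hx.1 (d1 (hB' x ⟨y, hxy, fun h => hy (h.1 hx.2)⟩))) with h | h
    · intro x hx
      by_contra hxB
      have : x ∈ (∅ : Set X) := h ▸ ⟨hxB, hx⟩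
      exact this
    · exfalso
      have : a ∈ Bᶜ ∩ (r ⁻¹' B) := h ▸ trivial
      exact this.1 ha
  · -- F' ⊆ Bᶜ, F ⊆ B'
    right
    refine ⟨d1, d2, ?_⟩
    rcases trivial_of_bdry hS (Y := B ∩ (r ⁻¹' B)ᶜ) (fun x y hxy hx => by
      refine ⟨?_, fun hy => ?_⟩
      · by_contra hy
        exact hx.2 (d2 (hBF ⟨y, hxy, fun h => hy (h.1 hx.1)⟩))
      · exact d1 (hB' x ⟨y, hxy, fun h => hx.2 (h.2 hy)⟩) hx.1) with h | h
    · intro x hx
      by_contra hxB
      have : x ∈ (∅ : Set X) := h ▸ ⟨hx, hxB⟩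
      exact this
    · exfalso
      have : a ∈ B ∩ (r ⁻¹' B)ᶜ := h ▸ trivial
      exact this.2 ha'
  · -- F' ⊆ Bᶜ, F ⊆ B'ᶜ
    exfalso
    rcases trivial_of_bdry hS (Y := B ∩ (r ⁻¹' B)) (fun x y hxy hx => by
      refine ⟨?_, ?_⟩
      · by_contra hy
        exact d2 (hBF ⟨y, hxy, fun h => hy (h.1 hx.1)⟩) hx.2
      · by_contra hy
        exact d1 (hB' x ⟨y, hxy, fun h => hy (h.1 hx.2)⟩) hx.1) with h | h
    · have : a ∈ (∅ : Set X) := h ▸ ⟨ha, ha'⟩
      exact this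
    · have : b ∈ B ∩ (r ⁻¹' B) := h ▸ trivial
      exact hb this.1

/-- nested translates exhaust the space -/
theorem exhaust {S : Set G} (hS : Conn S (Set.univ : Set X)) {B F : Set X}
    (hBF : bdry S B ⊆ F) {t : Equiv.Perm X} (ht : t ∈ Cen G X) (hFt : ∀ x ∈ F, t x ∉ F)
    (hne : B ≠ ∅) (hnu : B ≠ Set.univ) (h1 : F ⊆ (t ⁻¹' B)ᶜ) (h2 : t ⁻¹' B ⊆ B) (x : X) :
    ∃ n : ℤ, (t ^ n) x ∈ B \ (t ⁻¹' B) := by
  have h3 : ∀ x, t x ∈ B → x ∈ B := fun x hx => h2 hx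
  have key : ∀ x y, Adj S x y → x ∈ B → t x ∉ B → ∃ m : ℤ, (t ^ m) y ∈ B \ (t ⁻¹' B) := by
    intro x y hxy hx htx
    by_contra hcon
    push Not at hcon
    have h0 := hcon 0
    have hp := hcon 1
    have hm := hcon (-1)
    have e1 : (t ^ (1 : ℤ)) y = t y := by rw [zpow_one]
    have e0 : (t ^ (0 : ℤ)) y = y := by rw [zpow_zero]; rfl
    have em : (t ^ (-1 : ℤ)) y = t⁻¹ y := by rw [zpow_neg_one]
    rw [e0] at h0
    rw [e1] at hp
    rw [em] at hm
    by_cases hy : y ∈ B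
    · have hty : t y ∈ B := by
        by_contra h
        exact h0 ⟨hy, h⟩
      have htty : t (t y) ∈ B := by
        by_contra h
        exact hp ⟨hty, h⟩
      have httx : t (t x) ∉ B := fun h => htx (h3 _ h)
      have f1 : t x ∈ F := hBF ⟨t y, hxy.map ht, fun h => htx (h.2 hty)⟩
      have f2 : t (t x) ∈ F := hBF ⟨t (t y), (hxy.map ht).map ht, fun h => httx (h.2 htty)⟩
      exact hFt _ f1 f2
    · have hty : t⁻¹ y ∉ B := by
        intro h
        refine hm ⟨h, ?_⟩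
        rw [Set.mem_preimage, perm_apply_inv]
        exact hy
      have htx' : t⁻¹ x ∈ B := by
        apply h3
        rw [perm_apply_inv]
        exact hx
      have f1 : x ∈ F := hBF ⟨y, hxy, fun h => hy (h.1 hx)⟩
      have f2 : t⁻¹ x ∈ F := hBF ⟨t⁻¹ y, hxy.map (Subgroup.inv_mem _ ht),
        fun h => hty (h.1 htx')⟩
      apply hFt _ f2
      rw [perm_apply_inv]
      exact f1
  have hY : ({x | ∃ n : ℤ, (t ^ n) x ∈ B \ (t ⁻¹' B)} : Set X) = ∅ ∨
      ({x | ∃ n : ℤ, (t ^ n) x ∈ B \ (t ⁻¹' B)} : Set X) = Set.univ := by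
    apply trivial_of_bdry hS
    rintro x y hxy ⟨n, hn⟩
    obtain ⟨m, hm⟩ := key ((t ^ n) x) ((t ^ n) y) (hxy.map (Subgroup.zpow_mem _ ht n)) hn.1 hn.2
    refine ⟨m + n, ?_⟩
    rwa [zpow_add, Equiv.Perm.mul_apply]
  rcases hY with hY | hY
  · exfalso
    rcases trivial_of_bdry hS (Y := B) (fun x y hxy hx => by
      by_contra hy
      have hxF : x ∈ F := hBF ⟨y, hxy, fun h => hy (h.1 hx)⟩
      have hx' : x ∈ ({x | ∃ n : ℤ, (t ^ n) x ∈ B \ (t ⁻¹' B)} : Set X) :=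
        ⟨0, by rw [zpow_zero]; exact ⟨hx, h1 hxF⟩⟩
      rw [hY] at hx'
      exact hx') with h | h
    · exact hne h
    · exact hnu h
  · have : x ∈ ({x | ∃ n : ℤ, (t ^ n) x ∈ B \ (t ⁻¹' B)} : Set X) := hY ▸ trivial
    exact this

variable (G X) in
/-- there are `m` almost disjoint infinite almost invariant sets -/
def PP (m : ℕ) : Prop := ∃ B : Fin m → Set X, (∀ i, AI G (B i) ∧ (B i).Infinite) ∧
  ∀ i j, i ≠ j → (B i ∩ B j).Finite

theorem PP.add {m : ℕ} {B : Fin m → Set X} (h1 : ∀ i, AI G (B i) ∧ (B i).Infinite)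
    (h2 : ∀ i j, i ≠ j → (B i ∩ B j).Finite) {C : Set X} (hC : AI G C) (hC' : C.Infinite)
    (h : ∀ i, (B i ∩ C).Finite) : PP G X (m + 1) := by
  refine ⟨Fin.cons C B, ?_, ?_⟩
  · intro i
    refine Fin.cases ?_ (fun i => ?_) i
    · exact ⟨hC, hC'⟩
    · rw [Fin.cons_succ]
      exact h1 i
  · intro i j
    refine Fin.cases ?_ (fun i => ?_) i <;> refine Fin.cases ?_ (fun j => ?_) j
    · intro h; exact absurd rfl h
    · intro _
      rw [Fin.cons_zero, Fin.cons_succ, Set.inter_comm]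
      exact h j
    · intro _
      rw [Fin.cons_zero, Fin.cons_succ]
      exact h i
    · intro hij
      rw [Fin.cons_succ, Fin.cons_succ]
      exact h2 i j (fun h => hij (congrArg Fin.succ h))

theorem PP.split {m : ℕ} {B : Fin m → Set X} (h1 : ∀ i, AI G (B i) ∧ (B i).Infinite)
    (h2 : ∀ i j, i ≠ j → (B i ∩ B j).Finite) {C : Set X} (hC : AI G C) (j : Fin m)
    (h : (B j ∩ C).Infinite) (h' : (B j \ C).Infinite) : PP G X (m + 1) := by
  classical
  have hup : ∀ i, (Function.update B j (B j \ C)) i ⊆ B i := by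
    intro i
    by_cases hi : i = j
    · subst hi
      rw [Function.update_self]
      exact Set.sdiff_subset
    · rw [Function.update_of_ne hi]
  refine PP.add (B := Function.update B j (B j \ C)) (C := B j ∩ C) ?_ ?_
    ((h1 j).1.inter hC) h ?_
  · intro i
    by_cases hi : i = j
    · subst hi
      rw [Function.update_self]
      exact ⟨(h1 i).1.diff hC, h'⟩
    · rw [Function.update_of_ne hi]
      exact h1 i
  · intro i i' hii'
    exact (h2 i i' hii').subset (Set.inter_subset_inter (hup i) (hup i'))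
  · intro i
    by_cases hi : i = j
    · subst hi
      rw [Function.update_self]
      refine Set.finite_empty.subset ?_
      rintro x ⟨⟨_, h1⟩, _, h2⟩
      exact h1 h2
    · exact (h2 i j hi).subset (Set.inter_subset_inter (hup i) Set.inter_subset_left)

/-- equality up to finite sets -/
def AE (A B : Set X) : Prop := (A \ B).Finite ∧ (B \ A).Finite

theorem AE.symm {A B : Set X} (h : AE A B) : AE B A := ⟨h.2, h.1⟩

theorem AE.trans {A B C : Set X} (h : AE A B) (h' : AE B C) : AE A C := by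
  refine ⟨(h.1.union h'.1).subset ?_, (h.2.union h'.2).subset ?_⟩
  · rintro x ⟨hx, hx'⟩
    by_cases hB : x ∈ B
    · exact Or.inr ⟨hB, hx'⟩
    · exact Or.inl ⟨hx, hB⟩
  · rintro x ⟨hx, hx'⟩
    by_cases hB : x ∈ B
    · exact Or.inl ⟨hB, hx'⟩
    · exact Or.inr ⟨hx, hB⟩

theorem AE.preimage {A B : Set X} (h : AE A B) (σ : Equiv.Perm X) : AE (σ ⁻¹' A) (σ ⁻¹' B) :=
  ⟨(h.1.preimage (f := σ) σ.injective.injOn).subset (fun _ hx => hx),
    (h.2.preimage (f := σ) σ.injective.injOn).subset (fun _ hx => hx)⟩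

theorem AE.inter_infinite {A B : Set X} (h : AE A B) (hA : A.Infinite) : (A ∩ B).Infinite := by
  intro h1
  apply hA
  refine (h1.union h.1).subset ?_
  intro x hx
  by_cases hB : x ∈ B
  · exact Or.inl ⟨hx, hB⟩
  · exact Or.inr ⟨hx, hB⟩

theorem AE.compl {A B : Set X} (h : AE A B) : AE Aᶜ Bᶜ := by
  refine ⟨h.2.subset ?_, h.1.subset ?_⟩
  · rintro x ⟨h1, h2⟩
    exact ⟨not_not.1 h2, h1⟩
  · rintro x ⟨h1, h2⟩
    exact ⟨not_not.1 h2, h1⟩

/-- **Main theorem on ends.** -/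
theorem main [MulAction.IsPretransitive G X] (hG : Group.FG G) [Infinite (Cen G X)]
    (h2 : PP G X 2) (k : ℕ) (hk : ¬ PP G X (k + 3)) :
    ∃ t ∈ Cen G X, ∃ D : Set X, D.Finite ∧ ∀ x, ∃ n : ℤ, (t ^ n) x ∈ D := by
  classical
  obtain ⟨S, hS, hSf⟩ := (Group.fg_iff (G := G)).1 hG
  have hconn : Conn S (Set.univ : Set X) := conn_univ hS
  -- a maximal family
  have hm : ∃ m : ℕ, PP G X (m + 2) ∧ ¬ PP G X (m + 3) := by
    have hex : ∃ n, ¬ PP G X (n + 3) := ⟨k, hk⟩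
    refine ⟨Nat.find hex, ?_, Nat.find_spec hex⟩
    rcases hn : Nat.find hex with _ | n
    · exact h2
    · have := Nat.find_min hex (m := n) (by omega)
      exact not_not.1 this
  obtain ⟨m, ⟨B, hB1, hB2⟩, hm'⟩ := hm
  let B0 : Set X := B 0
  have hB0i : B0.Infinite := (hB1 0).2
  have hB0c : B0ᶜ.Infinite := by
    intro h
    apply (hB1 1).2
    refine (h.union (hB2 0 1 (by simp))).subset ?_
    intro x hx
    by_cases hx' : x ∈ B0
    · exact Or.inr ⟨hx', hx⟩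
    · exact Or.inl hx'
  have step : ∀ r : Cen G X, ∃ j, AE ((r : Equiv.Perm X) ⁻¹' B0) (B j) := by
    rintro ⟨r, hr⟩
    have hAI : AI G (r ⁻¹' B0) := (hB1 0).1.preimage hr
    have hinf : (r ⁻¹' B0).Infinite := by
      intro h
      apply hB0i
      have h' := h.preimage ((r⁻¹ : Equiv.Perm X).injective.injOn)
      refine h'.subset ?_
      intro x hx
      simpa using hx
    have h1 : ∃ j, (B j ∩ r ⁻¹' B0).Infinite := by
      by_contra hcon
      simp only [not_exists, Set.not_infinite] at hcon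
      exact hm' (PP.add hB1 hB2 hAI hinf hcon)
    obtain ⟨j, hj⟩ := h1
    refine ⟨j, ?_, ?_⟩
    · by_contra hcon
      have hcon' : (r ⁻¹' B0 \ B j).Infinite := hcon
      refine hm' (PP.split hB1 hB2 ((hB1 j).1.preimage (Subgroup.inv_mem _ hr)) 0 ?_ ?_)
      · intro h
        apply hj
        refine (h.preimage r.injective.injOn).subset ?_
        rintro x ⟨hx, hx'⟩
        refine ⟨hx', ?_⟩
        simpa using hx
      · intro h
        apply hcon'
        refine (h.preimage r.injective.injOn).subset ?_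
        rintro x ⟨hx, hx'⟩
        refine ⟨hx, ?_⟩
        simpa using hx'
    · by_contra hcon
      exact hm' (PP.split hB1 hB2 hAI j hj hcon)
  choose f hf using step
  obtain ⟨j, hj⟩ := Finite.exists_infinite_fiber f
  have hj' : (f ⁻¹' {j}).Infinite := Set.infinite_coe_iff.1 hj
  obtain ⟨r₀, hr₀⟩ := hj'.nonempty
  have hae : ∀ r ∈ f ⁻¹' {j}, AE ((r * r₀⁻¹ : Cen G X) ⁻¹' B0 : Set X) B0 := by
    intro r hr
    have e1 := hf r
    have e2 := hf r₀
    rw [Set.mem_preimage, Set.mem_singleton_iff] at hr hr₀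
    rw [hr] at e1
    rw [hr₀] at e2
    have e3 := (e1.trans e2.symm).preimage ((r₀ : Equiv.Perm X)⁻¹)
    have e4 : (((r₀ : Equiv.Perm X)⁻¹ : Equiv.Perm X) ⁻¹' ((r₀ : Equiv.Perm X) ⁻¹' B0)) = B0 := by
      ext x
      simp
    rw [e4] at e3
    exact e3
  -- finite connected neighbourhood of the boundary
  obtain ⟨x₀, hx₀⟩ := hB0i.nonempty
  obtain ⟨F, hFf, hFc, -, hBF⟩ := exists_conn hconn x₀ (bdry_finite hSf (hB1 0).1)
  have hbad : {q : Cen G X | ∃ x ∈ F, (q : Equiv.Perm X) x ∈ F}.Finite := by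
    have h3 : {q : Cen G X | ∃ x ∈ F, (q : Equiv.Perm X) x ∈ F} ⊆
        ⋃ a ∈ F, ⋃ b ∈ F, {q : Cen G X | (q : Equiv.Perm X) a = b} := by
      rintro q ⟨x, hx, hx'⟩
      simp only [Set.mem_iUnion]
      exact ⟨x, hx, _, hx', rfl⟩
    refine Set.Finite.subset (hFf.biUnion (fun a _ => hFf.biUnion (fun b _ => ?_))) h3
    apply Set.Subsingleton.finite
    rintro ⟨q, hq⟩ h ⟨q', hq'⟩ h'
    apply Subtype.ext
    ext x
    obtain ⟨g, rfl⟩ := MulAction.exists_smul_eq G a x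
    change q (g • a) = q' (g • a)
    rw [Cen.apply_smul hq, Cen.apply_smul hq']
    change q a = b at h
    change q' a = b at h'
    rw [h, h']
  have hgood : ∃ r ∈ f ⁻¹' {j}, (r * r₀⁻¹) ∉ {q : Cen G X | ∃ x ∈ F, (q : Equiv.Perm X) x ∈ F} := by
    by_contra hcon
    push Not at hcon
    apply hj'
    exact (hbad.preimage (f := fun r : Cen G X => r * r₀⁻¹)
      (fun a _ b _ h => mul_right_cancel h)).subset hcon
  obtain ⟨r, hr, hr'⟩ := hgood
  have hq := hae r hr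
  set q : Cen G X := r * r₀⁻¹ with hqdef
  have hqF : ∀ x ∈ F, (q : Equiv.Perm X) x ∉ F := fun x hx h => hr' ⟨x, hx, h⟩
  have hne : B0 ≠ ∅ := hB0i.nonempty.ne_empty
  have hnu : B0 ≠ Set.univ := by
    intro h
    rw [h, Set.compl_univ] at hB0c
    exact hB0c Set.finite_empty
  have n1 : (B0 ∩ (q : Equiv.Perm X) ⁻¹' B0).Nonempty := (hq.symm.inter_infinite hB0i).nonempty
  have n2 : (B0ᶜ ∩ ((q : Equiv.Perm X) ⁻¹' B0)ᶜ).Nonempty :=
    (hq.symm.compl.inter_infinite hB0c).nonempty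
  rcases nesting hconn hFc hBF q.2 hqF n1 n2 with ⟨-, c2, c3⟩ | ⟨d1, -, d3⟩
  · exact ⟨q, q.2, _, hq.symm.1, exhaust hconn hBF q.2 hqF hne hnu c2 c3⟩
  · refine ⟨(q : Equiv.Perm X)⁻¹, Subgroup.inv_mem _ q.2, B0 \ (((q : Equiv.Perm X)⁻¹ : Equiv.Perm X) ⁻¹' B0), ?_,
      exhaust hconn hBF (Subgroup.inv_mem _ q.2) ?_ hne hnu ?_ ?_⟩
    · have h4 := hq.preimage ((q : Equiv.Perm X)⁻¹)
      have e4 : (((q : Equiv.Perm X)⁻¹ : Equiv.Perm X) ⁻¹' ((q : Equiv.Perm X) ⁻¹' B0)) = B0 := by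
        ext x
        simp
      rw [e4] at h4
      exact h4.1
    · intro x hx hx'
      apply hqF _ hx'
      rw [perm_apply_inv]
      exact hx
    · intro x hx hx'
      refine d1 (show (q : Equiv.Perm X)⁻¹ x ∈ (q : Equiv.Perm X) ⁻¹' F from ?_) hx'
      rw [Set.mem_preimage, perm_apply_inv]
      exact hx
    · intro x hx
      have h5 := d3 hx
      rw [Set.mem_preimage, perm_apply_inv] at h5
      exact h5

end Run7.h817.Ends
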