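import Pool.Agent.Run7.h817.Link
import Mathlib.LinearAlgebra.Dimension.Finite

/-! Relations between cycles when the homology is finite-dimensional. -/

namespace Run7.h817

open CategoryTheory Limits

variable {k K : Type} [Field k] [Group K]

theorem exists_cycle_relation (V : Rep k K) (m : ℕ) [Module.Finite k (groupHomology V (m + 1))] (n : ℕ)
    (hn : Module.finrank k (groupHomology V (m + 1)) < n)
    (z : Fin n → ((Fin (m + 1) → K) →₀ V))
    (hz : ∀ i, (groupHomology.inhomogeneousChains.d V m).hom (z i) = 0) :
    ∃ a : Fin n → k, a ≠ 0 ∧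
      ∃ y, (groupHomology.inhomogeneousChains.d V (m + 1)).hom y = ∑ i, a i • z i := by
  have hz' : ∀ i, (groupHomology.inhomogeneousChains V).d (m + 1) m (z i) = 0 := by
    intro i
    rw [groupHomology.inhomogeneousChains.d_def]
    exact hz i
  let c : Fin n → groupHomology.cycles V (m + 1) := fun i =>
    groupHomology.cyclesMk (m + 1) m (by simp) (z i) (hz' i)
  have h1 : ¬ LinearIndependent k (fun i => (groupHomology.π V (m + 1)).hom (c i)) := by
    intro h
    have h2 := h.fintype_card_le_finrank
    rw [Fintype.card_fin] at h2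
    omega
  rw [Fintype.not_linearIndependent_iff] at h1
  obtain ⟨a, ha, i, hi⟩ := h1
  refine ⟨a, fun h => hi (congrFun h i), ?_⟩
  have h2 : (groupHomology.π V (m + 1)).hom (∑ i, a i • c i) = 0 := by
    rw [map_sum, ← ha]
    exact Finset.sum_congr rfl (fun i _ => map_smul _ _ _)
  let S := ShortComplex.mk ((groupHomology.inhomogeneousChains V).toCycles (m + 2) (m + 1))
    ((groupHomology.inhomogeneousChains V).homologyπ (m + 1)) (by simp)
  have hS : S.Exact := S.exact_of_g_is_cokernel
    ((groupHomology.inhomogeneousChains V).homologyIsCokernel (m + 2) (m + 1) (by simp))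
  rw [ShortComplex.moduleCat_exact_iff] at hS
  obtain ⟨y, hy⟩ := hS _ h2
  refine ⟨y, ?_⟩
  have h3 := congrArg (groupHomology.iCycles V (m + 1)).hom hy
  have h4 : (groupHomology.iCycles V (m + 1)).hom (S.f.hom y) =
      (groupHomology.inhomogeneousChains.d V (m + 1)).hom y := by
    have h5 : S.f ≫ groupHomology.iCycles V (m + 1) =
      (groupHomology.inhomogeneousChains V).d (m + 2) (m + 1) :=
      (groupHomology.inhomogeneousChains V).toCycles_i (m + 2) (m + 1)
    rw [groupHomology.inhomogeneousChains.d_def] at h5
    exact congrArg (fun f => f.hom y) h5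
  have h6 : (groupHomology.iCycles V (m + 1)).hom (∑ i, a i • c i) = ∑ i, a i • z i := by
    rw [map_sum]
    refine Finset.sum_congr rfl (fun i _ => ?_)
    rw [map_smul]
    congr 1
    exact groupHomology.iCycles_mk (by simp) (z i) (hz' i)
  rw [← h4, ← h6]
  exact h3

end Run7.h817
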