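import Pool.Agent.Run7.h817.Rel
import Pool.Agent.Run7.h817.FinDim
import Pool.Agent.Run7.h817.Ends
import Mathlib.Tactic.LinearCombination

/-! Cocycles with values in `ℂ[G/K]` and almost invariant functions on `G/K`. -/

namespace Run7.h817

open CategoryTheory Limits

universe u

variable {G : Type u} [Group G]

/-- almost invariant functions -/
def AIF (K : Subgroup G) (f : G ⧸ K → ℂ) : Prop := ∀ g : G, {x | f (g⁻¹ • x) ≠ f x}.Finite

variable (K : Subgroup G)

/-- the trivial representation -/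
abbrev trv : Representation ℂ K ℂ := Representation.trivial ℂ K ℂ

theorem gmap_trv (g : G) (w : (G ⧸ K) →₀ ℂ) (x : G ⧸ K) :
    gmap K (trv K) g w x = w (g⁻¹ • x) := by
  have h := gmap_apply K (trv K) g w (g⁻¹ • x)
  rw [smul_inv_smul] at h
  rw [h]
  rfl

/-- the cocycle of an almost invariant function -/
noncomputable def cocF {f : G ⧸ K → ℂ} (hf : AIF K f) (g : G) : (G ⧸ K) →₀ ℂ :=
  Finsupp.ofSupportFinite (fun x => f (g⁻¹ • x) - f x) (by
    refine (hf g).subset ?_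
    intro x hx
    rw [Function.mem_support, sub_ne_zero] at hx
    exact hx)

theorem cocF_apply {f : G ⧸ K → ℂ} (hf : AIF K f) (g : G) (x : G ⧸ K) :
    cocF K hf g x = f (g⁻¹ • x) - f x := rfl

theorem cocF_cocycle {f : G ⧸ K → ℂ} (hf : AIF K f) (g h : G) :
    cocF K hf (g * h) = gmap K (trv K) g (cocF K hf h) + cocF K hf g := by
  ext x
  rw [Finsupp.add_apply, gmap_trv, cocF_apply, cocF_apply, cocF_apply, mul_inv_rev, mul_smul]
  ring

/-- a function whose coboundary is that of a finitely supported function is almost constant -/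
theorem const_of_coboundary {f : G ⧸ K → ℂ} (w : (G ⧸ K) →₀ ℂ)
    (h : ∀ (g : G) (x : G ⧸ K), f (g⁻¹ • x) - f x = w (g⁻¹ • x) - w x) :
    ∃ e : ℂ, {x | f x ≠ e}.Finite := by
  refine ⟨f ((1 : G) : G ⧸ K) - w ((1 : G) : G ⧸ K), w.support.finite_toSet.subset ?_⟩
  intro x hx
  rw [Finset.mem_coe, Finsupp.mem_support_iff]
  intro hw
  apply hx
  obtain ⟨g, hg⟩ := MulAction.exists_smul_eq G x ((1 : G) : G ⧸ K)
  have h1 := h g⁻¹ x
  rw [inv_inv, hg, hw] at h1
  linear_combination -h1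

/-- From a cocycle to a function: if the cocycle vanishes at the base point on `K`. -/
theorem exists_function (C : G → ((G ⧸ K) →₀ ℂ))
    (hC : ∀ g h, C (g * h) = gmap K (trv K) g (C h) + C g)
    (h0 : ∀ k ∈ K, C k ((1 : G) : G ⧸ K) = 0) :
    ∃ f : G ⧸ K → ℂ, ∀ (g : G) (x : G ⧸ K), C g x = f (g⁻¹ • x) - f x := by
  have hC' : ∀ (g h : G) (x : G ⧸ K), C (g * h) x = C h (g⁻¹ • x) + C g x := by
    intro g h x
    rw [hC, Finsupp.add_apply, gmap_trv]
  have h1 : ∀ (g g' : G), (g : G ⧸ K) = (g' : G ⧸ K) → C g (g : G ⧸ K) = C g' (g : G ⧸ K) := by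
    intro g g' hg
    have h2 : g⁻¹ * g' ∈ K := QuotientGroup.eq.1 hg
    have h3 := hC' g (g⁻¹ * g') (g : G ⧸ K)
    rw [mul_inv_cancel_left] at h3
    have h4 : g⁻¹ • (g : G ⧸ K) = ((1 : G) : G ⧸ K) := by
      change ((g⁻¹ * g : G) : G ⧸ K) = _
      rw [inv_mul_cancel]
    rw [h4, h0 _ h2, zero_add] at h3
    exact h3.symm
  refine ⟨fun x => - C (Quotient.out x) x, fun g x => ?_⟩
  let h : G := Quotient.out (g⁻¹ • x)
  have e1 : ((h : G) : G ⧸ K) = g⁻¹ • x := Quotient.out_eq _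
  have e2 : ((g * h : G) : G ⧸ K) = x := by
    change g • ((h : G) : G ⧸ K) = x
    rw [e1, smul_inv_smul]
  have e3 : ((Quotient.out x : G) : G ⧸ K) = x := Quotient.out_eq _
  have h2 := hC' g h x
  have h3 := h1 (g * h) (Quotient.out x) (by rw [e2, e3])
  rw [e2] at h3
  change C g x = - C h (g⁻¹ • x) - (- C (Quotient.out x) x)
  rw [← h3, h2]
  ring

/-- The base point vanishing: `K` finitely generated, of infinite index in its normaliser. -/
theorem vanish_of_normalizer (hfg : K.FG) (hinf : Set.Infinite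
      {x : G ⧸ K | ∃ a ∈ Subgroup.normalizer (K : Set G), x = (a : G ⧸ K)}) (C : G → ((G ⧸ K) →₀ ℂ))
    (hC : ∀ g h, C (g * h) = gmap K (trv K) g (C h) + C g) :
    ∀ k ∈ K, C k ((1 : G) : G ⧸ K) = 0 := by
  have hC' : ∀ (g h : G) (x : G ⧸ K), C (g * h) x = C h (g⁻¹ • x) + C g x := by
    intro g h x
    rw [hC, Finsupp.add_apply, gmap_trv]
  obtain ⟨S, hS⟩ := hfg
  have h1 : ∃ a ∈ Subgroup.normalizer (K : Set G), ∀ s ∈ S, C s (a : G ⧸ K) = 0 := by
    by_contra hcon
    push Not at hcon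
    apply hinf
    refine (S.finite_toSet.biUnion (fun s _ => (C s).support.finite_toSet)).subset ?_
    rintro x ⟨a, ha, rfl⟩
    obtain ⟨s, hs, hs'⟩ := hcon a ha
    rw [Set.mem_iUnion₂]
    exact ⟨s, hs, Finsupp.mem_support_iff.2 hs'⟩
  obtain ⟨a, ha, hSa⟩ := h1
  -- K fixes the coset of a
  have hfix : ∀ k ∈ K, k • (a : G ⧸ K) = (a : G ⧸ K) := by
    intro k hk
    change ((k * a : G) : G ⧸ K) = _
    rw [QuotientGroup.eq]
    have h2 := (Subgroup.mem_normalizer_iff.1 (Subgroup.inv_mem _ ha) k⁻¹).1 (K.inv_mem hk)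
    rw [inv_inv] at h2
    rw [mul_inv_rev]
    exact h2
  have hfix1 : ∀ k ∈ K, k • ((1 : G) : G ⧸ K) = ((1 : G) : G ⧸ K) := by
    intro k hk
    change ((k * 1 : G) : G ⧸ K) = _
    rw [QuotientGroup.eq, mul_one, mul_one]
    exact K.inv_mem hk
  have hone : ∀ x : G ⧸ K, C 1 x = 0 := by
    intro x
    have := hC' 1 1 x
    rw [mul_one, inv_one, one_smul] at this
    linear_combination -this
  have h2 : ∀ k ∈ K, C k (a : G ⧸ K) = 0 := by
    intro k hk
    have hk' : k ∈ Subgroup.closure (S : Set G) := by rw [hS]; exact hk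
    induction hk' using Subgroup.closure_induction with
    | mem s hs => exact hSa s hs
    | one => exact hone _
    | mul x y hx hy ihx ihy =>
      have hx' : x ∈ K := hS ▸ hx
      have hy' : y ∈ K := hS ▸ hy
      rw [hC', hfix x⁻¹ (K.inv_mem hx'), ihx hx', ihy hy', add_zero]
    | inv x hx ihx =>
      have hx' : x ∈ K := hS ▸ hx
      have h3 := hC' x x⁻¹ (a : G ⧸ K)
      rw [mul_inv_cancel, hone, hfix x⁻¹ (K.inv_mem hx'), ihx hx', add_zero] at h3
      exact h3.symm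
  intro k hk
  have hk2 : a * k * a⁻¹ ∈ K := (Subgroup.mem_normalizer_iff.1 ha k).1 hk
  have h3 := h2 _ hk2
  have ha1 : a⁻¹ • (a : G ⧸ K) = ((1 : G) : G ⧸ K) := by
    change ((a⁻¹ * a : G) : G ⧸ K) = _
    rw [inv_mul_cancel]
  rw [hC', hC', mul_inv_rev, mul_smul, ha1, hfix1 _ (K.inv_mem hk)] at h3
  have h4 := hC' a a⁻¹ (a : G ⧸ K)
  rw [mul_inv_cancel, hone, ha1] at h4
  linear_combination h3 + h4

end Run7.h817
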