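import Pool.Agent.Run7.h817.FG

/-! The case `d = 0`, and the general statement. -/

namespace Run7.h817

open CategoryTheory TensorProduct MulOpposite

universe u

variable {G : Type u} [Group G]

/-- no invariants in the group algebra of an infinite group -/
theorem eq_zero_of_invariant [Infinite G] (a : CG G)
    (h : ∀ g : G, MonoidAlgebra.single g (1 : ℂ) * a = a) : a = 0 := by
  apply MonoidAlgebra.coeff_injective
  ext x
  rw [MonoidAlgebra.coeff_zero, Finsupp.zero_apply]
  by_contra hx
  obtain ⟨y, hy⟩ := Infinite.exists_notMem_finset a.coeff.support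
  apply hy
  rw [Finsupp.mem_support_iff]
  have h1 := h (y * x⁻¹)
  have h2 : (MonoidAlgebra.single (y * x⁻¹) (1 : ℂ) * a).coeff y = a.coeff x := by
    rw [MonoidAlgebra.coeff_single_mul_apply, one_mul]
    congr 1
    simp
  rw [← h2, h1] at hx
  exact hx

theorem dl_zero_eq {M : Type*} [AddCommGroup M] [Module (MonoidAlgebra ℂ G) M]
    (c : (Fin 0 → G) → M) (hc : dl 0 c = 0) (g : G) :
    MonoidAlgebra.single g (1 : ℂ) • c default = c default := by
  have h := congrFun hc (fun _ => g)
  rw [dl_apply] at h
  simp only [Fin.sum_univ_succ, Finset.univ_eq_empty, Finset.sum_empty, Pi.zero_apply] at h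
  rw [Subsingleton.elim (Fin.tail (fun _ => g)) default,
    Subsingleton.elim (Fin.contractNth 0 (fun x1 x2 : G => x1 * x2) fun _ => g) default] at h
  simp only [Fin.val_zero, zero_add, pow_one, neg_smul, one_smul, add_zero] at h
  exact eq_of_sub_eq_zero (by rw [sub_eq_add_neg]; exact h)

theorem finite_of_isCalabiYau_zero (h : IsCalabiYau (CG G) 0) : Finite G := by
  by_contra hinf
  rw [not_finite_iff_infinite] at hinf
  obtain ⟨φ, hφ⟩ := h.ext_iso
  let _ : Module (Env (CG G)) (CG G) := instModuleTensorProductMop ℂ (CG G)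
  let E : BarData.Aug (envBar G) (CG G) := envAug G
  obtain ⟨c, hc, hc'⟩ := BarData.cls_surj (M := Env (CG G)) E 0 (φ.symm 1)
  have h1 := cobd_kap_eq_zero hc
  have h2 : kap G (c default) = 0 := by
    ext z : 1
    rw [Finsupp.zero_apply]
    apply eq_zero_of_invariant
    intro g
    have h3 := dl_zero_eq _ h1 g
    have h4 := DFunLike.congr_fun h3 z
    rw [Finsupp.smul_apply] at h4
    exact h4
  have h3 : c = 0 := by
    funext x
    rw [Subsingleton.elim x default, ← kapInv_kap G (c default), h2, map_zero]
    rfl
  subst h3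
  have h4 : φ.symm (1 : CG G) = 0 := by
    rw [← hc']
    have := BarData.cls_add (M := Env (CG G)) E 0 0 0 hc hc (by rw [add_zero]; exact hc)
    have h5 : BarData.cls (M := Env (CG G)) E 0 (0 + 0) (by rw [add_zero]; exact hc) =
        BarData.cls (M := Env (CG G)) E 0 0 hc := by
      congr 1
    rw [h5] at this
    exact left_eq_add.1 this
  rw [EmbeddingLike.map_eq_zero_iff] at h4
  exact one_ne_zero h4

/-- **Countable Calabi-Yau groups are finitely generated** (any dimension). -/
theorem fg_of_isCalabiYau' [Countable G] {d : ℕ} (h : IsCalabiYau (CG G) d) :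
    Group.FG G := by
  rcases d with _ | d
  · have := finite_of_isCalabiYau_zero h
    exact Group.fg_of_finite
  · exact fg_of_isCalabiYau h

end Run7.h817
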