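import Pool.Agent.Run7.h817.DualFree
import Pool.Agent.Run7.h817.BarY

/-! Closure properties of duality. -/

namespace Run7.h817

universe u v w x

variable {G : Type u} [Group G]

section

variable {K : Type v} {F : Type w} {M : Type x} [AddCommGroup K] [Module (CG G) K]
    [AddCommGroup F] [Module (CG G) F] [AddCommGroup M] [Module (CG G) M]
    {i : K →ₗ[CG G] F} {p : F →ₗ[CG G] M}

/-- lift a cochain along a surjection -/
theorem SES.lift (h : SES i p) {n : ℕ} (c : (Fin n → G) → M) :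
    ∃ c' : (Fin n → G) → F, (fun x => p (c' x)) = c := by
  refine ⟨fun x => Classical.choose (h.surj (c x)), ?_⟩
  funext x
  exact Classical.choose_spec (h.surj (c x))

/-- a cochain killed by `p` comes from `K` -/
theorem SES.pull (h : SES i p) {n : ℕ} (c : (Fin n → G) → F) (hc : (fun x => p (c x)) = 0) :
    ∃ c' : (Fin n → G) → K, (fun x => i (c' x)) = c := by
  refine ⟨fun x => Classical.choose (h.exact (c x) (congrFun hc x)), ?_⟩
  funext x
  exact Classical.choose_spec (h.exact (c x) (congrFun hc x))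

theorem SES.dl_zero_of (h : SES i p) {n : ℕ} (c : (Fin n → G) → K)
    (hc : dl n (fun x => i (c x)) = 0) : dl n c = 0 := by
  rw [dl_map] at hc
  funext x
  exact h.inj ((congrFun hc x).trans (map_zero i).symm)

theorem SES.dl_eq_of (h : SES i p) {n : ℕ} (b : (Fin n → G) → K) (c : (Fin (n + 1) → G) → K)
    (hc : dl n (fun x => i (b x)) = fun x => i (c x)) : dl n b = c := by
  rw [dl_map] at hc
  funext x
  exact h.inj (congrFun hc x)

end

theorem Dual.retract {d : ℕ} {c₀ : (Fin (d + 1) → G) → CG G} {M : Type v} [AddCommGroup M]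
    [Module (CG G) M] {N : Type w} [AddCommGroup N] [Module (CG G) N] (h : Dual c₀ M)
    (i : N →ₗ[CG G] M) (r : M →ₗ[CG G] N) (hr : ∀ x, r (i x) = x) : Dual c₀ N := by
  refine ⟨fun n hn => (h.van n hn).retract i r hr, ?_, ?_⟩
  · intro c hc
    obtain ⟨m, b, hb⟩ := h.surj (fun x => i (c x)) (dl_map_zero i hc)
    refine ⟨r m, fun x => r (b x), ?_⟩
    rw [dl_map, hb]
    funext x
    rw [Pi.sub_apply, map_sub, hr, Pi.sub_apply]
    congr 1
    exact congrFun (smulc_map c₀ r m) x
  · intro n b hb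
    have h1 := h.inj (i n) (fun x => i (b x)) (by rw [dl_map, hb, smulc_map])
    have h2 := gSub_map r h1
    rwa [hr] at h2

theorem Dual.ext {d : ℕ} {c₀ : (Fin (d + 1) → G) → CG G} (hc₀ : dl (d + 1) c₀ = 0)
    {K : Type v} {F : Type w} {M : Type x} [AddCommGroup K] [Module (CG G) K]
    [AddCommGroup F] [Module (CG G) F] [AddCommGroup M] [Module (CG G) M]
    {i : K →ₗ[CG G] F} {p : F →ₗ[CG G] M} (hs : SES i p) (hK : Dual c₀ K) (hF : Dual c₀ F) :
    Dual c₀ M := by
  have hsm : ∀ {N : Type x} [AddCommGroup N] [Module (CG G) N] (m : N),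
      dl (d + 1) (smulc c₀ m) = 0 := by
    intro N _ _ m
    rw [dl_smulc, hc₀]
    funext x
    exact zero_smul _ _
  have hsm' : ∀ (m : F), dl (d + 1) (smulc c₀ m) = 0 := by
    intro m
    rw [dl_smulc, hc₀]
    funext x
    exact zero_smul _ _
  refine ⟨?_, ?_, ?_⟩
  · intro n hn c hc
    obtain ⟨c', hc'⟩ := hs.lift c
    have h1 : (fun x => p (dl (n + 1) c' x)) = 0 := by rw [← dl_map, hc', hc]
    obtain ⟨k, hk⟩ := hs.pull _ h1
    have h2 : dl (n + 1 + 1) k = 0 := hs.dl_zero_of k (by rw [hk, dl_dl])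
    obtain ⟨k', hk'⟩ := hK.van (n + 1) (by omega) k h2
    have h3 : dl (n + 1) (c' - fun x => i (k' x)) = 0 := by
      rw [dl_sub, dl_map, hk', hk, sub_self]
    obtain ⟨f, hf⟩ := hF.van n hn _ h3
    refine ⟨fun x => p (f x), ?_⟩
    rw [dl_map, hf, ← hc']
    funext x
    rw [Pi.sub_apply, map_sub, hs.comp, sub_zero]
  · intro c hc
    obtain ⟨c', hc'⟩ := hs.lift c
    have h1 : (fun x => p (dl (d + 1) c' x)) = 0 := by rw [← dl_map, hc', hc]
    obtain ⟨k, hk⟩ := hs.pull _ h1
    have h2 : dl (d + 1 + 1) k = 0 := hs.dl_zero_of k (by rw [hk, dl_dl])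
    obtain ⟨k', hk'⟩ := hK.van (d + 1) (by omega) k h2
    have h3 : dl (d + 1) (c' - fun x => i (k' x)) = 0 := by
      rw [dl_sub, dl_map, hk', hk, sub_self]
    obtain ⟨f, b, hb⟩ := hF.surj _ h3
    refine ⟨p f, fun x => p (b x), ?_⟩
    rw [dl_map, hb, ← hc']
    funext x
    rw [Pi.sub_apply, map_sub, Pi.sub_apply, map_sub, hs.comp, sub_zero, Pi.sub_apply]
    congr 1
    exact congrFun (smulc_map c₀ p f) x
  · intro m b hb
    obtain ⟨f, rfl⟩ := hs.surj m
    obtain ⟨b', hb'⟩ := hs.lift b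
    have h1 : (fun x => p ((smulc c₀ f - dl d b') x)) = 0 := by
      have e1 : (fun x => p ((smulc c₀ f - dl d b') x)) =
          (fun x => p (smulc c₀ f x)) - fun x => p (dl d b' x) := by
        funext x
        exact map_sub p _ _
      rw [e1, smulc_map, ← dl_map, hb', hb, sub_self]
    obtain ⟨k, hk⟩ := hs.pull _ h1
    have h2 : dl (d + 1) k = 0 := hs.dl_zero_of k (by rw [hk, dl_sub, hsm', dl_dl, sub_zero])
    obtain ⟨κ, k', hk'⟩ := hK.surj k h2
    have h3 : dl d (b' + fun x => i (k' x)) = smulc c₀ (f - i κ) := by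
      have e2 : (fun x => i (dl d k' x)) = (fun x => i (k x)) - smulc c₀ (i κ) := by
        rw [hk', ← smulc_map]
        funext x
        exact map_sub i _ _
      rw [dl_add, dl_map, e2, hk, smulc_sub]
      abel
    have h4 := gSub_map p (hF.inj _ _ h3)
    rwa [map_sub, hs.comp, sub_zero] at h4

end Run7.h817
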