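import Pool.Agent.Run7.h817.Duality

/-! Duality for free modules. -/

namespace Run7.h817

universe u v w

variable {G : Type u} [Group G]

/-- Duality in the top degree for the module `M`. -/
structure Dual {d : ℕ} (c₀ : (Fin (d + 1) → G) → CG G) (M : Type v) [AddCommGroup M]
    [Module (CG G) M] : Prop where
  van : ∀ n, d + 1 ≤ n → HVan G M n
  surj : ∀ c : (Fin (d + 1) → G) → M, dl (d + 1) c = 0 →
    ∃ (m : M) (b : (Fin d → G) → M), dl d b = c - smulc c₀ m
  inj : ∀ (m : M) (b : (Fin d → G) → M), dl d b = smulc c₀ m → m ∈ gSub G M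

theorem Fund.mul_const {d : ℕ} {c₀ : (Fin (d + 1) → G) → CG G} (hc₀ : Fund G d c₀) (a : CG G) :
    ∃ b : (Fin d → G) → CG G, dl d b = fun x => c₀ x * a - augm ℂ G a • c₀ x := by
  induction a using MonoidAlgebra.induction_linear with
  | zero =>
    refine ⟨0, ?_⟩
    rw [dl_zero]
    funext x
    simp
  | add a b ha hb =>
    obtain ⟨b₁, h₁⟩ := ha
    obtain ⟨b₂, h₂⟩ := hb
    refine ⟨b₁ + b₂, ?_⟩
    rw [dl_add, h₁, h₂]
    funext x
    simp only [Pi.add_apply, mul_add, map_add, add_smul]
    abel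
  | single g r =>
    obtain ⟨b, hb⟩ := hc₀.right_inv g
    refine ⟨r • b, ?_⟩
    rw [dl_csmul, hb]
    funext x
    rw [Pi.smul_apply, augm_single, smul_sub, rmul_apply, ← mul_smul_comm,
      MonoidAlgebra.smul_single, smul_eq_mul, mul_one]

theorem Fund.ne_zero_smul {d : ℕ} {c₀ : (Fin (d + 1) → G) → CG G} (hc₀ : Fund G d c₀) (t : ℂ)
    (b : (Fin d → G) → CG G) (h : dl d b = fun x => t • c₀ x) : t = 0 := by
  by_contra ht
  apply hc₀.not_cobd
  refine ⟨t⁻¹ • b, ?_⟩
  rw [dl_csmul, h]
  funext x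
  rw [Pi.smul_apply, smul_smul, inv_mul_cancel₀ ht, one_smul]

theorem HVan_free [Countable G] [Infinite G] {d : ℕ} (h : IsCalabiYau (CG G) d)
    (I : Type v) (n : ℕ) (hn : n + 1 ≠ d) : HVan G (I →₀ CG G) n := by
  intro c hc
  rcases isEmpty_or_nonempty I with hI | hI
  · refine ⟨0, ?_⟩
    funext x
    exact Subsingleton.elim _ _
  obtain ⟨f, g, hfg⟩ := exists_transfer (n + 1) c
  obtain ⟨b, hb⟩ := cobd_of_isCalabiYau h n hn
    (fun x => Finsupp.lmapDomain (CG G) (CG G) f (c x)) (dl_map_zero _ hc)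
  refine ⟨fun x => Finsupp.lmapDomain (CG G) (CG G) g (b x), ?_⟩
  rw [dl_map, hb]
  funext x
  exact hfg x

theorem dual_free [Countable G] [Infinite G] {d : ℕ} (h : IsCalabiYau (CG G) (d + 1))
    {Φ : ((Fin (d + 1) → G) → (G →₀ CG G)) → CG G} (hΦ : Pairing G d Φ)
    {c₀ : (Fin (d + 1) → G) → CG G} (hc₀ : Fund G d c₀) (I : Type v) :
    Dual c₀ (I →₀ CG G) := by
  classical
  refine ⟨fun n hn => HVan_free h I n (by omega), ?_, ?_⟩
  · intro c hc
    rcases isEmpty_or_nonempty I with hI | hI
    · refine ⟨0, 0, ?_⟩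
      funext x
      exact Subsingleton.elim _ _
    obtain ⟨f, g, hfg⟩ := exists_transfer (d + 1) c
    have hc' : dl (d + 1) (fun x => Finsupp.lmapDomain (CG G) (CG G) f (c x)) = 0 :=
      dl_map_zero _ hc
    set c' : (Fin (d + 1) → G) → (G →₀ CG G) :=
      fun x => Finsupp.lmapDomain (CG G) (CG G) f (c x) with hc'def
    obtain ⟨Z, b, hb⟩ := hΦ.finite_support c' hc'
    have h1 : ∀ z : G, ∃ (t : ℂ) (b' : (Fin d → G) → CG G),
        dl d b' = (fun x => c' x z) - t • c₀ := by
      intro z
      apply hc₀.gen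
      rw [dl_comp_apply, hc']
      rfl
    choose t b' hb' using h1
    let v' : G →₀ CG G := Finsupp.onFinset Z (fun z => if z ∈ Z then t z • (1 : CG G) else 0)
      (fun z hz => by
        by_contra h
        rw [if_neg h] at hz
        exact hz rfl)
    let b'' : (Fin d → G) → (G →₀ CG G) := fun x => Finsupp.onFinset ((b x).support ∪ Z)
      (fun z => if z ∈ Z then b' z x else b x z) (by
        intro z hz
        rw [Finset.mem_union]
        by_cases hzZ : z ∈ Z
        · exact Or.inr hzZ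
        · rw [if_neg hzZ] at hz
          exact Or.inl (Finsupp.mem_support_iff.2 hz))
    have hb'' : dl d b'' = c' - smulc c₀ v' := by
      funext x
      ext z : 1
      rw [← congrFun (dl_comp_apply (G := G) d b'' z) x]
      rw [Pi.sub_apply, Finsupp.sub_apply]
      have hsm : (smulc c₀ v' x) z = c₀ x * v' z := rfl
      rw [hsm]
      by_cases hzZ : z ∈ Z
      · have e1 : (fun x => b'' x z) = b' z := by
          funext y
          simp only [b'', Finsupp.onFinset_apply, if_pos hzZ]
        have e2 : v' z = t z • (1 : CG G) := by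
          simp only [v', Finsupp.onFinset_apply, if_pos hzZ]
        rw [e1, hb' z, e2, mul_smul_comm, mul_one]
        rfl
      · have e1 : (fun x => b'' x z) = fun x => b x z := by
          funext y
          simp only [b'', Finsupp.onFinset_apply, if_neg hzZ]
        have e2 : v' z = 0 := by
          simp only [v', Finsupp.onFinset_apply, if_neg hzZ]
        rw [e1, hb z hzZ, e2, mul_zero, sub_zero]
    refine ⟨Finsupp.lmapDomain (CG G) (CG G) g v',
      fun x => Finsupp.lmapDomain (CG G) (CG G) g (b'' x), ?_⟩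
    rw [dl_map, hb'']
    funext x
    rw [Pi.sub_apply, map_sub, Pi.sub_apply, hfg x]
    congr 1
    exact congrFun (smulc_map c₀ (Finsupp.lmapDomain (CG G) (CG G) g) v') x
  · intro m b hb
    apply mem_gSub_of_augm
    intro i
    obtain ⟨b₁, hb₁⟩ := hc₀.mul_const (m i)
    have h2 : dl d (fun x => b x i) = fun x => c₀ x * m i := by
      have h3 := dl_map d (Finsupp.lapply (R := CG G) (M := CG G) i) b
      rw [hb] at h3
      exact h3
    apply hc₀.ne_zero_smul (augm ℂ G (m i)) ((fun x => b x i) - b₁)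
    rw [dl_sub, h2, hb₁]
    funext x
    simp

end Run7.h817
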