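import Pool.Agent.Run7.h817.DimZero
import Mathlib.LinearAlgebra.Basis.Basic
import Mathlib.LinearAlgebra.FreeModule.Basic
import Mathlib.Algebra.Module.Projective

/-! Duality for modules of finite projective dimension over a countable Calabi-Yau group. -/

namespace Run7.h817

open CategoryTheory TensorProduct MulOpposite

universe u v w

variable {G : Type u} [Group G]

/-- Cocycles with values in `A^(G)` are coboundaries away from degree `d`. -/
theorem cobd_of_isCalabiYau {d : ℕ} (h : IsCalabiYau (CG G) d) (n : ℕ) (hn : n + 1 ≠ d)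
    (c : (Fin (n + 1) → G) → (G →₀ CG G)) (hc : dl (n + 1) c = 0) : ∃ b, dl n b = c := by
  have hs := h.ext_subsingleton (n + 1) hn
  let _ : Module (Env (CG G)) (CG G) := instModuleTensorProductMop ℂ (CG G)
  let E : BarData.Aug (envBar G) (CG G) := envAug G
  rw [← cobd_kapInv_iff]
  refine (BarData.cls_eq_zero_iff (M := Env (CG G)) E n (fun x => kapInv G (c x))
    (cobd_kapInv_eq_zero hc)).1 ?_
  exact hs.elim _ _

/-- All cocycles in degree `n + 1` with values in `M` are coboundaries. -/
def HVan (G : Type u) [Group G] (M : Type v) [AddCommGroup M] [Module (CG G) M] (n : ℕ) : Prop :=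
  ∀ c : (Fin (n + 1) → G) → M, dl (n + 1) c = 0 → ∃ b, dl n b = c

/-- retract argument -/
theorem HVan.retract {M : Type v} [AddCommGroup M] [Module (CG G) M] {N : Type w}
    [AddCommGroup N] [Module (CG G) N] {n : ℕ} (h : HVan G M n) (i : N →ₗ[CG G] M)
    (r : M →ₗ[CG G] N) (hr : ∀ x, r (i x) = x) : HVan G N n := by
  intro c hc
  obtain ⟨b, hb⟩ := h (fun x => i (c x)) (dl_map_zero i hc)
  refine ⟨fun x => r (b x), ?_⟩
  rw [dl_map, hb]
  funext x
  exact hr _

/-- Transfer of countably supported cochains into `A^(G)`. -/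
theorem exists_transfer [Countable G] [Infinite G] {I : Type v} [Nonempty I] (n : ℕ)
    (c : (Fin n → G) → (I →₀ CG G)) :
    ∃ (f : I → G) (g : G → I), ∀ x, Finsupp.lmapDomain (CG G) (CG G) g
      (Finsupp.lmapDomain (CG G) (CG G) f (c x)) = c x := by
  classical
  let I₀ : Set I := ⋃ x, ((c x).support : Set I)
  have hI₀ : I₀.Countable := Set.countable_iUnion (fun x => (c x).support.countable_toSet)
  have hcI : Countable I₀ := hI₀
  obtain ⟨e⟩ : Nonempty (I₀ ↪ G) := by
    obtain ⟨nu, hnu⟩ := exists_injective_nat I₀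
    exact ⟨⟨fun i => Infinite.natEmbedding G (nu i),
      (Infinite.natEmbedding G).injective.comp hnu⟩⟩
  let f : I → G := fun i => if h : i ∈ I₀ then e ⟨i, h⟩ else 1
  have hf : Set.InjOn f I₀ := by
    intro i hi j hj hij
    simp only [f, dif_pos hi, dif_pos hj] at hij
    exact congrArg Subtype.val (e.injective hij)
  refine ⟨f, Function.invFunOn f I₀, fun x => ?_⟩
  rw [Finsupp.lmapDomain_apply, Finsupp.lmapDomain_apply, ← Finsupp.mapDomain_comp]
  conv_rhs => rw [← Finsupp.mapDomain_id (v := c x)]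
  refine Finsupp.mapDomain_congr (fun i hi => ?_)
  have hi' : i ∈ I₀ := Set.mem_iUnion.2 ⟨x, hi⟩
  exact hf (Function.invFunOn_mem ⟨i, hi', rfl⟩) hi' (Function.invFunOn_eq ⟨i, hi', rfl⟩)

/-- evaluation of a cochain of group algebra elements at a module element -/
noncomputable def smulc {M : Type v} [AddCommGroup M] [Module (CG G) M] {n : ℕ}
    (c₀ : (Fin n → G) → CG G) (m : M) : (Fin n → G) → M := fun x => c₀ x • m

theorem dl_smulc {M : Type v} [AddCommGroup M] [Module (CG G) M] (n : ℕ)
    (c₀ : (Fin n → G) → CG G) (m : M) : dl n (smulc c₀ m) = smulc (dl n c₀) m :=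
  dl_map n (LinearMap.toSpanSingleton (CG G) M m) c₀

theorem smulc_add {M : Type v} [AddCommGroup M] [Module (CG G) M] {n : ℕ}
    (c₀ : (Fin n → G) → CG G) (m m' : M) :
    smulc c₀ (m + m') = smulc c₀ m + smulc c₀ m' := by
  funext x
  exact smul_add _ _ _

theorem smulc_sub {M : Type v} [AddCommGroup M] [Module (CG G) M] {n : ℕ}
    (c₀ : (Fin n → G) → CG G) (m m' : M) :
    smulc c₀ (m - m') = smulc c₀ m - smulc c₀ m' := by
  funext x
  exact smul_sub _ _ _

theorem smulc_zero {M : Type v} [AddCommGroup M] [Module (CG G) M] {n : ℕ}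
    (c₀ : (Fin n → G) → CG G) : smulc c₀ (0 : M) = 0 := by
  funext x
  exact smul_zero _

theorem smulc_map {M : Type v} [AddCommGroup M] [Module (CG G) M] {N : Type w}
    [AddCommGroup N] [Module (CG G) N] {n : ℕ}
    (c₀ : (Fin n → G) → CG G) (f : M →ₗ[CG G] N) (m : M) :
    (fun x => f (smulc c₀ m x)) = smulc c₀ (f m) := by
  funext x
  exact map_smul _ _ _

/-- The subgroup generated by all `g m - m`. -/
def gSub (G : Type u) [Group G] (M : Type v) [AddCommGroup M] [Module (CG G) M] : AddSubgroup M :=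
  AddSubgroup.closure {y | ∃ (g : G) (m : M), y = MonoidAlgebra.single g (1 : ℂ) • m - m}

theorem gSub_mem {M : Type v} [AddCommGroup M] [Module (CG G) M] (g : G) (m : M) :
    MonoidAlgebra.single g (1 : ℂ) • m - m ∈ gSub G M :=
  AddSubgroup.subset_closure ⟨g, m, rfl⟩

theorem gSub_map {M : Type v} [AddCommGroup M] [Module (CG G) M] {N : Type w}
    [AddCommGroup N] [Module (CG G) N] (f : M →ₗ[CG G] N) {m : M} (hm : m ∈ gSub G M) :
    f m ∈ gSub G N := by
  have h : gSub G M ≤ (gSub G N).comap f.toAddMonoidHom := by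
    rw [gSub, AddSubgroup.closure_le]
    rintro y ⟨g, m, rfl⟩
    change f _ ∈ gSub G N
    rw [map_sub, map_smul]
    exact gSub_mem g (f m)
  exact h hm

theorem gSub_lift {M : Type v} [AddCommGroup M] [Module (CG G) M] {N : Type w}
    [AddCommGroup N] [Module (CG G) N] (f : M →ₗ[CG G] N) (hf : Function.Surjective f) {n : N}
    (hn : n ∈ gSub G N) : ∃ m ∈ gSub G M, f m = n := by
  have h : gSub G N ≤ (gSub G M).map f.toAddMonoidHom := by
    rw [gSub, AddSubgroup.closure_le]
    rintro y ⟨g, n, rfl⟩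
    obtain ⟨m, rfl⟩ := hf n
    refine ⟨_, gSub_mem g m, ?_⟩
    change f _ = _
    rw [map_sub, map_smul]
  obtain ⟨m, hm, hm'⟩ := h hn
  exact ⟨m, hm, hm'⟩

/-- the augmentation, put back as multiples of the identity -/
noncomputable def augBack : CG G →+ CG G :=
  (MonoidAlgebra.singleAddHom (1 : G)).comp ((augm ℂ G : CG G →+* ℂ) : CG G →+ ℂ)

theorem augBack_apply (a : CG G) : augBack a = MonoidAlgebra.single (1 : G) (augm ℂ G a) := rfl

theorem sub_augm_mem (I : Type v) (m : I →₀ CG G) :
    m - Finsupp.mapRange.addMonoidHom augBack m ∈ gSub G (I →₀ CG G) := by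
  classical
  induction m using Finsupp.induction_linear with
  | zero => simp
  | add a b ha hb =>
    rw [map_add, add_sub_add_comm]
    exact AddSubgroup.add_mem _ ha hb
  | single i a =>
    rw [Finsupp.mapRange.addMonoidHom_apply, Finsupp.mapRange_single]
    induction a using MonoidAlgebra.induction_linear with
    | zero => simp
    | add a b ha hb =>
      rw [map_add, Finsupp.single_add, Finsupp.single_add, add_sub_add_comm]
      exact AddSubgroup.add_mem _ ha hb
    | single g r =>
      rw [augBack_apply, augm_single]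
      have h := gSub_mem g (Finsupp.single i (MonoidAlgebra.single (1 : G) r : CG G))
      rwa [Finsupp.smul_single, smul_eq_mul, MonoidAlgebra.single_mul_single, mul_one,
        one_mul] at h

theorem mem_gSub_of_augm (I : Type v) (m : I →₀ CG G) (h : ∀ i, augm ℂ G (m i) = 0) :
    m ∈ gSub G (I →₀ CG G) := by
  have h1 := sub_augm_mem I m
  have h2 : Finsupp.mapRange.addMonoidHom augBack m = 0 := by
    ext i : 1
    rw [Finsupp.mapRange.addMonoidHom_apply, Finsupp.mapRange_apply, augBack_apply, h]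
    simp
  rwa [h2, sub_zero] at h1

theorem augm_of_mem_gSub (I : Type v) {m : I →₀ CG G} (h : m ∈ gSub G (I →₀ CG G)) (i : I) :
    augm ℂ G (m i) = 0 := by
  let φ : (I →₀ CG G) →+ ℂ :=
    ((augm ℂ G : CG G →+* ℂ) : CG G →+ ℂ).comp (Finsupp.applyAddHom i)
  have h1 : gSub G (I →₀ CG G) ≤ φ.ker := by
    rw [gSub, AddSubgroup.closure_le]
    rintro y ⟨g, m, rfl⟩
    change augm ℂ G ((MonoidAlgebra.single g (1 : ℂ) • m - m) i) = 0
    rw [Finsupp.sub_apply, Finsupp.smul_apply, smul_eq_mul, map_sub, map_mul, augm_single,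
      one_mul, sub_self]
  exact h1 h

end Run7.h817
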