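import Pool.Agent.Run7.h817.Virt

/-! Elementary amenable subgroups of groups with Calabi-Yau group algebra. -/

namespace Run7.h817

open scoped commutatorElement

/-- Elementary amenable subgroups of a group: the smallest class of subgroups which contains the
trivial subgroup and contains `H` as soon as it contains a normal subgroup `N` of `H` with `H / N`
finite, or a (normal) subgroup `N` of `H` with `H / N` abelian, or all finitely generated subgroups
of `H`. -/
inductive ElemAmenable {G : Type*} [Group G] : Subgroup G → Prop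
  | bot : ElemAmenable ⊥
  | finite {N H : Subgroup G} (hNH : N ≤ H) (hn : H ≤ Subgroup.normalizer (N : Set G))
      (hfi : N.relIndex H ≠ 0) (hN : ElemAmenable N) : ElemAmenable H
  | comm {N H : Subgroup G} (hNH : N ≤ H) (hc : ⁅H, H⁆ ≤ N) (hN : ElemAmenable N) :
      ElemAmenable H
  | locally {H : Subgroup G} (h : ∀ K : Subgroup G, K ≤ H → K.FG → ElemAmenable K) :
      ElemAmenable H

/-- metabelian subgroups -/
def Metab {G : Type*} [Group G] (S : Subgroup G) : Prop :=
  ∀ a ∈ S, ∀ b ∈ S, ∀ c ∈ S, ∀ d ∈ S, ⁅a, b⁆ * ⁅c, d⁆ = ⁅c, d⁆ * ⁅a, b⁆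

theorem isSolvable_of_metab {T : Type*} [Group T]
    (h : ∀ a b c d : T, ⁅a, b⁆ * ⁅c, d⁆ = ⁅c, d⁆ * ⁅a, b⁆) : Group.IsSolvable T := by
  refine ⟨⟨2, ?_⟩⟩
  rw [derivedSeries_succ, derivedSeries_one, eq_bot_iff, Subgroup.commutator_le]
  intro x hx y hy
  rw [Subgroup.mem_bot, commutatorElement_eq_one_iff_mul_comm]
  have h1 : ∀ a ∈ {g : T | ∃ g₁ ∈ (⊤ : Subgroup T), ∃ g₂ ∈ (⊤ : Subgroup T), ⁅g₁, g₂⁆ = g},
      ∀ b ∈ {g : T | ∃ g₁ ∈ (⊤ : Subgroup T), ∃ g₂ ∈ (⊤ : Subgroup T), ⁅g₁, g₂⁆ = g},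
      a * b = b * a := by
    rintro _ ⟨a, -, b, -, rfl⟩ _ ⟨c, -, d, -, rfl⟩
    exact h a b c d
  rw [commutator_def, Subgroup.commutator_def] at hx hy
  have h2 := (Subgroup.isMulCommutative_closure h1).is_comm.comm ⟨x, hx⟩ ⟨y, hy⟩
  exact congrArg Subtype.val h2

theorem Thin.metab {G : Type*} [Group G] {S : Subgroup G} (h : Thin S) : Metab S := by
  obtain ⟨A, -, hAc, -, hc, -⟩ := h
  have h1 : ∀ a b : S, ⁅a, b⁆ ∈ A := fun a b =>
    hc (Subgroup.commutator_mem_commutator (Subgroup.mem_top a) (Subgroup.mem_top b))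
  intro a ha b hb c hc d hd
  exact congrArg Subtype.val (hAc _ (h1 ⟨a, ha⟩ ⟨b, hb⟩) _ (h1 ⟨c, hc⟩ ⟨d, hd⟩))

theorem TF.mono {G : Type*} [Group G] {S T : Subgroup G} (hST : S ≤ T) (h : TF T) : TF S :=
  TF.of_injective (Subgroup.inclusion hST) (Subgroup.inclusion_injective hST) h

theorem metab_of_elemAmenable {G : Type} [Group G] (hG : ∀ S : Subgroup G, TF S → ¬ ZCond S)
    {H : Subgroup G} (hH : ElemAmenable H) : ∀ S ≤ H, TF S → Metab S := by
  have key : ∀ (S N : Subgroup G), (∀ s ∈ S, ∀ n ∈ N, s * n * s⁻¹ ∈ N) →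
      (∀ S ≤ N, TF S → Metab S) → TF S →
      (N.subgroupOf S).Normal ∧ Group.IsSolvable (N.subgroupOf S) := by
    intro S N hn ih htf
    refine ⟨⟨fun n hn' g => hn g g.2 n hn'⟩, ?_⟩
    apply isSolvable_of_metab
    have h1 := ih (S ⊓ N) inf_le_right (htf.mono inf_le_left)
    intro a b c d
    apply Subtype.ext
    apply Subtype.ext
    exact h1 a ⟨(a : S).2, a.2⟩ b ⟨(b : S).2, b.2⟩ c ⟨(c : S).2, c.2⟩ d ⟨(d : S).2, d.2⟩
  induction hH with
  | bot =>
    intro S hS _ a ha b hb c hc d hd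
    rw [Subgroup.mem_bot.1 (hS ha), Subgroup.mem_bot.1 (hS hb), Subgroup.mem_bot.1 (hS hc),
      Subgroup.mem_bot.1 (hS hd)]
  | @finite N H hNH hn hfi hN ih =>
    intro S hS htf
    obtain ⟨h1, h2⟩ := key S N (fun s hs n hn' =>
      (Subgroup.mem_normalizer_iff.1 (hn (hS hs)) n).1 hn') ih htf
    have h3 : (N.subgroupOf S).FiniteIndex :=
      ⟨fun h => hfi (Subgroup.relIndex_eq_zero_of_le_right hS h)⟩
    exact ((zCond_or_thin htf _ h1 h3 h2).resolve_left (hG S htf)).metab
  | @comm N H hNH hc hN ih =>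
    intro S hS htf
    have hcomm : ∀ s ∈ S, ∀ n ∈ H, ⁅s, n⁆ ∈ N := fun s hs n hn' =>
      hc (Subgroup.commutator_mem_commutator (hS hs) hn')
    obtain ⟨h1, h2⟩ := key S N (fun s hs n hn' => by
      have h3 := N.mul_mem (hcomm s hs n (hNH hn')) hn'
      rwa [commutatorElement_def, inv_mul_cancel_right] at h3) ih htf
    have h3 : Group.IsSolvable (S ⧸ N.subgroupOf S) := by
      apply Group.isSolvable_of_comm
      intro a b
      obtain ⟨a, rfl⟩ := QuotientGroup.mk'_surjective _ a
      obtain ⟨b, rfl⟩ := QuotientGroup.mk'_surjective _ b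
      rw [← commutatorElement_eq_one_iff_mul_comm, ← map_commutatorElement,
        QuotientGroup.mk'_apply, QuotientGroup.eq_one_iff]
      exact hcomm a a.2 b (hS b.2)
    have h4 : Group.IsSolvable S :=
      (Group.isSolvable_iff_subgroup_quotient (N.subgroupOf S)).2 ⟨h2, h3⟩
    exact ((zCond_or_thin htf ⊤ inferInstance inferInstance inferInstance).resolve_left
      (hG S htf)).metab
  | @locally H h ih =>
    intro S hS htf a ha b hb c hc d hd
    have hK : Subgroup.closure {a, b, c, d} ≤ S := by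
      rw [Subgroup.closure_le]
      intro x hx
      simp only [Set.mem_insert_iff, Set.mem_singleton_iff] at hx
      rcases hx with rfl | rfl | rfl | rfl
      · exact ha
      · exact hb
      · exact hc
      · exact hd
    classical
    refine ih (Subgroup.closure {a, b, c, d}) (hK.trans hS) ⟨{a, b, c, d}, by simp⟩
      (Subgroup.closure {a, b, c, d}) le_rfl (htf.mono hK) a ?_ b ?_ c ?_ d ?_ <;>
    exact Subgroup.subset_closure (by simp)

variable {G : Type} [Group G]

/-- **Main theorem**: elementary amenable subgroups. -/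
theorem rf_or_thin [Countable G] (h : IsCalabiYau (MonoidAlgebra ℂ G) 3) {S : Subgroup G}
    (hS : ElemAmenable S) (htf : TF S) : Group.ResiduallyFinite G ∨ Thin S := by
  by_cases hRF : Group.ResiduallyFinite G
  · exact Or.inl hRF
  right
  have hG : ∀ S : Subgroup G, TF S → ¬ ZCond S := fun S hS hZ => hRF (rf_of_zCond h S hS hZ)
  have h1 := metab_of_elemAmenable hG hS S le_rfl htf
  have h2 : Group.IsSolvable S := by
    apply isSolvable_of_metab
    intro a b c d
    exact Subtype.ext (h1 a a.2 b b.2 c c.2 d d.2)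
  exact (zCond_or_thin htf ⊤ inferInstance inferInstance inferInstance).resolve_left (hG S htf)

theorem rf_of_elemAmenable [Countable G] (h : IsCalabiYau (MonoidAlgebra ℂ G) 3)
    {S H : Subgroup G} (hH : H.FG) (hSH : S ≤ H) (hfi : S.relIndex H ≠ 0) (hS : ElemAmenable S)
    (htf : TF S) : Group.ResiduallyFinite H := by
  rcases rf_or_thin h hS htf with hRF | hthin
  · exact rf_of_injective H.subtype Subtype.val_injective hRF
  have hHfg : Group.FG H := (Group.fg_iff_subgroup_fg H).2 hH
  have hfi' : (S.subgroupOf H).FiniteIndex := ⟨hfi⟩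
  have hSfg' : Group.FG (S.subgroupOf H) := inferInstance
  let e : S.subgroupOf H ≃* S := Subgroup.subgroupOfEquivOfLe hSH
  have hSfg : Group.FG S := Group.fg_of_surjective (f := e.toMonoidHom) e.surjective
  exact residuallyFinite_of_finiteIndex (S.subgroupOf H) hfi'
    (rf_of_injective e.toMonoidHom e.injective (hthin.rf hSfg htf))

theorem rf_of_virtually_elemAmenable [Countable G] (h : IsCalabiYau (MonoidAlgebra ℂ G) 3)
    {S : Subgroup G} (hfi : S.FiniteIndex) (hS : ElemAmenable S) (htf : TF S) :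
    Group.ResiduallyFinite G := by
  have hG : Group.FG G := fg_of_isCalabiYau h
  have hSfg : Group.FG S := inferInstance
  rcases rf_or_thin h hS htf with hRF | hthin
  · exact hRF
  · exact residuallyFinite_of_finiteIndex S hfi (hthin.rf hSfg htf)

end Run7.h817
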