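import Pool.Agent.Run7.h817.Cochain
import Pool.Agent.Run7.h817.Defs

/-! Bar data for the enveloping algebra of a group algebra. -/

namespace Run7.h817

open CategoryTheory TensorProduct MulOpposite

universe u

/-- The complex group algebra. -/
abbrev CG (G : Type u) [Group G] : Type u := MonoidAlgebra ℂ G

variable (G : Type u) [Group G]

/-- `g ↦ g ⊗ g⁻¹` -/
noncomputable def envRho : G →* Env (CG G) where
  toFun g := MonoidAlgebra.single g 1 ⊗ₜ op (MonoidAlgebra.single g⁻¹ 1)
  map_one' := by
    rw [inv_one, ← MonoidAlgebra.one_def, op_one, Algebra.TensorProduct.one_def]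
  map_mul' x y := by
    rw [Algebra.TensorProduct.tmul_mul_tmul, ← op_mul, MonoidAlgebra.single_mul_single,
      MonoidAlgebra.single_mul_single, mul_inv_rev, one_mul]

theorem envRho_apply (g : G) : envRho G g =
    MonoidAlgebra.single g 1 ⊗ₜ op (MonoidAlgebra.single g⁻¹ 1) := rfl

/-- `w ↦ 1 ⊗ w` -/
noncomputable def envIota : (CG G)ᵐᵒᵖ →+ Env (CG G) where
  toFun w := 1 ⊗ₜ w
  map_zero' := by simp
  map_add' x y := by rw [TensorProduct.tmul_add]

/-- decomposition map -/
noncomputable def envDec : Env (CG G) →ₗ[ℂ] (G →₀ (CG G)ᵐᵒᵖ) :=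
  TensorProduct.lift
    ((Finsupp.lsum ℂ (fun x : G => LinearMap.toSpanSingleton ℂ
      ((CG G)ᵐᵒᵖ →ₗ[ℂ] (G →₀ (CG G)ᵐᵒᵖ))
      ((Finsupp.lsingle x).comp (LinearMap.mulRight ℂ (op (MonoidAlgebra.single x (1 : ℂ))))))).comp
        (MonoidAlgebra.coeffLinearEquiv ℂ).toLinearMap)

theorem envDec_single (x : G) (r : ℂ) (w : (CG G)ᵐᵒᵖ) :
    envDec G (MonoidAlgebra.single x r ⊗ₜ w) =
      r • Finsupp.single x (w * op (MonoidAlgebra.single x (1 : ℂ))) := by
  simp [envDec]

theorem single_mul_inv_mul (x : G) (w : (CG G)ᵐᵒᵖ) :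
    w * op (MonoidAlgebra.single x⁻¹ (1 : ℂ)) * op (MonoidAlgebra.single x (1 : ℂ)) = w := by
  rw [mul_assoc, ← op_mul, MonoidAlgebra.single_mul_single, mul_inv_cancel, one_mul,
    ← MonoidAlgebra.one_def, op_one, mul_one]

theorem single_mul_mul_inv (x : G) (w : (CG G)ᵐᵒᵖ) :
    w * op (MonoidAlgebra.single x (1 : ℂ)) * op (MonoidAlgebra.single x⁻¹ (1 : ℂ)) = w := by
  rw [mul_assoc, ← op_mul, MonoidAlgebra.single_mul_single, inv_mul_cancel, one_mul,
    ← MonoidAlgebra.one_def, op_one, mul_one]

theorem envIota_mul_envRho (w : (CG G)ᵐᵒᵖ) (x : G) : envIota G w * envRho G x =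
    MonoidAlgebra.single x 1 ⊗ₜ (w * op (MonoidAlgebra.single x⁻¹ 1)) := by
  rw [envRho_apply]
  change (1 ⊗ₜ w) * _ = _
  rw [Algebra.TensorProduct.tmul_mul_tmul, one_mul]

/-- Bar data for the enveloping algebra. -/
noncomputable def envBar : BarData G (Env (CG G)) (CG G)ᵐᵒᵖ where
  rho := envRho G
  iota := envIota G
  oneW := 1
  iota_one := rfl
  dec := (envDec G).toAddMonoidHom
  dec_mul w x := by
    rw [envIota_mul_envRho]
    rw [LinearMap.toAddMonoidHom_coe, envDec_single, one_smul, single_mul_inv_mul]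
  gen s := by
    induction s using TensorProduct.induction_on with
    | zero => exact AddSubgroup.zero_mem _
    | add a b ha hb => exact AddSubgroup.add_mem _ ha hb
    | tmul a w =>
      induction a using MonoidAlgebra.induction_linear with
      | zero =>
        rw [TensorProduct.zero_tmul]
        exact AddSubgroup.zero_mem _
      | add a b ha hb =>
        rw [TensorProduct.add_tmul]
        exact AddSubgroup.add_mem _ ha hb
      | single x r =>
        refine AddSubgroup.subset_closure
          ⟨(r • w) * op (MonoidAlgebra.single x (1 : ℂ)), x, ?_⟩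
        rw [envIota_mul_envRho, single_mul_mul_inv]
        have h : (MonoidAlgebra.single x r : CG G) = r • MonoidAlgebra.single x (1 : ℂ) := by
          rw [MonoidAlgebra.smul_single, smul_eq_mul, mul_one]
        rw [h, TensorProduct.smul_tmul]

/-- Augmentation data: the bimodule `ℂG`. -/
noncomputable def envAug :
    letI : Module (Env (CG G)) (CG G) := instModuleTensorProductMop ℂ (CG G)
    BarData.Aug (envBar G) (CG G) :=
  letI : Module (Env (CG G)) (CG G) := instModuleTensorProductMop ℂ (CG G)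
  { pi := LinearMap.toSpanSingleton (Env (CG G)) (CG G) 1
    sigma := (MulOpposite.opAddEquiv : CG G ≃+ (CG G)ᵐᵒᵖ).toAddMonoidHom
    pi_rho := by
      intro s x
      change (s * envRho G x) • (1 : CG G) = s • (1 : CG G)
      rw [mul_smul]
      congr 1
      rw [envRho_apply]
      change AlgHom.mulLeftRight ℂ (CG G)
        (MonoidAlgebra.single x 1 ⊗ₜ op (MonoidAlgebra.single x⁻¹ 1)) 1 = 1
      rw [AlgHom.mulLeftRight_apply, mul_one, unop_op, MonoidAlgebra.single_mul_single,
        mul_inv_cancel, one_mul, ← MonoidAlgebra.one_def]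
    sigma_pi := by
      intro w
      change op (AlgHom.mulLeftRight ℂ (CG G) (1 ⊗ₜ w) 1) = w
      rw [AlgHom.mulLeftRight_apply, one_mul, one_mul, op_unop]
    pi_sigma := by
      intro z
      change AlgHom.mulLeftRight ℂ (CG G) (1 ⊗ₜ op z) 1 = z
      rw [AlgHom.mulLeftRight_apply, one_mul, one_mul, unop_op] }

end Run7.h817
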