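import Pool.Agent.Run7.h817.Fund
import Mathlib.GroupTheory.CosetCover
import Mathlib.GroupTheory.ResiduallyFinite

/-! Countable Calabi-Yau groups are finitely generated. -/

namespace Run7.h817

open Pointwise

universe u

variable {G : Type u} [Group G]

/-- Step 3: the fundamental class is not a phantom: it is detected on finitely many tuples. -/
theorem nonphantom [Countable G] [Infinite G] {d : ℕ} {Φ} (hΦ : Pairing G d Φ)
    {c₀ : (Fin (d + 1) → G) → CG G} (hc₀ : Fund G d c₀) :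
    ∃ F : Finset (Fin (d + 1) → G), ¬ ∃ b : (Fin d → G) → CG G, ∀ x ∈ F, dl d b x = c₀ x := by
  classical
  by_contra hcon
  push Not at hcon
  choose B hB using hcon
  obtain ⟨nu, hnu⟩ := exists_injective_nat G
  obtain ⟨mu, hmu⟩ := exists_injective_nat (Fin (d + 1) → G)
  have hFfin : ∀ j : ℕ, {x | mu x ≤ j}.Finite := fun j =>
    (Set.finite_Iic j).preimage (hmu.injOn (s := mu ⁻¹' Set.Iic j))
  let F : ℕ → Finset (Fin (d + 1) → G) := fun j => (hFfin j).toFinset
  have hnufin : ∀ j : ℕ, {z | nu z < j}.Finite := fun j =>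
    (Set.finite_Iio j).preimage (hnu.injOn (s := nu ⁻¹' Set.Iio j))
  let c : (Fin (d + 1) → G) → (G →₀ CG G) := fun x =>
    Finsupp.onFinset (hnufin (mu x)).toFinset (fun z => c₀ x - dl d (B (F (nu z))) x) (by
      intro z hz
      rw [Set.Finite.mem_toFinset]
      by_contra hlt
      apply hz
      rw [hB (F (nu z)) x, sub_self]
      rw [Set.Finite.mem_toFinset]
      have hlt' : ¬ nu z < mu x := fun h => hlt h
      exact not_lt.1 hlt')
  have hcz : ∀ z, (fun x => c x z) = c₀ - dl d (B (F (nu z))) := fun z => rfl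
  have hc : dl (d + 1) c = 0 := by
    funext x
    ext z : 1
    rw [← congrFun (dl_comp_apply (G := G) (d + 1) c z) x, hcz, dl_sub, hc₀.cocycle, dl_dl]
    simp
  obtain ⟨Z, b, hb⟩ := hΦ.finite_support c hc
  obtain ⟨z, hz⟩ := Infinite.exists_notMem_finset Z
  apply hc₀.not_cobd
  refine ⟨(fun x => b x z) + B (F (nu z)), ?_⟩
  rw [dl_add, hb z hz, hcz, sub_add_cancel]

/-- A finite set of double cosets `y⁻¹ H y'` does not cover `G` if `H` has infinite index. -/
theorem exists_avoid (H : Subgroup G) (hH : ¬ H.FiniteIndex) (Y : Finset G) :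
    ∃ g : G, ∀ y ∈ Y, ∀ y' ∈ Y, ∀ h ∈ H, g ≠ y⁻¹ * h * y' := by
  classical
  by_contra hcon
  push Not at hcon
  have hcov : ⋃ i ∈ Y ×ˢ Y, ((i : G × G).1⁻¹ * i.2) •
      ((H.comap (MulAut.conj i.2).toMonoidHom : Subgroup G) : Set G) = Set.univ := by
    rw [Set.eq_univ_iff_forall]
    intro g
    obtain ⟨y, hy, y', hy', h, hh, rfl⟩ := hcon g
    rw [Set.mem_iUnion₂]
    refine ⟨(y, y'), Finset.mk_mem_product hy hy', ?_⟩
    rw [mem_leftCoset_iff]
    change (MulAut.conj y') ((y⁻¹ * y')⁻¹ * (y⁻¹ * h * y')) ∈ H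
    rw [MulAut.conj_apply]
    have h1 : y' * ((y⁻¹ * y')⁻¹ * (y⁻¹ * h * y')) * y'⁻¹ = h := by
      simp [mul_assoc]
    rw [h1]
    exact hh
  obtain ⟨k, _, hk⟩ := Subgroup.exists_finiteIndex_of_leftCoset_cover hcov
  apply hH
  refine ⟨?_⟩
  have h2 := hk.index_ne_zero
  rwa [Subgroup.index_comap_of_surjective _ (MulAut.conj k.2).surjective] at h2

/-- a group with a finitely generated subgroup of finite index is finitely generated -/
theorem fg_of_finiteIndex (H : Subgroup G) (hH : H.FG) (hi : H.FiniteIndex) : Group.FG G := by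
  classical
  obtain ⟨S, hS⟩ := hH
  have hfin : Finite (G ⧸ H) := H.finite_quotient_of_finiteIndex
  have hT : (Set.range (Quotient.out : G ⧸ H → G)).Finite := Set.finite_range _
  refine ⟨S ∪ hT.toFinset, ?_⟩
  rw [eq_top_iff]
  intro g _
  have h1 : (Quotient.out (g : G ⧸ H))⁻¹ * g ∈ H := by
    rw [← QuotientGroup.eq]
    exact Quotient.out_eq _
  have h2 : H ≤ Subgroup.closure (↑(S ∪ hT.toFinset) : Set G) := by
    refine hS.ge.trans (Subgroup.closure_mono ?_)
    rw [Finset.coe_union]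
    exact Set.subset_union_left
  have h3 : (Quotient.out (g : G ⧸ H)) ∈ Subgroup.closure (↑(S ∪ hT.toFinset) : Set G) := by
    apply Subgroup.subset_closure
    rw [Finset.coe_union]
    right
    rw [Set.Finite.coe_toFinset]
    exact ⟨_, rfl⟩
  have h4 := Subgroup.mul_mem _ h3 (h2 h1)
  rwa [mul_inv_cancel_left] at h4

/-- restriction of the support to a union of right cosets `H y` -/
noncomputable def proj (P : Set G) [DecidablePred (· ∈ P)] : CG G →+ CG G where
  toFun a := MonoidAlgebra.ofCoeff (a.coeff.filter (· ∈ P))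
  map_zero' := by
    rw [MonoidAlgebra.coeff_zero, Finsupp.filter_zero, MonoidAlgebra.ofCoeff_zero]
  map_add' a b := by
    rw [MonoidAlgebra.coeff_add, Finsupp.filter_add, MonoidAlgebra.ofCoeff_add]

theorem proj_coeff (P : Set G) [DecidablePred (· ∈ P)] (a : CG G) (g : G) :
    (proj P a).coeff g = if g ∈ P then a.coeff g else 0 := by
  change (a.coeff.filter (· ∈ P)) g = _
  rw [Finsupp.filter_apply]

theorem proj_smul (P : Set G) [DecidablePred (· ∈ P)] (h : G) (hP : ∀ g, h⁻¹ * g ∈ P ↔ g ∈ P)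
    (a : CG G) :
    proj P (MonoidAlgebra.single h (1 : ℂ) • a) = MonoidAlgebra.single h (1 : ℂ) • proj P a := by
  apply MonoidAlgebra.coeff_injective
  ext g
  rw [proj_coeff, smul_eq_mul, smul_eq_mul, MonoidAlgebra.coeff_single_mul_apply,
    MonoidAlgebra.coeff_single_mul_apply, proj_coeff]
  simp only [hP]
  split_ifs <;> simp

/-- Step 4: a group with a non-phantom right invariant class is finitely generated. -/
theorem fg_of_nonphantom {d : ℕ} {c₀ : (Fin (d + 1) → G) → CG G} (hc₀ : Fund G d c₀)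
    (F : Finset (Fin (d + 1) → G))
    (hF : ¬ ∃ b : (Fin d → G) → CG G, ∀ x ∈ F, dl d b x = c₀ x) : Group.FG G := by
  classical
  let H : Subgroup G := Subgroup.closure (↑(F.biUnion (fun x => Finset.univ.image x)) : Set G)
  have hHfg : H.FG := ⟨_, rfl⟩
  have hmem : ∀ x ∈ F, ∀ i, x i ∈ H := by
    intro x hx i
    apply Subgroup.subset_closure
    rw [Finset.mem_coe, Finset.mem_biUnion]
    exact ⟨x, hx, Finset.mem_image.2 ⟨i, Finset.mem_univ _, rfl⟩⟩
  by_cases hfi : H.FiniteIndex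
  · exact fg_of_finiteIndex H hHfg hfi
  exfalso
  let Y : Finset G := F.biUnion (fun x => (c₀ x).coeff.support)
  have hY : ∀ x ∈ F, ∀ g, (c₀ x).coeff g ≠ 0 → g ∈ Y := by
    intro x hx g hg
    rw [Finset.mem_biUnion]
    exact ⟨x, hx, Finsupp.mem_support_iff.2 hg⟩
  obtain ⟨g, hg⟩ := exists_avoid H hfi Y
  obtain ⟨b, hb⟩ := hc₀.right_inv g
  let P : Set G := {w | ∃ h ∈ H, ∃ y ∈ Y, w = h * y}
  have hP : ∀ h ∈ H, ∀ w, h⁻¹ * w ∈ P ↔ w ∈ P := by
    intro h hh w
    constructor
    · rintro ⟨h', hh', y, hy, hw⟩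
      exact ⟨h * h', H.mul_mem hh hh', y, hy, by rw [mul_assoc, ← hw, mul_inv_cancel_left]⟩
    · rintro ⟨h', hh', y, hy, hw⟩
      exact ⟨h⁻¹ * h', H.mul_mem (H.inv_mem hh) hh', y, hy, by rw [hw, mul_assoc]⟩
  apply hF
  refine ⟨fun x => - proj P (b x), fun x hx => ?_⟩
  have h1 : dl d (fun x => - proj P (b x)) x = - proj P (dl d b x) := by
    rw [dl_apply, dl_apply, map_add, map_sum,
      proj_smul P (x 0) (hP (x 0) (hmem x hx 0))]
    simp only [map_zsmul, smul_neg, Finset.sum_neg_distrib, neg_add]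
  rw [h1, hb, map_sub]
  have h2 : proj P (c₀ x) = c₀ x := by
    apply MonoidAlgebra.coeff_injective
    ext w
    rw [proj_coeff]
    by_cases hw : (c₀ x).coeff w = 0
    · rw [hw, ite_self]
    · rw [if_pos]
      exact ⟨1, H.one_mem, w, hY x hx w hw, (one_mul w).symm⟩
  have h3 : proj P (rmul g (c₀ x)) = 0 := by
    apply MonoidAlgebra.coeff_injective
    ext w
    rw [proj_coeff, rmul_apply, MonoidAlgebra.coeff_mul_single_apply, mul_one]
    by_cases hw : w ∈ P
    · rw [if_pos hw]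
      by_contra hne
      obtain ⟨h, hh, y, hy, rfl⟩ := hw
      have hy' := hY x hx _ hne
      refine hg (h * y * g⁻¹) hy' y hy h hh ?_
      simp [mul_assoc]
    · rw [if_neg hw]
      rfl
  rw [h2, h3]
  simp

/-- **Countable Calabi-Yau groups are finitely generated.** -/
theorem fg_of_isCalabiYau [Countable G] {d : ℕ} (h : IsCalabiYau (CG G) (d + 1)) :
    Group.FG G := by
  rcases finite_or_infinite G with hfin | hinf
  · exact Group.fg_of_finite
  obtain ⟨Φ, hΦ⟩ := exists_pairing h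
  obtain ⟨c₀, hc₀⟩ := hΦ.exists_fund
  obtain ⟨F, hF⟩ := nonphantom hΦ hc₀
  exact fg_of_nonphantom hc₀ F hF

end Run7.h817
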