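import Pool.Agent.Run7.h817.IndBar
import Mathlib.RingTheory.TensorProduct.Free
import Mathlib.LinearAlgebra.Quotient.Basic

/-! The induced module: exact sequences, invariants and duality. -/

namespace Run7.h817

open TensorProduct

universe u v w

variable {G : Type u} [Group G]

section

variable (K : Subgroup G) {N : Type v} [AddCommGroup N] [Module ℂ N]
  (ρ : Representation ℂ K N)

/-- terms of the bar resolution -/
abbrev XX (K : Subgroup G) (N : Type v) [AddCommGroup N] [Module ℂ N] (n : ℕ) : Type (max u v) :=
  BarY.XX K (YY G N) n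

/-- the differential -/
noncomputable abbrev xd (n : ℕ) : XX K N (n + 1) →ₗ[CG G] XX K N n := BarY.bD (yact K ρ) n

/-- the boundaries -/
noncomputable abbrev BB (n : ℕ) : Submodule (CG G) (XX K N n) := BarY.BB (yact K ρ) n

/-- the induced module -/
abbrev MM : Type (max u v) := BarY.MM (yact K ρ)

/-- total coset component -/
noncomputable def tot : YY G N →ₗ[ℂ] ((G ⧸ K) →₀ N) :=
  (Finsupp.lsum ℂ (fun _ : K => LinearMap.id)).comp (ydec K ρ)

theorem tot_single (x : G) (n : N) : tot K ρ (MonoidAlgebra.single x 1 ⊗ₜ n) =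
    Finsupp.single (x : G ⧸ K) (ρ (kpart K x) n) := by
  rw [tot, LinearMap.comp_apply, ydec_single, Finsupp.lsum_apply,
    Finsupp.sum_single_index (by simp), LinearMap.id_apply]

theorem tot_yact (k : K) (y : YY G N) : tot K ρ (yact K ρ k y) = tot K ρ y := by
  induction y using yy_induction with
  | h0 => simp
  | ha a b ha hb => rw [map_add, map_add, map_add, ha, hb]
  | hs x n =>
    rw [yact_tmul, MonoidAlgebra.single_mul_single, mul_one, tot_single, tot_single,
      QuotientGroup.mk_mul_of_mem _ k.2]
    congr 1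
    have h : kpart K (x * (k : G)) = kpart K x * k := by
      apply Subtype.ext
      rw [Subgroup.coe_mul, kpart_coe, kpart_coe, QuotientGroup.mk_mul_of_mem _ k.2, mul_assoc]
    rw [h, ← Module.End.mul_apply, ← map_mul, mul_assoc, mul_inv_cancel, mul_one]

theorem tot_yiota (w : (G ⧸ K) →₀ N) : tot K ρ (yiota K w) = w := by
  induction w using Finsupp.induction_linear with
  | zero => simp
  | add f g hf hg => rw [map_add, map_add, hf, hg]
  | single q n =>
    have h1 : ((Quotient.out q : G) : G ⧸ K) = q := Quotient.out_eq _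
    have h2 : kpart K (Quotient.out q) = 1 := by
      have h3 := kpart_out_mul K q 1
      rwa [Subgroup.coe_one, mul_one] at h3
    rw [yiota_single, tot_single, h2, map_one, Module.End.one_apply, h1]

/-- total coset component on degree zero chains -/
noncomputable def totX : XX K N 0 →+ ((G ⧸ K) →₀ N) :=
  Finsupp.liftAddHom (fun _ => (tot K ρ).toAddMonoidHom)

theorem totX_single (g : Fin 0 → K) (y : YY G N) :
    totX K ρ (Finsupp.single g y) = tot K ρ y := by
  simp [totX]

theorem totX_xd (z : XX K N 1) : totX K ρ (xd K ρ 0 z) = 0 := by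
  induction z using Finsupp.induction_linear with
  | zero => simp
  | add f g hf hg => rw [map_add, map_add, hf, hg, add_zero]
  | single g y =>
    rw [BarY.bD_single, map_add, map_sum]
    simp only [map_zsmul, totX_single, tot_yact, Fin.sum_univ_succ, Finset.univ_eq_empty,
      Finset.sum_empty, Fin.val_zero, zero_add, pow_one, neg_smul, one_smul, add_zero,
      add_neg_cancel]

theorem mem_BB_of_totX (z : XX K N 0) (hz : totX K ρ z = 0) : z ∈ BB K ρ 0 := by
  obtain ⟨y, w, hy⟩ := (indBar K ρ).mod_zero z
  have h1 : totX K ρ z = w := by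
    rw [hy, map_add]
    change totX K ρ (xd K ρ 0 y) + totX K ρ (Finsupp.single default (yiota K w)) = w
    rw [totX_xd, zero_add, totX_single, tot_yiota]
  rw [hz] at h1
  subst h1
  rw [map_zero, Finsupp.single_zero, add_zero] at hy
  exact ⟨y, hy.symm⟩

/-- the action on coset components -/
noncomputable def gmap (g : G) : ((G ⧸ K) →₀ N) →ₗ[ℂ] ((G ⧸ K) →₀ N) :=
  Finsupp.lsum ℂ (fun q => (Finsupp.lsingle (g • q)).comp (ρ (kpart K (g * Quotient.out q))))

theorem gmap_single (g : G) (q : G ⧸ K) (n : N) : gmap K ρ g (Finsupp.single q n) =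
    Finsupp.single (g • q) (ρ (kpart K (g * Quotient.out q)) n) := by
  rw [gmap, Finsupp.lsum_apply, Finsupp.sum_single_index (by simp)]
  rfl

theorem kpart_mul (g x : G) : kpart K (g * x) =
    kpart K (g * Quotient.out (x : G ⧸ K)) * kpart K x := by
  apply Subtype.ext
  have h : ((g * Quotient.out (x : G ⧸ K) : G) : G ⧸ K) = ((g * x : G) : G ⧸ K) := by
    have h1 : ((Quotient.out (x : G ⧸ K) : G) : G ⧸ K) = (x : G ⧸ K) := Quotient.out_eq _
    rw [← smul_eq_mul, ← MulAction.Quotient.smul_mk, ← smul_eq_mul, ← MulAction.Quotient.smul_mk]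
    exact congrArg (fun q => g • q) h1
  rw [Subgroup.coe_mul, kpart_coe, kpart_coe, kpart_coe, h]
  simp [mul_assoc]

theorem tot_smul (g : G) (y : YY G N) :
    tot K ρ ((MonoidAlgebra.single g (1 : ℂ) : CG G) • y) = gmap K ρ g (tot K ρ y) := by
  induction y using yy_induction with
  | h0 => simp
  | ha a b ha hb => rw [smul_add, map_add, map_add, map_add, ha, hb]
  | hs x n =>
    rw [TensorProduct.smul_tmul', smul_eq_mul, MonoidAlgebra.single_mul_single, mul_one,
      tot_single, tot_single, gmap_single, kpart_mul, map_mul]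
    rfl

theorem totX_smul (g : G) (z : XX K N 0) :
    totX K ρ ((MonoidAlgebra.single g (1 : ℂ) : CG G) • z) = gmap K ρ g (totX K ρ z) := by
  induction z using Finsupp.induction_linear with
  | zero => simp
  | add f g hf hg => rw [smul_add, map_add, map_add, map_add, hf, hg]
  | single q y => rw [Finsupp.smul_single, totX_single, totX_single, tot_smul]

theorem gmap_apply (g : G) (w : (G ⧸ K) →₀ N) (q : G ⧸ K) :
    gmap K ρ g w (g • q) = ρ (kpart K (g * Quotient.out q)) (w q) := by
  classical
  induction w using Finsupp.induction_linear with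
  | zero => simp
  | add f g hf hg => rw [map_add, Finsupp.add_apply, Finsupp.add_apply, map_add, hf, hg]
  | single q' n =>
    rw [gmap_single]
    by_cases h : q' = q
    · subst h
      rw [Finsupp.single_eq_same, Finsupp.single_eq_same]
    · rw [Finsupp.single_apply, Finsupp.single_apply, if_neg h, map_zero, if_neg]
      intro h'
      exact h (MulAction.injective g h')

/-- a nonzero invariant element forces finite index -/
theorem finite_of_invariant (w : (G ⧸ K) →₀ N) (hw : w ≠ 0) (h : ∀ g, gmap K ρ g w = w) :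
    K.FiniteIndex := by
  classical
  obtain ⟨q, hq⟩ := Finsupp.ne_iff.1 hw
  rw [Finsupp.zero_apply] at hq
  have h1 : ∀ q' : G ⧸ K, q' ∈ w.support := by
    intro q'
    obtain ⟨g, rfl⟩ := MulAction.exists_smul_eq G q q'
    rw [Finsupp.mem_support_iff, ← h g, gmap_apply]
    intro h0
    apply hq
    have h2 : ρ (kpart K (g * Quotient.out q))⁻¹ (ρ (kpart K (g * Quotient.out q)) (w q)) = 0 := by
      rw [h0, map_zero]
    rwa [← Module.End.mul_apply, ← map_mul, inv_mul_cancel, map_one, Module.End.one_apply] at h2
  have hfin : Finite (G ⧸ K) := by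
    refine Set.finite_univ_iff.1 (w.support.finite_toSet.subset (fun q' _ => h1 q'))
  exact K.finiteIndex_of_finite_quotient

/-- the induced module of an infinite index subgroup has no invariants -/
theorem MM_invariant (hK : ¬ K.FiniteIndex) (m : MM K ρ)
    (hm : ∀ g : G, (MonoidAlgebra.single g (1 : ℂ) : CG G) • m = m) : m = 0 := by
  obtain ⟨z, rfl⟩ := Submodule.mkQ_surjective _ m
  rw [Submodule.mkQ_apply, Submodule.Quotient.mk_eq_zero]
  apply mem_BB_of_totX
  by_contra hne
  apply hK
  refine finite_of_invariant K ρ _ hne (fun g => ?_)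
  have h1 := hm g
  rw [← map_smul, ← sub_eq_zero, ← map_sub, Submodule.mkQ_apply,
    Submodule.Quotient.mk_eq_zero] at h1
  obtain ⟨y, hy⟩ := h1
  have h2 := totX_xd K ρ y
  rw [hy, map_sub, totX_smul, sub_eq_zero] at h2
  exact h2

end

theorem dual_of_free {d : ℕ} {c₀ : (Fin (d + 1) → G) → CG G}
    (h : ∀ I : Type w, Dual c₀ (I →₀ CG G)) (M : Type w) [AddCommGroup M] [Module (CG G) M]
    [Module.Free (CG G) M] : Dual c₀ M := by
  let b := Module.Free.chooseBasis (CG G) M
  exact (h _).retract b.repr.toLinearMap b.repr.symm.toLinearMap (fun x => b.repr.symm_apply_apply x)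

end Run7.h817
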