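import Pool.Agent.Run7.h817.Link
import Pool.Agent.Run7.h817.CdDefs
import Pool.Agent.Run7.h817.IndDual

/-! Finite cohomological dimension gives duality for the induced module and its syzygies. -/

namespace Run7.h817

open CategoryTheory Limits TensorProduct

section generic

variable {K S Y P : Type} [Group K] [Ring S] [AddCommGroup Y] [Module S Y] [AddCommGroup P]
  [Module S P] [Module ℂ P] [SMulCommClass S ℂ P]

/-- the representation on a space of homomorphisms given by precomposition -/
noncomputable def homRep (act : K → Y →ₗ[S] Y) (h1 : ∀ y, act 1 y = y)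
    (hm : ∀ a b y, act (a * b) y = act b (act a y)) : Representation ℂ K (Y →ₗ[S] P) where
  toFun k :=
    { toFun := fun φ => φ.comp (act k)
      map_add' := fun φ ψ => rfl
      map_smul' := fun r φ => rfl }
  map_one' := by
    refine LinearMap.ext fun φ => LinearMap.ext fun y => ?_
    change φ (act 1 y) = φ y
    rw [h1]
  map_mul' a b := by
    refine LinearMap.ext fun φ => LinearMap.ext fun y => ?_
    change φ (act (a * b) y) = φ (act b (act a y))
    rw [hm]

theorem homRep_apply (act : K → Y →ₗ[S] Y) (h1 : ∀ y, act 1 y = y)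
    (hm : ∀ a b y, act (a * b) y = act b (act a y)) (k : K) (φ : Y →ₗ[S] P) (y : Y) :
    homRep act h1 hm k φ y = φ (act k y) := rfl

/-- If `Hᵐ⁺¹(K; -) = 0`, a homomorphism `f` defined on `(m+1)`-chains and vanishing on boundaries
factors through the differential. -/
theorem exists_factor (act : K → Y →ₗ[S] Y) (h1 : ∀ y, act 1 y = y)
    (hm : ∀ a b y, act (a * b) y = act b (act a y)) (m : ℕ)
    (hz : ∀ V : Rep.{0} ℂ K, IsZero (groupCohomology V (m + 1)))
    (f : BarY.XX K Y (m + 1) →ₗ[S] P) (hf : ∀ z, f (BarY.bD act (m + 1) z) = 0) :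
    ∃ r : BarY.XX K Y m →ₗ[S] P, ∀ z, r (BarY.bD act m z) = f z := by
  let V : Rep.{0} ℂ K := Rep.of (X := Y →ₗ[S] P) (homRep act h1 hm)
  let c : (Fin (m + 1) → K) → (Y →ₗ[S] P) := fun g => f.comp (Finsupp.lsingle (R := S) g)
  have hc : ∀ g : Fin (m + 2) → K, homRep act h1 hm (g 0) (c (Fin.tail g)) +
      ∑ j : Fin (m + 2), (-1 : ℤ) ^ ((j : ℕ) + 1) • c (Fin.contractNth j (· * ·) g) = 0 := by
    intro g
    refine LinearMap.ext fun y => ?_
    have h1 := hf (Finsupp.single g y)
    rw [BarY.bD_single, map_add, map_sum] at h1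
    rw [LinearMap.add_apply, LinearMap.sum_apply, homRep_apply]
    refine Eq.trans ?_ h1
    congr 1
    refine Finset.sum_congr rfl (fun j _ => ?_)
    rw [map_zsmul]
    rfl
  obtain ⟨b, hb⟩ := exists_cobd_of_isZero V m (hz V) c hc
  have hb' : ∀ (g : Fin (m + 1) → K) (y : Y), (b (Fin.tail g) : Y →ₗ[S] P)
      (act (g 0) y) + ∑ j : Fin (m + 1), (-1 : ℤ) ^ ((j : ℕ) + 1) •
        (b (Fin.contractNth j (· * ·) g) : Y →ₗ[S] P) y = c g y := by
    intro g y
    have h2 : (homRep act h1 hm (g 0) (b (Fin.tail g)) +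
      ∑ j : Fin (m + 1), (-1 : ℤ) ^ ((j : ℕ) + 1) •
        (b (Fin.contractNth j (· * ·) g) : Y →ₗ[S] P)) = c g := hb g
    rw [← h2, LinearMap.add_apply, homRep_apply, LinearMap.sum_apply]
    rfl
  refine ⟨Finsupp.lsum ℕ b, fun w => ?_⟩
  induction w using Finsupp.induction_linear with
  | zero => simp
  | add f g hf hg => rw [map_add, map_add, map_add, hf, hg]
  | single g y =>
    rw [BarY.bD_single, map_add, map_sum]
    simp only [map_zsmul, Finsupp.lsum_single]
    exact hb' g y

end generic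

variable {G : Type} [Group G] (K : Subgroup G) {N : Type} [AddCommGroup N] [Module ℂ N]
  (ρ : Representation ℂ K N)

theorem yact_one (y : YY G N) : yact K ρ 1 y = y := by
  induction y using yy_induction with
  | h0 => simp
  | ha a b ha hb => rw [map_add, ha, hb]
  | hs x n =>
    rw [yact_tmul, MonoidAlgebra.single_mul_single, inv_one, map_one, Subgroup.coe_one, mul_one,
      mul_one, Module.End.one_apply]

theorem exists_retraction (m : ℕ)
    (hm : ∀ V : Rep.{0} ℂ K, IsZero (groupCohomology V (m + 1))) :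
    ∃ r : XX K N m →ₗ[CG G] BB K ρ m, ∀ z : BB K ρ m, r (z : XX K N m) = z := by
  obtain ⟨r, hr⟩ := exists_factor (yact K ρ) (yact_one K ρ) (yact_mul K ρ) m hm
    (xd K ρ m).rangeRestrict (fun z => by
      apply Subtype.ext
      exact (indBar K ρ).bD_bD m z)
  refine ⟨r, ?_⟩
  rintro ⟨_, w, rfl⟩
  exact hr w

variable {d : ℕ} {c₀ : (Fin (d + 1) → G) → CG G}

/-- duality for all the syzygies of the induced module -/
theorem dual_BB (hK : HasFiniteCd K) (hc₀ : dl (d + 1) c₀ = 0)
    (h : ∀ I : Type, Dual c₀ (I →₀ CG G)) (n : ℕ) : Dual c₀ (BB K ρ n) := by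
  obtain ⟨m, hm⟩ := hK
  have h1 : ∀ j, m ≤ j → Dual c₀ (BB K ρ j) := by
    intro j hj
    obtain ⟨r, hr⟩ := exists_retraction K ρ j (fun V => hm V (j + 1) (by omega))
    exact (dual_of_free h (XX K N j)).retract (BB K ρ j).subtype r hr
  have h2 : ∀ i j, i + j = m → Dual c₀ (BB K ρ j) := by
    intro i
    induction i with
    | zero => intro j hj; exact h1 j (by omega)
    | succ i ih =>
      intro j hj
      exact Dual.ext hc₀ ((indBar K ρ).ses_succ j) (ih (j + 1) (by omega))
        (dual_of_free h (XX K N (j + 1)))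
  rcases le_total m n with hn | hn
  · exact h1 n hn
  · exact h2 (m - n) n (by omega)

/-- duality for the induced module -/
theorem dual_MM (hK : HasFiniteCd K) (hc₀ : dl (d + 1) c₀ = 0)
    (h : ∀ I : Type, Dual c₀ (I →₀ CG G)) : Dual c₀ (MM K ρ) :=
  Dual.ext hc₀ (BarY.ses_zero (yact K ρ)) (dual_BB K ρ hK hc₀ h 0) (dual_of_free h (XX K N 0))

end Run7.h817
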