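import Pool.Agent.Run7.h817.Pairing
import Pool.Agent.Run7.h817.Amitsur

/-! Cocycles with values in a countable direct sum are cohomologous to finite ones. -/

namespace Run7.h817

universe u

variable {G : Type u} [Group G]

theorem dl_csmul {M : Type*} [AddCommGroup M] [Module (MonoidAlgebra ℂ G) M] [Module ℂ M]
    [SMulCommClass ℂ (MonoidAlgebra ℂ G) M] (n : ℕ) (r : ℂ) (c : (Fin n → G) → M) :
    dl n (r • c) = r • dl n c := by
  refine dl_map' n (DistribSMul.toAddMonoidHom M r) (fun g m => ?_) c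
  exact smul_comm _ _ _

/-- multiply the component `z` by `f z` -/
noncomputable def T (f : G → ℂ) : (G →₀ CG G) →+ (G →₀ CG G) where
  toFun m := Finsupp.onFinset m.support (fun z => f z • m z) (fun z hz => by
    rw [Finsupp.mem_support_iff]
    intro h
    apply hz
    rw [h, smul_zero])
  map_zero' := by ext z : 1; simp
  map_add' a b := by ext z : 1; simp

theorem T_apply (f : G → ℂ) (m : G →₀ CG G) (z : G) : T f m z = f z • m z := rfl

theorem dl_T (f : G → ℂ) (n : ℕ) (c : (Fin n → G) → (G →₀ CG G)) :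
    dl n (fun x => T f (c x)) = fun x => T f (dl n c x) := by
  refine dl_map' n (T f) (fun g m => ?_) c
  ext z : 1
  rw [Finsupp.smul_apply, T_apply, T_apply, Finsupp.smul_apply]
  exact smul_comm _ _ _

theorem dl_comp_apply (n : ℕ) (c : (Fin n → G) → (G →₀ CG G)) (z : G) :
    dl n (fun x => c x z) = fun x => dl n c x z :=
  dl_map n (Finsupp.lapply z) c

theorem Pairing.sum {d : ℕ} {Φ} (hΦ : Pairing G d Φ) {ι : Type*} (s : Finset ι)
    (c : ι → (Fin (d + 1) → G) → (G →₀ CG G)) (hc : ∀ i, dl (d + 1) (c i) = 0) :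
    Φ (∑ i ∈ s, c i) = ∑ i ∈ s, Φ (c i) := by
  classical
  induction s using Finset.induction_on with
  | empty =>
    rw [Finset.sum_empty, Finset.sum_empty]
    exact (hΦ.ker 0 (dl_zero _)).2 ⟨0, dl_zero _⟩
  | insert i s hi ih =>
    rw [Finset.sum_insert hi, Finset.sum_insert hi, hΦ.add _ _ (hc i), ih]
    rw [dl_sum]
    exact Finset.sum_eq_zero (fun j _ => hc j)

theorem Pairing.sub {d : ℕ} {Φ} (hΦ : Pairing G d Φ) (c c' : (Fin (d + 1) → G) → (G →₀ CG G))
    (hc : dl (d + 1) c = 0) (hc' : dl (d + 1) c' = 0) : Φ (c - c') = Φ c - Φ c' := by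
  have h : dl (d + 1) (c - c') = 0 := by rw [dl_sub, hc, hc', sub_zero]
  have h1 := hΦ.add (c - c') c' h hc'
  rw [sub_add_cancel] at h1
  rw [h1, add_sub_cancel_right]

/-- Step 1: finiteness of the support up to coboundaries. -/
theorem Pairing.finite_support [Countable G] {d : ℕ} {Φ} (hΦ : Pairing G d Φ)
    (c : (Fin (d + 1) → G) → (G →₀ CG G)) (hc : dl (d + 1) c = 0) :
    ∃ (Z : Finset G) (b : (Fin d → G) → (G →₀ CG G)),
      ∀ z ∉ Z, dl d (fun x => b x z) = fun x => c x z := by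
  classical
  obtain ⟨nu, hnu⟩ := exists_injective_nat G
  let S : Set ℂ := Set.range (fun z : G => (nu z : ℂ))
  have hS : S.Countable := Set.countable_range _
  let w : ℂ → G → ℂ := fun i z => ((nu z : ℂ) - i)⁻¹
  let cc : ℂ → (Fin (d + 1) → G) → (G →₀ CG G) := fun i x => T (w i) (c x)
  have hcc : ∀ i, dl (d + 1) (cc i) = 0 := by
    intro i
    rw [dl_T, hc]
    funext x
    exact map_zero _
  obtain ⟨s, g, hs, hsum, hg⟩ := exists_relation (rank_monoidAlgebra_le G)
    (fun i => Φ (cc i)) S hS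
  let F : G → ℂ := fun z => ∑ i ∈ s, g i * ((nu z : ℂ) - i)⁻¹
  have hZ : {z : G | F z = 0}.Finite := finite_zeros nu hnu s g hs hg
  have h1 : ∑ i ∈ s, g i • cc i = fun x => T F (c x) := by
    funext x
    ext z : 1
    rw [Finset.sum_apply, Finsupp.finsetSum_apply, T_apply, Finset.sum_smul]
    refine Finset.sum_congr rfl (fun i _ => ?_)
    rw [Pi.smul_apply, Finsupp.smul_apply, T_apply, smul_smul]
  have h2 : Φ (fun x => T F (c x)) = 0 := by
    rw [← h1, hΦ.sum s (fun i => g i • cc i) (fun i => by rw [dl_smul, hcc, smul_zero]), ← hsum]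
    exact Finset.sum_congr rfl (fun i _ => hΦ.smul _ _ (hcc i))
  have h3 : dl (d + 1) (fun x => T F (c x)) = 0 := by
    rw [dl_T, hc]
    funext x
    exact map_zero _
  obtain ⟨b, hb⟩ := (hΦ.ker _ h3).1 h2
  refine ⟨hZ.toFinset, fun x => T (fun z => (F z)⁻¹) (b x), fun z hz => ?_⟩
  have hz' : F z ≠ 0 := fun h => hz (hZ.mem_toFinset.2 h)
  have h4 : (fun x => (T (fun z => (F z)⁻¹) (b x)) z) = (F z)⁻¹ • fun x => b x z := by
    funext x
    rw [T_apply, Pi.smul_apply]
  rw [h4, dl_csmul, dl_comp_apply, hb]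
  funext x
  rw [Pi.smul_apply, T_apply, smul_smul, inv_mul_cancel₀ hz', one_smul]

end Run7.h817
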