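import Pool.Agent.Run7.h817.FinSupp

/-! The fundamental class of a Calabi-Yau group algebra. -/

namespace Run7.h817

universe u

variable {G : Type u} [Group G]

/-- sum of the components -/
noncomputable def sumZ (G : Type u) [Group G] : (G →₀ CG G) →ₗ[CG G] CG G :=
  Finsupp.linearCombination (CG G) (fun _ => (1 : CG G))

theorem sumZ_single (z : G) (a : CG G) : sumZ G (Finsupp.single z a) = a := by
  rw [sumZ, Finsupp.linearCombination_single, smul_eq_mul, mul_one]

/-- right multiplication by an element -/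
noncomputable def rmul (h : G) : CG G →ₗ[CG G] CG G :=
  LinearMap.toSpanSingleton (CG G) (CG G) (MonoidAlgebra.single h 1)

theorem rmul_apply (h : G) (a : CG G) : rmul h a = a * MonoidAlgebra.single h 1 := rfl

theorem sumZ_R (g h : G) (m : G →₀ CG G) : sumZ G (R G g h m) = rmul h (sumZ G m) := by
  induction m using Finsupp.induction_linear with
  | zero => simp
  | add a b ha hb => rw [map_add, map_add, map_add, map_add, ha, hb]
  | single z a => rw [R_single, sumZ_single, sumZ_single, rmul_apply]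

/-- Fundamental class data. -/
structure Fund (G : Type u) [Group G] (d : ℕ) (c₀ : (Fin (d + 1) → G) → CG G) : Prop where
  cocycle : dl (d + 1) c₀ = 0
  not_cobd : ¬ ∃ b, dl d b = c₀
  gen : ∀ η : (Fin (d + 1) → G) → CG G, dl (d + 1) η = 0 → ∃ (t : ℂ) (b : (Fin d → G) → CG G),
    dl d b = η - t • c₀
  right_inv : ∀ h : G, ∃ b, dl d b = fun x => rmul h (c₀ x) - c₀ x

theorem Pairing.exists_fund [Countable G] {d : ℕ} {Φ} (hΦ : Pairing G d Φ) :
    ∃ c₀, Fund G d c₀ := by
  classical
  obtain ⟨e, he, he1⟩ := hΦ.surj 1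
  have hR : ∀ g h, dl (d + 1) (fun x => R G g h (e x)) = 0 := fun g h => dl_map_zero (R G g h) he
  have hcoc : dl (d + 1) (fun x => sumZ G (e x)) = 0 := dl_map_zero (sumZ G) he
  have hgen : ∀ η : (Fin (d + 1) → G) → CG G, dl (d + 1) η = 0 →
      ∃ (t : ℂ) (b : (Fin d → G) → CG G), dl d b = η - t • fun x => sumZ G (e x) := by
    intro η hη
    have h1 : dl (d + 1) (fun x => Finsupp.lsingle (R := CG G) (1 : G) (η x)) = 0 :=
      dl_map_zero (Finsupp.lsingle (R := CG G) (1 : G)) hη
    set a := Φ (fun x => Finsupp.lsingle (R := CG G) (1 : G) (η x)) with ha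
    let cc : G → (Fin (d + 1) → G) → (G →₀ CG G) := fun g => a.coeff g • fun x => R G g 1 (e x)
    have hcc : ∀ g, dl (d + 1) (cc g) = 0 := fun g => by
      rw [dl_smul, hR, smul_zero]
    let e' := ∑ g ∈ a.coeff.support, cc g
    have he' : dl (d + 1) e' = 0 := by
      rw [dl_sum]
      exact Finset.sum_eq_zero (fun g _ => hcc g)
    have h2 : Φ e' = a := by
      rw [hΦ.sum _ _ hcc]
      conv_rhs => rw [← MonoidAlgebra.sum_coeff_single a]
      rw [Finsupp.sum]
      refine Finset.sum_congr rfl (fun g _ => ?_)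
      rw [hΦ.smul _ _ (hR g 1), hΦ.equivariant _ _ _ he, he1, mul_one, ← MonoidAlgebra.one_def,
        mul_one, MonoidAlgebra.smul_single, smul_eq_mul, mul_one]
    have h3 : Φ ((fun x => Finsupp.lsingle (R := CG G) (1 : G) (η x)) - e') = 0 := by
      rw [hΦ.sub _ _ h1 he', h2, sub_self]
    have h4 : dl (d + 1) ((fun x => Finsupp.lsingle (R := CG G) (1 : G) (η x)) - e') = 0 := by
      rw [dl_sub, h1, he', sub_zero]
    obtain ⟨b, hb⟩ := (hΦ.ker _ h4).1 h3
    refine ⟨∑ g ∈ a.coeff.support, a.coeff g, fun x => sumZ G (b x), ?_⟩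
    rw [dl_map, hb]
    funext x
    rw [Pi.sub_apply, Pi.sub_apply, map_sub]
    congr 1
    · exact sumZ_single 1 _
    · have hex : e' x = ∑ g ∈ a.coeff.support, cc g x := Finset.sum_apply _ _ _
      rw [Pi.smul_apply, Finset.sum_smul, hex, map_sum]
      refine Finset.sum_congr rfl (fun g _ => ?_)
      change sumZ G (a.coeff g • R G g 1 (e x)) = _
      rw [LinearMap.map_smul_of_tower, sumZ_R, rmul_apply, ← MonoidAlgebra.one_def, mul_one]
  refine ⟨fun x => sumZ G (e x), hcoc, ?_, hgen, ?_⟩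
  · rintro ⟨b₀, hb₀⟩
    have hall : ∀ η : (Fin (d + 1) → G) → CG G, dl (d + 1) η = 0 → ∃ b, dl d b = η := by
      intro η hη
      obtain ⟨t, b, hb⟩ := hgen η hη
      refine ⟨b + t • b₀, ?_⟩
      rw [dl_add, dl_csmul, hb, hb₀, sub_add_cancel]
    obtain ⟨Z, b, hb⟩ := hΦ.finite_support e he
    have h1 : ∀ z : G, ∃ b' : (Fin d → G) → CG G, dl d b' = fun x => e x z := by
      intro z
      apply hall
      rw [dl_comp_apply, he]
      rfl
    choose b' hb' using h1
    have h2 : Φ e = 0 := by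
      refine (hΦ.ker e he).2 ⟨fun x => Finsupp.onFinset ((b x).support ∪ Z)
        (fun z => if z ∈ Z then b' z x else b x z) ?_, ?_⟩
      · intro z hz
        rw [Finset.mem_union]
        by_cases hzZ : z ∈ Z
        · exact Or.inr hzZ
        · rw [if_neg hzZ] at hz
          exact Or.inl (Finsupp.mem_support_iff.2 hz)
      · funext x
        ext z : 1
        rw [← congrFun (dl_comp_apply (G := G) d _ z) x]
        by_cases hzZ : z ∈ Z
        · simp only [Finsupp.onFinset_apply, if_pos hzZ]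
          rw [hb' z]
        · simp only [Finsupp.onFinset_apply, if_neg hzZ]
          rw [hb z hzZ]
    rw [he1] at h2
    exact one_ne_zero h2
  · intro h
    have h1 : Φ ((fun x => R G 1 h (e x)) - fun x => R G h 1 (e x)) = 0 := by
      rw [hΦ.sub _ _ (hR _ _) (hR _ _), hΦ.equivariant _ _ _ he, hΦ.equivariant _ _ _ he, he1]
      simp [← MonoidAlgebra.one_def]
    have h2 : dl (d + 1) ((fun x => R G 1 h (e x)) - fun x => R G h 1 (e x)) = 0 := by
      rw [dl_sub, hR, hR, sub_zero]
    obtain ⟨b, hb⟩ := (hΦ.ker _ h2).1 h1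
    refine ⟨fun x => sumZ G (b x), ?_⟩
    rw [dl_map, hb]
    funext x
    rw [Pi.sub_apply, map_sub, sumZ_R, sumZ_R, rmul_apply, rmul_apply,
      ← MonoidAlgebra.one_def, mul_one]

end Run7.h817
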