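import Pool.Agent.Run7.h817.Cochain
import Pool.Agent.Run7.h817.EnvBar

/-! Bar data for the group algebra itself; the coboundary for `ℂG`-modules. -/

namespace Run7.h817

open CategoryTheory TensorProduct MulOpposite

universe u

section

variable (k : Type*) [CommRing k] (G : Type*) [Group G]

/-- The augmentation. -/
noncomputable def augm : MonoidAlgebra k G →ₐ[k] k := MonoidAlgebra.lift k k G 1

theorem augm_single (x : G) (r : k) : augm k G (MonoidAlgebra.single x r) = r := by
  simp [augm]

/-- bar data -/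
noncomputable def grpBar : BarData G (MonoidAlgebra k G) k where
  rho := MonoidAlgebra.of k G
  iota := MonoidAlgebra.singleAddHom 1
  oneW := 1
  iota_one := rfl
  dec := MonoidAlgebra.coeffAddEquiv.toAddMonoidHom
  dec_mul w x := by
    change (MonoidAlgebra.single 1 w * MonoidAlgebra.single x 1 : MonoidAlgebra k G).coeff = _
    rw [MonoidAlgebra.single_mul_single, one_mul, mul_one, MonoidAlgebra.coeff_single]
  gen s := by
    induction s using MonoidAlgebra.induction_linear with
    | zero => exact AddSubgroup.zero_mem _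
    | add a b ha hb => exact AddSubgroup.add_mem _ ha hb
    | single x r =>
      refine AddSubgroup.subset_closure ⟨r, x, ?_⟩
      change _ = (MonoidAlgebra.single 1 r * MonoidAlgebra.single x 1 : MonoidAlgebra k G)
      rw [MonoidAlgebra.single_mul_single, one_mul, mul_one]

/-- the trivial module structure -/
@[reducible] noncomputable def trivMod : Module (MonoidAlgebra k G) k :=
  Module.compHom k (augm k G : MonoidAlgebra k G →+* k)

/-- the trivial module -/
noncomputable def grpAug :
    letI : Module (MonoidAlgebra k G) k := trivMod k G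
    BarData.Aug (grpBar k G) k :=
  letI : Module (MonoidAlgebra k G) k := trivMod k G
  { pi := LinearMap.toSpanSingleton (MonoidAlgebra k G) k 1
    sigma := AddMonoidHom.id k
    pi_rho := by
      intro s x
      change augm k G (s * MonoidAlgebra.single x 1) * 1 = augm k G s * 1
      rw [map_mul, augm_single, mul_one]
    sigma_pi := by
      intro w
      change augm k G (MonoidAlgebra.single 1 w) * 1 = w
      rw [augm_single, mul_one]
    pi_sigma := by
      intro w
      change augm k G (MonoidAlgebra.single 1 w) * 1 = w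
      rw [augm_single, mul_one] }

theorem grp_barD_barD (n : ℕ) (z : (Fin (n + 2) → G) →₀ MonoidAlgebra k G) :
    BarData.barD (MonoidAlgebra.of k G) n (BarData.barD (MonoidAlgebra.of k G) (n + 1) z) = 0 := by
  let _ : Module (MonoidAlgebra k G) k := trivMod k G
  exact BarData.barD_barD (grpAug k G) n z

theorem grp_cobd_cobd {M : Type*} [AddCommGroup M] [Module (MonoidAlgebra k G) M] (n : ℕ)
    (c : (Fin n → G) → M) :
    cobd (MonoidAlgebra.of k G) (n + 1) (cobd (MonoidAlgebra.of k G) n c) = 0 := by
  let _ : Module (MonoidAlgebra k G) k := trivMod k G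
  exact BarData.cobd_cobd (grpAug k G) n c

end

section dl

variable {G : Type*} [Group G] {M : Type*} [AddCommGroup M] [Module (MonoidAlgebra ℂ G) M]

/-- inhomogeneous coboundary for `ℂG`-modules -/
noncomputable def dl (n : ℕ)
    (c : (Fin n → G) → M) : (Fin (n + 1) → G) → M :=
  cobd (MonoidAlgebra.of ℂ G) n c

theorem dl_apply (n : ℕ) (c : (Fin n → G) → M) (g : Fin (n + 1) → G) :
    dl n c g = MonoidAlgebra.single (g 0) (1 : ℂ) • c (Fin.tail g) +
    ∑ j : Fin (n + 1), (-1 : ℤ) ^ ((j : ℕ) + 1) • c (Fin.contractNth j (· * ·) g) := rfl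

theorem dl_dl (n : ℕ) (c : (Fin n → G) → M) : dl (n + 1) (dl n c) = 0 := by
  exact grp_cobd_cobd ℂ G n c

theorem dl_add (n : ℕ) (c c' : (Fin n → G) → M) : dl n (c + c') = dl n c + dl n c' :=
  cobd_add _ n c c'

theorem dl_zero (n : ℕ) : dl n (0 : (Fin n → G) → M) = 0 := cobd_zero _ n

theorem dl_neg (n : ℕ) (c : (Fin n → G) → M) : dl n (-c) = - dl n c := cobd_neg _ n c

theorem dl_sub (n : ℕ) (c c' : (Fin n → G) → M) : dl n (c - c') = dl n c - dl n c' :=
  cobd_sub _ n c c'

theorem dl_sum {ι : Type*} (s : Finset ι) (n : ℕ) (c : ι → (Fin n → G) → M) :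
    dl n (∑ i ∈ s, c i) = ∑ i ∈ s, dl n (c i) := cobd_sum _ s n c

theorem dl_map {N : Type*} [AddCommGroup N] [Module (MonoidAlgebra ℂ G) N] (n : ℕ)
    (f : M →ₗ[MonoidAlgebra ℂ G] N) (c : (Fin n → G) → M) :
    dl n (fun x => f (c x)) = fun x => f (dl n c x) := cobd_map _ n f c

theorem dl_map' {N : Type*} [AddCommGroup N] [Module (MonoidAlgebra ℂ G) N] (n : ℕ)
    (f : M →+ N)
    (hf : ∀ (g : G) m, f (MonoidAlgebra.single g (1 : ℂ) • m) =
      MonoidAlgebra.single g (1 : ℂ) • f m)
    (c : (Fin n → G) → M) :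
    dl n (fun x => f (c x)) = fun x => f (dl n c x) := cobd_map' _ _ n f hf c

theorem dl_map_zero {N : Type*} [AddCommGroup N] [Module (MonoidAlgebra ℂ G) N] {n : ℕ}
    (f : M →ₗ[MonoidAlgebra ℂ G] N) {c : (Fin n → G) → M} (hc : dl n c = 0) :
    dl n (fun x => f (c x)) = 0 := by
  rw [dl_map, hc]
  funext x
  exact map_zero f

end dl

end Run7.h817
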