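import Pool.Agent.Run7.h817.FinDim
import Mathlib.LinearAlgebra.Dimension.Finite
import Mathlib.LinearAlgebra.Dimension.Free
import Mathlib.LinearAlgebra.Basis.VectorSpace
import Mathlib.Data.Fin.VecNotation
import Mathlib.Tactic.LinearCombination

/-! Homology and cohomology with trivial coefficients. -/

namespace Run7.h817

open CategoryTheory Limits

variable {k K : Type} [Field k] [Group K]

theorem exists_cocycle_relation (V : Rep k K) (m : ℕ)
    [Module.Finite k (groupCohomology V (m + 1))] (n : ℕ)
    (hn : Module.finrank k (groupCohomology V (m + 1)) < n)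
    (f : Fin n → ((Fin (m + 1) → K) → V))
    (hf : ∀ i, inhomogeneousCochains.d V (m + 1) (f i) = 0) :
    ∃ a : Fin n → k, a ≠ 0 ∧
      ∃ b, inhomogeneousCochains.d V m b = ∑ i, a i • f i := by
  let c : Fin n → groupCohomology.cocycles V (m + 1) := fun i =>
    groupCohomology.cocyclesMk (f i) (hf i)
  have h1 : ¬ LinearIndependent k (fun i => (groupCohomology.π V (m + 1)).hom (c i)) := by
    intro h
    have h2 := h.fintype_card_le_finrank
    rw [Fintype.card_fin] at h2
    omega
  rw [Fintype.not_linearIndependent_iff] at h1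
  obtain ⟨a, ha, i, hi⟩ := h1
  refine ⟨a, fun h => hi (congrFun h i), ?_⟩
  have h2 : (groupCohomology.π V (m + 1)).hom (∑ i, a i • c i) = 0 := by
    rw [map_sum, ← ha]
    exact Finset.sum_congr rfl (fun i _ => map_smul _ _ _)
  let S := ShortComplex.mk ((groupCohomology.inhomogeneousCochains V).toCycles m (m + 1))
    ((groupCohomology.inhomogeneousCochains V).homologyπ (m + 1)) (by simp)
  have hS : S.Exact := S.exact_of_g_is_cokernel
    ((groupCohomology.inhomogeneousCochains V).homologyIsCokernel m (m + 1) (by simp))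
  rw [ShortComplex.moduleCat_exact_iff] at hS
  obtain ⟨y, hy⟩ := hS _ h2
  refine ⟨y, ?_⟩
  have h3 := congrArg (groupCohomology.iCocycles V (m + 1)).hom hy
  have h4 : (groupCohomology.iCocycles V (m + 1)).hom (S.f.hom y) =
      inhomogeneousCochains.d V m y := by
    have h5 : S.f ≫ groupCohomology.iCocycles V (m + 1) =
      (groupCohomology.inhomogeneousCochains V).d m (m + 1) :=
      (groupCohomology.inhomogeneousCochains V).toCycles_i m (m + 1)
    rw [groupCohomology.inhomogeneousCochains.d_def] at h5
    exact congrArg (fun f => f.hom y) h5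
  have h6 : (groupCohomology.iCocycles V (m + 1)).hom (∑ i, a i • c i) = ∑ i, a i • f i := by
    rw [map_sum]
    refine Finset.sum_congr rfl (fun i _ => ?_)
    rw [map_smul]
    congr 1
    exact groupCohomology.iCocycles_mk (f i) (hf i)
  rw [← h4, ← h6]
  exact h3

/-- the value of a cochain on a chain -/
noncomputable def ev {n : ℕ} (f : (Fin n → K) → k) : ((Fin n → K) →₀ k) →ₗ[k] k :=
  Finsupp.lsum k (fun g => LinearMap.toSpanSingleton k k (f g))

theorem ev_single {n : ℕ} (f : (Fin n → K) → k) (g : Fin n → K) (a : k) :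
    ev f (Finsupp.single g a) = a * f g := by
  rw [ev, Finsupp.lsum_apply, Finsupp.sum_single_index (by simp), LinearMap.toSpanSingleton_apply,
    smul_eq_mul]

theorem ev_d {n : ℕ} (f : (Fin n → K) → k) (z : (Fin (n + 1) → K) →₀ k) :
    ev f ((groupHomology.inhomogeneousChains.d (Rep.trivial k K k) n).hom z) =
      ev (inhomogeneousCochains.d (Rep.trivial k K k) n f) z := by
  have h : (ev f).comp (groupHomology.inhomogeneousChains.d (Rep.trivial k K k) n).hom =
      ev (inhomogeneousCochains.d (Rep.trivial k K k) n f) := by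
    refine Finsupp.lhom_ext (fun g a => ?_)
    rw [LinearMap.comp_apply, ev_single]
    have h1 : (groupHomology.inhomogeneousChains.d (Rep.trivial k K k) n).hom
        (Finsupp.single g a) = Finsupp.single (Fin.tail g) a +
      ∑ j : Fin (n + 1), (-1 : k) ^ ((j : ℕ) + 1) •
        Finsupp.single (Fin.contractNth j (· * ·) g) a :=
      groupHomology.inhomogeneousChains.d_single (A := Rep.trivial k K k) n g a
    have h2 : inhomogeneousCochains.d (Rep.trivial k K k) n f g =
        f (Fin.tail g) + ∑ j : Fin (n + 1), (-1 : k) ^ ((j : ℕ) + 1) •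
          f (Fin.contractNth j (· * ·) g) := by
      rw [inhomogeneousCochains.d_hom_apply]
      rfl
    rw [h1, h2, map_add, ev_single, map_sum, mul_add, Finset.mul_sum]
    congr 1
    refine Finset.sum_congr rfl (fun j _ => ?_)
    rw [map_smul, ev_single, smul_eq_mul, smul_eq_mul]
    ring
  exact LinearMap.congr_fun h z

theorem ev_sum {n : ℕ} {ι : Type*} (s : Finset ι) (a : ι → k) (f : ι → ((Fin n → K) → k))
    (z : (Fin n → K) →₀ k) : ev (∑ i ∈ s, a i • f i) z = ∑ i ∈ s, a i * ev (f i) z := by
  induction z using Finsupp.induction_linear with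
  | zero => simp
  | add x y hx hy =>
    rw [map_add, hx, hy, ← Finset.sum_add_distrib]
    refine Finset.sum_congr rfl (fun i _ => ?_)
    rw [map_add, mul_add]
  | single g r =>
    rw [ev_single, Finset.sum_apply, Finset.mul_sum]
    refine Finset.sum_congr rfl (fun i _ => ?_)
    rw [ev_single, Pi.smul_apply, smul_eq_mul]
    ring

theorem ev_zero {n : ℕ} (z : (Fin n → K) →₀ k) : ev (0 : (Fin n → K) → k) z = 0 := by
  have h := ev_sum (∅ : Finset ℕ) (fun _ => (0 : k)) (fun _ => (0 : (Fin n → K) → k)) z
  simpa using h

/-- homology of finite dimension from cohomology of finite dimension -/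
theorem finite_homology (m : ℕ)
    [Module.Finite k (groupCohomology (Rep.trivial k K k) (m + 1))] :
    Module.Finite k (groupHomology (Rep.trivial k K k) (m + 1)) := by
  by_contra hfin
  set n := Module.finrank k (groupCohomology (Rep.trivial k K k) (m + 1)) + 1 with hn
  have hrank : (n : Cardinal) ≤ Module.rank k (groupHomology (Rep.trivial k K k) (m + 1)) := by
    have h1 : ¬ Module.rank k (groupHomology (Rep.trivial k K k) (m + 1)) < Cardinal.aleph0 := by
      rw [Module.rank_lt_aleph0_iff]
      exact hfin
    exact (Cardinal.natCast_le_aleph0).trans (not_lt.1 h1)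
  obtain ⟨v, hv⟩ := exists_linearIndependent_of_le_rank hrank
  have hsurj : Function.Surjective (groupHomology.π (Rep.trivial k K k) (m + 1)).hom :=
    (ModuleCat.epi_iff_surjective _).1 (inferInstanceAs
      (Epi ((groupHomology.inhomogeneousChains (Rep.trivial k K k)).homologyπ (m + 1))))
  choose zc hzc using fun i => hsurj (v i)
  -- functionals
  have hli : LinearMap.ker (Fintype.linearCombination k v) = ⊥ :=
    LinearMap.ker_eq_bot.2 hv.fintypeLinearCombination_injective
  obtain ⟨L, hL⟩ := (Fintype.linearCombination k v).exists_leftInverse_of_injective hli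
  have hLv : ∀ i j, L (v i) j = if i = j then 1 else 0 := by
    intro i j
    have h1 := LinearMap.congr_fun hL (Pi.single i 1)
    rw [LinearMap.comp_apply, Fintype.linearCombination_apply_single, one_smul,
      LinearMap.id_apply] at h1
    rw [h1, Pi.single_apply]
    simp only [eq_comm]
  let iZ := (groupHomology.iCycles (Rep.trivial k K k) (m + 1)).hom
  have hiZ : Function.Injective iZ := (ModuleCat.mono_iff_injective _).1 inferInstance
  obtain ⟨p, hp⟩ := iZ.exists_leftInverse_of_injective (LinearMap.ker_eq_bot.2 hiZ)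
  let φ : Fin n → (((Fin (m + 1) → K) →₀ k) →ₗ[k] k) := fun j =>
    (LinearMap.proj j).comp (L.comp
      ((groupHomology.π (Rep.trivial k K k) (m + 1)).hom.comp p))
  let f : Fin n → ((Fin (m + 1) → K) → k) := fun j g => φ j (Finsupp.single g 1)
  have hev : ∀ j z, ev (f j) z = φ j z := by
    intro j z
    induction z using Finsupp.induction_linear with
    | zero => simp
    | add x y hx hy => rw [map_add, map_add, hx, hy]
    | single g r =>
      rw [ev_single]
      change r * φ j (Finsupp.single g 1) = _
      rw [← smul_eq_mul, ← map_smul, Finsupp.smul_single, smul_eq_mul, mul_one]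
  have hφd : ∀ j y, φ j ((groupHomology.inhomogeneousChains.d (Rep.trivial k K k) (m + 1)).hom y)
      = 0 := by
    intro j y
    have h5 : (groupHomology.inhomogeneousChains (Rep.trivial k K k)).toCycles (m + 2) (m + 1) ≫
        groupHomology.iCycles (Rep.trivial k K k) (m + 1) =
      (groupHomology.inhomogeneousChains (Rep.trivial k K k)).d (m + 2) (m + 1) :=
      (groupHomology.inhomogeneousChains (Rep.trivial k K k)).toCycles_i (m + 2) (m + 1)
    rw [groupHomology.inhomogeneousChains.d_def] at h5
    have h6 := congrArg (fun f => f.hom y) h5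
    have h7 : p ((groupHomology.inhomogeneousChains.d (Rep.trivial k K k) (m + 1)).hom y) =
        ((groupHomology.inhomogeneousChains (Rep.trivial k K k)).toCycles (m + 2) (m + 1)).hom y := by
      rw [← h6]
      exact LinearMap.congr_fun hp _
    change L ((groupHomology.π (Rep.trivial k K k) (m + 1)).hom (p _)) j = 0
    rw [h7]
    have h8 : (groupHomology.inhomogeneousChains (Rep.trivial k K k)).toCycles (m + 2) (m + 1) ≫
        groupHomology.π (Rep.trivial k K k) (m + 1) = 0 :=
      (groupHomology.inhomogeneousChains (Rep.trivial k K k)).toCycles_comp_homologyπ _ _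
    have h9 := congrArg (fun f => f.hom y) h8
    change (groupHomology.π (Rep.trivial k K k) (m + 1)).hom
      (((groupHomology.inhomogeneousChains (Rep.trivial k K k)).toCycles (m + 2) (m + 1)).hom y) = 0
        at h9
    rw [h9, map_zero]
    rfl
  have hf : ∀ j, inhomogeneousCochains.d (Rep.trivial k K k) (m + 1) (f j) = 0 := by
    intro j
    funext g
    have h1 := ev_d (f j) (Finsupp.single g 1)
    rw [ev_single, one_mul] at h1
    rw [← h1, hev, hφd]
    rfl
  obtain ⟨a, ha, b, hb⟩ := exists_cocycle_relation (Rep.trivial k K k) m n (by omega) f hf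
  apply ha
  funext i
  have h1 : ev (∑ j, a j • f j) (iZ (zc i)) = 0 := by
    have h2 := ev_d b (iZ (zc i))
    rw [hb] at h2
    refine h2.symm.trans ?_
    have h3 : groupHomology.iCycles (Rep.trivial k K k) (m + 1) ≫
        (groupHomology.inhomogeneousChains (Rep.trivial k K k)).d (m + 1) m = 0 :=
      (groupHomology.inhomogeneousChains (Rep.trivial k K k)).iCycles_d _ _
    rw [groupHomology.inhomogeneousChains.d_def] at h3
    have h4 := congrArg (fun f => f.hom (zc i)) h3
    change (groupHomology.inhomogeneousChains.d (Rep.trivial k K k) m).hom (iZ (zc i)) = 0 at h4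
    rw [h4, map_zero]
  rw [ev_sum] at h1
  have h2 : ∀ j, ev (f j) (iZ (zc i)) = if i = j then 1 else 0 := by
    intro j
    rw [hev]
    change L ((groupHomology.π (Rep.trivial k K k) (m + 1)).hom (p (iZ (zc i)))) j = _
    have h3 : p (iZ (zc i)) = zc i := LinearMap.congr_fun hp _
    rw [h3, hzc, hLv]
  simp only [h2, mul_ite, mul_one, mul_zero, Finset.sum_ite_eq, Finset.mem_univ, if_true] at h1
  exact h1

/-- nonvanishing of the second homology -/
theorem not_isZero_homology_two (x y : K) (hxy : x * y = y * x) (α β : K → k)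
    (hα : ∀ a b, α (a * b) = α a + α b) (hβ : ∀ a b, β (a * b) = β a + β b)
    (hne : α x * β y - α y * β x ≠ 0) : ¬ IsZero (groupHomology (Rep.trivial k K k) 2) := by
  intro h
  have h1 : (groupHomology.inhomogeneousChains (Rep.trivial k K k)).ExactAt 2 :=
    (HomologicalComplex.exactAt_iff_isZero_homology _ _).2 h
  rw [HomologicalComplex.exactAt_iff' _ 3 2 1 (by simp) (by simp),
    ShortComplex.moduleCat_exact_iff] at h1
  let z : (Fin 2 → K) →₀ k := Finsupp.single ![x, y] 1 - Finsupp.single ![y, x] 1
  have hd : ∀ u v : K, (groupHomology.inhomogeneousChains.d (Rep.trivial k K k) 1).hom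
      (Finsupp.single ![u, v] 1) = Finsupp.single ![v] (1 : k) - Finsupp.single ![u * v] (1 : k) +
        Finsupp.single ![u] (1 : k) := by
    intro u v
    have h2 : (groupHomology.inhomogeneousChains.d (Rep.trivial k K k) 1).hom
        (Finsupp.single ![u, v] 1) = Finsupp.single (Fin.tail ![u, v]) (1 : k) +
      ∑ j : Fin 2, (-1 : k) ^ ((j : ℕ) + 1) •
        Finsupp.single (Fin.contractNth j (· * ·) ![u, v]) (1 : k) :=
      groupHomology.inhomogeneousChains.d_single (A := Rep.trivial k K k) 1 ![u, v] 1
    have e1 : Fin.tail ![u, v] = ![v] := by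
      funext i
      rw [Subsingleton.elim i 0]
      rfl
    have e2 : Fin.contractNth (0 : Fin 2) (fun x1 x2 : K => x1 * x2) ![u, v] = ![u * v] := by
      funext i
      rw [Subsingleton.elim i 0]
      simp [Fin.contractNth]
    have e3 : Fin.contractNth (Fin.succ (0 : Fin 1)) (fun x1 x2 : K => x1 * x2) ![u, v] = ![u] := by
      funext i
      rw [Subsingleton.elim i 0]
      simp [Fin.contractNth]
    rw [h2, Fin.sum_univ_succ, Fin.sum_univ_succ, Finset.univ_eq_empty, Finset.sum_empty, e1, e2,
      e3]
    simp [sub_eq_add_neg, add_assoc]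
  have hz : (groupHomology.inhomogeneousChains.d (Rep.trivial k K k) 1).hom z = 0 := by
    change (groupHomology.inhomogeneousChains.d (Rep.trivial k K k) 1).hom
      (Finsupp.single ![x, y] 1 - Finsupp.single ![y, x] 1) = 0
    rw [map_sub, hd, hd, hxy]
    abel
  obtain ⟨w, hw⟩ := h1 z (by
    change ((groupHomology.inhomogeneousChains (Rep.trivial k K k)).d 2 1).hom z = 0
    rw [groupHomology.inhomogeneousChains.d_def]
    exact hz)
  have hw' : (groupHomology.inhomogeneousChains.d (Rep.trivial k K k) 2).hom w = z := by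
    rw [← groupHomology.inhomogeneousChains.d_def]
    exact hw
  let f : (Fin 2 → K) → k := fun g => α (g 0) * β (g 1)
  have hf : inhomogeneousCochains.d (Rep.trivial k K k) 2 f = 0 := by
    funext g
    have h2 : inhomogeneousCochains.d (Rep.trivial k K k) 2 f g =
        f (Fin.tail g) + ∑ j : Fin 3, (-1 : k) ^ ((j : ℕ) + 1) •
          f (Fin.contractNth j (· * ·) g) := by
      rw [inhomogeneousCochains.d_hom_apply]
      rfl
    rw [h2, Fin.sum_univ_three]
    have c00 : Fin.contractNth (0 : Fin 3) (fun x1 x2 : K => x1 * x2) g 0 = g 0 * g 1 := by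
      simp [Fin.contractNth]
    have c01 : Fin.contractNth (0 : Fin 3) (fun x1 x2 : K => x1 * x2) g 1 = g 2 := by
      simp [Fin.contractNth]
    have c10 : Fin.contractNth (1 : Fin 3) (fun x1 x2 : K => x1 * x2) g 0 = g 0 := by
      simp [Fin.contractNth]
    have c11 : Fin.contractNth (1 : Fin 3) (fun x1 x2 : K => x1 * x2) g 1 = g 1 * g 2 := by
      simp [Fin.contractNth]
    have c20 : Fin.contractNth (2 : Fin 3) (fun x1 x2 : K => x1 * x2) g 0 = g 0 := by
      simp [Fin.contractNth]
    have c21 : Fin.contractNth (2 : Fin 3) (fun x1 x2 : K => x1 * x2) g 1 = g 1 := by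
      simp [Fin.contractNth]
    have t0 : Fin.tail g 0 = g 1 := rfl
    have t1 : Fin.tail g 1 = g 2 := rfl
    simp only [f, c00, c01, c10, c11, c20, c21, t0, t1, hα, hβ, Fin.val_zero, Fin.val_one,
      Fin.val_two, smul_eq_mul]
    change _ = (0 : k)
    ring
  have h2 := ev_d f w
  rw [hf, hw'] at h2
  have h3 : ev f z = α x * β y - α y * β x := by
    change ev f (Finsupp.single ![x, y] 1 - Finsupp.single ![y, x] 1) = _
    rw [map_sub, ev_single, ev_single, one_mul, one_mul]
    rfl
  have h4 : ev (0 : (Fin 3 → K) → k) w = 0 := ev_zero w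
  apply hne
  rw [← h3, h2]
  exact h4

end Run7.h817
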