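import Pool.Agent.Run7.h817.BarY
import Pool.Agent.Run7.h817.DualExt
import Mathlib.RepresentationTheory.Basic

/-! Bar data for a module induced from a subgroup. -/

namespace Run7.h817

open TensorProduct

universe u v

variable {G : Type u} [Group G] (K : Subgroup G) {N : Type v} [AddCommGroup N] [Module ℂ N]
  (ρ : Representation ℂ K N)

/-- the `K`-part of an element -/
noncomputable def kpart (x : G) : K :=
  ⟨(Quotient.out (x : G ⧸ K))⁻¹ * x, by
    rw [← QuotientGroup.eq]
    exact Quotient.out_eq _⟩

theorem kpart_coe (x : G) : (kpart K x : G) = (Quotient.out (x : G ⧸ K))⁻¹ * x := rfl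

theorem out_mul_kpart (x : G) : Quotient.out (x : G ⧸ K) * (kpart K x : G) = x := by
  rw [kpart, mul_inv_cancel_left]

theorem kpart_out_mul (q : G ⧸ K) (k : K) : kpart K (Quotient.out q * (k : G)) = k := by
  have h : ((Quotient.out q * (k : G) : G) : G ⧸ K) = q := by
    rw [QuotientGroup.mk_mul_of_mem _ k.2]
    exact Quotient.out_eq _
  apply Subtype.ext
  have h1 := out_mul_kpart K (Quotient.out q * (k : G))
  rw [h] at h1
  exact mul_left_cancel h1

/-- the coefficient module -/
abbrev YY (G : Type u) [Group G] (N : Type v) [AddCommGroup N] [Module ℂ N] : Type (max u v) :=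
  CG G ⊗[ℂ] N

/-- the right action -/
noncomputable def yact (k : K) : YY G N →ₗ[CG G] YY G N :=
  TensorProduct.AlgebraTensorModule.map (rmul (k : G)) (ρ k⁻¹)

theorem yact_tmul (k : K) (a : CG G) (n : N) :
    yact K ρ k (a ⊗ₜ n) = (a * MonoidAlgebra.single (k : G) 1) ⊗ₜ ρ k⁻¹ n := rfl

theorem yy_induction {P : YY G N → Prop} (y : YY G N) (h0 : P 0)
    (ha : ∀ a b, P a → P b → P (a + b))
    (hs : ∀ (x : G) (n : N), P (MonoidAlgebra.single x 1 ⊗ₜ n)) : P y := by
  induction y using TensorProduct.induction_on with
  | zero => exact h0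
  | add a b ha' hb' => exact ha _ _ ha' hb'
  | tmul a n =>
    induction a using MonoidAlgebra.induction_linear with
    | zero => rw [TensorProduct.zero_tmul]; exact h0
    | add a b ha' hb' => rw [TensorProduct.add_tmul]; exact ha _ _ ha' hb'
    | single x r =>
      have h : (MonoidAlgebra.single x r : CG G) = r • MonoidAlgebra.single x (1 : ℂ) := by
        rw [MonoidAlgebra.smul_single, smul_eq_mul, mul_one]
      rw [h, TensorProduct.smul_tmul]
      exact hs _ _

theorem yact_mul (a b : K) (y : YY G N) : yact K ρ (a * b) y = yact K ρ b (yact K ρ a y) := by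
  induction y using yy_induction with
  | h0 => simp
  | ha a b ha hb => rw [map_add, map_add, map_add, ha, hb]
  | hs x n =>
    rw [yact_tmul, yact_tmul, yact_tmul, MonoidAlgebra.single_mul_single,
      MonoidAlgebra.single_mul_single, MonoidAlgebra.single_mul_single, mul_inv_rev, map_mul,
      Subgroup.coe_mul, mul_assoc, mul_one, mul_one]
    rfl

/-- section of the coset decomposition -/
noncomputable def yiota : ((G ⧸ K) →₀ N) →+ YY G N :=
  Finsupp.liftAddHom (fun q =>
    (TensorProduct.mk ℂ (CG G) N (MonoidAlgebra.single (Quotient.out q) 1)).toAddMonoidHom)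

theorem yiota_single (q : G ⧸ K) (n : N) :
    yiota K (Finsupp.single q n) = MonoidAlgebra.single (Quotient.out q) 1 ⊗ₜ n := by
  simp [yiota]

/-- decomposition, on a group element -/
noncomputable def ydecx (x : G) : N →ₗ[ℂ] (K →₀ ((G ⧸ K) →₀ N)) :=
  (Finsupp.lsingle (kpart K x)).comp ((Finsupp.lsingle (x : G ⧸ K)).comp (ρ (kpart K x)))

/-- decomposition -/
noncomputable def ydec : YY G N →ₗ[ℂ] (K →₀ ((G ⧸ K) →₀ N)) :=
  TensorProduct.lift
    ((Finsupp.lsum ℂ (fun x : G => LinearMap.toSpanSingleton ℂ
      (N →ₗ[ℂ] (K →₀ ((G ⧸ K) →₀ N))) (ydecx K ρ x))).comp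
        (MonoidAlgebra.coeffLinearEquiv ℂ).toLinearMap)

theorem ydec_single (x : G) (n : N) :
    ydec K ρ (MonoidAlgebra.single x 1 ⊗ₜ n) =
      Finsupp.single (kpart K x) (Finsupp.single (x : G ⧸ K) (ρ (kpart K x) n)) := by
  have h : (MonoidAlgebra.coeffLinearEquiv ℂ) (MonoidAlgebra.single x 1 : CG G) =
    Finsupp.single x (1 : ℂ) := rfl
  rw [ydec, TensorProduct.lift.tmul, LinearMap.comp_apply, LinearEquiv.coe_coe, h,
    Finsupp.lsum_apply, Finsupp.sum_single_index (by simp), LinearMap.toSpanSingleton_apply,
    one_smul]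
  rfl

/-- Bar data for the induced module. -/
noncomputable def indBar : BarY K (CG G) (YY G N) ((G ⧸ K) →₀ N) where
  act := yact K ρ
  act_mul := yact_mul K ρ
  iota := yiota K
  dec := (ydec K ρ).toAddMonoidHom
  dec_act w a := by
    induction w using Finsupp.induction_linear with
    | zero => simp
    | add f g hf hg => rw [map_add, map_add, map_add, hf, hg, Finsupp.single_add]
    | single q n =>
      rw [yiota_single, yact_tmul, MonoidAlgebra.single_mul_single, mul_one,
        LinearMap.toAddMonoidHom_coe, ydec_single, kpart_out_mul,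
        QuotientGroup.mk_mul_of_mem _ a.2]
      have h1 : ((Quotient.out q : G) : G ⧸ K) = q := Quotient.out_eq _
      rw [h1]
      congr 2
      rw [← Module.End.mul_apply, ← map_mul, mul_inv_cancel, map_one, Module.End.one_apply]
  gen y := by
    induction y using yy_induction with
    | h0 => exact AddSubgroup.zero_mem _
    | ha a b ha hb => exact AddSubgroup.add_mem _ ha hb
    | hs x n =>
      refine AddSubgroup.subset_closure ⟨kpart K x, Finsupp.single (x : G ⧸ K)
        (ρ (kpart K x) n), ?_⟩
      rw [yiota_single, yact_tmul, MonoidAlgebra.single_mul_single, mul_one, out_mul_kpart,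
        ← Module.End.mul_apply, ← map_mul, inv_mul_cancel, map_one, Module.End.one_apply]
  span y := by
    induction y using yy_induction with
    | h0 => exact Submodule.zero_mem _
    | ha a b ha hb => exact Submodule.add_mem _ ha hb
    | hs x n =>
      have h1 : (MonoidAlgebra.single x 1 ⊗ₜ[ℂ] n : YY G N) =
          (MonoidAlgebra.single (x * (Quotient.out ((1 : G) : G ⧸ K))⁻¹) (1 : ℂ) : CG G) •
            yiota K (Finsupp.single ((1 : G) : G ⧸ K) n) := by
        rw [yiota_single, TensorProduct.smul_tmul', smul_eq_mul,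
          MonoidAlgebra.single_mul_single, mul_one, inv_mul_cancel_right]
      rw [h1]
      exact Submodule.smul_mem _ _ (Submodule.subset_span ⟨_, rfl⟩)

end Run7.h817
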