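import Mathlib.RepresentationTheory.Homological.GroupCohomology.Basic
import Mathlib.RepresentationTheory.Homological.GroupHomology.Basic
import Mathlib.Algebra.Homology.ShortComplex.ModuleCat
import Mathlib.Data.Complex.Basic

/-! Links with Mathlib's group cohomology and homology. -/

namespace Run7.h817

open CategoryTheory Limits

variable {k K : Type} [CommRing k] [Group K]

theorem neg_one_pow_smul_eq {V : Type*} [AddCommGroup V] [Module k V] (j : ℕ) (v : V) :
    (-1 : k) ^ j • v = (-1 : ℤ) ^ j • v := by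
  rcases Nat.even_or_odd j with h | h
  · rw [h.neg_one_pow, h.neg_one_pow, one_smul, one_smul]
  · rw [h.neg_one_pow, h.neg_one_pow, neg_smul, neg_smul, one_smul, one_smul]

theorem cochain_d_apply (V : Rep k K) (n : ℕ) (f : (Fin n → K) → V) (g : Fin (n + 1) → K) :
    (groupCohomology.inhomogeneousCochains V).d n (n + 1) f g =
      V.ρ (g 0) (f (Fin.tail g)) +
        ∑ j : Fin (n + 1), (-1 : ℤ) ^ ((j : ℕ) + 1) • f (Fin.contractNth j (· * ·) g) := by
  rw [groupCohomology.inhomogeneousCochains.d_def, inhomogeneousCochains.d_hom_apply]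
  congr 1
  exact Finset.sum_congr rfl (fun j _ => neg_one_pow_smul_eq _ _)

theorem exists_cobd_of_isZero (V : Rep k K) (m : ℕ) (h : IsZero (groupCohomology V (m + 1)))
    (c : (Fin (m + 1) → K) → V)
    (hc : ∀ g : Fin (m + 2) → K, V.ρ (g 0) (c (Fin.tail g)) +
      ∑ j : Fin (m + 2), (-1 : ℤ) ^ ((j : ℕ) + 1) • c (Fin.contractNth j (· * ·) g) = 0) :
    ∃ b : (Fin m → K) → V, ∀ g : Fin (m + 1) → K, V.ρ (g 0) (b (Fin.tail g)) +
      ∑ j : Fin (m + 1), (-1 : ℤ) ^ ((j : ℕ) + 1) • b (Fin.contractNth j (· * ·) g) = c g := by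
  have h1 : (groupCohomology.inhomogeneousCochains V).ExactAt (m + 1) :=
    (HomologicalComplex.exactAt_iff_isZero_homology _ _).2 h
  rw [HomologicalComplex.exactAt_iff' _ m (m + 1) (m + 2) (by simp) (by simp),
    ShortComplex.moduleCat_exact_iff] at h1
  obtain ⟨b, hb⟩ := h1 c (by
    funext g
    exact (cochain_d_apply V (m + 1) c g).trans (hc g))
  refine ⟨b, fun g => ?_⟩
  rw [← cochain_d_apply]
  exact congrFun hb g

theorem exists_cycle_of_not_isZero (V : Rep k K) (m : ℕ)
    (h : ¬ IsZero (groupHomology V (m + 1))) :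
    ∃ z : (Fin (m + 1) → K) →₀ V, (groupHomology.inhomogeneousChains.d V m).hom z = 0 ∧
      ∀ y, (groupHomology.inhomogeneousChains.d V (m + 1)).hom y ≠ z := by
  by_contra hcon
  push Not at hcon
  apply h
  refine (HomologicalComplex.exactAt_iff_isZero_homology
    (groupHomology.inhomogeneousChains V) (m + 1)).1 ?_
  rw [HomologicalComplex.exactAt_iff' _ (m + 2) (m + 1) m (by simp) (by simp),
    ShortComplex.moduleCat_exact_iff]
  intro z hz
  have hz' : (groupHomology.inhomogeneousChains.d V m).hom z = 0 := by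
    rw [← groupHomology.inhomogeneousChains.d_def]
    exact hz
  obtain ⟨y, hy⟩ := hcon z hz'
  refine ⟨y, ?_⟩
  change ((groupHomology.inhomogeneousChains V).d (m + 2) (m + 1)).hom y = z
  rw [groupHomology.inhomogeneousChains.d_def]
  exact hy

end Run7.h817
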