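import Pool.Agent.Run7.h817.SetF
import Mathlib.Data.ZMod.QuotientGroup

/-! Subgroups with second homology of finite dimension and of infinite index in the normaliser. -/

namespace Run7.h817

open CategoryTheory Limits

/-- all that is needed from the Calabi-Yau condition -/
structure Data (G : Type) [Group G] (c₀ : (Fin 3 → G) → CG G) : Prop where
  fund : Fund G 2 c₀
  dual : ∀ I : Type, Dual c₀ (I →₀ CG G)
  one : ∀ I : Type, HVan G (I →₀ CG G) 1
  zero : ∀ I : Type, HVan G (I →₀ CG G) 0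

theorem exists_data {G : Type} [Group G] [Countable G] [Infinite G]
    (h : IsCalabiYau (CG G) 3) : ∃ c₀, Data G c₀ := by
  obtain ⟨Φ, hΦ⟩ := exists_pairing h
  obtain ⟨c₀, hc₀⟩ := hΦ.exists_fund
  exact ⟨c₀, hc₀, fun I => dual_free h hΦ hc₀ I, fun I => HVan_free h I 1 (by omega),
    fun I => HVan_free h I 0 (by omega)⟩

variable {G : Type} [Group G] (K : Subgroup G) {c₀ : (Fin 3 → G) → CG G}

/-- a cycle which is not a boundary gives an almost invariant function -/
theorem Data.exists_aif (hD : Data G c₀) (hK : HasFiniteCd K) (z : (Fin 2 → K) →₀ ℂ)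
    (hz : chd K (trv K) 1 z = 0) (hz' : ∀ y, chd K (trv K) 2 y ≠ z)
    (hvan : ∀ C : G → ((G ⧸ K) →₀ ℂ), (∀ g h, C (g * h) = gmap K (trv K) g (C h) + C g) →
      ∀ k ∈ K, C k ((1 : G) : G ⧸ K) = 0) :
    ∃ f : G ⧸ K → ℂ, AIF K f ∧ ∀ e, {x | f x ≠ e}.Infinite := by
  obtain ⟨C, hC, hR⟩ := exists_relF_of_cycle K (trv K) hD.one hD.fund z hz
  obtain ⟨f, hf⟩ := exists_function K C hC (hvan C hC)
  refine ⟨f, ?_, ?_⟩
  · intro g
    refine (C g).support.finite_toSet.subset ?_
    intro x hx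
    rw [Finset.mem_coe, Finsupp.mem_support_iff, hf]
    exact sub_ne_zero.2 hx
  · intro e he
    let w : (G ⧸ K) →₀ ℂ := Finsupp.ofSupportFinite (fun x => f x - e) (by
      refine he.subset ?_
      intro x hx
      rw [Function.mem_support, sub_ne_zero] at hx
      exact hx)
    obtain ⟨y, hy⟩ := hR.boundary K (trv K) hD.dual hD.fund.cocycle hK w (by
      intro g
      ext x
      rw [Finsupp.sub_apply, gmap_trv, hf]
      change _ = (f (g⁻¹ • x) - e) - (f x - e)
      ring)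
    exact hz' y hy

/-- a bound for the number of linearly independent almost invariant functions -/
theorem Data.relation (hD : Data G c₀) (hK : HasFiniteCd K)
    [Module.Finite ℂ (groupHomology (Rep.trivial ℂ K ℂ) 2)] (n : ℕ)
    (hn : Module.finrank ℂ (groupHomology (Rep.trivial ℂ K ℂ) 2) < n)
    (f : Fin n → G ⧸ K → ℂ) (hf : ∀ i, AIF K (f i)) :
    ∃ a : Fin n → ℂ, a ≠ 0 ∧ ∃ e, {x | ∑ i, a i * f i x ≠ e}.Finite := by
  have h1 : ∀ i, ∃ z, chd K (trv K) 1 z = 0 ∧ RelF K (trv K) c₀ (cocF K (hf i)) z := fun i =>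
    exists_relF_of_cocycle K (trv K) hD.dual hD.fund.cocycle hK _ (cocF_cocycle K (hf i))
  choose z hz hR using h1
  obtain ⟨a, ha, y, hy⟩ := exists_cycle_relation (Rep.trivial ℂ K ℂ) 1 n hn z hz
  refine ⟨a, ha, ?_⟩
  obtain ⟨w, hw⟩ := (RelF.sum K (trv K) Finset.univ a hR).coboundary K (trv K) hD.one hD.zero
    hD.fund y hy
  apply const_of_coboundary K w
  intro g x
  have h2 := DFunLike.congr_fun (hw g) x
  rw [Finsupp.sub_apply, gmap_trv, Finset.sum_apply, Finsupp.finsetSum_apply] at h2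
  rw [← h2, ← Finset.sum_sub_distrib]
  refine Finset.sum_congr rfl (fun i _ => ?_)
  rw [Pi.smul_apply, Finsupp.smul_apply, cocF_apply, smul_eq_mul, mul_sub]

/-- right translation by an element of the normaliser -/
noncomputable def rtr (a : G) (ha : a ∈ Subgroup.normalizer (K : Set G)) : Equiv.Perm (G ⧸ K) where
  toFun := Quotient.map' (fun x => x * a) (by
    intro x y hxy
    rw [QuotientGroup.leftRel_apply] at hxy ⊢
    have h := (Subgroup.mem_normalizer_iff''.1 ha _).1 hxy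
    rw [mul_inv_rev]
    simpa [mul_assoc] using h)
  invFun := Quotient.map' (fun x => x * a⁻¹) (by
    intro x y hxy
    rw [QuotientGroup.leftRel_apply] at hxy ⊢
    have h := (Subgroup.mem_normalizer_iff.1 ha _).1 hxy
    rw [mul_inv_rev, inv_inv]
    simpa [mul_assoc] using h)
  left_inv := by
    intro x
    induction x using Quotient.inductionOn' with
    | h x =>
      rw [Quotient.map'_mk'', Quotient.map'_mk'', mul_inv_cancel_right]
  right_inv := by
    intro x
    induction x using Quotient.inductionOn' with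
    | h x =>
      rw [Quotient.map'_mk'', Quotient.map'_mk'', inv_mul_cancel_right]

theorem rtr_coe (a : G) (ha : a ∈ Subgroup.normalizer (K : Set G)) (x : G) :
    rtr K a ha (x : G ⧸ K) = ((x * a : G) : G ⧸ K) := rfl

theorem rtr_mem (a : G) (ha : a ∈ Subgroup.normalizer (K : Set G)) :
    rtr K a ha ∈ Ends.Cen G (G ⧸ K) := by
  intro g x
  induction x using Quotient.inductionOn' with
  | h x =>
    change (((g * x) * a : G) : G ⧸ K) = ((g * (x * a) : G) : G ⧸ K)
    rw [mul_assoc]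

theorem infinite_cen (hinf : Set.Infinite
      {x : G ⧸ K | ∃ a ∈ Subgroup.normalizer (K : Set G), x = (a : G ⧸ K)}) :
    Infinite (Ends.Cen G (G ⧸ K)) := by
  have h1 : Infinite {x : G ⧸ K | ∃ a ∈ Subgroup.normalizer (K : Set G), x = (a : G ⧸ K)} :=
    hinf.to_subtype
  have h2 : ∀ x : {x : G ⧸ K | ∃ a ∈ Subgroup.normalizer (K : Set G), x = (a : G ⧸ K)},
      ∃ σ : Ends.Cen G (G ⧸ K), (σ : Equiv.Perm (G ⧸ K)) ((1 : G) : G ⧸ K) = x := by
    rintro ⟨_, a, ha, rfl⟩
    refine ⟨⟨rtr K a ha, rtr_mem K a ha⟩, ?_⟩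
    change (((1 : G) * a : G) : G ⧸ K) = _
    rw [one_mul]
  choose σ hσ using h2
  refine Infinite.of_injective σ (fun x y hxy => ?_)
  apply Subtype.ext
  rw [← hσ x, ← hσ y, hxy]

theorem zpow_apply {t : Equiv.Perm (G ⧸ K)} (ht : t ∈ Ends.Cen G (G ⧸ K)) {a : G}
    (ha : t ((1 : G) : G ⧸ K) = (a : G ⧸ K)) (n : ℤ) (g : G) :
    (t ^ n) (g : G ⧸ K) = ((g * a ^ n : G) : G ⧸ K) := by
  have h1 : ∀ g : G, t (g : G ⧸ K) = ((g * a : G) : G ⧸ K) := by
    intro g
    have h2 : ((g : G) : G ⧸ K) = g • ((1 : G) : G ⧸ K) := by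
      change _ = ((g * 1 : G) : G ⧸ K)
      rw [mul_one]
    rw [h2, Ends.Cen.apply_smul ht, ha]
    rfl
  induction n generalizing g with
  | zero => rw [zpow_zero, zpow_zero, mul_one]; rfl
  | succ i ih =>
    rw [zpow_add_one, Equiv.Perm.mul_apply, h1, ih, mul_assoc, ← zpow_one_add, add_comm]
  | pred i ih =>
    have h3 : t⁻¹ (g : G ⧸ K) = ((g * a⁻¹ : G) : G ⧸ K) := by
      rw [Equiv.Perm.inv_eq_iff_eq, h1, inv_mul_cancel_right]
    have h4 : (-1 : ℤ) + -(i : ℤ) = -(i : ℤ) - 1 := by ring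
    rw [zpow_sub_one, Equiv.Perm.mul_apply, h3, ih, mul_assoc, ← zpow_neg_one, ← zpow_add, h4]

theorem mem_normalizer_of_cen {t : Equiv.Perm (G ⧸ K)} (ht : t ∈ Ends.Cen G (G ⧸ K)) {a : G}
    (ha : t ((1 : G) : G ⧸ K) = (a : G ⧸ K)) : a ∈ Subgroup.normalizer (K : Set G) := by
  have h1 : ∀ (n : ℤ), ∀ k ∈ K, (a ^ n)⁻¹ * k * a ^ n ∈ K := by
    intro n k hk
    have h2 := zpow_apply K ht ha n k
    have h3 : ((k : G) : G ⧸ K) = ((1 : G) : G ⧸ K) := by
      rw [QuotientGroup.eq, mul_one]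
      exact K.inv_mem hk
    rw [h3, zpow_apply K ht ha n 1, QuotientGroup.eq, one_mul] at h2
    rwa [mul_assoc]
  rw [Subgroup.mem_normalizer_iff'']
  intro k
  refine ⟨fun hk => ?_, fun hk => ?_⟩
  · have := h1 1 k hk
    rwa [zpow_one] at this
  · have := h1 (-1) _ hk
    rw [zpow_neg_one] at this
    simpa [mul_assoc] using this

/-- the group generated by `K` and an element normalising it has finite index -/
theorem Data.main [Countable G] (h : IsCalabiYau (CG G) 3) (hD : Data G c₀) (hK : HasFiniteCd K)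
    (hfg : K.FG)
    (hinf : Set.Infinite {x : G ⧸ K | ∃ a ∈ Subgroup.normalizer (K : Set G), x = (a : G ⧸ K)})
    [Module.Finite ℂ (groupHomology (Rep.trivial ℂ K ℂ) 2)]
    (hne : ¬ IsZero (groupHomology (Rep.trivial ℂ K ℂ) 2)) :
    ∃ t ∈ Subgroup.normalizer (K : Set G), (∀ n : ℤ, n ≠ 0 → t ^ n ∉ K) ∧
      (K ⊔ Subgroup.zpowers t).FiniteIndex := by
  have hX : Infinite (G ⧸ K) := Set.infinite_univ_iff.1 (hinf.mono (Set.subset_univ _))
  obtain ⟨z, hz, hz'⟩ := exists_cycle_of_not_isZero (Rep.trivial ℂ K ℂ) 1 hne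
  obtain ⟨f, hf, hf'⟩ := hD.exists_aif K hK z hz hz' (vanish_of_normalizer K hfg hinf)
  have h2 : Ends.PP G (G ⧸ K) 2 := PP_two K hf hf'
  have h3 : ¬ Ends.PP G (G ⧸ K)
      (Module.finrank ℂ (groupHomology (Rep.trivial ℂ K ℂ) 2) + 3) :=
    not_PP K (Module.finrank ℂ (groupHomology (Rep.trivial ℂ K ℂ) 2) + 1)
      (fun f hf => hD.relation K hK _ (by omega) f hf)
  have h4 := infinite_cen K hinf
  obtain ⟨t, ht, D, hDf, hDx⟩ := Ends.main (fg_of_isCalabiYau' h) h2 _ h3
  let a : G := Quotient.out (t ((1 : G) : G ⧸ K))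
  have ha : t ((1 : G) : G ⧸ K) = (a : G ⧸ K) := (Quotient.out_eq _).symm
  have hcov : ∀ g : G, ∃ n : ℤ, ((g * a ^ n : G) : G ⧸ K) ∈ D := by
    intro g
    obtain ⟨n, hn⟩ := hDx (g : G ⧸ K)
    exact ⟨n, by rwa [zpow_apply K ht ha] at hn⟩
  refine ⟨a, mem_normalizer_of_cen K ht ha, ?_, ?_⟩
  · intro n hn hna
    -- then `t ^ n` fixes everything and the space is finite
    have h5 : t ^ n = 1 := by
      ext x
      obtain ⟨g, rfl⟩ := QuotientGroup.mk_surjective x
      rw [zpow_apply K ht ha, Equiv.Perm.one_apply, QuotientGroup.eq, mul_inv_rev, mul_assoc,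
        inv_mul_cancel, mul_one]
      exact K.inv_mem hna
    have h6 : Set.Finite (Set.range (fun m : ℤ => t ^ m)) := by
      have h7 : IsOfFinOrder t := isOfFinOrder_iff_zpow_eq_one.2 ⟨n, hn, h5⟩
      exact finite_zpowers.2 h7
    apply Set.infinite_univ (α := G ⧸ K)
    refine (h6.biUnion (fun s _ => hDf.preimage (f := s) s.injective.injOn)).subset ?_
    intro x _
    obtain ⟨m, hm⟩ := hDx x
    exact Set.mem_iUnion₂.2 ⟨t ^ m, ⟨m, rfl⟩, hm⟩
  · have h5 : Finite (G ⧸ (K ⊔ Subgroup.zpowers a)) := by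
      have hsub : K ≤ K ⊔ Subgroup.zpowers a := le_sup_left
      let π : G ⧸ K → G ⧸ (K ⊔ Subgroup.zpowers a) := Quotient.map' id (by
        intro x y hxy
        rw [QuotientGroup.leftRel_apply] at hxy ⊢
        exact hsub hxy)
      rw [← Set.finite_univ_iff]
      refine (hDf.image π).subset ?_
      intro x _
      obtain ⟨g, rfl⟩ := QuotientGroup.mk_surjective x
      obtain ⟨n, hn⟩ := hcov g
      refine ⟨_, hn, ?_⟩
      change ((g * a ^ n : G) : G ⧸ (K ⊔ Subgroup.zpowers a)) = (g : G ⧸ (K ⊔ Subgroup.zpowers a))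
      rw [QuotientGroup.eq, mul_inv_rev, mul_assoc, inv_mul_cancel, mul_one]
      exact Subgroup.inv_mem _ (le_sup_right (a := K) (Subgroup.zpow_mem_zpowers a n))
    exact Subgroup.finiteIndex_of_finite_quotient

end Run7.h817
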