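import Pool.Agent.Run7.h817.RFIndex
import Mathlib.GroupTheory.Finiteness
import Mathlib.GroupTheory.Perm.Basic
import Mathlib.GroupTheory.GroupAction.ConjAct
import Mathlib.GroupTheory.GroupAction.Quotient
import Mathlib.Tactic.Group
import Mathlib.Tactic.Linarith
import Mathlib.Tactic.Positivity

/-! Residual finiteness of cyclic extensions of finitely generated residually finite groups. -/

namespace Run7.h817

section Char

variable {P : Type*} [Group P]

/-- finitely many homomorphisms into a finite group -/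
theorem finite_hom (hP : Group.FG P) (F : Type*) [Group F] [Finite F] : Finite (P →* F) := by
  obtain ⟨S, hS, hSf⟩ := (Group.fg_iff (G := P)).1 hP
  have : Finite S := hSf
  refine Finite.of_injective (fun (f : P →* F) (s : S) => f s) (fun f f' h => ?_)
  refine MonoidHom.eq_of_eqOn_dense hS (fun s hs => ?_)
  exact congrFun h ⟨s, hs⟩

/-- the intersection of the kernels of all homomorphisms to a finite symmetric group -/
def permKer (P : Type*) [Group P] (n : ℕ) : Subgroup P := ⨅ f : P →* Equiv.Perm (Fin n), f.ker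

theorem mem_permKer {n : ℕ} {x : P} :
    x ∈ permKer P n ↔ ∀ f : P →* Equiv.Perm (Fin n), f x = 1 := by
  rw [permKer, Subgroup.mem_iInf]
  rfl

theorem permKer_finiteIndex (hP : Group.FG P) (n : ℕ) : (permKer P n).FiniteIndex := by
  have := finite_hom hP (Equiv.Perm (Fin n))
  exact Subgroup.finiteIndex_iInf (fun f => Subgroup.finiteIndex_ker f)

theorem permKer_equiv {n : ℕ} (σ : P ≃* P) {x : P} (hx : x ∈ permKer P n) :
    σ x ∈ permKer P n := by
  rw [mem_permKer] at hx ⊢
  intro f
  exact hx (f.comp σ.toMonoidHom)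

/-- a subgroup of finite index contains one of these subgroups -/
theorem exists_permKer_le (H : Subgroup P) (hH : H.FiniteIndex) : ∃ n, permKer P n ≤ H := by
  have : Finite (P ⧸ H) := Subgroup.finite_quotient_of_finiteIndex
  obtain ⟨n, ⟨e⟩⟩ := Finite.exists_equiv_fin (P ⧸ H)
  refine ⟨n, fun x hx => ?_⟩
  rw [mem_permKer] at hx
  have h1 := hx (e.permCongrHom.toMonoidHom.comp (MulAction.toPermHom P (P ⧸ H)))
  have h2 : MulAction.toPermHom P (P ⧸ H) x = 1 := by
    apply e.permCongrHom.injective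
    rw [map_one]
    exact h1
  have h3 := congrArg (fun s => s ((1 : P) : P ⧸ H)) h2
  change ((x * 1 : P) : P ⧸ H) = ((1 : P) : P ⧸ H) at h3
  rw [QuotientGroup.eq, mul_one, mul_one] at h3
  simpa using H.inv_mem h3

end Char

variable {G : Type*} [Group G]

theorem zpow_conj_mem {L : Subgroup G} {t : G} (ht : t ∈ Subgroup.normalizer (L : Set G)) (n : ℤ)
    {x : G} (hx : x ∈ L) : t ^ n * x * (t ^ n)⁻¹ ∈ L :=
  (Subgroup.mem_normalizer_iff.1 (Subgroup.zpow_mem _ ht n) x).1 hx

/-- products of elements of a subgroup and powers of a normalising element -/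
def mulZ {L : Subgroup G} {t : G} (ht : t ∈ Subgroup.normalizer (L : Set G)) : Subgroup G where
  carrier := {x | ∃ l ∈ L, ∃ n : ℤ, x = l * t ^ n}
  one_mem' := ⟨1, L.one_mem, 0, by simp⟩
  mul_mem' := by
    rintro _ _ ⟨l, hl, n, rfl⟩ ⟨l', hl', m, rfl⟩
    refine ⟨l * (t ^ n * l' * (t ^ n)⁻¹), L.mul_mem hl (zpow_conj_mem ht n hl'), n + m, ?_⟩
    rw [zpow_add]
    group
  inv_mem' := by
    rintro _ ⟨l, hl, n, rfl⟩
    refine ⟨t ^ (-n) * l⁻¹ * (t ^ (-n))⁻¹, zpow_conj_mem ht (-n) (L.inv_mem hl), -n, ?_⟩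
    group

/-- membership in the group generated by a subgroup and a normalising element -/
theorem mem_sup_zpowers {L : Subgroup G} {t : G} (ht : t ∈ Subgroup.normalizer (L : Set G)) {x : G}
    (hx : x ∈ L ⊔ Subgroup.zpowers t) : ∃ l ∈ L, ∃ n : ℤ, x = l * t ^ n := by
  have h1 : L ⊔ Subgroup.zpowers t ≤ mulZ ht := by
    refine sup_le (fun l hl => ⟨l, hl, 0, by simp⟩) ?_
    rw [Subgroup.zpowers_le]
    exact ⟨1, L.one_mem, 1, by simp⟩
  exact h1 hx

/-- conjugation by a normalising element -/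
def conjEquiv (K : Subgroup G) (t : G) (ht : t ∈ Subgroup.normalizer (K : Set G)) : K ≃* K where
  toFun k := ⟨t * k * t⁻¹, (Subgroup.mem_normalizer_iff.1 ht k).1 k.2⟩
  invFun k := ⟨t⁻¹ * k * t, (Subgroup.mem_normalizer_iff''.1 ht k).1 k.2⟩
  left_inv k := Subtype.ext (by group)
  right_inv k := Subtype.ext (by group)
  map_mul' a b := Subtype.ext (by simp [mul_assoc])

theorem permKer_normalizer (K : Subgroup G) {t : G} (ht : t ∈ Subgroup.normalizer (K : Set G))
    (n : ℕ) : t ∈ Subgroup.normalizer (((permKer K n).map K.subtype : Subgroup G) : Set G) := by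
  rw [Subgroup.mem_normalizer_iff]
  intro x
  constructor
  · rintro ⟨k, hk, rfl⟩
    exact ⟨conjEquiv K t ht k, permKer_equiv _ hk, rfl⟩
  · rintro ⟨k, hk, hk'⟩
    refine ⟨(conjEquiv K t ht).symm k, permKer_equiv _ hk, ?_⟩
    change t⁻¹ * (k : G) * t = x
    change (k : G) = t * x * t⁻¹ at hk'
    rw [hk']
    group

/-- **Cyclic extensions.** If `K` is finitely generated and residually finite and `t` normalises
`K` and has infinite order modulo `K`, and `K` and `t` generate a subgroup of finite index, then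
`G` is residually finite. -/
theorem residuallyFinite_of_sup_zpowers (K : Subgroup G) (hK : K.FG)
    (hRF : Group.ResiduallyFinite K) (t : G) (ht : t ∈ Subgroup.normalizer (K : Set G))
    (hinf : ∀ n : ℤ, n ≠ 0 → t ^ n ∉ K) (hfi : (K ⊔ Subgroup.zpowers t).FiniteIndex) :
    Group.ResiduallyFinite G := by
  rw [Group.residuallyFinite_iff_exists_finiteIndex]
  intro g hg
  by_cases hgG : g ∈ K ⊔ Subgroup.zpowers t
  swap
  · exact ⟨_, hfi, hgG⟩
  have hq : Finite (G ⧸ (K ⊔ Subgroup.zpowers t)) := Subgroup.finite_quotient_of_finiteIndex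
  have hdec : ∀ x : G, ∃ k ∈ K, ∃ n : ℤ,
      (Quotient.out (x : G ⧸ (K ⊔ Subgroup.zpowers t)))⁻¹ * x = k * t ^ n := by
    intro x
    have h1 : (Quotient.out (x : G ⧸ (K ⊔ Subgroup.zpowers t)))⁻¹ * x ∈ K ⊔ Subgroup.zpowers t := by
      rw [← QuotientGroup.eq]
      exact Quotient.out_eq _
    obtain ⟨k, hk, n, hn⟩ := mem_sup_zpowers ht h1
    exact ⟨k, hk, n, hn⟩
  by_cases hgK : g ∈ K
  · -- an element of `K`
    rw [Group.residuallyFinite_iff_exists_finiteIndex] at hRF
    obtain ⟨H, hH, hgH⟩ := hRF ⟨g, hgK⟩ (fun h => hg (congrArg Subtype.val h))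
    obtain ⟨n, hn⟩ := exists_permKer_le H hH
    have hfgK : Group.FG K := (Group.fg_iff_subgroup_fg K).2 hK
    have hLfi := permKer_finiteIndex hfgK n
    have hLq : Finite (K ⧸ permKer K n) := Subgroup.finite_quotient_of_finiteIndex
    set L : Subgroup G := (permKer K n).map K.subtype with hL
    have hgL : g ∉ L := by
      rintro ⟨k, hk, hk'⟩
      apply hgH
      have h1 : k = ⟨g, hgK⟩ := Subtype.ext hk'
      rw [← h1]
      exact hn hk
    have htL : t ∈ Subgroup.normalizer (L : Set G) := permKer_normalizer K ht n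
    refine ⟨L ⊔ Subgroup.zpowers t, ?_, ?_⟩
    · have h1 : Finite (G ⧸ (L ⊔ Subgroup.zpowers t)) := by
        refine Finite.of_surjective
          (fun p : (G ⧸ (K ⊔ Subgroup.zpowers t)) × (K ⧸ permKer K n) =>
            ((Quotient.out p.1 * (Quotient.out p.2 : K) : G) : G ⧸ (L ⊔ Subgroup.zpowers t))) ?_
        intro x
        obtain ⟨x, rfl⟩ := QuotientGroup.mk_surjective x
        obtain ⟨k, hk, m, hx⟩ := hdec x
        refine ⟨((x : G ⧸ (K ⊔ Subgroup.zpowers t)), ((⟨k, hk⟩ : K) : K ⧸ permKer K n)), ?_⟩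
        change ((Quotient.out (x : G ⧸ (K ⊔ Subgroup.zpowers t)) *
          (Quotient.out ((⟨k, hk⟩ : K) : K ⧸ permKer K n) : K) : G) :
            G ⧸ (L ⊔ Subgroup.zpowers t)) = _
        rw [QuotientGroup.eq]
        have h2 : (Quotient.out ((⟨k, hk⟩ : K) : K ⧸ permKer K n))⁻¹ * (⟨k, hk⟩ : K) ∈
            permKer K n := by
          rw [← QuotientGroup.eq]
          exact Quotient.out_eq _
        have h3 : (((Quotient.out ((⟨k, hk⟩ : K) : K ⧸ permKer K n))⁻¹ * (⟨k, hk⟩ : K) : K) : G) ∈
            L := ⟨_, h2, rfl⟩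
        have h4 : ((Quotient.out (x : G ⧸ (K ⊔ Subgroup.zpowers t)) *
          (Quotient.out ((⟨k, hk⟩ : K) : K ⧸ permKer K n) : K) : G))⁻¹ * x =
            (((Quotient.out ((⟨k, hk⟩ : K) : K ⧸ permKer K n))⁻¹ * (⟨k, hk⟩ : K) : K) : G) *
              t ^ m := by
          rw [mul_inv_rev, mul_assoc, hx, Subgroup.coe_mul, Subgroup.coe_inv, mul_assoc]
        rw [h4]
        exact Subgroup.mul_mem _ (le_sup_left (b := Subgroup.zpowers t) h3)
          (le_sup_right (a := L) (Subgroup.zpow_mem_zpowers t m))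
      exact Subgroup.finiteIndex_of_finite_quotient
    · intro h
      obtain ⟨l, hl, m, hm⟩ := mem_sup_zpowers htL h
      have hlK : l ∈ K := by
        obtain ⟨k, -, rfl⟩ := hl
        exact k.2
      have h1 : t ^ m ∈ K := by
        have h2 : t ^ m = l⁻¹ * g := by rw [hm, inv_mul_cancel_left]
        rw [h2]
        exact K.mul_mem (K.inv_mem hlK) hgK
      have h2 : m = 0 := by
        by_contra h
        exact hinf m h h1
      rw [h2, zpow_zero, mul_one] at hm
      rw [hm] at hgL
      exact hgL hl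
  · -- an element outside `K`
    obtain ⟨k, hk, m, hm⟩ := mem_sup_zpowers ht hgG
    have hm0 : m ≠ 0 := by
      rintro rfl
      apply hgK
      rw [hm, zpow_zero, mul_one]
      exact hk
    let N : ℕ := m.natAbs + 1
    have htN : t ^ N ∈ Subgroup.normalizer (K : Set G) := Subgroup.pow_mem _ ht N
    refine ⟨K ⊔ Subgroup.zpowers (t ^ N), ?_, ?_⟩
    · have h1 : Finite (G ⧸ (K ⊔ Subgroup.zpowers (t ^ N))) := by
        refine Finite.of_surjective
          (fun p : (G ⧸ (K ⊔ Subgroup.zpowers t)) × Fin N =>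
            ((Quotient.out p.1 * t ^ (p.2 : ℕ) : G) : G ⧸ (K ⊔ Subgroup.zpowers (t ^ N)))) ?_
        intro x
        obtain ⟨x, rfl⟩ := QuotientGroup.mk_surjective x
        obtain ⟨k', hk', n, hx⟩ := hdec x
        have hN : (0 : ℤ) < N := by positivity
        have hr0 : 0 ≤ n % N := Int.emod_nonneg _ hN.ne'
        have hr1 : n % N < N := Int.emod_lt_of_pos _ hN
        have hr2 : ((n % N).toNat : ℤ) = n % N := Int.toNat_of_nonneg hr0
        refine ⟨((x : G ⧸ (K ⊔ Subgroup.zpowers t)), ⟨(n % N).toNat, by omega⟩), ?_⟩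
        change ((Quotient.out (x : G ⧸ (K ⊔ Subgroup.zpowers t)) * t ^ (n % N).toNat : G) :
            G ⧸ (K ⊔ Subgroup.zpowers (t ^ N))) = _
        rw [QuotientGroup.eq]
        have h3 : t ^ n = t ^ (n % N) * (t ^ N) ^ (n / N) := by
          rw [← zpow_natCast t N, ← zpow_mul, ← zpow_add, Int.emod_add_mul_ediv]
        have h4 : (Quotient.out (x : G ⧸ (K ⊔ Subgroup.zpowers t)) * t ^ (n % N).toNat)⁻¹ * x =
            (t ^ (-(n % N)) * k' * (t ^ (-(n % N)))⁻¹) * (t ^ N) ^ (n / N) := by
          rw [mul_inv_rev, mul_assoc, hx, h3, ← zpow_natCast t (n % N).toNat, hr2, zpow_neg,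
            inv_inv]
          simp only [mul_assoc]
        rw [h4]
        exact Subgroup.mul_mem _ (le_sup_left (b := Subgroup.zpowers (t ^ N))
          (zpow_conj_mem ht _ hk'))
          (le_sup_right (a := K) (Subgroup.zpow_mem_zpowers (t ^ N) _))
      exact Subgroup.finiteIndex_of_finite_quotient
    · intro h
      obtain ⟨k', hk', j, hj⟩ := mem_sup_zpowers htN h
      have h1 : t ^ (m - N * j) ∈ K := by
        have h2 : t ^ (m - N * j) = k⁻¹ * k' := by
          have h3 : k * t ^ m = k' * (t ^ N) ^ j := by rw [← hm, hj]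
          rw [← zpow_natCast t N, ← zpow_mul] at h3
          have h4 : t ^ m = k⁻¹ * (k' * t ^ ((N : ℤ) * j)) := by rw [← h3, inv_mul_cancel_left]
          rw [zpow_sub, h4]
          group
        rw [h2]
        exact K.mul_mem (K.inv_mem hk) hk'
      have h2 : m - N * j = 0 := by
        by_contra h
        exact hinf _ h h1
      have h3 : (N : ℤ) ∣ m := ⟨j, by linarith⟩
      have h4 := Int.natAbs_dvd_natAbs.2 h3
      rw [Int.natAbs_natCast] at h4
      have h5 := Nat.le_of_dvd (Int.natAbs_pos.2 hm0) h4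
      omega

end Run7.h817
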