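import Pool.Agent.Run7.h817.Normal
import Pool.Agent.Run7.h817.RFExt

/-! Residual finiteness from a subgroup of infinite index in its normaliser. -/

namespace Run7.h817

open CategoryTheory Limits

variable {G : Type} [Group G]

theorem infinite_cosets (K : Subgroup G)
    (h : ¬ (K.subgroupOf (Subgroup.normalizer (K : Set G))).FiniteIndex) :
    Set.Infinite {x : G ⧸ K | ∃ a ∈ Subgroup.normalizer (K : Set G), x = (a : G ⧸ K)} := by
  intro hfin
  apply h
  have h1 : Finite {x : G ⧸ K | ∃ a ∈ Subgroup.normalizer (K : Set G), x = (a : G ⧸ K)} := hfin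
  have h2 : Finite ((Subgroup.normalizer (K : Set G)) ⧸
      (K.subgroupOf (Subgroup.normalizer (K : Set G)))) := by
    refine Finite.of_injective (fun q =>
      (⟨((Quotient.out q : Subgroup.normalizer (K : Set G)) : G), _, (Quotient.out q).2, rfl⟩ :
        {x : G ⧸ K | ∃ a ∈ Subgroup.normalizer (K : Set G), x = (a : G ⧸ K)})) ?_
    intro q q' hqq'
    have h3 := congrArg Subtype.val hqq'
    change (((Quotient.out q : Subgroup.normalizer (K : Set G)) : G) : G ⧸ K) =
      (((Quotient.out q' : Subgroup.normalizer (K : Set G)) : G) : G ⧸ K) at h3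
    rw [QuotientGroup.eq] at h3
    rw [← Quotient.out_eq q, ← Quotient.out_eq q']
    apply Quotient.sound
    change QuotientGroup.leftRel _ _ _
    rw [QuotientGroup.leftRel_apply, Subgroup.mem_subgroupOf]
    exact h3
  exact Subgroup.finiteIndex_of_finite_quotient

/-- **Main theorem.** -/
theorem normalizer_main [Countable G] (h : IsCalabiYau (MonoidAlgebra ℂ G) 3) (K : Subgroup G)
    (hK : HasFiniteCd K) (hfg : K.FG)
    (hfd : Module.Finite ℂ (groupHomology (Rep.trivial ℂ K ℂ) 2))
    (hne : ¬ IsZero (groupHomology (Rep.trivial ℂ K ℂ) 2))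
    (hinf : ¬ (K.subgroupOf (Subgroup.normalizer (K : Set G))).FiniteIndex) :
    (∃ t ∈ Subgroup.normalizer (K : Set G), (K ⊔ Subgroup.zpowers t).FiniteIndex) ∧
      (Group.ResiduallyFinite K → Group.ResiduallyFinite G) := by
  have hinf' := infinite_cosets K hinf
  have hG : Infinite G := by
    by_contra hG
    rw [not_infinite_iff_finite] at hG
    exact hinf' (Set.toFinite _)
  obtain ⟨c₀, hD⟩ := exists_data h
  obtain ⟨t, ht, ht', hfi⟩ := hD.main K h hK hfg hinf' hne
  exact ⟨⟨t, ht, hfi⟩, fun hRF => residuallyFinite_of_sup_zpowers K hfg hRF t ht ht' hfi⟩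

end Run7.h817
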