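import Pool.Agent.Run7.h817.Coord
import Pool.Agent.Run7.h817.GrpBar

/-! The Calabi-Yau condition in terms of inhomogeneous cochains. -/

namespace Run7.h817

open CategoryTheory TensorProduct MulOpposite

universe u

variable {G : Type u} [Group G]

theorem cobd_kapInv (n : ℕ) (c : (Fin n → G) → (G →₀ CG G)) :
    cobd (envRho G) n (fun x => kapInv G (c x)) = fun x => kapInv G (dl n c x) :=
  cobd_map' (MonoidAlgebra.of ℂ G) (envRho G) n (kapInv G).toAddMonoidHom
    (fun g m => kapInv_rho G g m) c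

theorem cobd_kap (n : ℕ) (c : (Fin n → G) → Env (CG G)) :
    dl n (fun x => kap G (c x)) = fun x => kap G (cobd (envRho G) n c x) :=
  cobd_map' (envRho G) (MonoidAlgebra.of ℂ G) n (kap G).toAddMonoidHom
    (fun g m => kap_rho G g m) c

theorem cobd_kapInv_eq_zero {n : ℕ} {c : (Fin n → G) → (G →₀ CG G)} (hc : dl n c = 0) :
    cobd (envRho G) n (fun x => kapInv G (c x)) = 0 := by
  rw [cobd_kapInv]
  funext x
  rw [hc]
  exact map_zero (kapInv G)

theorem cobd_kap_eq_zero {n : ℕ} {c : (Fin n → G) → Env (CG G)} (hc : cobd (envRho G) n c = 0) :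
    dl n (fun x => kap G (c x)) = 0 := by
  rw [cobd_kap]
  funext x
  rw [hc]
  exact map_zero (kap G)

theorem cobd_kapInv_iff {n : ℕ} (c : (Fin (n + 1) → G) → (G →₀ CG G)) :
    (∃ b, cobd (envRho G) n b = fun x => kapInv G (c x)) ↔ ∃ b, dl n b = c := by
  constructor
  · rintro ⟨b, hb⟩
    refine ⟨fun x => kap G (b x), ?_⟩
    rw [cobd_kap, hb]
    funext x
    exact kap_kapInv G (c x)
  · rintro ⟨b, rfl⟩
    exact ⟨fun x => kapInv G (b x), cobd_kapInv n b⟩

/-- the main properties of the Calabi-Yau pairing, in dimension `d + 1`. -/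
structure Pairing (G : Type u) [Group G] (d : ℕ)
    (Φ : ((Fin (d + 1) → G) → (G →₀ CG G)) → CG G) : Prop where
  add : ∀ c c', dl (d + 1) c = 0 → dl (d + 1) c' = 0 → Φ (c + c') = Φ c + Φ c'
  ker : ∀ c, dl (d + 1) c = 0 → (Φ c = 0 ↔ ∃ b, dl d b = c)
  surj : ∀ a, ∃ c, dl (d + 1) c = 0 ∧ Φ c = a
  equivariant : ∀ g h c, dl (d + 1) c = 0 → Φ (fun x => R G g h (c x)) =
    MonoidAlgebra.single g 1 * Φ c * MonoidAlgebra.single h 1
  smul : ∀ (r : ℂ) c, dl (d + 1) c = 0 → Φ (r • c) = r • Φ c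

theorem dl_smul (n : ℕ) (r : ℂ) (c : (Fin n → G) → (G →₀ CG G)) :
    dl n (r • c) = r • dl n c := by
  refine dl_map' n (DistribSMul.toAddMonoidHom (G →₀ CG G) r) (fun g m => ?_) c
  exact smul_comm _ _ _

open Classical in
/-- The Calabi-Yau pairing exists. -/
theorem exists_pairing {d : ℕ} (h : IsCalabiYau (CG G) (d + 1)) : ∃ Φ, Pairing G d Φ := by
  obtain ⟨φ, hφ⟩ := h.ext_iso
  let _ : Module (Env (CG G)) (CG G) := instModuleTensorProductMop ℂ (CG G)
  let E : BarData.Aug (envBar G) (CG G) := envAug G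
  let Ψ : (c : (Fin (d + 1) → G) → (G →₀ CG G)) → (hc : dl (d + 1) c = 0) →
      Abelian.Ext (diagBimod (CG G)) (outerBimod (CG G)) (d + 1) := fun c hc =>
    BarData.cls (M := Env (CG G)) E (d + 1) (fun x => kapInv G (c x)) (cobd_kapInv_eq_zero hc)
  have hΨ_add : ∀ c c' (hc : dl (d + 1) c = 0) (hc' : dl (d + 1) c' = 0)
      (hcc : dl (d + 1) (c + c') = 0), Ψ (c + c') hcc = Ψ c hc + Ψ c' hc' := by
    intro c c' hc hc' hcc
    have h1 : (fun x => kapInv G ((c + c') x)) =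
      (fun x => kapInv G (c x)) + fun x => kapInv G (c' x) := by
      funext x
      exact map_add _ _ _
    have h2 := cobd_kapInv_eq_zero hcc
    rw [h1] at h2
    have h3 := BarData.cls_add (M := Env (CG G)) E (d + 1) (fun x => kapInv G (c x))
      (fun x => kapInv G (c' x)) (cobd_kapInv_eq_zero hc) (cobd_kapInv_eq_zero hc') h2
    refine Eq.trans ?_ h3
    change BarData.cls (M := Env (CG G)) E (d + 1) (fun x => kapInv G ((c + c') x))
      (cobd_kapInv_eq_zero hcc) = _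
    congr 1
  have hΨ_ker : ∀ c (hc : dl (d + 1) c = 0), Ψ c hc = 0 ↔ ∃ b, dl d b = c := by
    intro c hc
    rw [← cobd_kapInv_iff]
    exact BarData.cls_eq_zero_iff (M := Env (CG G)) E d (fun x => kapInv G (c x))
      (cobd_kapInv_eq_zero hc)
  have hΨ_surj : ∀ ξ, ∃ c, ∃ hc : dl (d + 1) c = 0, Ψ c hc = ξ := by
    intro ξ
    obtain ⟨c, hc, hc'⟩ := BarData.cls_surj (M := Env (CG G)) E (d + 1) ξ
    refine ⟨fun x => kap G (c x), cobd_kap_eq_zero hc, ?_⟩
    rw [← hc']
    change BarData.cls (M := Env (CG G)) E (d + 1) (fun x => kapInv G (kap G (c x))) _ = _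
    congr 1
    funext x
    exact kapInv_kap G (c x)
  have hΨ_comp : ∀ (a b : CG G) c (hc : dl (d + 1) c = 0) c' (hc' : dl (d + 1) c' = 0),
      (∀ x, kapInv G (c' x) = kapInv G (c x) * (b ⊗ₜ op a)) →
      (Ψ c hc).comp (Abelian.Ext.mk₀ (innerMap (CG G) a b)) (add_zero _) = Ψ c' hc' := by
    intro a b c hc c' hc' hcc
    have h1 : (fun x => LinearMap.toSpanSingleton (Env (CG G)) (Env (CG G)) (b ⊗ₜ op a)
        (kapInv G (c x))) = fun x => kapInv G (c' x) := by
      funext x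
      rw [hcc, LinearMap.toSpanSingleton_apply, smul_eq_mul]
    have h2 := cobd_kapInv_eq_zero hc'
    rw [← h1] at h2
    refine Eq.trans (BarData.cls_comp (M := Env (CG G)) (N := Env (CG G)) E (d + 1)
      (fun x => kapInv G (c x)) (cobd_kapInv_eq_zero hc)
      (LinearMap.toSpanSingleton (Env (CG G)) (Env (CG G)) (b ⊗ₜ op a)) h2) ?_
    change _ = BarData.cls (M := Env (CG G)) E (d + 1) (fun x => kapInv G (c' x)) _
    congr 1
  refine ⟨fun c => if hc : dl (d + 1) c = 0 then φ (Ψ c hc) else 0, ?_, ?_, ?_, ?_, ?_⟩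
  · intro c c' hc hc'
    have hcc : dl (d + 1) (c + c') = 0 := by rw [dl_add, hc, hc', add_zero]
    rw [dif_pos hc, dif_pos hc', dif_pos hcc, hΨ_add c c' hc hc' hcc, map_add]
  · intro c hc
    rw [dif_pos hc, EmbeddingLike.map_eq_zero_iff, hΨ_ker c hc]
  · intro a
    obtain ⟨c, hc, hc'⟩ := hΨ_surj (φ.symm a)
    exact ⟨c, hc, by rw [dif_pos hc, hc', AddEquiv.apply_symm_apply]⟩
  · intro g h c hc
    have hc' : dl (d + 1) (fun x => R G g h (c x)) = 0 := dl_map_zero (R G g h) hc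
    rw [dif_pos hc, dif_pos hc', ← hφ, hΨ_comp _ _ c hc _ hc' (fun x => kapInv_R G g h (c x))]
  · intro r c hc
    have hc' : dl (d + 1) (r • c) = 0 := by rw [dl_smul, hc, smul_zero]
    rw [dif_pos hc, dif_pos hc']
    have h1 := hφ 1 (algebraMap ℂ (CG G) r) (Ψ c hc)
    rw [hΨ_comp _ _ c hc _ hc' ?_] at h1
    · rw [h1, one_mul, Algebra.smul_def, Algebra.commutes]
    · intro x
      rw [Pi.smul_apply, map_smul, Algebra.algebraMap_eq_smul_one, op_one, ← TensorProduct.smul_tmul',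
        ← Algebra.TensorProduct.one_def, mul_smul_comm, mul_one]

end Run7.h817
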