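import Pool.Agent.Run7.h817.RFExt
import Pool.Agent.Run7.h817.RFIndex
import Mathlib.GroupTheory.Schreier
import Mathlib.GroupTheory.Commutator.Basic

/-! Residual finiteness of finitely generated (finite by abelian) groups. -/

namespace Run7.h817

variable {G : Type*} [Group G]

theorem rf_of_injective {A B : Type*} [Group A] [Group B] (f : A →* B)
    (hf : Function.Injective f) (h : Group.ResiduallyFinite B) : Group.ResiduallyFinite A := by
  rw [Group.residuallyFinite_iff_exists_finiteIndex] at h ⊢
  intro g hg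
  obtain ⟨H, hH, hgH⟩ := h (f g) (fun h => hg (hf (h.trans (map_one f).symm)))
  refine ⟨H.comap f, ⟨?_⟩, hgH⟩
  rw [Subgroup.index_comap]
  exact (inferInstance : (H.subgroupOf f.range).FiniteIndex).index_ne_zero

/-- a subgroup containing the commutators is normalised by everything -/
theorem mem_normalizer_of_commutator_le {K : Subgroup G} (hK : commutator G ≤ K) (t : G) :
    t ∈ Subgroup.normalizer (K : Set G) := by
  have hN : K.Normal := by
    refine ⟨fun n hn g => ?_⟩
    have h1 : g * n * g⁻¹ * n⁻¹ ∈ K := hK (Subgroup.commutator_mem_commutator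
      (Subgroup.mem_top g) (Subgroup.mem_top n))
    have h2 := K.mul_mem h1 hn
    rwa [inv_mul_cancel_right] at h2
  rw [Subgroup.normalizer_eq_top]
  exact Subgroup.mem_top t

/-- adding one generator -/
theorem fg_rf_sup_zpowers (K : Subgroup G) (hK : K.FG) (hRF : Group.ResiduallyFinite K) (t : G)
    (ht : t ∈ Subgroup.normalizer (K : Set G)) :
    (K ⊔ Subgroup.zpowers t).FG ∧ Group.ResiduallyFinite (K ⊔ Subgroup.zpowers t : Subgroup G) := by
  have hfg : (K ⊔ Subgroup.zpowers t).FG :=
    hK.sup ⟨{t}, by rw [Finset.coe_singleton, Subgroup.zpowers_eq_closure]⟩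
  refine ⟨hfg, ?_⟩
  set H : Subgroup G := K ⊔ Subgroup.zpowers t with hH
  have hKH : K ≤ H := le_sup_left
  have htH : t ∈ H := le_sup_right (a := K) (Subgroup.mem_zpowers t)
  let K' : Subgroup H := K.subgroupOf H
  let t' : H := ⟨t, htH⟩
  let e : K' ≃* K := Subgroup.subgroupOfEquivOfLe hKH
  have ht' : t' ∈ Subgroup.normalizer (K' : Set H) := by
    rw [Subgroup.mem_normalizer_iff] at ht ⊢
    intro h
    exact ht (h : G)
  have hK'fg : K'.FG := by
    rw [← Group.fg_iff_subgroup_fg]
    have h1 : Group.FG K := (Group.fg_iff_subgroup_fg K).2 hK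
    exact Group.fg_of_surjective (f := e.symm.toMonoidHom) e.symm.surjective
  have hK'rf : Group.ResiduallyFinite K' :=
    rf_of_injective e.toMonoidHom e.injective hRF
  have htop : K' ⊔ Subgroup.zpowers t' = ⊤ := by
    rw [eq_top_iff]
    rintro ⟨x, hx⟩ -
    obtain ⟨k, hk, n, rfl⟩ := mem_sup_zpowers ht hx
    have h1 : (⟨k * t ^ n, hx⟩ : H) = (⟨k, hKH hk⟩ : H) * t' ^ n := Subtype.ext (by simp [t'])
    rw [h1]
    exact Subgroup.mul_mem _ (le_sup_left (b := Subgroup.zpowers t') hk)
      (le_sup_right (a := K') (Subgroup.zpow_mem_zpowers t' n))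
  have hfi : (K' ⊔ Subgroup.zpowers t').FiniteIndex := by
    rw [htop]
    infer_instance
  by_cases hinf : ∀ n : ℤ, n ≠ 0 → t' ^ n ∉ K'
  · exact residuallyFinite_of_sup_zpowers K' hK'fg hK'rf t' ht' hinf hfi
  · push Not at hinf
    obtain ⟨n, hn, hn'⟩ := hinf
    refine residuallyFinite_of_finiteIndex K' ?_ hK'rf
    have hfin : Finite (H ⧸ K') := by
      have hn0 : (n.natAbs : ℤ) ≠ 0 := by omega
      refine Finite.of_surjective (fun i : Fin n.natAbs => ((t' ^ (i : ℕ) : H) : H ⧸ K')) ?_
      intro x
      obtain ⟨x, rfl⟩ := QuotientGroup.mk_surjective x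
      have hx : x ∈ K' ⊔ Subgroup.zpowers t' := by rw [htop]; exact Subgroup.mem_top x
      obtain ⟨k, hk, m, rfl⟩ := mem_sup_zpowers ht' hx
      have hr0 : 0 ≤ m % n.natAbs := Int.emod_nonneg _ hn0
      have hr1 : m % n.natAbs < n.natAbs := Int.emod_lt_of_pos _ (by omega)
      refine ⟨⟨(m % n.natAbs).toNat, by omega⟩, ?_⟩
      change ((t' ^ (m % n.natAbs).toNat : H) : H ⧸ K') = _
      rw [QuotientGroup.eq, ← zpow_natCast, Int.toNat_of_nonneg hr0]
      have h1 : t' ^ (n.natAbs : ℤ) ∈ K' := by
        rcases Int.natAbs_eq n with h | h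
        · rw [← h]; exact hn'
        · have h2 : (n.natAbs : ℤ) = -n := by omega
          rw [h2, zpow_neg]
          exact K'.inv_mem hn'
      have h2 : (t' ^ (m % n.natAbs))⁻¹ * (k * t' ^ m) =
          (t' ^ (-(m % n.natAbs)) * k * (t' ^ (-(m % n.natAbs)))⁻¹) *
            (t' ^ (n.natAbs : ℤ)) ^ (m / n.natAbs) := by
        have h3 : t' ^ m = t' ^ (m % n.natAbs) * (t' ^ (n.natAbs : ℤ)) ^ (m / n.natAbs) := by
          rw [← zpow_mul, ← zpow_add, Int.emod_add_mul_ediv]
        rw [h3]
        group
      rw [h2]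
      exact K'.mul_mem (zpow_conj_mem ht' _ hk) (K'.zpow_mem h1 _)
    exact Subgroup.finiteIndex_of_finite_quotient

/-- finitely generated groups which are finite by abelian are residually finite -/
theorem residuallyFinite_of_finite_commutator (hG : Group.FG G) (A : Subgroup G)
    (hA : commutator G ≤ A) (hfin : Finite A) : Group.ResiduallyFinite G := by
  classical
  obtain ⟨S, hS⟩ := hG.1
  have h1 : ∀ T : Finset G, (A ⊔ Subgroup.closure (T : Set G)).FG ∧
      Group.ResiduallyFinite (A ⊔ Subgroup.closure (T : Set G) : Subgroup G) := by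
    intro T
    induction T using Finset.induction_on with
    | empty =>
      have h2 : A ⊔ Subgroup.closure ((∅ : Finset G) : Set G) = A := by simp
      rw [h2]
      refine ⟨?_, inferInstance⟩
      rw [← Group.fg_iff_subgroup_fg]
      exact Group.fg_of_finite
    | insert t T ht ih =>
      have h2 : A ⊔ Subgroup.closure ((insert t T : Finset G) : Set G) =
          (A ⊔ Subgroup.closure (T : Set G)) ⊔ Subgroup.zpowers t := by
        rw [Finset.coe_insert, Set.insert_eq, Subgroup.closure_union,
          ← Subgroup.zpowers_eq_closure, sup_comm (Subgroup.zpowers t), sup_assoc]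
      rw [h2]
      exact fg_rf_sup_zpowers _ ih.1 ih.2 t
        (mem_normalizer_of_commutator_le (hA.trans le_sup_left) t)
  have h2 := (h1 S).2
  have h3 : A ⊔ Subgroup.closure (S : Set G) = ⊤ := by rw [hS, sup_top_eq]
  rw [h3] at h2
  exact rf_of_injective (Subgroup.topEquiv (G := G)).symm.toMonoidHom
    (Subgroup.topEquiv (G := G)).symm.injective h2

theorem residuallyFinite_of_comm {A : Type*} [CommGroup A] (hA : Group.FG A) :
    Group.ResiduallyFinite A := by
  refine residuallyFinite_of_finite_commutator hA ⊥ ?_ inferInstance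
  rw [commutator_def, Subgroup.commutator_le]
  intro a _ b _
  rw [Subgroup.mem_bot, commutatorElement_eq_one_iff_mul_comm, mul_comm]

end Run7.h817
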