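import Pool.Agent.Run7.h817.Strebel

/-! The relation between degree one cohomology of `G` with coefficients in the induced module and
degree two homology of the subgroup `K`. -/

namespace Run7.h817

open CategoryTheory Limits TensorProduct

universe u v w

section scalars

variable {G : Type u} [Group G] {M : Type v} [AddCommGroup M] [Module (CG G) M]

theorem cs_comm (r : ℂ) (a : CG G) :
    (MonoidAlgebra.single (1 : G) r : CG G) * a = a * MonoidAlgebra.single (1 : G) r := by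
  induction a using MonoidAlgebra.induction_linear with
  | zero => simp
  | add a b ha hb => rw [mul_add, add_mul, ha, hb]
  | single x s => rw [MonoidAlgebra.single_mul_single, MonoidAlgebra.single_mul_single, one_mul,
      mul_one, mul_comm]

variable (G) in
/-- multiplication by a complex number as a `ℂG`-linear map -/
noncomputable def csL (r : ℂ) : M →ₗ[CG G] M where
  toFun m := (MonoidAlgebra.single (1 : G) r : CG G) • m
  map_add' a b := smul_add _ _ _
  map_smul' a m := by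
    rw [RingHom.id_apply, ← mul_smul, ← mul_smul, cs_comm]

theorem csL_apply (r : ℂ) (m : M) : csL G r m = (MonoidAlgebra.single (1 : G) r : CG G) • m :=
  rfl

theorem csL_map {N : Type w} [AddCommGroup N] [Module (CG G) N] (f : M →ₗ[CG G] N) (r : ℂ) (m : M) :
    f (csL G r m) = csL G r (f m) := map_smul _ _ _

end scalars

variable {G : Type} [Group G] (K : Subgroup G) {N : Type} [AddCommGroup N] [Module ℂ N]
  (ρ : Representation ℂ K N)

theorem augX_csL (n : ℕ) (r : ℂ) (z : XX K N n) : augX K N n (csL G r z) = r • augX K N n z := by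
  induction z using Finsupp.induction_linear with
  | zero => simp
  | add a b ha hb => rw [map_add, map_add, map_add, smul_add, ha, hb]
  | single i y =>
    rw [csL_apply, Finsupp.smul_single, augX_single, augX_single, Finsupp.smul_single]
    congr 1
    induction y using yy_induction with
    | h0 => simp
    | ha a b ha hb => rw [smul_add, map_add, map_add, smul_add, ha, hb]
    | hs x n => rw [TensorProduct.smul_tmul', augY_tmul, augY_tmul, smul_eq_mul, map_mul,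
        augm_single, augm_single, mul_one, one_smul]

theorem totX_csL (r : ℂ) (z : XX K N 0) : totX K ρ (csL G r z) = r • totX K ρ z := by
  induction z using Finsupp.induction_linear with
  | zero => simp
  | add a b ha hb => rw [map_add, map_add, map_add, smul_add, ha, hb]
  | single i y =>
    rw [csL_apply, Finsupp.smul_single, totX_single, totX_single]
    induction y using yy_induction with
    | h0 => simp
    | ha a b ha hb => rw [smul_add, map_add, map_add, smul_add, ha, hb]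
    | hs x n =>
      have h : ((MonoidAlgebra.single (1 : G) r : CG G) • (MonoidAlgebra.single x 1 ⊗ₜ[ℂ] n : YY G N))
          = MonoidAlgebra.single x 1 ⊗ₜ[ℂ] (r • n) := by
        rw [TensorProduct.smul_tmul', smul_eq_mul, MonoidAlgebra.single_mul_single, one_mul, mul_one,
          ← TensorProduct.smul_tmul, MonoidAlgebra.smul_single, smul_eq_mul, mul_one]
      rw [h, tot_single, tot_single, map_smul, Finsupp.smul_single]

theorem totX_surj (w : (G ⧸ K) →₀ N) : totX K ρ (Finsupp.single default (yiota K w)) = w := by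
  rw [totX_single, tot_yiota]

theorem totX_dl_one (c : (Fin 1 → G) → XX K N 0) (t : Fin 2 → G) :
    totX K ρ (dl 1 c t) = gmap K ρ (t 0) (totX K ρ (c (fun _ => t 1))) -
      totX K ρ (c (fun _ => t 0 * t 1)) + totX K ρ (c (fun _ => t 0)) := by
  rw [dl_apply, map_add, totX_smul, map_sum]
  simp only [map_zsmul, Fin.sum_univ_succ, Finset.univ_eq_empty, Finset.sum_empty, Fin.val_zero,
      Fin.val_succ, zero_add, add_zero, pow_one, neg_smul, one_smul]
  have e1 : Fin.tail t = fun _ => t 1 := by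
    funext i
    rw [Subsingleton.elim i 0]
    rfl
  have e2 : Fin.contractNth (0 : Fin 2) (fun x1 x2 : G => x1 * x2) t = fun _ => t 0 * t 1 := by
    funext i
    rw [Subsingleton.elim i 0]
    simp [Fin.contractNth]
  have e3 : Fin.contractNth (Fin.succ (0 : Fin 1)) (fun x1 x2 : G => x1 * x2) t = fun _ => t 0 := by
    funext i
    rw [Subsingleton.elim i 0]
    simp [Fin.contractNth]
  rw [e1, e2, e3, neg_one_sq, one_smul]
  abel

theorem totX_dl_zero (c : (Fin 0 → G) → XX K N 0) (t : Fin 1 → G) :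
    totX K ρ (dl 0 c t) = gmap K ρ (t 0) (totX K ρ (c default)) - totX K ρ (c default) := by
  rw [dl_apply, map_add, totX_smul, map_sum]
  simp only [map_zsmul, Fin.sum_univ_succ, Finset.univ_eq_empty, Finset.sum_empty, Fin.val_zero,
      zero_add, add_zero, pow_one, neg_smul, one_smul]
  rw [Subsingleton.elim (Fin.tail t) default, Subsingleton.elim (Fin.contractNth 0 _ t) default]
  abel

/-- The relation between cocycles on `G` and two-chains on `K`. -/
def RelF (c₀ : (Fin 3 → G) → CG G) (C : G → ((G ⧸ K) →₀ N)) (z : (Fin 2 → K) →₀ N) : Prop :=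
  ∃ (c0 : (Fin 1 → G) → XX K N 0) (c1 : (Fin 2 → G) → XX K N 1) (x : XX K N 2),
    (∀ t, totX K ρ (c0 t) = C (t 0)) ∧ (dl 1 c0 = fun t => xd K ρ 0 (c1 t)) ∧
    (dl 2 c1 = smulc c₀ (xd K ρ 1 x)) ∧ augX K N 2 x = z

variable {c₀ : (Fin 3 → G) → CG G}

theorem RelF.add {C C' : G → ((G ⧸ K) →₀ N)} {z z' : (Fin 2 → K) →₀ N}
    (h : RelF K ρ c₀ C z) (h' : RelF K ρ c₀ C' z') : RelF K ρ c₀ (C + C') (z + z') := by
  obtain ⟨a, b, x, h1, h2, h3, h4⟩ := h
  obtain ⟨a', b', x', h1', h2', h3', h4'⟩ := h'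
  refine ⟨a + a', b + b', x + x', ?_, ?_, ?_, ?_⟩
  · intro t
    rw [Pi.add_apply, map_add, h1, h1']
    rfl
  · rw [dl_add, h2, h2']
    funext t
    rw [Pi.add_apply, Pi.add_apply, map_add]
  · rw [dl_add, h3, h3', map_add, smulc_add]
  · rw [map_add, h4, h4']

theorem RelF.smul {C : G → ((G ⧸ K) →₀ N)} {z : (Fin 2 → K) →₀ N} (r : ℂ)
    (h : RelF K ρ c₀ C z) : RelF K ρ c₀ (r • C) (r • z) := by
  obtain ⟨a, b, x, h1, h2, h3, h4⟩ := h
  refine ⟨fun t => csL G r (a t), fun t => csL G r (b t), csL G r x, ?_, ?_, ?_, ?_⟩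
  · intro t
    rw [totX_csL, h1]
    rfl
  · rw [dl_map, h2]
    funext t
    rw [csL_map]
  · rw [dl_map, h3, smulc_map, csL_map]
  · rw [augX_csL, h4]

theorem RelF.zero : RelF K ρ c₀ (0 : G → ((G ⧸ K) →₀ N)) 0 := by
  refine ⟨0, 0, 0, ?_, ?_, ?_, ?_⟩
  · intro t
    simp
  · rw [dl_zero]
    funext t
    simp
  · rw [dl_zero, map_zero, smulc_zero]
  · simp

theorem RelF.sum {ι : Type*} (s : Finset ι) (a : ι → ℂ) {C : ι → G → ((G ⧸ K) →₀ N)}
    {z : ι → ((Fin 2 → K) →₀ N)} (h : ∀ i, RelF K ρ c₀ (C i) (z i)) :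
    RelF K ρ c₀ (∑ i ∈ s, a i • C i) (∑ i ∈ s, a i • z i) := by
  classical
  induction s using Finset.induction_on with
  | empty => simpa using RelF.zero K ρ
  | insert i s hi ih =>
    rw [Finset.sum_insert hi, Finset.sum_insert hi]
    exact ((h i).smul K ρ (a i)).add K ρ ih

/-- Cocycles are related to cycles. -/
theorem exists_relF_of_cocycle (hd : ∀ I : Type, Dual c₀ (I →₀ CG G)) (hc₀ : dl 3 c₀ = 0)
    (hK : HasFiniteCd K) (C : G → ((G ⧸ K) →₀ N))
    (hC : ∀ g h, C (g * h) = gmap K ρ g (C h) + C g) :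
    ∃ z, chd K ρ 1 z = 0 ∧ RelF K ρ c₀ C z := by
  have dd : ∀ (n : ℕ) (z : XX K N (n + 2)), xd K ρ n (xd K ρ (n + 1) z) = 0 :=
    (indBar K ρ).bD_bD
  have ex : ∀ (n : ℕ) (z : XX K N (n + 1)), xd K ρ n z = 0 → ∃ y, xd K ρ (n + 1) y = z :=
    (indBar K ρ).exact
  let c0 : (Fin 1 → G) → XX K N 0 := fun t => Finsupp.single default (yiota K (C (t 0)))
  have h0 : ∀ t, totX K ρ (c0 t) = C (t 0) := fun t => totX_surj K ρ _
  have h1 : ∀ t, ∃ y, xd K ρ 0 y = dl 1 c0 t := by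
    intro t
    have h2 : dl 1 c0 t ∈ BB K ρ 0 := by
      apply mem_BB_of_totX
      have e1 := h0 (fun _ => t 1)
      have e2 := h0 (fun _ => t 0 * t 1)
      have e3 := h0 (fun _ => t 0)
      rw [totX_dl_one, e1, e2, e3, hC (t 0) (t 1)]
      abel
    exact h2
  obtain ⟨c1, hc1⟩ := lift_pointwise (xd K ρ 0) (dl 1 c0) h1
  have h2 : ∀ t, ∃ y : BB K ρ 1, (y : XX K N 1) = dl 2 c1 t := by
    intro t
    have h3 : xd K ρ 0 (dl 2 c1 t) = 0 := by
      have h4 := congrFun (dl_map 2 (xd K ρ 0) c1) t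
      rw [hc1, dl_dl] at h4
      exact h4.symm
    obtain ⟨y, hy⟩ := ex 0 _ h3
    exact ⟨⟨_, ⟨y, rfl⟩⟩, hy⟩
  obtain ⟨β, hβ⟩ := lift_pointwise (fun s : BB K ρ 1 => (s : XX K N 1)) (dl 2 c1) h2
  have hβ' : (fun t => (BB K ρ 1).subtype (β t)) = dl 2 c1 := hβ
  have h3 : dl 3 β = 0 := by
    have h4 := dl_map 3 (BB K ρ 1).subtype β
    rw [hβ', dl_dl] at h4
    funext t
    apply Subtype.ext
    exact (congrFun h4 t).symm
  obtain ⟨m, b, hb⟩ := (dual_BB K ρ hK hc₀ hd 1).surj β h3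
  obtain ⟨m', x, hx⟩ := m
  let b' : (Fin 2 → G) → XX K N 1 := fun t => (BB K ρ 1).subtype (b t)
  have hb' : dl 2 b' = dl 2 c1 - smulc c₀ (xd K ρ 1 x) := by
    have h4 := dl_map 2 (BB K ρ 1).subtype b
    rw [hb] at h4
    refine h4.trans ?_
    funext t
    rw [Pi.sub_apply, map_sub, Pi.sub_apply, hx]
    rw [congrFun hβ' t]
    rfl
  have h5 : dl 2 (c1 - b') = smulc c₀ (xd K ρ 1 x) := by
    rw [dl_sub, hb', sub_sub_cancel]
  refine ⟨augX K N 2 x, ?_, c0, c1 - b', x, h0, ?_, h5, rfl⟩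
  · rw [← augX_xd]
    apply augX_gSub
    exact (dual_of_free hd (XX K N 1)).inj _ _ h5
  · rw [← hc1]
    funext t
    rw [Pi.sub_apply, map_sub]
    have h6 : xd K ρ 0 (b' t) = 0 := by
      obtain ⟨w, hw⟩ := (b t).2
      change xd K ρ 0 ((b t : BB K ρ 1) : XX K N 1) = 0
      rw [← hw, dd]
    rw [h6, sub_zero]

/-- Cycles are related to cocycles. -/
theorem exists_relF_of_cycle (hv : ∀ I : Type, HVan G (I →₀ CG G) 1) (hc₀ : Fund G 2 c₀)
    (z : (Fin 2 → K) →₀ N) (hz : chd K ρ 1 z = 0) :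
    ∃ C : G → ((G ⧸ K) →₀ N), (∀ g h, C (g * h) = gmap K ρ g (C h) + C g) ∧
      RelF K ρ c₀ C z := by
  have dd : ∀ (n : ℕ) (z : XX K N (n + 2)), xd K ρ n (xd K ρ (n + 1) z) = 0 :=
    (indBar K ρ).bD_bD
  let x : XX K N 2 := secX K N 2 z
  have hx : augX K N 2 x = z := augX_secX K 2 z
  have hm : xd K ρ 1 x ∈ gSub G (XX K N 1) := by
    apply mem_gSub_of_augX
    rw [augX_xd, hx, hz]
  obtain ⟨c1, hc1⟩ := cobd_of_mem_gSub hc₀ hm
  have h1 : dl 2 (fun t => xd K ρ 0 (c1 t)) = 0 := by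
    rw [dl_map, hc1, smulc_map, dd]
    exact smulc_zero c₀
  obtain ⟨c0, hc0⟩ := HVan_of_free hv (XX K N 0) _ h1
  refine ⟨fun g => totX K ρ (c0 (fun _ => g)), ?_, c0, c1, x, ?_, hc0, hc1, hx⟩
  · intro g h
    have h2 := totX_dl_one K ρ c0 ![g, h]
    rw [hc0, totX_xd] at h2
    simp only [Matrix.cons_val_zero, Matrix.cons_val_one] at h2
    rw [eq_comm, ← sub_eq_zero]
    rw [h2]
    abel
  · intro t
    have h2 : (fun _ => t 0 : Fin 1 → G) = t := by
      funext i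
      rw [Subsingleton.elim i 0]
    exact congrArg (fun s => totX K ρ (c0 s)) h2.symm

/-- If the cocycle is a coboundary then the cycle is a boundary. -/
theorem RelF.boundary (hd : ∀ I : Type, Dual c₀ (I →₀ CG G)) (hc₀ : dl 3 c₀ = 0)
    (hK : HasFiniteCd K) {C : G → ((G ⧸ K) →₀ N)} {z : (Fin 2 → K) →₀ N}
    (h : RelF K ρ c₀ C z) (w : (G ⧸ K) →₀ N) (hw : ∀ g, C g = gmap K ρ g w - w) :
    ∃ y, chd K ρ 2 y = z := by
  have dd : ∀ (n : ℕ) (z : XX K N (n + 2)), xd K ρ n (xd K ρ (n + 1) z) = 0 :=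
    (indBar K ρ).bD_bD
  have ex : ∀ (n : ℕ) (z : XX K N (n + 1)), xd K ρ n z = 0 → ∃ y, xd K ρ (n + 1) y = z :=
    (indBar K ρ).exact
  obtain ⟨c0, c1, x, h0, h1, h2, h3⟩ := h
  let m : (Fin 0 → G) → XX K N 0 := fun _ => Finsupp.single default (yiota K w)
  have h4 : ∀ t, ∃ y, xd K ρ 0 y = (c0 - dl 0 m) t := by
    intro t
    have h5 : (c0 - dl 0 m) t ∈ BB K ρ 0 := by
      apply mem_BB_of_totX
      rw [Pi.sub_apply, map_sub, h0, totX_dl_zero, totX_surj, hw, sub_self]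
    exact h5
  obtain ⟨γ, hγ⟩ := lift_pointwise (xd K ρ 0) (c0 - dl 0 m) h4
  have h5 : ∀ t, ∃ y : BB K ρ 1, (y : XX K N 1) = (c1 - dl 1 γ) t := by
    intro t
    have h6 : xd K ρ 0 ((c1 - dl 1 γ) t) = 0 := by
      rw [Pi.sub_apply, map_sub, ← congrFun (dl_map 1 (xd K ρ 0) γ) t, hγ, dl_sub, dl_dl, h1]
      simp
    obtain ⟨y, hy⟩ := ex 0 _ h6
    exact ⟨⟨_, ⟨y, rfl⟩⟩, hy⟩
  obtain ⟨β, hβ⟩ := lift_pointwise (fun s : BB K ρ 1 => (s : XX K N 1)) (c1 - dl 1 γ) h5
  have h7 : dl 2 β = smulc c₀ (⟨xd K ρ 1 x, ⟨x, rfl⟩⟩ : BB K ρ 1) := by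
    have h8 := dl_map 2 (BB K ρ 1).subtype β
    have h9 : (fun t => (BB K ρ 1).subtype (β t)) = c1 - dl 1 γ := hβ
    rw [h9, dl_sub, dl_dl, sub_zero, h2] at h8
    funext t
    apply Subtype.ext
    exact (congrFun h8 t).symm
  have h8 := (dual_BB K ρ hK hc₀ hd 1).inj _ _ h7
  obtain ⟨x', hx', hx''⟩ := gSub_lift (xd K ρ 1).rangeRestrict
    (LinearMap.surjective_rangeRestrict _) h8
  have h9 : xd K ρ 1 (x - x') = 0 := by
    rw [map_sub, sub_eq_zero]
    exact (congrArg Subtype.val hx'').symm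
  obtain ⟨u, hu⟩ := ex 1 _ h9
  refine ⟨augX K N 3 u, ?_⟩
  rw [← augX_xd, hu, map_sub, augX_gSub K 2 hx', sub_zero, h3]

/-- If the cycle is a boundary then the cocycle is a coboundary. -/
theorem RelF.coboundary (hv : ∀ I : Type, HVan G (I →₀ CG G) 1)
    (hv' : ∀ I : Type, HVan G (I →₀ CG G) 0) (hc₀ : Fund G 2 c₀)
    {C : G → ((G ⧸ K) →₀ N)} {z : (Fin 2 → K) →₀ N}
    (h : RelF K ρ c₀ C z) (y : (Fin 3 → K) →₀ N) (hy : chd K ρ 2 y = z) :
    ∃ w, ∀ g, C g = gmap K ρ g w - w := by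
  have dd : ∀ (n : ℕ) (z : XX K N (n + 2)), xd K ρ n (xd K ρ (n + 1) z) = 0 :=
    (indBar K ρ).bD_bD
  obtain ⟨c0, c1, x, h0, h1, h2, h3⟩ := h
  have h4 : x - xd K ρ 2 (secX K N 3 y) ∈ gSub G (XX K N 2) := by
    apply mem_gSub_of_augX
    rw [map_sub, augX_xd, augX_secX, hy, h3, sub_self]
  obtain ⟨b, hb⟩ := cobd_of_mem_gSub hc₀ h4
  have h5 : dl 2 (c1 - fun t => xd K ρ 1 (b t)) = 0 := by
    rw [dl_sub, h2, dl_map, hb, smulc_map, map_sub, dd, sub_zero, sub_self]
  obtain ⟨e, he⟩ := HVan_of_free hv (XX K N 1) _ h5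
  have h6 : dl 1 (c0 - fun t => xd K ρ 0 (e t)) = 0 := by
    rw [dl_sub, h1, dl_map, he]
    funext t
    rw [Pi.sub_apply, Pi.sub_apply, map_sub, dd, sub_zero, sub_self]
    rfl
  obtain ⟨f, hf⟩ := HVan_of_free hv' (XX K N 0) _ h6
  refine ⟨totX K ρ (f default), fun g => ?_⟩
  have h7 := totX_dl_zero K ρ f (fun _ => g)
  rw [hf, Pi.sub_apply, map_sub, totX_xd, sub_zero, h0] at h7
  exact h7

end Run7.h817
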