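import Pool.Agent.Run7.h817.Bar
import Mathlib.Algebra.Homology.ShortComplex.ModuleCat

/-! Bar resolution as a `ProjectiveResolution` in `ModuleCat S`. -/

namespace Run7.h817.BarData

open CategoryTheory Limits

universe u w

variable {G : Type u} [Group G] {S : Type u} [Ring S] {W : Type w} [AddCommGroup W]
  {B : BarData G S W} {Z : Type u} [AddCommGroup Z] [Module S Z] (E : Aug B Z)

/-- The bar complex. -/
noncomputable def barComplex : ChainComplex (ModuleCat.{u} S) ℕ :=
  ChainComplex.of (fun n => ModuleCat.of S ((Fin n → G) →₀ S))
    (fun n => ModuleCat.ofHom (barD B.rho n)) (fun n => by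
      refine ModuleCat.hom_ext (LinearMap.ext fun z => ?_)
      exact barD_barD E n z)

theorem barComplex_d (n : ℕ) : (barComplex E).d (n + 1) n = ModuleCat.ofHom (barD B.rho n) := by
  simp [barComplex]

theorem barComplex_exact (n : ℕ) : (barComplex E).ExactAt (n + 1) := by
  rw [HomologicalComplex.exactAt_iff' _ (n + 1 + 1) (n + 1) n (by simp) (by simp)]
  rw [ShortComplex.moduleCat_exact_iff]
  intro z hz
  have hz' : barD B.rho n z = 0 := by
    have := hz
    simp only [HomologicalComplex.sc', HomologicalComplex.shortComplexFunctor'] at this
    rw [barComplex_d] at this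
    exact this
  obtain ⟨y, hy⟩ := exact_succ (B := B) n z hz'
  refine ⟨y, ?_⟩
  simp only [HomologicalComplex.sc', HomologicalComplex.shortComplexFunctor']
  rw [barComplex_d]
  exact hy

omit [Group G] in
theorem projective_free (n : ℕ) : Projective (ModuleCat.of S ((Fin n → G) →₀ S)) := by
  have : Module.Projective S ((Fin n → G) →₀ S) := inferInstance
  exact (IsProjective.iff_projective _).1 this

set_option backward.isDefEq.respectTransparency false in
/-- The bar resolution. -/
noncomputable def barRes : ProjectiveResolution (ModuleCat.of S Z) where
  complex := barComplex E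
  projective n := projective_free n
  π := (ChainComplex.toSingle₀Equiv _ _).symm ⟨ModuleCat.ofHom (barE E), by
    rw [barComplex_d]
    refine ModuleCat.hom_ext (LinearMap.ext fun z => ?_)
    exact barE_barD E z⟩
  quasiIso := ⟨fun n => by
    cases n
    · rw [ChainComplex.quasiIsoAt₀_iff, ShortComplex.quasiIso_iff_of_zeros']
      · refine (ShortComplex.exact_and_epi_g_iff_of_iso (S₂ := ShortComplex.mk
          (ModuleCat.ofHom (barD B.rho 0)) (ModuleCat.ofHom (barE E)) (by
            refine ModuleCat.hom_ext (LinearMap.ext fun z => ?_)
            exact barE_barD E z)) ?_).2 ⟨?_, ?_⟩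
        · exact ShortComplex.isoMk (Iso.refl _) (Iso.refl _) (Iso.refl _)
            (by simp only [Iso.refl_hom, Category.id_comp, Category.comp_id]
                exact (barComplex_d E 0).symm) (by simp)
        · rw [ShortComplex.moduleCat_exact_iff]
          intro z hz
          exact exact_zero E z hz
        · rw [ModuleCat.epi_iff_surjective]
          exact barE_surjective E
      all_goals rfl
    · rw [quasiIsoAt_iff_exactAt']
      · apply barComplex_exact
      · apply ChainComplex.exactAt_succ_single_obj⟩

end Run7.h817.BarData
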