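import Pool.Agent.Run7.h817.Desc

/-! Almost invariant sets from almost invariant functions, and conversely. -/

namespace Run7.h817

universe u

section

variable {X : Type u}

/-- a function which is not almost constant separates the points into two infinite parts -/
theorem exists_preimage_infinite [Infinite X] (f : X → ℂ) (hne : ∀ e, {x | f x ≠ e}.Infinite) :
    ∃ P : Set ℂ, (f ⁻¹' P).Infinite ∧ (f ⁻¹' P)ᶜ.Infinite := by
  by_contra hcon
  push Not at hcon
  have h1 : ∀ v, (f ⁻¹' {v}).Finite := by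
    intro v
    by_contra h
    exact (hcon {v} h).not_infinite (hne v)
  have h2 : (Set.range f).Infinite := by
    intro h
    apply Set.infinite_univ (α := X)
    refine (h.biUnion (fun v _ => h1 v)).subset ?_
    intro x _
    exact Set.mem_iUnion₂.2 ⟨f x, ⟨x, rfl⟩, rfl⟩
  let e := h2.natEmbedding
  choose y hy using fun n : ℕ => (e n).2
  have hyinj : Function.Injective y := by
    intro a b hab
    apply e.injective
    apply Subtype.ext
    rw [← hy a, ← hy b, hab]
  let P : Set ℂ := {v | ∃ n : ℕ, v = f (y (2 * n))}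
  have h3 : (f ⁻¹' P).Infinite := by
    refine (Set.infinite_range_of_injective (f := fun n : ℕ => y (2 * n)) ?_).mono ?_
    · intro a b hab
      have := hyinj hab
      omega
    · rintro _ ⟨n, rfl⟩
      exact ⟨n, rfl⟩
  have h4 : (f ⁻¹' P)ᶜ.Infinite := by
    refine (Set.infinite_range_of_injective (f := fun n : ℕ => y (2 * n + 1)) ?_).mono ?_
    · intro a b hab
      have := hyinj hab
      omega
    · rintro _ ⟨n, rfl⟩ ⟨m, hm⟩
      have h5 : e (2 * n + 1) = e (2 * m) := by
        apply Subtype.ext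
        rw [← hy, ← hy]
        exact hm
      have := e.injective h5
      omega
  exact (hcon P h3).not_infinite h4

end

variable {G : Type u} [Group G] (K : Subgroup G)

theorem AIF.preimage {f : G ⧸ K → ℂ} (hf : AIF K f) (P : Set ℂ) :
    Ends.AI G (f ⁻¹' P : Set (G ⧸ K)) := by
  intro g
  refine (hf g⁻¹).subset ?_
  intro x hx
  rw [Set.mem_ofPred_eq] at hx ⊢
  rw [inv_inv]
  intro h
  apply hx
  rw [Set.mem_preimage, Set.mem_preimage, h]

theorem PP_two [Infinite (G ⧸ K)] {f : G ⧸ K → ℂ} (hf : AIF K f)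
    (hne : ∀ e, {x | f x ≠ e}.Infinite) : Ends.PP G (G ⧸ K) 2 := by
  obtain ⟨P, h1, h2⟩ := exists_preimage_infinite f hne
  refine ⟨![f ⁻¹' P, (f ⁻¹' P)ᶜ], ?_, ?_⟩
  · intro i
    fin_cases i
    · exact ⟨hf.preimage K P, h1⟩
    · exact ⟨(hf.preimage K P).compl, h2⟩
  · intro i j hij
    fin_cases i <;> fin_cases j
    · exact absurd rfl hij
    · refine Set.finite_empty.subset ?_
      rintro x ⟨hx, hx'⟩
      exact hx' hx
    · refine Set.finite_empty.subset ?_
      rintro x ⟨hx, hx'⟩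
      exact hx hx'
    · exact absurd rfl hij

open scoped Classical in
theorem AIF_indicator {B : Set (G ⧸ K)} (hB : Ends.AI G B) :
    AIF K (fun x => if x ∈ B then (1 : ℂ) else 0) := by
  intro g
  refine (hB g⁻¹).subset ?_
  intro x hx
  rw [Set.mem_ofPred_eq] at hx ⊢
  intro h
  apply hx
  simp only [h]

theorem not_PP (k : ℕ) (hk : ∀ f : Fin (k + 1) → G ⧸ K → ℂ, (∀ i, AIF K (f i)) →
      ∃ a : Fin (k + 1) → ℂ, a ≠ 0 ∧ ∃ e, {x | ∑ i, a i * f i x ≠ e}.Finite) :
    ¬ Ends.PP G (G ⧸ K) (k + 2) := by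
  classical
  rintro ⟨B, h1, h2⟩
  obtain ⟨a, ha, e, he⟩ := hk (fun i x => if x ∈ B i.castSucc then (1 : ℂ) else 0)
    (fun i => AIF_indicator K (h1 _).1)
  have h3 : ∀ j, ∃ x ∈ B j, (∀ i, i ≠ j → x ∉ B i) ∧
      ∑ i : Fin (k + 1), a i * (if x ∈ B i.castSucc then (1 : ℂ) else 0) = e := by
    intro j
    by_contra hcon
    push Not at hcon
    apply (h1 j).2
    have h4 : (⋃ i ∈ {i | i ≠ j}, B i ∩ B j).Finite :=
      (Set.toFinite {i | i ≠ j}).biUnion (fun i hi => h2 i j hi)
    refine (h4.union he).subset ?_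
    intro x hx
    by_cases hx' : ∀ i, i ≠ j → x ∉ B i
    · exact Or.inr (hcon x hx hx')
    · push Not at hx'
      obtain ⟨i, hi, hi'⟩ := hx'
      exact Or.inl (Set.mem_iUnion₂.2 ⟨i, hi, hi', hx⟩)
  have he0 : e = 0 := by
    obtain ⟨x, hx, hx', hs⟩ := h3 (Fin.last _)
    rw [← hs]
    refine Finset.sum_eq_zero (fun i _ => ?_)
    rw [if_neg (hx' _ (Fin.castSucc_lt_last i).ne), mul_zero]
  apply ha
  funext i
  obtain ⟨x, hx, hx', hs⟩ := h3 i.castSucc
  rw [Finset.sum_eq_single i, if_pos hx, mul_one, he0] at hs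
  · exact hs
  · intro j _ hj
    rw [if_neg (hx' _ (fun h => hj (Fin.castSucc_injective _ h))), mul_zero]
  · intro h
    exact absurd (Finset.mem_univ _) h

end Run7.h817
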