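import Mathlib.GroupTheory.Solvable
import Mathlib.GroupTheory.Index
import Mathlib.GroupTheory.Commutator.Basic
import Mathlib.GroupTheory.OrderOfElement
import Mathlib.Order.Zorn
import Mathlib.GroupTheory.Finiteness
import Mathlib.Tactic.Group
import Mathlib.Tactic.Linarith

/-! Torsion-free solvable groups: maximal abelian normal subgroups. -/

namespace Run7.h817

open scoped commutatorElement

variable {H : Type*} [Group H]

/-- commutative subgroups -/
def Comm (A : Subgroup H) : Prop := ∀ a ∈ A, ∀ b ∈ A, a * b = b * a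

/-- independent pairs -/
def Indep (x y : H) : Prop := ∀ m n : ℤ, x ^ m * y ^ n = 1 → m = 0 ∧ n = 0

/-- torsion-free groups -/
def TF (H : Type*) [Group H] : Prop := ∀ g : H, ∀ n : ℤ, n ≠ 0 → g ^ n = 1 → g = 1

variable (H) in
/-- existence of a finitely generated commutative subgroup of rank at least two and of infinite
index in its normaliser -/
def ZCond : Prop :=
  ∃ K : Subgroup H, K.FG ∧ Comm K ∧ (∃ x ∈ K, ∃ y ∈ K, Indep x y) ∧
    K.relIndex (Subgroup.normalizer (K : Set H)) = 0

theorem Comm.sup {A B : Subgroup H} (hA : Comm A) (hB : Comm B)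
    (hAB : ∀ a ∈ A, ∀ b ∈ B, a * b = b * a) : Comm (A ⊔ B) := by
  have h1 : A ⊔ B ≤ Subgroup.centralizer ((A ⊔ B : Subgroup H) : Set H) := by
    have h2 : ∀ x, (∀ a ∈ A, a * x = x * a) → (∀ b ∈ B, b * x = x * b) →
        A ⊔ B ≤ Subgroup.centralizer {x} := fun x h3 h4 => by
      refine sup_le (fun a ha => ?_) (fun b hb => ?_)
      · rw [Subgroup.mem_centralizer_iff]
        rintro y rfl
        exact (h3 a ha).symm
      · rw [Subgroup.mem_centralizer_iff]
        rintro y rfl
        exact (h4 b hb).symm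
    refine sup_le (fun a ha => ?_) (fun b hb => ?_)
    · rw [Subgroup.mem_centralizer_iff]
      intro x hx
      have h3 := h2 a (fun a' ha' => hA a' ha' a ha) (fun b hb => (hAB a ha b hb).symm) hx
      rw [Subgroup.mem_centralizer_iff] at h3
      exact (h3 a rfl).symm
    · rw [Subgroup.mem_centralizer_iff]
      intro x hx
      have h3 := h2 b (fun a ha => hAB a ha b hb) (fun b' hb' => hB b' hb' b hb) hx
      rw [Subgroup.mem_centralizer_iff] at h3
      exact (h3 b rfl).symm
  intro a ha b hb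
  have h2 := h1 ha
  rw [Subgroup.mem_centralizer_iff] at h2
  exact (h2 b hb).symm

theorem exists_maximal_abelian_normal : ∃ A : Subgroup H, A.Normal ∧ Comm A ∧
    ∀ B : Subgroup H, B.Normal → Comm B → A ≤ B → B ≤ A := by
  have hz : ∀ c ⊆ {A : Subgroup H | A.Normal ∧ Comm A}, IsChain (· ≤ ·) c → ∀ y ∈ c,
      ∃ ub ∈ {A : Subgroup H | A.Normal ∧ Comm A}, ∀ z ∈ c, z ≤ ub := by
    intro c hc hchain y hy
    have hdir : DirectedOn (· ≤ ·) c := hchain.directedOn
    have hmem : ∀ {x : H}, x ∈ sSup c ↔ ∃ s ∈ c, x ∈ s :=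
      Subgroup.mem_sSup_of_directedOn ⟨y, hy⟩ hdir
    refine ⟨sSup c, ⟨⟨fun n hn g => ?_⟩, fun a ha b hb => ?_⟩, fun z hz => le_sSup hz⟩
    · obtain ⟨s, hs, hns⟩ := hmem.1 hn
      exact hmem.2 ⟨s, hs, (hc hs).1.conj_mem n hns g⟩
    · obtain ⟨s, hs, has⟩ := hmem.1 ha
      obtain ⟨s', hs', hbs⟩ := hmem.1 hb
      obtain ⟨u, hu, hsu, hsu'⟩ := hdir s hs s' hs'
      exact (hc hu).2 a (hsu has) b (hsu' hbs)
  obtain ⟨A, -, hA⟩ := zorn_le_nonempty₀ {A : Subgroup H | A.Normal ∧ Comm A} hz ⊥
    ⟨inferInstance, fun a ha b hb => by rw [Subgroup.mem_bot.1 ha, Subgroup.mem_bot.1 hb]⟩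
  exact ⟨A, hA.1.1, hA.1.2, fun B h1 h2 h3 => hA.2 ⟨h1, h2⟩ h3⟩

theorem relIndex_eq_zero_of_pow {K L : Subgroup H} {y : H} (hy : y ∈ L)
    (h : ∀ n : ℕ, 0 < n → y ^ n ∉ K) : K.relIndex L = 0 := by
  by_contra hne
  obtain ⟨n, hn, -, hn'⟩ := Subgroup.exists_pow_mem_of_relIndex_ne_zero hne hy
  exact h n hn hn'.1

/-- two elements whose commutator is central in the subgroup they generate -/
theorem zCond_of_heisenberg (htf : TF H) (x y : H) (hc1 : ⁅x, y⁆ ≠ 1)
    (hcx : x * ⁅x, y⁆ = ⁅x, y⁆ * x) (hcy : y * ⁅x, y⁆ = ⁅x, y⁆ * y) : ZCond H := by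
  classical
  generalize hc : ⁅x, y⁆ = c at hc1 hcx hcy
  have hc' : c = x * y * x⁻¹ * y⁻¹ := by rw [← hc, commutatorElement_def]
  have hyx : y * x * y⁻¹ = c⁻¹ * x := by rw [hc']; group
  have hyx' : y⁻¹ * x * y = c * x := by
    have h1 : y * (c * x) * y⁻¹ = x := by
      have h2 : y * (c * x) * y⁻¹ = (y * c * y⁻¹) * (y * x * y⁻¹) := by group
      have h3 : y * c * y⁻¹ = c := by rw [hcy]; group
      rw [h2, h3, hyx]
      group
    calc y⁻¹ * x * y = y⁻¹ * (y * (c * x) * y⁻¹) * y := by rw [h1]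
      _ = c * x := by group
  let K := Subgroup.closure {x, c}
  have hxK : x ∈ K := Subgroup.subset_closure (by simp)
  have hcK : c ∈ K := Subgroup.subset_closure (by simp)
  have hKc : Comm K := by
    have h1 : ∀ a ∈ ({x, c} : Set H), ∀ b ∈ ({x, c} : Set H), a * b = b * a := by
      intro a ha b hb
      simp only [Set.mem_insert_iff, Set.mem_singleton_iff] at ha hb
      rcases ha with rfl | rfl <;> rcases hb with rfl | rfl
      · rfl
      · exact hcx
      · exact hcx.symm
      · rfl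
    intro a ha b hb
    have h2 := (Subgroup.isMulCommutative_closure h1).is_comm.comm ⟨a, ha⟩ ⟨b, hb⟩
    exact congrArg Subtype.val h2
  have hpow : ∀ m : ℤ, y * x ^ m * y⁻¹ = c ^ (-m) * x ^ m := by
    intro m
    have h1 : y * x ^ m * y⁻¹ = (y * x * y⁻¹) ^ m := (conj_zpow).symm
    rw [h1, hyx]
    have h2 : Commute c⁻¹ x := (show Commute c x from hcx.symm).inv_left
    rw [h2.mul_zpow, inv_zpow', ]
  have hpown : ∀ n : ℕ, y ^ n * x * (y ^ n)⁻¹ = c ^ (-(n : ℤ)) * x := by
    intro n
    induction n with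
    | zero => simp
    | succ n ih =>
      have h1 : y ^ (n + 1) * x * (y ^ (n + 1))⁻¹ = y * (y ^ n * x * (y ^ n)⁻¹) * y⁻¹ := by
        rw [pow_succ']
        group
      have h2 : y * (c ^ (-(n : ℤ)) * x) * y⁻¹ = (y * c ^ (-(n : ℤ)) * y⁻¹) * (y * x * y⁻¹) := by
        group
      have h3 : y * c ^ (-(n : ℤ)) * y⁻¹ = c ^ (-(n : ℤ)) := by
        have h4 : Commute y (c ^ (-(n : ℤ))) := (show Commute y c from hcy).zpow_right _
        rw [h4.eq]
        group
      rw [h1, ih, h2, h3, hyx]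
      push_cast
      group
  refine ⟨K, ⟨{x, c}, by simp [K]⟩, hKc, ⟨x, hxK, c, hcK, ?_⟩, ?_⟩
  · intro m n hmn
    have h1 : y * (x ^ m * c ^ n) * y⁻¹ = c ^ (-m) * (x ^ m * c ^ n) := by
      have h2 : y * (x ^ m * c ^ n) * y⁻¹ = (y * x ^ m * y⁻¹) * (y * c ^ n * y⁻¹) := by group
      have h3 : y * c ^ n * y⁻¹ = c ^ n := by
        have h4 : Commute y (c ^ n) := (show Commute y c from hcy).zpow_right _
        rw [h4.eq]
        group
      rw [h2, h3, hpow, mul_assoc]
    rw [hmn, mul_one, mul_one, mul_inv_cancel] at h1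
    have hm : m = 0 := by
      by_contra hm
      exact hc1 (htf c (-m) (by omega) h1.symm)
    refine ⟨hm, ?_⟩
    rw [hm, zpow_zero, one_mul] at hmn
    by_contra hn
    exact hc1 (htf c n hn hmn)
  · apply relIndex_eq_zero_of_pow (y := y)
    · have h1 : ∀ k ∈ K, y * k * y⁻¹ ∈ K := by
        intro k hk
        induction hk using Subgroup.closure_induction with
        | mem z hz =>
          simp only [Set.mem_insert_iff, Set.mem_singleton_iff] at hz
          rcases hz with hz | hz
          · rw [hz, hyx]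
            exact K.mul_mem (K.inv_mem hcK) hxK
          · rw [hz, hcy]
            simpa using hcK
        | one => simp [K.one_mem]
        | mul a b _ _ ha hb =>
          have h2 : y * (a * b) * y⁻¹ = (y * a * y⁻¹) * (y * b * y⁻¹) := by group
          rw [h2]
          exact K.mul_mem ha hb
        | inv a _ ha =>
          have h2 : y * a⁻¹ * y⁻¹ = (y * a * y⁻¹)⁻¹ := by group
          rw [h2]
          exact K.inv_mem ha
      have h2 : ∀ k ∈ K, y⁻¹ * k * y ∈ K := by
        intro k hk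
        induction hk using Subgroup.closure_induction with
        | mem z hz =>
          simp only [Set.mem_insert_iff, Set.mem_singleton_iff] at hz
          rcases hz with hz | hz
          · rw [hz, hyx']
            exact K.mul_mem hcK hxK
          · have h3 : y⁻¹ * c * y = c := by
              rw [mul_assoc, ← hcy]
              group
            rw [hz, h3]
            exact hcK
        | one => simp [K.one_mem]
        | mul a b _ _ ha hb =>
          have h2 : y⁻¹ * (a * b) * y = (y⁻¹ * a * y) * (y⁻¹ * b * y) := by group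
          rw [h2]
          exact K.mul_mem ha hb
        | inv a _ ha =>
          have h2 : y⁻¹ * a⁻¹ * y = (y⁻¹ * a * y)⁻¹ := by group
          rw [h2]
          exact K.inv_mem ha
      rw [Subgroup.mem_normalizer_iff]
      intro k
      refine ⟨h1 k, fun hk => ?_⟩
      have h3 := h2 _ hk
      have h4 : y⁻¹ * (y * k * y⁻¹) * y = k := by group
      rwa [h4] at h3
    · intro n hn hn'
      have h1 := hKc _ hn' _ hxK
      have h2 := hpown n
      rw [h1] at h2
      have h3 : c ^ (-(n : ℤ)) = 1 := by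
        have h4 : x * y ^ n * (y ^ n)⁻¹ = x := by group
        rw [h4] at h2
        exact (mul_eq_right.1 h2.symm)
      exact hc1 (htf c _ (by omega) h3)

/-- the case of a large centraliser, for a descending chain of normal subgroups -/
theorem zCond_of_chain (htf : TF H) (A : Subgroup H) (hAn : A.Normal) (hAc : Comm A)
    (hmax : ∀ B : Subgroup H, B.Normal → Comm B → A ≤ B → B ≤ A)
    (E : ℕ → Subgroup H) (hEn : ∀ k, (E k).Normal)
    (hEE : ∀ k, ∀ x ∈ E k, ∀ y ∈ E k, ⁅x, y⁆ ∈ E (k + 1)) (n : ℕ) (hn : E n = ⊥)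
    (hC : ¬ Subgroup.centralizer (A : Set H) ⊓ E 0 ≤ A) : ZCond H := by
  classical
  set C := Subgroup.centralizer (A : Set H) with hCdef
  have hCn : C.Normal := inferInstance
  have hex : ∃ k, C ⊓ E k ≤ A := ⟨n, by rw [hn, inf_bot_eq]; exact bot_le⟩
  have h0 : Nat.find hex ≠ 0 := by
    intro h
    have h1 := Nat.find_spec hex
    rw [h] at h1
    exact hC h1
  obtain ⟨j, hj⟩ := Nat.exists_eq_succ_of_ne_zero h0
  have hj1 : ¬ C ⊓ E j ≤ A := Nat.find_min hex (by omega)
  have hj2 : C ⊓ E (j + 1) ≤ A := by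
    have h1 := Nat.find_spec hex
    rwa [hj] at h1
  set D := C ⊓ E j with hD
  have hEj := hEn j
  have hDn : D.Normal := inferInstance
  have hDD : ∀ x ∈ D, ∀ y ∈ D, ⁅x, y⁆ ∈ A := by
    intro x hx y hy
    apply hj2
    refine ⟨?_, hEE j x hx.2 y hy.2⟩
    rw [commutatorElement_def]
    exact C.mul_mem (C.mul_mem (C.mul_mem hx.1 hy.1) (C.inv_mem hx.1)) (C.inv_mem hy.1)
  have hCA : ∀ x ∈ C, ∀ a ∈ A, x * a = a * x := by
    intro x hx a ha
    rw [hCdef, Subgroup.mem_centralizer_iff] at hx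
    exact (hx a ha).symm
  have hDc : ¬ Comm D := by
    intro hDc
    apply hj1
    refine le_trans le_sup_right (hmax (A ⊔ D) inferInstance
      (hAc.sup hDc fun a ha b hb => (hCA b hb.1 a ha).symm) le_sup_left)
  obtain ⟨x, hx, y, hy, hxy⟩ : ∃ x ∈ D, ∃ y ∈ D, x * y ≠ y * x := by
    by_contra hcon
    push Not at hcon
    exact hDc hcon
  refine zCond_of_heisenberg htf x y ?_ (hCA x hx.1 _ (hDD x hx y hy))
    (hCA y hy.1 _ (hDD x hx y hy))
  intro h
  rw [commutatorElement_eq_one_iff_mul_comm] at h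
  exact hxy h

/-- the case of a large centraliser -/
theorem zCond_of_centralizer (hs : Group.IsSolvable H) (htf : TF H) (A : Subgroup H)
    (hAn : A.Normal) (hAc : Comm A)
    (hmax : ∀ B : Subgroup H, B.Normal → Comm B → A ≤ B → B ≤ A)
    (hC : ¬ Subgroup.centralizer (A : Set H) ≤ A) : ZCond H := by
  obtain ⟨n, hn⟩ := hs.1
  refine zCond_of_chain htf A hAn hAc hmax (derivedSeries H) (fun k => inferInstance) ?_ n hn ?_
  · intro k x hx y hy
    rw [derivedSeries_succ]
    exact Subgroup.commutator_mem_commutator hx hy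
  · rwa [derivedSeries_zero, inf_top_eq]

end Run7.h817
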