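import Pool.Agent.Run7.h817.SolvA
import Pool.Agent.Run7.h817.RFAb
import Mathlib.RingTheory.Noetherian.Basic
import Mathlib.RingTheory.Finiteness.Basic
import Mathlib.RingTheory.PrincipalIdealDomain
import Mathlib.Algebra.EuclideanDomain.Int
import Mathlib.GroupTheory.QuotientGroup.Basic

/-! Torsion-free solvable groups: self-centralising abelian normal subgroups. -/

namespace Run7.h817

open scoped commutatorElement

theorem fg_subgroup_of_commGroup {Q : Type*} [CommGroup Q] (h : Group.FG Q) (B : Subgroup Q) :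
    B.FG := by
  have h1 : AddGroup.FG (Additive Q) := inferInstance
  have h2 : Module.Finite ℤ (Additive Q) := Module.Finite.iff_addGroup_fg.2 h1
  have h3 : IsNoetherian ℤ (Additive Q) := inferInstance
  rw [Subgroup.fg_iff_add_fg]
  have h4 : (AddSubgroup.toIntSubmodule (Subgroup.toAddSubgroup B)).FG := IsNoetherian.noetherian _
  rw [Submodule.fg_iff_addSubgroup_fg] at h4
  exact h4

theorem fg_subgroup_of_comm {Q : Type*} [Group Q] (hQ : ∀ a b : Q, a * b = b * a)
    (h : Group.FG Q) (B : Subgroup Q) : B.FG :=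
  letI : CommGroup Q := { ‹Group Q› with mul_comm := hQ }
  fg_subgroup_of_commGroup h B

variable {H : Type*} [Group H]

/-- a subgroup containing a finitely generated subgroup of finite index is finitely generated -/
theorem fg_of_relIndex_ne_zero {K A : Subgroup H} (hKA : K ≤ A) (hK : K.FG)
    (h : K.relIndex A ≠ 0) : A.FG := by
  have h1 : Finite (A ⧸ K.subgroupOf A) :=
    @Subgroup.finite_quotient_of_finiteIndex A _ (K.subgroupOf A) ⟨h⟩
  let T : Set H := Set.range (fun q : A ⧸ K.subgroupOf A => ((Quotient.out q : A) : H))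
  have hT : T.Finite := Set.finite_range _
  have h2 : A = K ⊔ Subgroup.closure T := by
    apply le_antisymm
    · intro a ha
      have h3 : (Quotient.out ((⟨a, ha⟩ : A) : A ⧸ K.subgroupOf A) : A)⁻¹ * ⟨a, ha⟩ ∈
          K.subgroupOf A := by
        rw [← QuotientGroup.leftRel_apply]
        exact Quotient.mk_out (⟨a, ha⟩ : A)
      rw [Subgroup.mem_subgroupOf] at h3
      have h4 : a = ((Quotient.out ((⟨a, ha⟩ : A) : A ⧸ K.subgroupOf A) : A) : H) *
          (((Quotient.out ((⟨a, ha⟩ : A) : A ⧸ K.subgroupOf A) : A)⁻¹ * ⟨a, ha⟩ : A) : H) := by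
        simp
      rw [h4]
      refine Subgroup.mul_mem _ ?_ ?_
      · exact le_sup_right (a := K) (Subgroup.subset_closure ⟨_, rfl⟩)
      · exact le_sup_left (b := Subgroup.closure T) h3
    · refine sup_le hKA ?_
      rw [Subgroup.closure_le]
      rintro _ ⟨q, rfl⟩
      exact (Quotient.out q : A).2
  rw [h2]
  exact hK.sup ((Subgroup.fg_iff _).2 ⟨T, rfl, hT⟩)

theorem rf_of_comm_subgroup (A : Subgroup H) (hA : Comm A) (hfg : A.FG) :
    Group.ResiduallyFinite A := by
  refine residuallyFinite_of_finite_commutator ((Group.fg_iff_subgroup_fg A).2 hfg) ⊥ ?_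
    inferInstance
  rw [commutator_def, Subgroup.commutator_le]
  intro a _ b _
  rw [Subgroup.mem_bot, commutatorElement_eq_one_iff_mul_comm]
  exact Subtype.ext (hA a a.2 b b.2)

/-- self-centralising case, rank at least two -/
theorem zCond_or_rf_of_indep (A : Subgroup H) (hAn : A.Normal) (hAc : Comm A) (x y : H)
    (hx : x ∈ A) (hy : y ∈ A) (hxy : Indep x y) : ZCond H ∨ Group.ResiduallyFinite H := by
  classical
  let K := Subgroup.closure {x, y}
  have hxK : x ∈ K := Subgroup.subset_closure (by simp)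
  have hyK : y ∈ K := Subgroup.subset_closure (by simp)
  have hKA : K ≤ A := by
    rw [Subgroup.closure_le]
    intro z hz
    simp only [Set.mem_insert_iff, Set.mem_singleton_iff] at hz
    rcases hz with rfl | rfl
    · exact hx
    · exact hy
  have hKfg : K.FG := ⟨{x, y}, by simp [K]⟩
  have hKc : Comm K := fun a ha b hb => hAc a (hKA ha) b (hKA hb)
  by_cases h0 : K.relIndex (Subgroup.normalizer (K : Set H)) = 0
  · exact Or.inl ⟨K, hKfg, hKc, ⟨x, hxK, y, hyK, hxy⟩, h0⟩
  have hAN : A ≤ Subgroup.normalizer (K : Set H) := by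
    intro a ha
    rw [Subgroup.mem_normalizer_iff]
    intro k
    constructor
    · intro hk
      have h1 : a * k * a⁻¹ = k := by
        rw [hAc a ha k (hKA hk)]
        group
      rw [h1]
      exact hk
    · intro hk
      have h2 := hAc a ha _ (hKA hk)
      have h3 : k = a * k * a⁻¹ := by
        have h4 : a * (a * k * a⁻¹) = a * k := by rw [h2]; group
        exact (mul_left_cancel h4).symm
      rw [h3]
      exact hk
  have h1 : K.relIndex A ≠ 0 := fun h => h0 (Subgroup.relIndex_eq_zero_of_le_right hAN h)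
  have hAfg : A.FG := fg_of_relIndex_ne_zero hKA hKfg h1
  by_cases h2 : A.index = 0
  · refine Or.inl ⟨A, hAfg, hAc, ⟨x, hx, y, hy, hxy⟩, ?_⟩
    rw [Subgroup.normalizer_eq_top, Subgroup.relIndex_top_right, h2]
  · exact Or.inr (residuallyFinite_of_finiteIndex A ⟨h2⟩ (rf_of_comm_subgroup A hAc hAfg))

/-- normal finite generation -/
theorem exists_normal_generators (hfg : Group.FG H) (A : Subgroup H) (hA : commutator H ≤ A) :
    ∃ T : Finset H, (T : Set H) ⊆ A ∧ ∀ B : Subgroup H, B.Normal → (T : Set H) ⊆ B → A ≤ B := by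
  classical
  obtain ⟨S, hS⟩ := hfg.1
  let T₁ : Finset H := Finset.image₂ (fun s t => ⁅s, t⁆) S S
  let N := Subgroup.normalClosure (T₁ : Set H)
  have hQ : ∀ a b : H ⧸ N, a * b = b * a := by
    have h1 : Subgroup.closure ((QuotientGroup.mk' N) '' (S : Set H)) = ⊤ := by
      rw [← MonoidHom.map_closure, hS, ← MonoidHom.range_eq_map,
        MonoidHom.range_eq_top.2 (QuotientGroup.mk'_surjective N)]
    have h2 : ∀ a ∈ ((QuotientGroup.mk' N) '' (S : Set H)),
        ∀ b ∈ ((QuotientGroup.mk' N) '' (S : Set H)), a * b = b * a := by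
      rintro _ ⟨s, hs, rfl⟩ _ ⟨t, ht, rfl⟩
      rw [← commutatorElement_eq_one_iff_mul_comm, ← map_commutatorElement]
      rw [QuotientGroup.mk'_apply, QuotientGroup.eq_one_iff]
      exact Subgroup.subset_normalClosure
        (Finset.mem_coe.2 (Finset.mem_image₂.2 ⟨s, hs, t, ht, rfl⟩))
    intro a b
    have h3 := (Subgroup.isMulCommutative_closure h2).is_comm.comm
      ⟨a, by rw [h1]; exact Subgroup.mem_top a⟩ ⟨b, by rw [h1]; exact Subgroup.mem_top b⟩
    exact congrArg Subtype.val h3
  have hQfg : Group.FG (H ⧸ N) := inferInstance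
  obtain ⟨T', hT'⟩ := fg_subgroup_of_comm hQ hQfg (A.map (QuotientGroup.mk' N))
  have h3 : ∀ q ∈ T', ∃ a ∈ A, (QuotientGroup.mk' N) a = q := by
    intro q hq
    have h4 : q ∈ A.map (QuotientGroup.mk' N) := by
      rw [← hT']
      exact Subgroup.subset_closure hq
    exact h4
  choose! f hf hf' using h3
  refine ⟨T₁ ∪ T'.image f, ?_, ?_⟩
  · intro x hx
    rw [Finset.mem_coe, Finset.mem_union] at hx
    rcases hx with hx | hx
    · obtain ⟨s, -, t, -, rfl⟩ := Finset.mem_image₂.1 hx
      exact hA (Subgroup.commutator_mem_commutator (Subgroup.mem_top s) (Subgroup.mem_top t))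
    · obtain ⟨q, hq, rfl⟩ := Finset.mem_image.1 hx
      exact hf q hq
  · intro B hB hTB a ha
    have hNB : N ≤ B := by
      apply Subgroup.normalClosure_le_normal
      intro x hx
      exact hTB (by rw [Finset.coe_union]; exact Or.inl hx)
    have h4 : (QuotientGroup.mk' N) a ∈ B.map (QuotientGroup.mk' N) := by
      have h5 : A.map (QuotientGroup.mk' N) ≤ B.map (QuotientGroup.mk' N) := by
        rw [← hT', Subgroup.closure_le]
        intro q hq
        refine ⟨f q, ?_, hf' q hq⟩
        exact hTB (by rw [Finset.coe_union, Finset.coe_image]; exact Or.inr ⟨q, hq, rfl⟩)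
      exact h5 ⟨a, ha, rfl⟩
    obtain ⟨b, hb, hab⟩ := h4
    have h6 : b⁻¹ * a ∈ N := by
      rw [← QuotientGroup.eq]
      exact hab
    have h7 := B.mul_mem hb (hNB h6)
    rwa [mul_inv_cancel_left] at h7

end Run7.h817
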