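import Pool.Agent.Run7.h817.SolvB
import Mathlib.Data.Nat.Prime.Infinite
import Mathlib.Data.Int.GCD
import Mathlib.RingTheory.Int.Basic

/-! Torsion-free solvable groups: self-centralising abelian normal subgroups of rank one. -/

namespace Run7.h817

open scoped commutatorElement

variable {H : Type*} [Group H]

theorem TF.zpow_eq_zero (htf : TF H) {a : H} (ha : a ≠ 1) {n : ℤ} (h : a ^ n = 1) : n = 0 := by
  by_contra hn
  exact ha (htf a n hn h)

theorem TF.eq_of_zpow_eq (htf : TF H) {A : Subgroup H} (hA : Comm A) {b c : H} (hb : b ∈ A)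
    (hc : c ∈ A) {n : ℤ} (hn : n ≠ 0) (h : b ^ n = c ^ n) : b = c := by
  have h1 : (b * c⁻¹) ^ n = 1 := by
    have h2 : Commute b c⁻¹ := (show Commute b c from hA b hb c hc).inv_right
    rw [h2.mul_zpow, h, inv_zpow, mul_inv_cancel]
  have h3 := htf _ n hn h1
  rwa [mul_inv_eq_one] at h3

/-- rank one -/
def RankOne (A : Subgroup H) : Prop := ∀ x ∈ A, ∀ y ∈ A, ¬ Indep x y

theorem RankOne.exists_pow (htf : TF H) {A : Subgroup H} (hr : RankOne A) {a b : H} (ha : a ∈ A)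
    (ha1 : a ≠ 1) (hb : b ∈ A) : ∃ m n : ℤ, m ≠ 0 ∧ b ^ m = a ^ n := by
  have h1 := hr b hb a ha
  unfold Indep at h1
  push Not at h1
  obtain ⟨m, n, hmn, h2⟩ := h1
  refine ⟨m, -n, ?_, ?_⟩
  · rintro rfl
    rw [zpow_zero, one_mul] at hmn
    exact h2 rfl (htf.zpow_eq_zero ha1 hmn)
  · rw [zpow_neg]
    exact eq_inv_of_mul_eq_one_left hmn

/-- the action of an element on a power of the base -/
theorem RankOne.exists_conj (htf : TF H) {A : Subgroup H} (hAn : A.Normal) (hr : RankOne A)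
    {a : H} (ha : a ∈ A) (ha1 : a ≠ 1) (g : H) :
    ∃ m n : ℤ, m ≠ 0 ∧ n ≠ 0 ∧ g * a ^ m * g⁻¹ = a ^ n := by
  obtain ⟨m, n, hm, h⟩ := hr.exists_pow htf ha ha1 (hAn.conj_mem a ha g)
  have h1 : g * a ^ m * g⁻¹ = a ^ n := by rw [← conj_zpow, h]
  refine ⟨m, n, hm, ?_, h1⟩
  rintro rfl
  rw [zpow_zero] at h1
  have h2 : a ^ m = 1 := by
    have h3 : g * a ^ m = g := by rw [← mul_inv_eq_one, h1]
    exact mul_eq_left.1 h3
  exact hm (htf.zpow_eq_zero ha1 h2)

theorem conj_zpow_zpow {g a : H} {m n : ℤ} (h : g * a ^ m * g⁻¹ = a ^ n) (k : ℤ) :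
    g * a ^ (m * k) * g⁻¹ = a ^ (n * k) := by
  rw [zpow_mul, zpow_mul, ← h, conj_zpow]

theorem inv_conj_zpow_zpow {g a : H} {m n : ℤ} (h : g * a ^ m * g⁻¹ = a ^ n) (k : ℤ) :
    g⁻¹ * a ^ (n * k) * g = a ^ (m * k) := by
  rw [← conj_zpow_zpow h]
  group

theorem mem_centralizer_of_commute (htf : TF H) {A : Subgroup H} (hAn : A.Normal) (hAc : Comm A)
    (hr : RankOne A) {a : H} (ha : a ∈ A) (ha1 : a ≠ 1) {w : H} {N : ℤ} (hN : N ≠ 0)
    (hw : w * a ^ N * w⁻¹ = a ^ N) : w ∈ Subgroup.centralizer (A : Set H) := by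
  rw [Subgroup.mem_centralizer_iff]
  intro b hb
  obtain ⟨m, n, hm, h⟩ := hr.exists_pow htf ha ha1 hb
  have h1 : (w * b * w⁻¹) ^ (m * N) = b ^ (m * N) := by
    rw [conj_zpow, zpow_mul, h, ← zpow_mul, mul_comm n N]
    exact conj_zpow_zpow hw n
  have h2 := htf.eq_of_zpow_eq hAc (hAn.conj_mem b hb w) hb (mul_ne_zero hm hN) h1
  rw [mul_inv_eq_iff_eq_mul] at h2
  exact h2.symm

theorem commutator_le_centralizer (htf : TF H) {A : Subgroup H} (hAn : A.Normal) (hAc : Comm A)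
    (hr : RankOne A) {a : H} (ha : a ∈ A) (ha1 : a ≠ 1) :
    commutator H ≤ Subgroup.centralizer (A : Set H) := by
  rw [commutator_def, Subgroup.commutator_le]
  intro g _ h _
  obtain ⟨m, n, hm, hn, h1⟩ := hr.exists_conj htf hAn ha ha1 g
  obtain ⟨m', n', hm', hn', h2⟩ := hr.exists_conj htf hAn ha ha1 h
  refine mem_centralizer_of_commute htf hAn hAc hr ha ha1 (N := n * n') (mul_ne_zero hn hn') ?_
  have e1 : ⁅g, h⁆ * a ^ (n * n') * ⁅g, h⁆⁻¹ =
      g * (h * (g⁻¹ * (h⁻¹ * a ^ (n * n') * h) * g) * h⁻¹) * g⁻¹ := by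
    rw [commutatorElement_def]
    group
  rw [e1, mul_comm n n', inv_conj_zpow_zpow h2 n, mul_comm m' n, inv_conj_zpow_zpow h1 m',
    mul_comm m m', conj_zpow_zpow h2 m, mul_comm n' m, conj_zpow_zpow h1 n', mul_comm n n']

/-- the elements of `A` whose order relative to `a` is prime to `p` -/
def primeTo (A : Subgroup H) (hAc : Comm A) (a : H) (p : ℤ) (hp : Prime p) : Subgroup H where
  carrier := {b | b ∈ A ∧ ∃ m n : ℤ, ¬ p ∣ m ∧ b ^ m = a ^ n}
  one_mem' := ⟨A.one_mem, 1, 0, fun h => hp.not_isUnit (isUnit_of_dvd_one h), by simp⟩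
  mul_mem' := by
    rintro b c ⟨hb, m, n, hm, h⟩ ⟨hc, m', n', hm', h'⟩
    refine ⟨A.mul_mem hb hc, m * m', n * m' + n' * m, ?_, ?_⟩
    · intro h1
      rcases hp.dvd_or_dvd h1 with h2 | h2
      · exact hm h2
      · exact hm' h2
    · have h1 : Commute b c := hAc b hb c hc
      rw [h1.mul_zpow, zpow_mul, h, mul_comm m m', zpow_mul, h', zpow_add, ← zpow_mul, ← zpow_mul]
  inv_mem' := by
    rintro b ⟨hb, m, n, hm, h⟩
    exact ⟨A.inv_mem hb, m, -n, hm, by rw [inv_zpow, h, zpow_neg]⟩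

theorem mem_normalizer_primeTo {A : Subgroup H} (hAn : A.Normal) (hAc : Comm A) {a : H} {p : ℤ}
    (hp : Prime p) {g : H} {m n : ℤ} (hm : ¬ p ∣ m) (hn : ¬ p ∣ n)
    (h : g * a ^ m * g⁻¹ = a ^ n) :
    g ∈ Subgroup.normalizer ((primeTo A hAc a p hp : Subgroup H) : Set H) := by
  have hdvd : ∀ {x y : ℤ}, ¬ p ∣ x → ¬ p ∣ y → ¬ p ∣ x * y := by
    intro x y hx hy hxy
    rcases hp.dvd_or_dvd hxy with h2 | h2
    · exact hx h2
    · exact hy h2
  rw [Subgroup.mem_normalizer_iff]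
  intro b
  constructor
  · rintro ⟨hb, m', n', hm', h'⟩
    refine ⟨hAn.conj_mem b hb g, m' * m, n * n', hdvd hm' hm, ?_⟩
    rw [conj_zpow, zpow_mul, h', ← zpow_mul, mul_comm n' m]
    exact conj_zpow_zpow h n'
  · rintro ⟨hb, m', n', hm', h'⟩
    have h1 : b = g⁻¹ * (g * b * g⁻¹) * g := by group
    refine ⟨?_, m' * n, m * n', hdvd hm' hn, ?_⟩
    · rw [h1]
      have h2 := hAn.conj_mem _ hb g⁻¹
      rwa [inv_inv] at h2
    · have h2 : b ^ (m' * n) = g⁻¹ * (g * b * g⁻¹) ^ (m' * n) * g := by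
        rw [conj_zpow]
        group
      rw [h2, zpow_mul, h', ← zpow_mul, mul_comm n' n]
      exact inv_conj_zpow_zpow h n'

/-- the subgroup of powers -/
def powSub (A : Subgroup H) (hAc : Comm A) (p : ℤ) : Subgroup H where
  carrier := {x | ∃ b ∈ A, x = b ^ p}
  one_mem' := ⟨1, A.one_mem, by simp⟩
  mul_mem' := by
    rintro _ _ ⟨b, hb, rfl⟩ ⟨c, hc, rfl⟩
    have h1 : Commute b c := hAc b hb c hc
    exact ⟨b * c, A.mul_mem hb hc, (h1.mul_zpow p).symm⟩
  inv_mem' := by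
    rintro _ ⟨b, hb, rfl⟩
    exact ⟨b⁻¹, A.inv_mem hb, (inv_zpow b p).symm⟩

theorem powSub_normal {A : Subgroup H} (hAn : A.Normal) (hAc : Comm A) (p : ℤ) :
    (powSub A hAc p).Normal := by
  refine ⟨?_⟩
  rintro _ ⟨b, hb, rfl⟩ g
  exact ⟨g * b * g⁻¹, hAn.conj_mem b hb g, conj_zpow.symm⟩

/-- the rank one self-centralising case -/
theorem rf_of_rankOne (hfg : Group.FG H) (htf : TF H) (A : Subgroup H) (hAn : A.Normal)
    (hAc : Comm A) (hC : Subgroup.centralizer (A : Set H) ≤ A) (hr : RankOne A) :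
    Group.ResiduallyFinite H := by
  classical
  by_cases hbot : A = ⊥
  · have h1 : Subsingleton H := by
      refine ⟨fun x y => ?_⟩
      have h2 : ∀ x : H, x = 1 := by
        intro x
        have h3 : x ∈ Subgroup.centralizer (A : Set H) := by
          rw [Subgroup.mem_centralizer_iff]
          intro b hb
          rw [hbot] at hb
          rw [Subgroup.mem_bot.1 hb, one_mul, mul_one]
        have h4 := hC h3
        rw [hbot] at h4
        exact Subgroup.mem_bot.1 h4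
      rw [h2 x, h2 y]
    infer_instance
  obtain ⟨a₀, ha₀, ha₀1⟩ : ∃ a ∈ A, a ≠ 1 := by
    by_contra hcon
    push Not at hcon
    exact hbot ((Subgroup.eq_bot_iff_forall A).2 hcon)
  have hcomm : commutator H ≤ A :=
    (commutator_le_centralizer htf hAn hAc hr ha₀ ha₀1).trans hC
  rw [Group.residuallyFinite_iff_exists_finiteIndex]
  intro a ha1
  by_cases ha : a ∈ A
  swap
  · -- outside `A`
    have h1 : Group.ResiduallyFinite (H ⧸ A) := by
      refine residuallyFinite_of_finite_commutator inferInstance ⊥ ?_ inferInstance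
      rw [commutator_def, Subgroup.commutator_le]
      intro x _ y _
      rw [Subgroup.mem_bot]
      obtain ⟨x, rfl⟩ := QuotientGroup.mk'_surjective A x
      obtain ⟨y, rfl⟩ := QuotientGroup.mk'_surjective A y
      rw [← map_commutatorElement, QuotientGroup.mk'_apply, QuotientGroup.eq_one_iff]
      exact hcomm (Subgroup.commutator_mem_commutator (Subgroup.mem_top x) (Subgroup.mem_top y))
    rw [Group.residuallyFinite_iff_exists_finiteIndex] at h1
    obtain ⟨L, hL, haL⟩ := h1 (QuotientGroup.mk' A a) (by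
      rw [Ne, QuotientGroup.mk'_apply, QuotientGroup.eq_one_iff]
      exact ha)
    refine ⟨L.comap (QuotientGroup.mk' A), ⟨?_⟩, haL⟩
    rw [Subgroup.index_comap_of_surjective _ (QuotientGroup.mk'_surjective A)]
    exact hL.index_ne_zero
  -- inside `A`
  obtain ⟨S, hS⟩ := hfg.1
  obtain ⟨T, hTA, hT⟩ := exists_normal_generators hfg A hcomm
  choose ms ns hms hns hs using fun g => hr.exists_conj htf hAn ha ha1 g
  have hex : ∀ t : H, ∃ m n : ℤ, m ≠ 0 ∧ (t ∈ A → t ^ m = a ^ n) := by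
    intro t
    by_cases ht : t ∈ A
    · obtain ⟨m, n, hm, h⟩ := hr.exists_pow htf ha ha1 ht
      exact ⟨m, n, hm, fun _ => h⟩
    · exact ⟨1, 0, one_ne_zero, fun h => absurd h ht⟩
  choose mt nt hmt ht using hex
  let P : ℕ := (∏ s ∈ S, (ms s).natAbs * (ns s).natAbs) * ∏ t ∈ T, (mt t).natAbs
  have hP : P ≠ 0 := by
    refine mul_ne_zero (Finset.prod_ne_zero_iff.2 fun s _ => ?_)
      (Finset.prod_ne_zero_iff.2 fun t _ => ?_)
    · exact mul_ne_zero (Int.natAbs_ne_zero.2 (hms s)) (Int.natAbs_ne_zero.2 (hns s))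
    · exact Int.natAbs_ne_zero.2 (hmt t)
  obtain ⟨q, hqP, hq⟩ := Nat.exists_infinite_primes (P + 1)
  have hp : Prime (q : ℤ) := Nat.prime_iff_prime_int.1 hq
  have hqdvd : ¬ q ∣ P := fun h => by
    have := Nat.le_of_dvd (Nat.pos_of_ne_zero hP) h
    omega
  have hnd : ∀ x : ℤ, x.natAbs ∣ P → ¬ (q : ℤ) ∣ x := by
    intro x hx h
    exact hqdvd ((Int.natCast_dvd.1 h).trans hx)
  have hmsd : ∀ s ∈ S, ¬ (q : ℤ) ∣ ms s := fun s hs => hnd _
    (((Dvd.intro _ rfl).trans (Finset.dvd_prod_of_mem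
      (fun s => (ms s).natAbs * (ns s).natAbs) hs)).trans (Dvd.intro _ rfl))
  have hnsd : ∀ s ∈ S, ¬ (q : ℤ) ∣ ns s := fun s hs => hnd _
    (((Dvd.intro_left _ rfl).trans (Finset.dvd_prod_of_mem
      (fun s => (ms s).natAbs * (ns s).natAbs) hs)).trans (Dvd.intro _ rfl))
  have hmtd : ∀ t ∈ T, ¬ (q : ℤ) ∣ mt t := fun t ht => hnd _
    ((Finset.dvd_prod_of_mem (fun t => (mt t).natAbs) ht).trans (Dvd.intro_left _ rfl))
  let B := primeTo A hAc a q hp
  have hBn : B.Normal := by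
    rw [← Subgroup.normalizer_eq_top_iff, eq_top_iff, ← hS, Subgroup.closure_le]
    intro s hsS
    exact mem_normalizer_primeTo hAn hAc hp (hmsd s hsS) (hnsd s hsS) (hs s)
  have hAB : A ≤ B := by
    apply hT B hBn
    intro t htT
    exact ⟨hTA htT, mt t, nt t, hmtd t htT, ht t (hTA htT)⟩
  let L := powSub A hAc q
  have hLn : L.Normal := powSub_normal hAn hAc q
  have haL : a ∉ L := by
    rintro ⟨b, hb, hab⟩
    obtain ⟨-, m, n, hm, h⟩ := hAB hb
    have hb1 : b ≠ 1 := by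
      rintro rfl
      apply ha1
      rw [hab, one_zpow]
    have h1 : b ^ (m - q * n) = 1 := by
      rw [zpow_sub, h, hab, ← zpow_mul, mul_inv_cancel]
    have h2 := htf.zpow_eq_zero hb1 h1
    exact hm ⟨n, by omega⟩
  have hfin : Finite (A.map (QuotientGroup.mk' L)) := by
    have h1 : ∀ b ∈ A, ∃ i : Fin q, (QuotientGroup.mk' L) b =
        (QuotientGroup.mk' L) (a ^ (i : ℕ)) := by
      intro b hb
      obtain ⟨-, m, n, hm, h⟩ := hAB hb
      have hcop : IsCoprime m (q : ℤ) :=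
        ((Prime.coprime_iff_not_dvd hp).2 hm).symm
      obtain ⟨u, v, huv⟩ := hcop
      have hq0 : (q : ℤ) ≠ 0 := hp.ne_zero
      have hr0 : 0 ≤ (n * u) % q := Int.emod_nonneg _ hq0
      have hr1 : (n * u) % q < q := Int.emod_lt_of_pos _ (by have := hq.pos; omega)
      refine ⟨⟨((n * u) % q).toNat, by omega⟩, ?_⟩
      change ((b : H) : H ⧸ L) = ((a ^ ((n * u) % q).toNat : H) : H ⧸ L)
      rw [eq_comm, QuotientGroup.eq, ← zpow_natCast, Int.toNat_of_nonneg hr0]
      have h3 : b = a ^ (n * u) * (b ^ v) ^ (q : ℤ) := by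
        calc b = b ^ (u * m + v * q) := by rw [huv, zpow_one]
          _ = a ^ (n * u) * (b ^ v) ^ (q : ℤ) := by
            rw [zpow_add, mul_comm u m, zpow_mul, h, ← zpow_mul, ← zpow_mul]
      have h4 : (a ^ ((n * u) % q))⁻¹ * b = (a ^ ((n * u) / q) * b ^ v) ^ (q : ℤ) := by
        have h5 : Commute (a ^ ((n * u) / q)) (b ^ v) :=
          hAc _ (A.zpow_mem ha _) _ (A.zpow_mem hb _)
        rw [h5.mul_zpow]
        nth_rewrite 1 [h3]
        rw [← zpow_neg, ← mul_assoc, ← zpow_add, ← zpow_mul a (n * u / q)]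
        congr 2
        have h6 := Int.emod_add_mul_ediv (n * u) q
        linarith
      rw [h4]
      exact ⟨_, A.mul_mem (A.zpow_mem ha _) (A.zpow_mem hb _), rfl⟩
    have h2 : Set.Finite ((A.map (QuotientGroup.mk' L) : Subgroup (H ⧸ L)) : Set (H ⧸ L)) := by
      refine (Set.finite_range fun i : Fin q => (QuotientGroup.mk' L) (a ^ (i : ℕ))).subset ?_
      rintro _ ⟨b, hb, rfl⟩
      obtain ⟨i, hi⟩ := h1 b hb
      exact ⟨i, hi.symm⟩
    exact h2
  have h1 : Group.ResiduallyFinite (H ⧸ L) := by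
    refine residuallyFinite_of_finite_commutator inferInstance (A.map (QuotientGroup.mk' L)) ?_ hfin
    rw [commutator_def, Subgroup.commutator_le]
    intro x _ y _
    obtain ⟨x, rfl⟩ := QuotientGroup.mk'_surjective L x
    obtain ⟨y, rfl⟩ := QuotientGroup.mk'_surjective L y
    rw [← map_commutatorElement]
    exact ⟨_, hcomm (Subgroup.commutator_mem_commutator (Subgroup.mem_top x)
      (Subgroup.mem_top y)), rfl⟩
  rw [Group.residuallyFinite_iff_exists_finiteIndex] at h1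
  obtain ⟨M, hM, haM⟩ := h1 (QuotientGroup.mk' L a) (by
    rw [Ne, QuotientGroup.mk'_apply, QuotientGroup.eq_one_iff]
    exact haL)
  refine ⟨M.comap (QuotientGroup.mk' L), ⟨?_⟩, haM⟩
  rw [Subgroup.index_comap_of_surjective _ (QuotientGroup.mk'_surjective L)]
  exact hM.index_ne_zero

/-- **Dichotomy for finitely generated torsion-free solvable groups.** -/
theorem zCond_or_rf (hfg : Group.FG H) (hs : Group.IsSolvable H) (htf : TF H) :
    ZCond H ∨ Group.ResiduallyFinite H := by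
  obtain ⟨A, hAn, hAc, hmax⟩ := exists_maximal_abelian_normal (H := H)
  by_cases hC : Subgroup.centralizer (A : Set H) ≤ A
  · by_cases hr : RankOne A
    · exact Or.inr (rf_of_rankOne hfg htf A hAn hAc hC hr)
    · unfold RankOne at hr
      push Not at hr
      obtain ⟨x, hx, y, hy, hxy⟩ := hr
      exact zCond_or_rf_of_indep A hAn hAc x y hx hy hxy
  · exact Or.inl (zCond_of_centralizer hs htf A hAn hAc hmax hC)

end Run7.h817
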