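import Pool.Agent.Run7.h817.ZExt
import Mathlib.RepresentationTheory.Homological.GroupCohomology.LowDegree

/-! Extensions by the integers: finiteness of cohomology. -/

namespace Run7.h817

open CategoryTheory Limits

theorem finite_of_exact {S : ShortComplex (ModuleCat.{0} ℂ)} (h : S.Exact)
    [Module.Finite ℂ S.X₁] [Module.Finite ℂ S.X₃] : Module.Finite ℂ S.X₂ := by
  have h1 := h.moduleCat_range_eq_ker
  refine ⟨Submodule.fg_of_fg_map_of_fg_inf_ker S.g.hom ?_ ?_⟩
  · exact IsNoetherian.noetherian _
  · rw [top_inf_eq, ← h1]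
    exact Module.Finite.iff_fg.1 inferInstance

theorem finite_of_iso {M N : ModuleCat.{0} ℂ} (e : M ≅ N) [Module.Finite ℂ N] :
    Module.Finite ℂ M := Module.Finite.equiv e.symm.toLinearEquiv

theorem finite_zero (K : Type) [Group K] :
    Module.Finite ℂ (groupCohomology (Rep.trivial ℂ K ℂ) 0) := by
  have h : Module.Finite ℂ (ModuleCat.of ℂ (Rep.trivial ℂ K ℂ).ρ.invariants) := by
    change Module.Finite ℂ (Rep.trivial ℂ K ℂ).ρ.invariants
    have h1 : Module.Finite ℂ (Rep.trivial ℂ K ℂ) := by
      change Module.Finite ℂ ℂ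
      infer_instance
    infer_instance
  exact finite_of_iso (groupCohomology.H0Iso (Rep.trivial ℂ K ℂ))

variable {K : Type} [Group K] (κ : K →* Multiplicative ℤ) (t : K)

theorem finite_of_ker (ht : κ t = Multiplicative.ofAdd 1)
    (h : ∀ n, Module.Finite ℂ (groupCohomology (Rep.trivial ℂ κ.ker ℂ) n)) (n : ℕ) :
    Module.Finite ℂ (groupCohomology (Rep.trivial ℂ K ℂ) n) := by
  rcases n with _ | n
  · exact finite_zero K
  have hS := cndS_shortExact κ t ht (Rep.trivial ℂ K ℂ)
  have h1 : ∀ j, Module.Finite ℂ (groupCohomology (cnd κ (Rep.trivial ℂ K ℂ)) j) := fun j => by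
    have h2 : Module.Finite ℂ
        (groupCohomology (Rep.res κ.ker.subtype (Rep.trivial ℂ K ℂ)) j) := h j
    exact finite_of_iso (groupCohomology.coindIso _ j)
  have hex := groupCohomology.mapShortComplex₁_exact hS (i := n) (j := n + 1) rfl
  have h2 : Module.Finite ℂ (groupCohomology.mapShortComplex₁ hS (i := n) (j := n + 1) rfl).X₁ :=
    h1 n
  have h3 : Module.Finite ℂ (groupCohomology.mapShortComplex₁ hS (i := n) (j := n + 1) rfl).X₃ :=
    h1 (n + 1)
  exact finite_of_exact hex

/-- the class of groups with finite cohomology -/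
def GoodCoh (K : Type) [Group K] : Prop :=
  HasFiniteCd K ∧ ∀ n, Module.Finite ℂ (groupCohomology (Rep.trivial ℂ K ℂ) n)

theorem GoodCoh.of_ker (ht : κ t = Multiplicative.ofAdd 1) (h : GoodCoh κ.ker) : GoodCoh K :=
  ⟨HasFiniteCd.of_ker κ t ht h.1, finite_of_ker κ t ht h.2⟩

theorem goodCoh_of_subsingleton (K : Type) [Group K] [Subsingleton K] : GoodCoh K := by
  refine ⟨⟨0, fun V m hm => ?_⟩, fun n => ?_⟩
  · obtain ⟨m, rfl⟩ : ∃ m', m = m' + 1 := ⟨m - 1, by omega⟩
    exact isZero_groupCohomology_succ_of_subsingleton V m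
  · rcases n with _ | n
    · exact finite_zero K
    · have h := isZero_groupCohomology_succ_of_subsingleton (Rep.trivial ℂ K ℂ) n
      have h1 : Subsingleton (groupCohomology (Rep.trivial ℂ K ℂ) (n + 1)) :=
        ModuleCat.subsingleton_of_isZero h
      infer_instance

/-- free abelian groups of finite rank -/
theorem goodCoh_of_equiv (r : ℕ) : ∀ (K : Type) [Group K] (_ : K ≃* Multiplicative (Fin r → ℤ)),
    GoodCoh K := by
  induction r with
  | zero =>
    intro K _ e
    have : Subsingleton K := e.injective.subsingleton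
    exact goodCoh_of_subsingleton K
  | succ r ih =>
    intro K _ e
    let κ : K →* Multiplicative ℤ :=
      (AddMonoidHom.toMultiplicative (Pi.evalAddMonoidHom (fun _ : Fin (r + 1) => ℤ) 0)).comp
        e.toMonoidHom
    let t : K := e.symm (Multiplicative.ofAdd (fun _ => 1))
    have ht : κ t = Multiplicative.ofAdd 1 := by
      change AddMonoidHom.toMultiplicative (Pi.evalAddMonoidHom (fun _ : Fin (r + 1) => ℤ) 0)
        (e (e.symm _)) = _
      rw [e.apply_symm_apply]
      rfl
    refine GoodCoh.of_ker κ t ht (ih κ.ker ?_)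
    refine
      { toFun := fun k => Multiplicative.ofAdd (Fin.tail (Multiplicative.toAdd (e k)))
        invFun := fun v => ⟨e.symm (Multiplicative.ofAdd
          (Fin.cons 0 (Multiplicative.toAdd v) : Fin (r + 1) → ℤ)), ?_⟩
        left_inv := ?_
        right_inv := ?_
        map_mul' := ?_ }
    · rw [MonoidHom.mem_ker]
      change AddMonoidHom.toMultiplicative (Pi.evalAddMonoidHom (fun _ : Fin (r + 1) => ℤ) 0)
        (e (e.symm _)) = _
      rw [e.apply_symm_apply]
      rfl
    · rintro ⟨k, hk⟩
      apply Subtype.ext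
      change e.symm _ = k
      rw [MulEquiv.symm_apply_eq]
      apply Multiplicative.toAdd.injective
      rw [toAdd_ofAdd, toAdd_ofAdd]
      have h1 : Multiplicative.toAdd (e k) 0 = 0 := hk
      rw [← h1]
      exact Fin.cons_self_tail _
    · intro v
      change Multiplicative.ofAdd (Fin.tail (Multiplicative.toAdd (e (e.symm _)))) = v
      rw [e.apply_symm_apply, toAdd_ofAdd, Fin.tail_cons]
      rfl
    · rintro ⟨a, ha⟩ ⟨b, hb⟩
      change Multiplicative.ofAdd (Fin.tail (Multiplicative.toAdd (e (a * b)))) = _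
      rw [map_mul]
      rfl

end Run7.h817
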