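import Pool.Agent.Run7.h817.SolvC
import Pool.Agent.Run7.h817.NormalRF
import Pool.Agent.Run7.h817.ZFin
import Pool.Agent.Run7.h817.HomDual
import Pool.Agent.Run7.h817.FG
import Mathlib.LinearAlgebra.FreeModule.PID
import Mathlib.LinearAlgebra.FreeModule.Basic
import Mathlib.LinearAlgebra.Dimension.Free
import Mathlib.GroupTheory.Schreier

/-! Solvable subgroups of groups with Calabi-Yau group algebra. -/

namespace Run7.h817

open CategoryTheory Limits

theorem exists_minor {r : ℕ} (u v : Fin r → ℤ)
    (h : ∀ m n : ℤ, (∀ i, m * u i + n * v i = 0) → m = 0 ∧ n = 0) :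
    ∃ i j, u i * v j - u j * v i ≠ 0 := by
  by_contra hcon
  push Not at hcon
  have h1 : ∀ i, u i = 0 := by
    intro i
    have h2 := (h (v i) (-u i) (fun j => by have := hcon i j; linarith)).2
    omega
  have h2 := (h 1 0 (fun i => by rw [h1 i]; ring)).1
  omega

theorem exists_equiv_of_commGroup {K : Type} [CommGroup K] (hfg : Group.FG K) (htf : TF K) :
    ∃ r : ℕ, Nonempty (K ≃* Multiplicative (Fin r → ℤ)) := by
  have h1 : AddGroup.FG (Additive K) := inferInstance
  have h2 : Module.Finite ℤ (Additive K) := Module.Finite.iff_addGroup_fg.2 h1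
  have h3 : Module.IsTorsionFree ℤ (Additive K) := by
    rw [Module.isTorsionFree_iff_smul_eq_zero]
    intro n x hnx
    by_cases hn : n = 0
    · exact Or.inl hn
    · right
      have h4 : (Additive.toMul x) ^ n = 1 := hnx
      exact htf (Additive.toMul x) n hn h4
  have h4 : Module.Free ℤ (Additive K) := inferInstance
  refine ⟨Module.finrank ℤ (Additive K), ⟨AddEquiv.toMultiplicativeRight
    (Module.finBasis ℤ (Additive K)).equivFun.toAddEquiv⟩⟩

theorem exists_equiv_of_comm {K : Type} [Group K] (hc : ∀ a b : K, a * b = b * a)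
    (hfg : Group.FG K) (htf : TF K) :
    ∃ r : ℕ, Nonempty (K ≃* Multiplicative (Fin r → ℤ)) :=
  letI : CommGroup K := { ‹Group K› with mul_comm := hc }
  exists_equiv_of_commGroup hfg htf

/-- finitely generated commutative torsion-free groups of rank at least two -/
theorem good_of_comm {K : Type} [Group K] (hc : ∀ a b : K, a * b = b * a)
    (hfg : Group.FG K) (htf : TF K) (x y : K) (hxy : Indep x y) :
    HasFiniteCd K ∧ Module.Finite ℂ (groupHomology (Rep.trivial ℂ K ℂ) 2) ∧
      ¬ IsZero (groupHomology (Rep.trivial ℂ K ℂ) 2) := by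
  obtain ⟨r, ⟨e⟩⟩ := exists_equiv_of_comm hc hfg htf
  have hgood := goodCoh_of_equiv r K e
  refine ⟨hgood.1, ?_, ?_⟩
  · have := hgood.2 2
    exact finite_homology (k := ℂ) (K := K) 1
  · let c : K → Fin r → ℤ := fun k => Multiplicative.toAdd (e k)
    have hcm : ∀ a b, c (a * b) = c a + c b := fun a b => by
      change Multiplicative.toAdd (e (a * b)) = _
      rw [map_mul, toAdd_mul]
    have hcz : ∀ a (n : ℤ), c (a ^ n) = n • c a := fun a n => by
      change Multiplicative.toAdd (e (a ^ n)) = _
      rw [map_zpow, toAdd_zpow]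
    have hc1 : ∀ a, c a = 0 → a = 1 := fun a ha => by
      apply e.injective
      rw [map_one]
      exact ha
    obtain ⟨i, j, hij⟩ := exists_minor (c x) (c y) (fun m n hmn => by
      apply hxy
      apply hc1
      rw [hcm, hcz, hcz]
      ext i
      simpa using hmn i)
    refine not_isZero_homology_two x y (hc x y) (fun k => (c k i : ℂ)) (fun k => (c k j : ℂ))
      (fun a b => ?_) (fun a b => ?_) ?_
    · rw [hcm]; push_cast [Pi.add_apply]; rfl
    · rw [hcm]; push_cast [Pi.add_apply]; rfl
    · have h1 : ((c x i * c y j - c x j * c y i : ℤ) : ℂ) ≠ 0 := by exact_mod_cast hij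
      push_cast at h1
      intro h2
      apply h1
      linear_combination h2

variable {G : Type} [Group G]

theorem TF.of_injective {A B : Type*} [Group A] [Group B] (f : A →* B)
    (hf : Function.Injective f) (h : TF B) : TF A := by
  intro g n hn hg
  apply hf
  rw [map_one]
  apply h (f g) n hn
  rw [← map_zpow, hg, map_one]

/-- a finitely generated commutative torsion-free subgroup of rank at least two -/
theorem rf_of_comm_infinite [Countable G] (h : IsCalabiYau (MonoidAlgebra ℂ G) 3)
    (K : Subgroup G) (hfg : K.FG) (hc : Comm K) (htf : TF K) {x y : G} (hx : x ∈ K) (hy : y ∈ K)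
    (hxy : Indep x y) (hinf : K.relIndex (Subgroup.normalizer (K : Set G)) = 0) :
    Group.ResiduallyFinite G := by
  have hfg' : Group.FG K := (Group.fg_iff_subgroup_fg K).2 hfg
  have hc' : ∀ a b : K, a * b = b * a := fun a b => Subtype.ext (hc a a.2 b b.2)
  obtain ⟨h1, h2, h3⟩ := good_of_comm hc' hfg' htf ⟨x, hx⟩ ⟨y, hy⟩ (fun m n hmn => by
    apply hxy
    have := congrArg Subtype.val hmn
    simpa using this)
  refine (normalizer_main h K h1 hfg h2 h3 (fun hfi => hfi.index_ne_zero hinf)).2 ?_
  exact rf_of_comm_subgroup K hc hfg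

/-- transfer from a subgroup -/
theorem rf_of_zCond [Countable G] (h : IsCalabiYau (MonoidAlgebra ℂ G) 3) (H : Subgroup G)
    (htf : TF H) (hZ : ZCond H) : Group.ResiduallyFinite G := by
  obtain ⟨K, hfg, hc, ⟨x, hx, y, hy, hxy⟩, hinf⟩ := hZ
  have hinj : Function.Injective H.subtype := Subtype.val_injective
  have hmapfg : (K.map H.subtype).FG := by
    obtain ⟨S, hS⟩ := hfg
    classical
    refine ⟨S.image H.subtype, ?_⟩
    rw [Finset.coe_image, ← MonoidHom.map_closure, hS]
  have hle : K.map H.subtype ≤ H := by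
    rintro _ ⟨k, -, rfl⟩
    exact k.2
  refine rf_of_comm_infinite h (K.map H.subtype) hmapfg ?_ ?_
    (x := (x : G)) (y := (y : G)) ⟨x, hx, rfl⟩ ⟨y, hy, rfl⟩ ?_ ?_
  · rintro _ ⟨a, ha, rfl⟩ _ ⟨b, hb, rfl⟩
    exact congrArg Subtype.val (hc a ha b hb)
  · exact TF.of_injective (Subgroup.inclusion hle) (Subgroup.inclusion_injective hle) htf
  · intro m n hmn
    apply hxy
    apply Subtype.ext
    simpa using hmn
  · refine Subgroup.relIndex_eq_zero_of_le_right
      (K := (Subgroup.normalizer (K : Set H)).map H.subtype) ?_ ?_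
    · rintro _ ⟨g, hg, rfl⟩
      have hg' := Subgroup.mem_normalizer_iff.1 hg
      rw [Subgroup.mem_normalizer_iff]
      intro k
      constructor
      · rintro ⟨k, hk, rfl⟩
        exact ⟨g * k * g⁻¹, (hg' k).1 hk, rfl⟩
      · rintro ⟨k', hk', hk⟩
        have h1 : k = ((g⁻¹ * k' * g : H) : G) := by
          have h2 : (k' : G) = (g : G) * k * (g : G)⁻¹ := hk
          push_cast
          rw [h2]
          group
        rw [h1]
        refine ⟨g⁻¹ * k' * g, (hg' _).2 ?_, rfl⟩
        have h3 : g * (g⁻¹ * k' * g) * g⁻¹ = k' := by group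
        rw [h3]
        exact hk'
    · rw [Subgroup.relIndex_map_map_of_injective _ _ hinj]
      exact hinf

/-- **Main theorem.** -/
theorem solvable_main [Countable G] (h : IsCalabiYau (MonoidAlgebra ℂ G) 3) (H : Subgroup G)
    (hfg : H.FG) (hs : Group.IsSolvable H) (htf : TF H) : Group.ResiduallyFinite H := by
  have hfg' : Group.FG H := (Group.fg_iff_subgroup_fg H).2 hfg
  rcases zCond_or_rf hfg' hs htf with hZ | hRF
  · exact rf_of_injective H.subtype Subtype.val_injective (rf_of_zCond h H htf hZ)
  · exact hRF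

/-- virtually torsion-free solvable groups -/
theorem virtually_solvable_main [Countable G] (h : IsCalabiYau (MonoidAlgebra ℂ G) 3)
    (H : Subgroup G) (hfi : H.FiniteIndex) (hs : Group.IsSolvable H) (htf : TF H) :
    Group.ResiduallyFinite G := by
  have hG : Group.FG G := fg_of_isCalabiYau h
  have hH : Group.FG H := inferInstance
  exact residuallyFinite_of_finiteIndex H hfi
    (solvable_main h H ((Group.fg_iff_subgroup_fg H).1 hH) hs htf)

end Run7.h817
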