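import Pool.Agent.Run7.h817.SolvD

/-! Solvable subgroups of groups with Calabi-Yau group algebra: final form. -/

namespace Run7.h817

section

variable {H : Type*} [Group H]

/-- no element of finite order except the identity -/
def TorsionFree (H : Type*) [Group H] : Prop := ∀ g : H, g ≠ 1 → ¬ IsOfFinOrder g

theorem TorsionFree.tf (h : TorsionFree H) : TF H := by
  intro g n hn hg
  by_contra hg1
  exact h g hg1 (isOfFinOrder_iff_zpow_eq_one.2 ⟨n, hn, hg⟩)

/-- the refined form of the self-centralising case, rank at least two -/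
theorem exists_sub_or_finiteIndex (A : Subgroup H) (hAn : A.Normal) (hAc : Comm A) (x y : H)
    (hx : x ∈ A) (hy : y ∈ A) (hxy : Indep x y) :
    (∃ K ≤ A, K.FG ∧ (∃ x ∈ K, ∃ y ∈ K, Indep x y) ∧
      K.relIndex (Subgroup.normalizer (K : Set H)) = 0) ∨ (A.FG ∧ A.FiniteIndex) := by
  classical
  let K := Subgroup.closure {x, y}
  have hxK : x ∈ K := Subgroup.subset_closure (by simp)
  have hyK : y ∈ K := Subgroup.subset_closure (by simp)
  have hKA : K ≤ A := by
    rw [Subgroup.closure_le]
    intro z hz
    simp only [Set.mem_insert_iff, Set.mem_singleton_iff] at hz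
    rcases hz with rfl | rfl
    · exact hx
    · exact hy
  have hKfg : K.FG := ⟨{x, y}, by simp [K]⟩
  by_cases h0 : K.relIndex (Subgroup.normalizer (K : Set H)) = 0
  · exact Or.inl ⟨K, hKA, hKfg, ⟨x, hxK, y, hyK, hxy⟩, h0⟩
  have hAN : A ≤ Subgroup.normalizer (K : Set H) := by
    intro a ha
    rw [Subgroup.mem_normalizer_iff]
    intro k
    constructor
    · intro hk
      have h1 : a * k * a⁻¹ = k := by
        rw [hAc a ha k (hKA hk)]
        group
      rw [h1]
      exact hk
    · intro hk
      have h2 := hAc a ha _ (hKA hk)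
      have h3 : k = a * k * a⁻¹ := by
        have h4 : a * (a * k * a⁻¹) = a * k := by rw [h2]; group
        exact (mul_left_cancel h4).symm
      rw [h3]
      exact hk
  have h1 : K.relIndex A ≠ 0 := fun h => h0 (Subgroup.relIndex_eq_zero_of_le_right hAN h)
  have hAfg : A.FG := fg_of_relIndex_ne_zero hKA hKfg h1
  by_cases h2 : A.index = 0
  · refine Or.inl ⟨A, le_refl _, hAfg, ⟨x, hx, y, hy, hxy⟩, ?_⟩
    rw [Subgroup.normalizer_eq_top, Subgroup.relIndex_top_right, h2]
  · exact Or.inr ⟨hAfg, ⟨h2⟩⟩

/-- **Dichotomy for torsion-free solvable groups.** -/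
theorem zCond_or_structure (hs : Group.IsSolvable H) (htf : TF H) :
    ZCond H ∨ ∃ A : Subgroup H, A.Normal ∧ Comm A ∧ Subgroup.centralizer (A : Set H) ≤ A ∧
      ((A.FG ∧ A.FiniteIndex) ∨ (RankOne A ∧ commutator H ≤ A)) := by
  obtain ⟨A, hAn, hAc, hmax⟩ := exists_maximal_abelian_normal (H := H)
  by_cases hC : Subgroup.centralizer (A : Set H) ≤ A
  · by_cases hr : RankOne A
    · refine Or.inr ⟨A, hAn, hAc, hC, Or.inr ⟨hr, ?_⟩⟩
      by_cases hbot : A = ⊥
      · have h2 : ∀ x : H, x = 1 := by
          intro x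
          have h3 : x ∈ Subgroup.centralizer (A : Set H) := by
            rw [Subgroup.mem_centralizer_iff]
            intro b hb
            rw [hbot] at hb
            rw [Subgroup.mem_bot.1 hb, one_mul, mul_one]
          have h4 := hC h3
          rw [hbot] at h4
          exact Subgroup.mem_bot.1 h4
        intro x _
        rw [h2 x]
        exact A.one_mem
      · obtain ⟨a₀, ha₀, ha₀1⟩ : ∃ a ∈ A, a ≠ 1 := by
          by_contra hcon
          push Not at hcon
          exact hbot ((Subgroup.eq_bot_iff_forall A).2 hcon)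
        exact (commutator_le_centralizer htf hAn hAc hr ha₀ ha₀1).trans hC
    · unfold RankOne at hr
      push Not at hr
      obtain ⟨x, hx, y, hy, hxy⟩ := hr
      rcases exists_sub_or_finiteIndex A hAn hAc x y hx hy hxy with ⟨K, hKA, h1, h2, h3⟩ | h1
      · exact Or.inl ⟨K, h1, fun a ha b hb => hAc a (hKA ha) b (hKA hb), h2, h3⟩
      · exact Or.inr ⟨A, hAn, hAc, hC, Or.inl h1⟩
  · exact Or.inl (zCond_of_centralizer hs htf A hAn hAc hmax hC)

end

variable {G : Type} [Group G]

theorem rf_of_virtually [Countable G] (h : IsCalabiYau (MonoidAlgebra ℂ G) 3) (H : Subgroup G)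
    (hfg : H.FG) (S : Subgroup H) (hfi : S.FiniteIndex) (hs : Group.IsSolvable S)
    (htf : TF S) : Group.ResiduallyFinite H := by
  have hH : Group.FG H := (Group.fg_iff_subgroup_fg H).2 hfg
  have hS : Group.FG S := inferInstance
  refine residuallyFinite_of_finiteIndex S hfi ?_
  let e : S ≃* S.map H.subtype := S.equivMapOfInjective H.subtype Subtype.val_injective
  have h1 : (S.map H.subtype).FG := by
    rw [← Group.fg_iff_subgroup_fg]
    exact Group.fg_of_surjective (f := e.toMonoidHom) e.surjective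
  have h2 : Group.IsSolvable (S.map H.subtype) :=
    Group.isSolvable_of_surjective (f := e.toMonoidHom) e.surjective
  have h3 : TF (S.map H.subtype) := TF.of_injective e.symm.toMonoidHom e.symm.injective htf
  exact rf_of_injective e.toMonoidHom e.injective (solvable_main h _ h1 h2 h3)

theorem rf_of_normal_abelian [Countable G] (h : IsCalabiYau (MonoidAlgebra ℂ G) 3)
    (A : Subgroup G) (hAn : A.Normal) (hAc : Comm A) (htf : TF A) (x y : G)
    (hx : x ∈ A) (hy : y ∈ A) (hxy : Indep x y) : Group.ResiduallyFinite G := by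
  rcases exists_sub_or_finiteIndex A hAn hAc x y hx hy hxy with
    ⟨K, hKA, hfg, ⟨x', hx', y', hy', hxy'⟩, hinf⟩ | ⟨hfg, hfi⟩
  · exact rf_of_comm_infinite h K hfg (fun a ha b hb => hAc a (hKA ha) b (hKA hb))
      (TF.of_injective (Subgroup.inclusion hKA) (Subgroup.inclusion_injective hKA) htf)
      hx' hy' hxy' hinf
  · exact residuallyFinite_of_finiteIndex A hfi (rf_of_comm_subgroup A hAc hfg)

theorem rf_or_structure [Countable G] (h : IsCalabiYau (MonoidAlgebra ℂ G) 3)
    (H : Subgroup G) (hs : Group.IsSolvable H) (htf : TF H) : Group.ResiduallyFinite G ∨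
      ∃ A : Subgroup H, A.Normal ∧ Comm A ∧ Subgroup.centralizer (A : Set H) ≤ A ∧
        ((A.FG ∧ A.FiniteIndex) ∨ (RankOne A ∧ commutator H ≤ A)) := by
  rcases zCond_or_structure hs htf with hZ | hA
  · exact Or.inl (rf_of_zCond h H htf hZ)
  · exact Or.inr hA

end Run7.h817
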