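import Pool.Agent.Run7.h817.Aug

/-! Subgroups of infinite index and of finite cohomological dimension have no third homology. -/

namespace Run7.h817

open CategoryTheory Limits TensorProduct

universe u v w

variable {G : Type u} [Group G]

theorem cobd_of_mem_gSub {d : ℕ} {c₀ : (Fin (d + 1) → G) → CG G} (hc₀ : Fund G d c₀)
    {M : Type v} [AddCommGroup M] [Module (CG G) M] {m : M} (hm : m ∈ gSub G M) :
    ∃ b : (Fin d → G) → M, dl d b = smulc c₀ m := by
  rw [gSub] at hm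
  induction hm using AddSubgroup.closure_induction with
  | mem y hy =>
    obtain ⟨g, m', rfl⟩ := hy
    obtain ⟨b, hb⟩ := hc₀.right_inv g
    refine ⟨fun x => b x • m', ?_⟩
    have h1 := dl_map d (LinearMap.toSpanSingleton (CG G) M m') b
    refine h1.trans ?_
    funext x
    rw [hb]
    change (c₀ x * MonoidAlgebra.single g 1 - c₀ x) • m' =
      c₀ x • (MonoidAlgebra.single g (1 : ℂ) • m' - m')
    rw [sub_smul, mul_smul, smul_sub]
  | zero => exact ⟨0, by rw [dl_zero, smulc_zero]⟩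
  | add y z _ _ hy hz =>
    obtain ⟨b₁, h₁⟩ := hy
    obtain ⟨b₂, h₂⟩ := hz
    exact ⟨b₁ + b₂, by rw [dl_add, h₁, h₂, smulc_add]⟩
  | neg y _ hy =>
    obtain ⟨b, hb⟩ := hy
    refine ⟨-b, ?_⟩
    rw [dl_neg, hb]
    funext x
    exact (smul_neg (c₀ x) y).symm

omit [Group G] in
/-- pointwise lifting along an exact pair -/
theorem lift_pointwise {A : Type v} {B : Type w} {n : ℕ} (f : A → B) (c : (Fin n → G) → B)
    (h : ∀ x, ∃ a, f a = c x) : ∃ c' : (Fin n → G) → A, (fun x => f (c' x)) = c := by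
  choose c' hc' using h
  exact ⟨c', funext hc'⟩

end Run7.h817

namespace Run7.h817

open CategoryTheory Limits TensorProduct

variable {G : Type} [Group G]

theorem HVan_of_free {n : ℕ} (h : ∀ I : Type, HVan G (I →₀ CG G) n) (M : Type) [AddCommGroup M]
    [Module (CG G) M] [Module.Free (CG G) M] : HVan G M n := by
  let b := Module.Free.chooseBasis (CG G) M
  exact (h _).retract b.repr.toLinearMap b.repr.symm.toLinearMap (fun x => b.repr.symm_apply_apply x)

/-- The key diagram chase. -/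
theorem boundary_of_cycle [Countable G] [Infinite G] (h : IsCalabiYau (CG G) 3)
    {c₀ : (Fin 3 → G) → CG G} (hc₀ : Fund G 2 c₀) (hd : ∀ I : Type, Dual c₀ (I →₀ CG G))
    (K : Subgroup G) {N : Type} [AddCommGroup N] [Module ℂ N] (ρ : Representation ℂ K N)
    (hK : HasFiniteCd K) (hinf : ¬ K.FiniteIndex) (z : (Fin 3 → K) →₀ N)
    (hz : chd K ρ 2 z = 0) : ∃ y, chd K ρ 3 y = z := by
  have hB := indBar K ρ
  have dd : ∀ (n : ℕ) (z : XX K N (n + 2)), xd K ρ n (xd K ρ (n + 1) z) = 0 :=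
    (indBar K ρ).bD_bD
  have ex : ∀ (n : ℕ) (z : XX K N (n + 1)), xd K ρ n z = 0 → ∃ y, xd K ρ (n + 1) y = z :=
    (indBar K ρ).exact
  let x : XX K N 3 := secX K N 3 z
  have hx : augX K N 3 x = z := augX_secX K 3 z
  have hm : xd K ρ 2 x ∈ gSub G (XX K N 2) := by
    apply mem_gSub_of_augX
    rw [augX_xd, hx, hz]
  obtain ⟨b₂, hb₂⟩ := cobd_of_mem_gSub hc₀ hm
  -- degree 2 cocycle in X_1
  have h1 : dl 2 (fun t => xd K ρ 1 (b₂ t)) = 0 := by
    rw [dl_map, hb₂, smulc_map, dd]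
    exact smulc_zero c₀
  obtain ⟨b₁, hb₁⟩ := HVan_of_free (fun I => HVan_free h I 1 (by omega)) (XX K N 1) _ h1
  have h2 : dl 1 (fun t => xd K ρ 0 (b₁ t)) = 0 := by
    rw [dl_map, hb₁]
    funext t
    exact dd 0 _
  obtain ⟨b₀, hb₀⟩ := HVan_of_free (fun I => HVan_free h I 0 (by omega)) (XX K N 0) _ h2
  -- the class of b₀ in the induced module is invariant
  have h3 : dl 0 (fun t => (BB K ρ 0).mkQ (b₀ t)) = 0 := by
    rw [dl_map, hb₀]
    funext t
    rw [Submodule.mkQ_apply]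
    exact (Submodule.Quotient.mk_eq_zero _).2 ⟨b₁ t, rfl⟩
  have h4 : (BB K ρ 0).mkQ (b₀ default) = 0 := by
    apply MM_invariant K ρ hinf
    intro g
    exact dl_zero_eq _ h3 g
  rw [Submodule.mkQ_apply, Submodule.Quotient.mk_eq_zero] at h4
  obtain ⟨γ₀, hγ₀⟩ := h4
  let g₀ : (Fin 0 → G) → XX K N 1 := fun _ => γ₀
  have hg₀ : (fun t => xd K ρ 0 (g₀ t)) = b₀ := by
    funext t
    rw [Subsingleton.elim t default]
    exact hγ₀
  have h5 : ∀ t, xd K ρ 0 ((b₁ - dl 0 g₀) t) = 0 := by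
    intro t
    rw [Pi.sub_apply, map_sub, ← congrFun (dl_map 0 (xd K ρ 0) g₀) t, hg₀, hb₀, sub_self]
  obtain ⟨g₁, hg₁⟩ := lift_pointwise (xd K ρ 1) (b₁ - dl 0 g₀) (fun t => ex 0 _ (h5 t))
  have h6 : ∀ t, xd K ρ 1 ((b₂ - dl 1 g₁) t) = 0 := by
    intro t
    rw [Pi.sub_apply, map_sub, ← congrFun (dl_map 1 (xd K ρ 1) g₁) t, hg₁, dl_sub, dl_dl, hb₁]
    simp
  obtain ⟨β, hβ⟩ := lift_pointwise (fun s : BB K ρ 2 => (s : XX K N 2)) (b₂ - dl 1 g₁) (fun t => by
    obtain ⟨y, hy⟩ := ex 1 _ (h6 t)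
    exact ⟨⟨_, ⟨y, rfl⟩⟩, hy⟩)
  have h7 : dl 2 β = smulc c₀ (⟨xd K ρ 2 x, ⟨x, rfl⟩⟩ : BB K ρ 2) := by
    have h8 : dl 2 (fun t => (BB K ρ 2).subtype (β t)) =
        fun t => (BB K ρ 2).subtype (dl 2 β t) := dl_map 2 (BB K ρ 2).subtype β
    have h9 : (fun t => (BB K ρ 2).subtype (β t)) = b₂ - dl 1 g₁ := hβ
    rw [h9, dl_sub, dl_dl, sub_zero, hb₂] at h8
    funext t
    apply Subtype.ext
    exact (congrFun h8 t).symm
  have h8 := (dual_BB K ρ hK hc₀.cocycle hd 2).inj _ _ h7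
  obtain ⟨x', hx', hx''⟩ := gSub_lift (xd K ρ 2).rangeRestrict
    (LinearMap.surjective_rangeRestrict _) h8
  have h9 : xd K ρ 2 (x - x') = 0 := by
    rw [map_sub, sub_eq_zero]
    exact (congrArg Subtype.val hx'').symm
  obtain ⟨w, hw⟩ := ex 2 _ h9
  refine ⟨augX K N 4 w, ?_⟩
  rw [← augX_xd, hw, map_sub, augX_gSub K 3 hx', sub_zero, hx]

/-- **Strebel's theorem in the naive setting.** A subgroup of finite cohomological dimension and
with nonzero third homology has finite index. -/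
theorem finiteIndex_of_groupHomology [Countable G] (h : IsCalabiYau (MonoidAlgebra ℂ G) 3)
    (K : Subgroup G) (hK : HasFiniteCd K) (V : Rep.{0} ℂ K)
    (hV : ¬ IsZero (groupHomology V 3)) : K.FiniteIndex := by
  rcases finite_or_infinite G with hfin | hinf
  · infer_instance
  by_contra hK'
  obtain ⟨Φ, hΦ⟩ := exists_pairing h
  obtain ⟨c₀, hc₀⟩ := hΦ.exists_fund
  obtain ⟨z, hz, hz'⟩ := exists_cycle_of_not_isZero V 2 hV
  obtain ⟨y, hy⟩ := boundary_of_cycle h hc₀ (fun I => dual_free h hΦ hc₀ I) K V.ρ hK hK' z hz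
  exact hz' y hy

end Run7.h817
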