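import Pool.Agent.Run7.h817.SolvE
import Mathlib.GroupTheory.Transfer
import Mathlib.LinearAlgebra.Determinant
import Mathlib.LinearAlgebra.Matrix.ToLin
import Mathlib.LinearAlgebra.Matrix.Notation

/-! Torsion-free virtually solvable groups. -/

namespace Run7.h817

open scoped commutatorElement

theorem comm_of_center {C : Type*} [Group C] (htf : TF C) (h : (Subgroup.center C).FiniteIndex) :
    ∀ a b : C, a * b = b * a := by
  intro a b
  rw [← commutatorElement_eq_one_iff_mul_comm]
  have h1 : (MonoidHom.transferCenterPow C) ⁅a, b⁆ = 1 := by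
    rw [map_commutatorElement, commutatorElement_eq_one_iff_mul_comm]
    apply Subtype.ext
    exact (Subgroup.mem_center_iff.1 ((MonoidHom.transferCenterPow C) b).2 _)
  have h2 : ⁅a, b⁆ ^ (Subgroup.center C).index = 1 := congrArg Subtype.val h1
  refine htf _ ((Subgroup.center C).index : ℤ) ?_ ?_
  · exact_mod_cast h.index_ne_zero
  · rw [zpow_natCast]
    exact h2

section

variable {H : Type*} [Group H]

/-- self-centralising for a maximal abelian normal subgroup of a virtually solvable group -/
theorem zCond_or_centralizer_le (htf : TF H) (S : Subgroup H) (hSn : S.Normal)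
    (hfi : S.FiniteIndex) (hs : Group.IsSolvable S) (A : Subgroup H) (hAn : A.Normal)
    (hAc : Comm A) (hmax : ∀ B : Subgroup H, B.Normal → Comm B → A ≤ B → B ≤ A) :
    ZCond H ∨ Subgroup.centralizer (A : Set H) ≤ A := by
  set C := Subgroup.centralizer (A : Set H) with hCdef
  have hCn : C.Normal := inferInstance
  have hAC : A ≤ C := by
    intro a ha
    rw [hCdef, Subgroup.mem_centralizer_iff]
    intro b hb
    exact hAc b hb a ha
  by_cases h0 : C ⊓ S ≤ A
  · right
    refine hmax C hCn ?_ hAC
    have h1 : (Subgroup.center C).FiniteIndex := by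
      have h2 : (S.subgroupOf C).FiniteIndex := inferInstance
      refine Subgroup.finiteIndex_of_le (H := S.subgroupOf C) ?_
      intro c hc
      rw [Subgroup.mem_center_iff]
      intro g
      apply Subtype.ext
      have h3 : (c : H) ∈ A := h0 ⟨c.2, hc⟩
      have h4 := Subgroup.mem_centralizer_iff.1 g.2
      exact (h4 c h3).symm
    have h2 := comm_of_center (TF.of_injective C.subtype Subtype.val_injective htf) h1
    intro a ha b hb
    exact congrArg Subtype.val (h2 ⟨a, ha⟩ ⟨b, hb⟩)
  · left
    obtain ⟨n, hn⟩ := hs.1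
    refine zCond_of_chain htf A hAn hAc hmax (fun k => (derivedSeries S k).map S.subtype)
      (fun k => inferInstance) ?_ n ?_ ?_
    · rintro k _ ⟨x, hx, rfl⟩ _ ⟨y, hy, rfl⟩
      refine ⟨⁅x, y⁆, ?_, map_commutatorElement _ _ _⟩
      change ⁅x, y⁆ ∈ derivedSeries S (k + 1)
      rw [derivedSeries_succ]
      exact Subgroup.commutator_mem_commutator hx hy
    · rw [hn, Subgroup.map_bot]
    · have h1 : (derivedSeries S 0).map S.subtype = S := by
        rw [derivedSeries_zero, ← MonoidHom.range_eq_map, Subgroup.range_subtype]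
      change ¬ C ⊓ (derivedSeries S 0).map S.subtype ≤ A
      rw [h1]
      exact h0

end

/-- a matrix of determinant one and of finite order with a fixed vector is the identity -/
theorem matrix_eq_one (M : Matrix (Fin 2) (Fin 2) ℤ) (hdet : M.det = 1) (v : Fin 2 → ℤ)
    (hv : v ≠ 0) (hMv : M.mulVec v = v) (n : ℕ) (hn : n ≠ 0) (hM : M ^ n = 1) : M = 1 := by
  have e0 : M 0 0 * v 0 + M 0 1 * v 1 = v 0 := by
    have := congrFun hMv 0
    simpa [Matrix.mulVec, dotProduct, Fin.sum_univ_two] using this
  have e1 : M 1 0 * v 0 + M 1 1 * v 1 = v 1 := by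
    have := congrFun hMv 1
    simpa [Matrix.mulVec, dotProduct, Fin.sum_univ_two] using this
  rw [Matrix.det_fin_two] at hdet
  have hD : (M 0 0 - 1) * (M 1 1 - 1) - M 0 1 * M 1 0 = 0 := by
    by_contra hne
    apply hv
    have h0 : ((M 0 0 - 1) * (M 1 1 - 1) - M 0 1 * M 1 0) * v 0 = 0 := by
      linear_combination (M 1 1 - 1) * e0 - M 0 1 * e1
    have h1 : ((M 0 0 - 1) * (M 1 1 - 1) - M 0 1 * M 1 0) * v 1 = 0 := by
      linear_combination (M 0 0 - 1) * e1 - M 1 0 * e0
    funext i
    fin_cases i
    · exact (mul_eq_zero.1 h0).resolve_left hne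
    · exact (mul_eq_zero.1 h1).resolve_left hne
  have htr : M 0 0 + M 1 1 = 2 := by linear_combination hdet - hD
  have hN : (M - 1) * (M - 1) = 0 := by
    ext i j
    fin_cases i <;> fin_cases j <;>
      simp [Matrix.mul_apply, Fin.sum_univ_two, Matrix.sub_apply]
    · linear_combination -hD + (M 0 0 - 1) * htr
    · linear_combination (M 0 1) * htr
    · linear_combination (M 1 0) * htr
    · linear_combination -hD + (M 1 1 - 1) * htr
  have hpow : ∀ k : ℕ, M ^ k = 1 + (k : ℤ) • (M - 1) := by
    intro k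
    induction k with
    | zero => simp
    | succ k ih =>
      have h1 : M = 1 + (M - 1) := by abel
      rw [pow_succ, ih]
      nth_rewrite 2 [h1]
      rw [mul_add, mul_one, add_mul, one_mul, smul_mul_assoc, hN, smul_zero, add_zero]
      push_cast
      rw [add_smul, one_smul]
      abel
  have h2 := hpow n
  rw [hM, left_eq_add] at h2
  have h3 : (n : ℤ) ≠ 0 := by exact_mod_cast hn
  have h4 : M - 1 = 0 := by
    ext i j
    have h5 := congrFun (congrFun h2 i) j
    rw [Matrix.smul_apply, smul_eq_mul] at h5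
    exact (mul_eq_zero.1 h5).resolve_left h3
  exact sub_eq_zero.1 h4

theorem linear_eq_one {L : Type*} [AddCommGroup L] (b : Module.Basis (Fin 2) ℤ L)
    (f : L →ₗ[ℤ] L) (hdet : LinearMap.det f = 1) (v : L) (hv : v ≠ 0) (hfv : f v = v) (n : ℕ)
    (hn : n ≠ 0) (hf : f ^ n = 1) : f = 1 := by
  have h1 : LinearMap.toMatrix b b f = 1 := by
    refine matrix_eq_one _ ?_ (b.repr v) ?_ ?_ n hn ?_
    · rw [LinearMap.det_toMatrix, hdet]
    · intro h
      apply hv
      have h2 : b.repr v = 0 := by
        ext i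
        exact congrFun h i
      simpa using h2
    · rw [LinearMap.toMatrix_mulVec_repr, hfv]
    · rw [LinearMap.toMatrix_pow, hf, LinearMap.toMatrix_one]
  have h2 : LinearMap.toMatrix b b f = LinearMap.toMatrix b b (1 : L →ₗ[ℤ] L) := by
    rw [h1, LinearMap.toMatrix_one]
  exact (LinearMap.toMatrix b b).injective h2


/-- an action by automorphisms on an abelian group, linearised -/
noncomputable def autRep {H A : Type*} [Group H] [CommGroup A] (φ : H →* MulAut A) :
    H →* (Additive A ≃ₗ[ℤ] Additive A) where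
  toFun h := (MulEquiv.toAdditive (φ h)).toIntLinearEquiv
  map_one' := by
    ext x
    change Additive.ofMul (φ 1 (Additive.toMul x)) = x
    rw [map_one]
    rfl
  map_mul' a b := by
    ext x
    change Additive.ofMul (φ (a * b) (Additive.toMul x)) =
      Additive.ofMul (φ a (φ b (Additive.toMul x)))
    rw [map_mul]
    rfl

theorem autRep_apply {H A : Type*} [Group H] [CommGroup A] (φ : H →* MulAut A) (h : H) (a : A) :
    autRep φ h (Additive.ofMul a) = Additive.ofMul (φ h a) := rfl

theorem det_argument {H A : Type*} [Group H] [CommGroup A] (φ : H →* MulAut A)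
    (b : Module.Basis (Fin 2) ℤ (Additive A)) (g : H) (hg : g ∈ commutator H) (v : A)
    (hv : v ≠ 1) (hfix : φ g v = v) (n : ℕ) (hn : n ≠ 0) (hφ : φ (g ^ n) = 1) (a : A) :
    φ g a = a := by
  have h1 : LinearEquiv.det (autRep φ g) = 1 := by
    have h2 := Abelianization.commutator_subset_ker (LinearEquiv.det.comp (autRep φ)) hg
    exact h2
  have h2 : LinearMap.det ((autRep φ g : Additive A ≃ₗ[ℤ] Additive A) :
      Additive A →ₗ[ℤ] Additive A) = 1 := by
    rw [← LinearEquiv.coe_det, h1, Units.val_one]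
  have h3 : ∀ k : ℕ, ((autRep φ g : Additive A ≃ₗ[ℤ] Additive A) :
      Additive A →ₗ[ℤ] Additive A) ^ k = ((autRep φ (g ^ k) : Additive A ≃ₗ[ℤ] Additive A) :
      Additive A →ₗ[ℤ] Additive A) := by
    intro k
    induction k with
    | zero =>
      rw [pow_zero, pow_zero, map_one]
      rfl
    | succ k ih =>
      rw [pow_succ, ih, pow_succ, map_mul]
      rfl
  have h4 := linear_eq_one b _ h2 (Additive.ofMul v) (fun h => hv (Additive.ofMul.injective h))
    (congrArg Additive.ofMul hfix) n hn (by
      rw [h3]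
      ext x
      change Additive.ofMul (φ (g ^ n) (Additive.toMul x)) = x
      rw [hφ]
      rfl)
  exact Additive.ofMul.injective (LinearMap.congr_fun h4 (Additive.ofMul a))

section

variable {H : Type} [Group H]

theorem commutator_le_of_rank_two (htf : TF H) (A : Subgroup H) (hAn : A.Normal) (hAc : Comm A)
    (hC : Subgroup.centralizer (A : Set H) ≤ A) (hfi : A.FiniteIndex)
    (e : A ≃* Multiplicative (Fin 2 → ℤ)) : commutator H ≤ A := by
  let _ : CommGroup A := { (inferInstance : Group A) with
    mul_comm := fun a b => Subtype.ext (hAc a a.2 b b.2) }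
  let φ : H →* MulAut A := MulAut.conjNormal
  have hφ : ∀ (g : H) (a : A), ((φ g a : A) : H) = g * a * g⁻¹ := fun g a =>
    MulAut.conjNormal_apply g a
  let b : Module.Basis (Fin 2) ℤ (Additive A) :=
    Module.Basis.ofEquivFun (MulEquiv.toAdditiveLeft e).toIntLinearEquiv
  intro g hg
  by_cases hg1 : g = 1
  · rw [hg1]
    exact A.one_mem
  have hgn : g ^ A.index ∈ A := A.pow_index_mem g
  have hn : A.index ≠ 0 := hfi.index_ne_zero
  have hgn1 : (⟨g ^ A.index, hgn⟩ : A) ≠ 1 := by
    intro h
    apply hg1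
    refine htf g (A.index : ℤ) (by exact_mod_cast hn) ?_
    rw [zpow_natCast]
    exact congrArg Subtype.val h
  apply hC
  rw [Subgroup.mem_centralizer_iff]
  intro a ha
  have h1 := det_argument φ b g hg ⟨g ^ A.index, hgn⟩ hgn1 (by
      apply Subtype.ext
      rw [hφ]
      change g * g ^ A.index * g⁻¹ = g ^ A.index
      rw [← pow_succ', pow_succ, mul_inv_cancel_right]) A.index hn (by
      ext x
      rw [hφ]
      change g ^ A.index * (x : H) * (g ^ A.index)⁻¹ = x
      rw [hAc _ hgn _ x.2, mul_inv_cancel_right]) ⟨a, ha⟩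
  have h2 := congrArg Subtype.val h1
  rw [hφ] at h2
  change g * a * g⁻¹ = a at h2
  rw [mul_inv_eq_iff_eq_mul] at h2
  exact h2.symm

theorem mem_normalizer_of_commute {K : Subgroup H} {z : H} (h : ∀ k ∈ K, z * k = k * z) :
    z ∈ Subgroup.normalizer (K : Set H) := by
  rw [Subgroup.mem_normalizer_iff]
  intro k
  constructor
  · intro hk
    rwa [h k hk, mul_inv_cancel_right]
  · intro hk
    have h1 := h _ hk
    have h2 : z * (z * k * z⁻¹) = z * k := by
      rw [h1]
      group
    rwa [mul_left_cancel h2] at hk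

theorem zCond_of_rank_three (A : Subgroup H) (hAc : Comm A) (r : ℕ)
    (e : A ≃* Multiplicative (Fin (r + 3) → ℤ)) : ZCond H := by
  classical
  let κ : Fin (r + 3) → A →* Multiplicative ℤ := fun i =>
    (AddMonoidHom.toMultiplicative (Pi.evalAddMonoidHom (fun _ : Fin (r + 3) => ℤ) i)).comp
      e.toMonoidHom
  let q : Fin (r + 3) → A := fun i => e.symm (Multiplicative.ofAdd (Pi.single i 1))
  have hκq : ∀ i j, κ i (q j) = Multiplicative.ofAdd (if i = j then 1 else 0) := by
    intro i j
    change AddMonoidHom.toMultiplicative (Pi.evalAddMonoidHom (fun _ : Fin (r + 3) => ℤ) i)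
      (e (e.symm _)) = _
    rw [e.apply_symm_apply]
    change Multiplicative.ofAdd ((Pi.single j 1 : Fin (r + 3) → ℤ) i) = _
    rw [Pi.single_apply]
  have h01 : (1 : Fin (r + 3)) ≠ 0 := by
    intro h
    have := congrArg Fin.val h
    simp at this
  have hm2 : 2 % (r + 3) = 2 := Nat.mod_eq_of_lt (by omega)
  have h20 : (2 : Fin (r + 3)) ≠ 0 := by
    intro h
    have := congrArg Fin.val h
    simp at this
    omega
  have h21 : (2 : Fin (r + 3)) ≠ 1 := by
    intro h
    have := congrArg Fin.val h
    simp at this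
    omega
  let K : Subgroup H := Subgroup.closure {((q 0 : A) : H), ((q 1 : A) : H)}
  have hxK : ((q 0 : A) : H) ∈ K := Subgroup.subset_closure (by simp)
  have hyK : ((q 1 : A) : H) ∈ K := Subgroup.subset_closure (by simp)
  have hKker : K ≤ (κ 2).ker.map A.subtype := by
    rw [Subgroup.closure_le]
    intro z hz
    simp only [Set.mem_insert_iff, Set.mem_singleton_iff] at hz
    rcases hz with rfl | rfl
    · refine ⟨q 0, ?_, rfl⟩
      rw [SetLike.mem_coe, MonoidHom.mem_ker, hκq, if_neg h20]
      rfl
    · refine ⟨q 1, ?_, rfl⟩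
      rw [SetLike.mem_coe, MonoidHom.mem_ker, hκq, if_neg h21]
      rfl
  have hKA : K ≤ A := by
    intro k hk
    obtain ⟨a, -, rfl⟩ := hKker hk
    exact a.2
  refine ⟨K, ⟨{((q 0 : A) : H), ((q 1 : A) : H)}, by simp [K]⟩,
    fun a ha b hb => hAc a (hKA ha) b (hKA hb), ⟨_, hxK, _, hyK, ?_⟩, ?_⟩
  · intro m n hmn
    have h1 : (q 0) ^ m * (q 1) ^ n = 1 := by
      apply Subtype.ext
      push_cast
      exact hmn
    have h2 : ∀ i, (κ i (q 0)) ^ m * (κ i (q 1)) ^ n = 1 := by
      intro i
      have h3 := congrArg (κ i) h1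
      rwa [map_mul, map_zpow, map_zpow, map_one] at h3
    have h3 := h2 0
    have h4 := h2 1
    rw [hκq, hκq, if_pos rfl, if_neg h01.symm, ofAdd_zero, one_zpow, mul_one, ← ofAdd_zsmul,
      ofAdd_eq_one] at h3
    rw [hκq, hκq, if_pos rfl, if_neg h01, ofAdd_zero, one_zpow, one_mul, ← ofAdd_zsmul,
      ofAdd_eq_one] at h4
    exact ⟨by simpa using h3, by simpa using h4⟩
  · apply relIndex_eq_zero_of_pow (y := ((q 2 : A) : H))
    · exact mem_normalizer_of_commute fun k hk => hAc _ (q 2).2 k (hKA hk)
    · intro n hn hn'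
      obtain ⟨a, ha, ha'⟩ := hKker hn'
      have h1 : a = (q 2) ^ n := Subtype.ext ha'
      rw [SetLike.mem_coe, MonoidHom.mem_ker, h1, map_pow, hκq, if_pos rfl, ← ofAdd_nsmul,
        ofAdd_eq_one] at ha
      have h2 : (n : ℤ) = 0 := by simpa using ha
      omega

/-- the structure of the torsion-free solvable groups without large normalisers -/
def Thin (H : Type*) [Group H] : Prop :=
  ∃ A : Subgroup H, A.Normal ∧ Comm A ∧ Subgroup.centralizer (A : Set H) ≤ A ∧
    commutator H ≤ A ∧ ((A.FG ∧ A.FiniteIndex) ∨ RankOne A)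

/-- **Dichotomy for torsion-free virtually solvable groups.** -/
theorem zCond_or_thin (htf : TF H) (S : Subgroup H) (hSn : S.Normal)
    (hfi : S.FiniteIndex) (hs : Group.IsSolvable S) : ZCond H ∨ Thin H := by
  obtain ⟨A, hAn, hAc, hmax⟩ := exists_maximal_abelian_normal (H := H)
  rcases zCond_or_centralizer_le htf S hSn hfi hs A hAn hAc hmax with hZ | hC
  · exact Or.inl hZ
  by_cases hr : RankOne A
  · refine Or.inr ⟨A, hAn, hAc, hC, ?_, Or.inr hr⟩
    by_cases hbot : A = ⊥
    · have h2 : ∀ x : H, x = 1 := by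
        intro x
        have h3 : x ∈ Subgroup.centralizer (A : Set H) := by
          rw [Subgroup.mem_centralizer_iff]
          intro b hb
          rw [hbot] at hb
          rw [Subgroup.mem_bot.1 hb, one_mul, mul_one]
        have h4 := hC h3
        rw [hbot] at h4
        exact Subgroup.mem_bot.1 h4
      intro x _
      rw [h2 x]
      exact A.one_mem
    · obtain ⟨a₀, ha₀, ha₀1⟩ : ∃ a ∈ A, a ≠ 1 := by
        by_contra hcon
        push Not at hcon
        exact hbot ((Subgroup.eq_bot_iff_forall A).2 hcon)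
      exact (commutator_le_centralizer htf hAn hAc hr ha₀ ha₀1).trans hC
  · unfold RankOne at hr
    push Not at hr
    obtain ⟨x, hx, y, hy, hxy⟩ := hr
    rcases exists_sub_or_finiteIndex A hAn hAc x y hx hy hxy with ⟨K, hKA, h1, h2, h3⟩ | ⟨h1, h2⟩
    · exact Or.inl ⟨K, h1, fun a ha b hb => hAc a (hKA ha) b (hKA hb), h2, h3⟩
    · have hAfg : Group.FG A := (Group.fg_iff_subgroup_fg A).2 h1
      have hAtf : TF A := TF.of_injective A.subtype Subtype.val_injective htf
      obtain ⟨r, ⟨e⟩⟩ := exists_equiv_of_comm (fun a b : A => Subtype.ext (hAc a a.2 b b.2))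
        hAfg hAtf
      obtain ⟨i, j, hij⟩ := exists_minor (Multiplicative.toAdd (e ⟨x, hx⟩))
        (Multiplicative.toAdd (e ⟨y, hy⟩)) (fun m n hmn => by
          apply hxy
          have h3 : (⟨x, hx⟩ : A) ^ m * (⟨y, hy⟩ : A) ^ n = 1 := by
            apply e.injective
            rw [map_mul, map_zpow, map_zpow, map_one]
            apply Multiplicative.toAdd.injective
            rw [toAdd_mul, toAdd_zpow, toAdd_zpow, toAdd_one]
            ext i
            simpa using hmn i
          have h4 := congrArg Subtype.val h3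
          push_cast at h4
          exact h4)
      have hij' : i ≠ j := by
        rintro rfl
        apply hij
        ring
      have hr2 : 2 ≤ r := by
        have h3 := i.2
        have h4 := j.2
        have h5 : (i : ℕ) ≠ (j : ℕ) := fun h => hij' (Fin.ext h)
        omega
      rcases Nat.lt_or_ge r 3 with h3 | h3
      · obtain rfl : r = 2 := by omega
        exact Or.inr ⟨A, hAn, hAc, hC, commutator_le_of_rank_two htf A hAn hAc hC h2 e,
          Or.inl ⟨h1, h2⟩⟩
      · obtain ⟨r, rfl⟩ : ∃ r', r = r' + 3 := ⟨r - 3, by omega⟩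
        exact Or.inl (zCond_of_rank_three A hAc r e)

theorem Thin.rf (hfg : Group.FG H) (htf : TF H) (h : Thin H) : Group.ResiduallyFinite H := by
  obtain ⟨A, hAn, hAc, hC, -, ⟨h1, h2⟩ | h1⟩ := h
  · exact residuallyFinite_of_finiteIndex A h2 (rf_of_comm_subgroup A hAc h1)
  · exact rf_of_rankOne hfg htf A hAn hAc hC h1

end

end Run7.h817
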