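import Mathlib.RepresentationTheory.Homological.GroupCohomology.LongExactSequence
import Mathlib.RepresentationTheory.Homological.GroupCohomology.Shapiro
import Pool.Agent.Run7.h817.CdDefs

/-! Extensions by the integers: cohomological dimension and finiteness of cohomology. -/

namespace Run7.h817

open CategoryTheory Limits

variable {K : Type} [Group K] (κ : K →* Multiplicative ℤ) (t : K)

/-- summation on the integers -/
theorem exists_sum {V : Type*} [AddCommGroup V] (ε : ℤ → V) :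
    ∃ ψ : ℤ → V, ∀ k : ℤ, ψ (k - 1) - ψ k = ε k := by
  let f : ℕ → V := fun n => - ∑ i ∈ Finset.range n, ε (i + 1)
  let g : ℕ → V := fun n => ∑ i ∈ Finset.range n, ε (-(i : ℤ))
  refine ⟨fun k => if 0 ≤ k then f k.toNat else g (-k).toNat, fun k => ?_⟩
  rcases lt_trichotomy k 0 with hk | hk | hk
  · obtain ⟨n, rfl⟩ : ∃ n : ℕ, k = -((n : ℤ) + 1) := ⟨(-k - 1).toNat, by omega⟩
    have h1 : ¬ (0 ≤ -((n : ℤ) + 1) - 1) := by omega
    have h2 : ¬ (0 ≤ -((n : ℤ) + 1)) := by omega
    simp only [if_neg h1, if_neg h2]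
    have e1 : (-(-((n : ℤ) + 1) - 1)).toNat = n + 2 := by omega
    have e2 : (-(-((n : ℤ) + 1))).toNat = n + 1 := by omega
    rw [e1, e2]
    simp only [g]
    rw [Finset.sum_range_succ _ (n + 1), add_sub_cancel_left]
    push_cast
    rfl
  · subst hk
    have h1 : ¬ (0 ≤ (0 : ℤ) - 1) := by omega
    simp only [if_neg h1, le_refl, if_true]
    have e1 : (-((0 : ℤ) - 1)).toNat = 1 := by omega
    rw [e1]
    simp [f, g]
  · obtain ⟨n, rfl⟩ : ∃ n : ℕ, k = (n : ℤ) + 1 := ⟨(k - 1).toNat, by omega⟩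
    have h1 : 0 ≤ (n : ℤ) + 1 - 1 := by omega
    have h2 : 0 ≤ (n : ℤ) + 1 := by omega
    simp only [if_pos h1, if_pos h2]
    have e1 : ((n : ℤ) + 1 - 1).toNat = n := by omega
    have e2 : ((n : ℤ) + 1).toNat = n + 1 := by omega
    rw [e1, e2]
    simp only [f]
    rw [Finset.sum_range_succ _ n]
    abel

/-- the coinduced representation from the kernel -/
noncomputable abbrev cnd (V : Rep.{0} ℂ K) : Rep.{0} ℂ K :=
  Rep.coind κ.ker.subtype (Rep.res κ.ker.subtype V)

/-- the unit -/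
noncomputable def cndI (V : Rep.{0} ℂ K) : V ⟶ cnd κ V :=
  Rep.ofHom (σ := (cnd κ V).ρ) (ρ := V.ρ)
    { toFun := fun v => ⟨fun g => V.ρ g v, fun n g => by
        change V.ρ ((n : K) * g) v = V.ρ (n : K) (V.ρ g v)
        rw [map_mul]
        rfl⟩
      map_add' := fun v w => Subtype.ext (funext fun g => map_add _ _ _)
      map_smul' := fun r v => Subtype.ext (funext fun g => map_smul _ _ _)
      isIntertwining' := fun h => by
        ext v g
        change V.ρ g (V.ρ h v) = V.ρ (g * h) v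
        rw [map_mul]
        rfl }

/-- the difference operator -/
noncomputable def cndD (V : Rep.{0} ℂ K) : cnd κ V ⟶ cnd κ V :=
  Rep.ofHom (σ := (cnd κ V).ρ) (ρ := (cnd κ V).ρ)
    { toFun := fun F => ⟨fun g => V.ρ t (F.1 (t⁻¹ * g)) - F.1 g, fun n g => by
        have h1 : ∀ (m : κ.ker) (x : K), F.1 ((m : K) * x) = V.ρ (m : K) (F.1 x) := F.2
        change V.ρ t (F.1 (t⁻¹ * ((n : K) * g))) - F.1 ((n : K) * g) =
          V.ρ (n : K) (V.ρ t (F.1 (t⁻¹ * g)) - F.1 g)
        have hm : t⁻¹ * (n : K) * t ∈ κ.ker := by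
          have := (inferInstance : κ.ker.Normal).conj_mem (n : K) n.2 t⁻¹
          rwa [inv_inv] at this
        have h2 : t⁻¹ * ((n : K) * g) = (t⁻¹ * (n : K) * t) * (t⁻¹ * g) := by
          simp [mul_assoc]
        have h3 := h1 ⟨_, hm⟩ (t⁻¹ * g)
        change F.1 ((t⁻¹ * (n : K) * t) * (t⁻¹ * g)) = _ at h3
        rw [h2, h3, h1, map_sub]
        congr 1
        change V.ρ t (V.ρ (t⁻¹ * (n : K) * t) _) = _
        rw [← Module.End.mul_apply, ← Module.End.mul_apply, ← map_mul, ← map_mul]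
        congr 2
        simp [mul_assoc]⟩
      map_add' := fun F F' => Subtype.ext (funext fun g => by
        change V.ρ t ((F.1 + F'.1) (t⁻¹ * g)) - (F.1 + F'.1) g =
          (V.ρ t (F.1 (t⁻¹ * g)) - F.1 g) + (V.ρ t (F'.1 (t⁻¹ * g)) - F'.1 g)
        rw [Pi.add_apply, Pi.add_apply, map_add]
        abel)
      map_smul' := fun r F => Subtype.ext (funext fun g => by
        change V.ρ t ((r • F.1) (t⁻¹ * g)) - (r • F.1) g =
          r • (V.ρ t (F.1 (t⁻¹ * g)) - F.1 g)
        rw [Pi.smul_apply, Pi.smul_apply, map_smul, smul_sub])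
      isIntertwining' := fun h => by
        ext F g
        change V.ρ t (F.1 ((t⁻¹ * g) * h)) - F.1 (g * h) = V.ρ t (F.1 (t⁻¹ * (g * h))) - F.1 (g * h)
        rw [mul_assoc] }

theorem cndI_apply (V : Rep.{0} ℂ K) (v : V) (g : K) :
    ((cndI κ V).hom v).1 g = V.ρ g v := rfl

theorem cndD_apply (V : Rep.{0} ℂ K) (F : cnd κ V) (g : K) :
    ((cndD κ t V).hom F).1 g = V.ρ t (F.1 (t⁻¹ * g)) - F.1 g := rfl

/-- the short complex -/
noncomputable def cndS (V : Rep.{0} ℂ K) : ShortComplex (Rep.{0} ℂ K) where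
  X₁ := V
  X₂ := cnd κ V
  X₃ := cnd κ V
  f := cndI κ V
  g := cndD κ t V
  zero := by
    ext v g
    change V.ρ t (V.ρ (t⁻¹ * g) v) - V.ρ g v = 0
    rw [← Module.End.mul_apply, ← map_mul, mul_inv_cancel_left, sub_self]

theorem cndS_shortExact (ht : κ t = Multiplicative.ofAdd 1) (V : Rep.{0} ℂ K) :
    (cndS κ t V).ShortExact where
  exact := (forget₂ (Rep.{0} ℂ K) (ModuleCat ℂ)).reflects_exact_of_faithful _ <|
    (ShortComplex.moduleCat_exact_iff _).2 (fun F hF => by
      have h1 : ∀ (m : κ.ker) (x : K), F.1 ((m : K) * x) = V.ρ (m : K) (F.1 x) := F.2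
      have h2 : ∀ g, V.ρ t (F.1 (t⁻¹ * g)) = F.1 g := by
        intro g
        have h3 := congrFun (congrArg Subtype.val hF) g
        exact sub_eq_zero.1 h3
      have h3 : ∀ (k : ℤ) (g : K), F.1 (t ^ k * g) = V.ρ (t ^ k) (F.1 g) := by
        intro k
        induction k with
        | zero =>
          intro g
          simp
        | succ i ih =>
          intro g
          have e1 : t ^ ((i : ℤ) + 1) * g = t ^ (i : ℤ) * (t * g) := by
            rw [zpow_add_one, mul_assoc]
          rw [e1, ih, ← h2 (t * g), inv_mul_cancel_left, zpow_add_one, map_mul]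
          rfl
        | pred i ih =>
          intro g
          have e1 : t ^ (-(i : ℤ) - 1) * g = t ^ (-(i : ℤ)) * (t⁻¹ * g) := by
            rw [zpow_sub_one, mul_assoc]
          rw [e1, ih, ← h2 g, zpow_sub_one, map_mul, Module.End.mul_apply]
          congr 1
          rw [← Module.End.mul_apply, ← map_mul, inv_mul_cancel, map_one, Module.End.one_apply]
      refine ⟨F.1 1, Subtype.ext (funext fun g => ?_)⟩
      change V.ρ g (F.1 1) = F.1 g
      have h4 : g * t ^ (-(Multiplicative.toAdd (κ g))) ∈ κ.ker := by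
        rw [MonoidHom.mem_ker, map_mul, map_zpow, ht]
        apply Multiplicative.toAdd.injective
        simp
      have h5 := h1 ⟨_, h4⟩ (t ^ (Multiplicative.toAdd (κ g)) * 1)
      rw [h3] at h5
      change F.1 (g * t ^ (-(Multiplicative.toAdd (κ g))) *
        (t ^ (Multiplicative.toAdd (κ g)) * 1)) =
        V.ρ (g * t ^ (-(Multiplicative.toAdd (κ g))))
          (V.ρ (t ^ (Multiplicative.toAdd (κ g))) (F.1 1)) at h5
      have e1 : g * t ^ (-(Multiplicative.toAdd (κ g))) *
        (t ^ (Multiplicative.toAdd (κ g)) * 1) = g := by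
        rw [mul_one, zpow_neg, inv_mul_cancel_right]
      rw [e1, ← Module.End.mul_apply, ← map_mul, zpow_neg, inv_mul_cancel_right] at h5
      exact h5.symm)
  mono_f := (Rep.mono_iff_injective _).2 (fun v w h => by
    have h1 := congrFun (congrArg Subtype.val h) 1
    change V.ρ 1 v = V.ρ 1 w at h1
    rw [map_one] at h1
    exact h1)
  epi_g := (Rep.epi_iff_surjective _).2 (fun E => by
    have h1 : ∀ (m : κ.ker) (x : K), E.1 ((m : K) * x) = V.ρ (m : K) (E.1 x) := E.2
    obtain ⟨ψ, hψ⟩ := exists_sum (fun k : ℤ => V.ρ (t ^ (-k)) (E.1 (t ^ k)))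
    let F : cnd κ V := ⟨fun g => V.ρ g (ψ (Multiplicative.toAdd (κ g))), fun n g => by
      change V.ρ ((n : K) * g) (ψ (Multiplicative.toAdd (κ ((n : K) * g)))) =
        V.ρ (n : K) (V.ρ g (ψ (Multiplicative.toAdd (κ g))))
      have hn : κ (n : K) = 1 := n.2
      rw [map_mul κ, hn, one_mul, map_mul]
      rfl⟩
    refine ⟨F, Subtype.ext (funext fun g => ?_)⟩
    change V.ρ t (V.ρ (t⁻¹ * g) (ψ (Multiplicative.toAdd (κ (t⁻¹ * g))))) -
      V.ρ g (ψ (Multiplicative.toAdd (κ g))) = E.1 g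
    have e1 : Multiplicative.toAdd (κ (t⁻¹ * g)) = Multiplicative.toAdd (κ g) - 1 := by
      rw [map_mul, map_inv, ht]
      simp
      abel
    rw [e1, ← Module.End.mul_apply, ← map_mul, mul_inv_cancel_left, ← map_sub, hψ]
    have h4 : g * t ^ (-(Multiplicative.toAdd (κ g))) ∈ κ.ker := by
      rw [MonoidHom.mem_ker, map_mul, map_zpow, ht]
      apply Multiplicative.toAdd.injective
      simp
    have h5 := h1 ⟨_, h4⟩ (t ^ (Multiplicative.toAdd (κ g)))
    change E.1 (g * t ^ (-(Multiplicative.toAdd (κ g))) * t ^ (Multiplicative.toAdd (κ g))) =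
      V.ρ (g * t ^ (-(Multiplicative.toAdd (κ g)))) (E.1 (t ^ (Multiplicative.toAdd (κ g)))) at h5
    have e2 : g * t ^ (-(Multiplicative.toAdd (κ g))) * t ^ (Multiplicative.toAdd (κ g)) = g := by
      rw [zpow_neg, inv_mul_cancel_right]
    rw [e2, map_mul] at h5
    exact h5.symm)

/-- vanishing of cohomology passes to extensions by the integers -/
theorem isZero_of_ker (ht : κ t = Multiplicative.ofAdd 1) (n : ℕ)
    (h : ∀ (V : Rep.{0} ℂ κ.ker) (m : ℕ), n < m → IsZero (groupCohomology V m))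
    (V : Rep.{0} ℂ K) (m : ℕ) (hm : n + 1 < m) : IsZero (groupCohomology V m) := by
  obtain ⟨m, rfl⟩ : ∃ m', m = m' + 1 := ⟨m - 1, by omega⟩
  have hS := cndS_shortExact κ t ht V
  have h1 : ∀ j, n < j → IsZero (groupCohomology (cnd κ V) j) := fun j hj =>
    (h (Rep.res κ.ker.subtype V) j hj).of_iso (groupCohomology.coindIso _ j)
  have hex := groupCohomology.mapShortComplex₁_exact hS (i := m) (j := m + 1) rfl
  exact hex.isZero_of_both_zeros ((h1 m (by omega)).eq_of_src _ _)
    ((h1 (m + 1) (by omega)).eq_of_tgt _ _)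

theorem HasFiniteCd.of_ker (ht : κ t = Multiplicative.ofAdd 1) (h : HasFiniteCd κ.ker) :
    HasFiniteCd K := by
  obtain ⟨n, hn⟩ := h
  exact ⟨n + 1, fun V m hm => isZero_of_ker κ t ht n hn V m hm⟩

end Run7.h817
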